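import Pool.Agent.TH535.SM.A4

set_option autoImplicit false

/-! Exact size of the factor of the functional equation on the lines `Re s = 1/2 + j`. -/

namespace Pool.Agent.TH535.PZ

open Complex MeasureTheory Filter Topology Set
open Pool.Agent.W182.KO (XX XX_diff XX_bound zeta_XX strip_shift)
open Pool.Agent.TH535.SM

noncomputable section

lemma sin_cos_norm {w : ℂ} (hw : Real.cos (2 * w.re) = 0) : ‖Complex.sin w‖ = ‖Complex.cos w‖ := by
  have h1 : ‖Complex.sin w‖ ^ 2 = ‖Complex.cos w‖ ^ 2 := by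
    rw [← Complex.normSq_eq_norm_sq, ← Complex.normSq_eq_norm_sq, Complex.sin_eq w, Complex.cos_eq w]
    rw [Complex.normSq_apply, Complex.normSq_apply]
    have e1 : (Complex.sin w.re * Complex.cosh w.im + Complex.cos w.re * Complex.sinh w.im * I) =
        ((Real.sin w.re * Real.cosh w.im : ℝ) : ℂ) + ((Real.cos w.re * Real.sinh w.im : ℝ) : ℂ) * I := by
      push_cast; ring
    have e2 : (Complex.cos w.re * Complex.cosh w.im - Complex.sin w.re * Complex.sinh w.im * I) =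
        ((Real.cos w.re * Real.cosh w.im : ℝ) : ℂ) + ((-(Real.sin w.re * Real.sinh w.im) : ℝ) : ℂ) * I := by
      push_cast; ring
    rw [e1, e2]
    simp only [Complex.add_re, Complex.add_im, Complex.ofReal_re, Complex.ofReal_im, Complex.mul_re,
      Complex.mul_im, Complex.I_re, Complex.I_im]
    have h2 : Real.cos (2 * w.re) = Real.cos w.re ^ 2 - Real.sin w.re ^ 2 := Real.cos_two_mul' _
    rw [hw] at h2
    have h3 := Real.cosh_sq w.im
    nlinarith [h2, h3]
  exact (pow_left_inj₀ (norm_nonneg _) (norm_nonneg _) two_ne_zero).1 h1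

/-- on the critical line the factor is unimodular -/
lemma XX_half (t : ℝ) : ‖XX (((1 / 2 : ℝ) : ℂ) + t * I)‖ = 1 := by
  set s : ℂ := ((1 / 2 : ℝ) : ℂ) + t * I with hs
  have hconj : (starRingEnd ℂ) s = 1 - s := by
    rw [hs, map_add, map_mul, Complex.conj_ofReal, Complex.conj_ofReal, Complex.conj_I]
    push_cast
    ring
  have h1 : ‖XX s‖ ^ 2 = 1 := by
    have e1 : ((‖XX s‖ ^ 2 : ℝ) : ℂ) = XX s * (starRingEnd ℂ) (XX s) := by
      rw [Complex.mul_conj, Complex.normSq_eq_norm_sq]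
    have e2 : (starRingEnd ℂ) (XX s) = XX (1 - s) := by
      unfold XX
      rw [← hconj]
      simp only [map_mul, ← Complex.Gamma_conj, map_ofNat]
      congr 1
      · congr 2
        have h2pi : (2 * Real.pi : ℂ) = ((2 * Real.pi : ℝ) : ℂ) := by push_cast; rfl
        rw [h2pi, Complex.cpow_def_of_ne_zero (by exact_mod_cast (by positivity : (2 * Real.pi : ℝ) ≠ 0)),
          Complex.cpow_def_of_ne_zero (by exact_mod_cast (by positivity : (2 * Real.pi : ℝ) ≠ 0)),
          ← Complex.exp_conj, map_mul, ← Complex.ofReal_log (by positivity), Complex.conj_ofReal, map_neg]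
      · rw [← Complex.cos_conj]
        congr 1
        rw [map_div₀, map_mul, Complex.conj_ofReal, map_ofNat]
    have e3 : XX s * XX (1 - s) = 1 := by
      have hpi : (Real.pi : ℂ) ≠ 0 := by exact_mod_cast Real.pi_ne_zero
      have h2pi : (2 * Real.pi : ℂ) ≠ 0 := mul_ne_zero two_ne_zero hpi
      have g1 := Complex.Gamma_mul_Gamma_one_sub s
      have g2 : (2 * Real.pi : ℂ) ^ (-s) * (2 * Real.pi : ℂ) ^ (-(1 - s)) = (2 * Real.pi : ℂ)⁻¹ := by
        rw [← Complex.cpow_add _ _ h2pi]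
        have : -s + -(1 - s) = -1 := by ring
        rw [this, Complex.cpow_neg_one]
      have g3 : Complex.cos (Real.pi * (1 - s) / 2) = Complex.sin (Real.pi * s / 2) := by
        have : (Real.pi : ℂ) * (1 - s) / 2 = Real.pi / 2 - Real.pi * s / 2 := by ring
        rw [this, Complex.cos_pi_div_two_sub]
      have g4 : 2 * (Complex.sin (Real.pi * s / 2) * Complex.cos (Real.pi * s / 2)) =
          Complex.sin (Real.pi * s) := by
        have : (Real.pi : ℂ) * s = 2 * (Real.pi * s / 2) := by ring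
        rw [this, Complex.sin_two_mul]
        have e : (2 * ((Real.pi : ℂ) * s / 2)) / 2 = Real.pi * s / 2 := by ring
        rw [e]
        ring
      have g5 : Complex.sin (Real.pi * s) ≠ 0 := by
        have e : (Real.pi : ℂ) * s = Real.pi / 2 - (((-(Real.pi * t)) : ℝ) : ℂ) * I := by
          rw [hs]; push_cast; ring
        rw [e, Complex.sin_pi_div_two_sub, Complex.cos_mul_I, ← Complex.ofReal_cosh]
        exact_mod_cast (Real.cosh_pos _).ne'
      unfold XX
      rw [g3]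
      calc _ = 2 * ((2 * Real.pi : ℂ) ^ (-s) * (2 * Real.pi : ℂ) ^ (-(1 - s))) *
            (Complex.Gamma s * Complex.Gamma (1 - s)) *
            (2 * (Complex.sin (Real.pi * s / 2) * Complex.cos (Real.pi * s / 2))) := by ring
        _ = 1 := by
            rw [g2, g1, g4]
            field_simp
    rw [e2, e3] at e1
    exact_mod_cast e1
  have h2 := norm_nonneg (XX s)
  nlinarith

/-- the recursion -/
lemma XX_succ (j : ℕ) (t : ℝ) : ‖XX (((1 / 2 + (j + 1 : ℕ) : ℝ) : ℂ) + t * I)‖ =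
    ‖XX (((1 / 2 + j : ℝ) : ℂ) + t * I)‖ * (‖(((1 / 2 + j : ℝ) : ℂ) + t * I)‖ / (2 * Real.pi)) := by
  set s : ℂ := (((1 / 2 + j : ℝ) : ℂ) + t * I) with hs
  have e1 : (((1 / 2 + (j + 1 : ℕ) : ℝ) : ℂ) + t * I) = s + 1 := by
    rw [hs]; push_cast; ring
  have hs0 : s ≠ 0 := by
    intro h
    have := congrArg Complex.re h
    rw [hs] at this
    simp at this
    have hj : (0:ℝ) ≤ j := Nat.cast_nonneg j
    linarith
  have hpi : (Real.pi : ℂ) ≠ 0 := by exact_mod_cast Real.pi_ne_zero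
  have h2pi : (2 * Real.pi : ℂ) ≠ 0 := mul_ne_zero two_ne_zero hpi
  rw [e1]
  unfold XX
  have g1 : (2 * Real.pi : ℂ) ^ (-(s + 1)) = (2 * Real.pi : ℂ) ^ (-s) * (2 * Real.pi : ℂ)⁻¹ := by
    have : -(s + 1) = -s + -1 := by ring
    rw [this, Complex.cpow_add _ _ h2pi, Complex.cpow_neg_one]
  have g2 : Complex.cos (Real.pi * (s + 1) / 2) = -Complex.sin (Real.pi * s / 2) := by
    have : (Real.pi : ℂ) * (s + 1) / 2 = Real.pi * s / 2 + Real.pi / 2 := by ring
    rw [this, Complex.cos_add_pi_div_two]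
  have g3 : ‖Complex.sin (Real.pi * s / 2)‖ = ‖Complex.cos (Real.pi * s / 2)‖ := by
    refine sin_cos_norm ?_
    have e : ((Real.pi : ℂ) * s / 2).re = Real.pi * (1 / 2 + j) / 2 := by
      have : (Real.pi : ℂ) * s / 2 = ((Real.pi / 2 : ℝ) : ℂ) * s := by push_cast; ring
      rw [this, Complex.re_ofReal_mul, hs]
      simp
      ring
    rw [e]
    have : 2 * (Real.pi * (1 / 2 + j) / 2) = Real.pi / 2 + j * Real.pi := by ring
    rw [this, Real.cos_add_nat_mul_pi, Real.cos_pi_div_two, mul_zero]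
  have hn : ‖(2 * (Real.pi : ℂ))⁻¹‖ = (2 * Real.pi)⁻¹ := by
    rw [norm_inv]
    congr 1
    rw [norm_mul, Complex.norm_real, Real.norm_of_nonneg Real.pi_pos.le]
    norm_num
  rw [g1, g2, Complex.Gamma_add_one s hs0]
  simp only [norm_mul, norm_neg]
  rw [g3, hn]
  ring

/-- the exact size of the factor -/
lemma XX_prod (j : ℕ) (t : ℝ) : ‖XX (((1 / 2 + j : ℝ) : ℂ) + t * I)‖ =
    ∏ i ∈ Finset.range j, (‖(((1 / 2 + i : ℝ) : ℂ) + t * I)‖ / (2 * Real.pi)) := by
  induction j with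
  | zero =>
    have e : (((1 / 2 + (0:ℕ) : ℝ) : ℂ) + t * I) = ((1 / 2 : ℝ) : ℂ) + t * I := by push_cast; ring
    rw [e, XX_half, Finset.prod_range_zero]
  | succ j ih => rw [XX_succ, ih, Finset.prod_range_succ]

lemma XX_prod_le (j : ℕ) (t : ℝ) : ‖XX (((1 / 2 + j : ℝ) : ℂ) + t * I)‖ ≤
    ((|t| + j) / (2 * Real.pi)) ^ j := by
  rw [XX_prod]
  have hp := Real.pi_pos
  calc _ ≤ ∏ _i ∈ Finset.range j, ((|t| + j) / (2 * Real.pi)) := by
        refine Finset.prod_le_prod (fun i _ => by positivity) fun i hi => ?_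
        refine div_le_div_of_nonneg_right ?_ (by positivity)
        have h1 := Complex.norm_le_abs_re_add_abs_im ((((1 / 2 + i : ℝ) : ℂ) + t * I))
        have h2 : ((((1 / 2 + i : ℝ) : ℂ) + t * I)).re = 1 / 2 + i := by simp
        have h3 : ((((1 / 2 + i : ℝ) : ℂ) + t * I)).im = t := by simp
        rw [h2, h3, abs_of_nonneg (by positivity)] at h1
        have h4 : (i : ℝ) + 1 ≤ j := by
          rw [Finset.mem_range] at hi
          exact_mod_cast hi
        linarith
    _ = _ := by rw [Finset.prod_const, Finset.card_range]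

/-- the size on the line `Re = 3/2` -/
lemma XX_sq (t : ℝ) : ‖XX (((3 / 2 : ℝ) : ℂ) + t * I)‖ ^ 2 = (1 / 4 + t ^ 2) / (4 * Real.pi ^ 2) := by
  have h := XX_prod 1 t
  have e : (((1 / 2 + (1:ℕ) : ℝ) : ℂ) + t * I) = ((3 / 2 : ℝ) : ℂ) + t * I := by push_cast; ring
  rw [e, Finset.prod_range_one] at h
  rw [h, div_pow]
  have h2 : ‖(((1 / 2 + (0:ℕ) : ℝ) : ℂ) + t * I)‖ ^ 2 = 1 / 4 + t ^ 2 := by
    rw [← Complex.normSq_eq_norm_sq, Complex.normSq_apply]
    simp
    ring
  rw [h2]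
  ring

lemma XX_conj (s : ℂ) : XX ((starRingEnd ℂ) s) = (starRingEnd ℂ) (XX s) := by
  unfold XX
  simp only [map_mul, ← Complex.Gamma_conj, map_ofNat]
  congr 1
  · congr 2
    have h2pi : (2 * Real.pi : ℂ) = ((2 * Real.pi : ℝ) : ℂ) := by push_cast; rfl
    rw [h2pi, Complex.cpow_def_of_ne_zero (by exact_mod_cast (by positivity : (2 * Real.pi : ℝ) ≠ 0)),
      Complex.cpow_def_of_ne_zero (by exact_mod_cast (by positivity : (2 * Real.pi : ℝ) ≠ 0)),
      ← Complex.exp_conj, map_mul, ← Complex.ofReal_log (by positivity), Complex.conj_ofReal, map_neg]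
  · rw [← Complex.cos_conj]
    congr 1
    rw [map_div₀, map_mul, Complex.conj_ofReal, map_ofNat]

/-- the smoothed indicator of `[-h², h²]` -/
def ph (h t : ℝ) : ℝ := v h (t / h) + v h (-t / h)

/-- its entire extension (variable `z = 3/2 + it`) -/
def Ph (h : ℝ) (z : ℂ) : ℂ := V h (1 / 2 + (z - 3 / 2) / h) + V h (1 / 2 - (z - 3 / 2) / h)

lemma Ph_diff (h : ℝ) : Differentiable ℂ (Ph h) := by
  unfold Ph
  refine Differentiable.add ?_ ?_
  · exact (V_diff h).comp (by fun_prop)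
  · exact (V_diff h).comp (by fun_prop)

lemma Ph_line (h t : ℝ) : Ph h (((3 / 2 : ℝ) : ℂ) + t * I) = (ph h t : ℂ) := by
  unfold Ph ph
  have e1 : (1 / 2 + ((((3 / 2 : ℝ) : ℂ) + t * I) - 3 / 2) / (h : ℂ)) = 1 / 2 + ((t / h : ℝ) : ℂ) * I := by
    push_cast; ring
  have e2 : (1 / 2 - ((((3 / 2 : ℝ) : ℂ) + t * I) - 3 / 2) / (h : ℂ)) = 1 / 2 + ((-t / h : ℝ) : ℂ) * I := by
    push_cast; ring
  rw [e1, e2, V_line, V_line]
  push_cast
  rfl

lemma ph_nonneg {h : ℝ} (hh : 0 ≤ h) (t : ℝ) : 0 ≤ ph h t := add_nonneg (v_nonneg hh _) (v_nonneg hh _)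

lemma Ph_norm {h : ℝ} (hh : 0 < h) (z : ℂ) :
    ‖Ph h z‖ ≤ Real.exp (((z.re - 3 / 2) / h) ^ 2) * ph h z.im := by
  unfold Ph ph
  have e1 : (1 / 2 + (z - 3 / 2) / (h : ℂ)).re = 1 / 2 + (z.re - 3 / 2) / h := by
    rw [Complex.add_re, Complex.div_ofReal_re]
    simp
  have e2 : (1 / 2 + (z - 3 / 2) / (h : ℂ)).im = z.im / h := by
    rw [Complex.add_im, Complex.div_ofReal_im]
    simp
  have e3 : (1 / 2 - (z - 3 / 2) / (h : ℂ)).re = 1 / 2 - (z.re - 3 / 2) / h := by
    rw [Complex.sub_re, Complex.div_ofReal_re]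
    simp
  have e4 : (1 / 2 - (z - 3 / 2) / (h : ℂ)).im = -z.im / h := by
    rw [Complex.sub_im, Complex.div_ofReal_im]
    simp
    ring
  have h1 := V_norm hh.le (1 / 2 + (z - 3 / 2) / (h : ℂ))
  have h2 := V_norm hh.le (1 / 2 - (z - 3 / 2) / (h : ℂ))
  rw [e1, e2] at h1
  rw [e3, e4] at h2
  have e5 : (1 / 2 + (z.re - 3 / 2) / h - 1 / 2) ^ 2 = ((z.re - 3 / 2) / h) ^ 2 := by ring
  have e6 : (1 / 2 - (z.re - 3 / 2) / h - 1 / 2) ^ 2 = ((z.re - 3 / 2) / h) ^ 2 := by ring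
  rw [e5] at h1
  rw [e6] at h2
  rw [mul_add]
  exact (norm_add_le _ _).trans (add_le_add h1 h2)

/-- Gaussian bound for the smoothed indicator -/
lemma ph_le {h : ℝ} (hh : 0 < h) (t : ℝ) :
    ph h t ≤ 2 * √2 * Real.exp (-(max (|t| - h ^ 2) 0) ^ 2 / (2 * h ^ 2)) := by
  have key : ∀ y : ℝ, v h (y / h) ≤ √2 * Real.exp (-(max (|y| - h ^ 2) 0) ^ 2 / (2 * h ^ 2)) := by
    intro y
    have h2 : (1:ℝ) ≤ √2 := by
      rw [Real.one_le_sqrt]; norm_num
    rcases le_total |y| (h ^ 2) with h1 | h1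
    · rw [max_eq_right (by linarith)]
      have : Real.exp (-(0:ℝ) ^ 2 / (2 * h ^ 2)) = 1 := by simp
      rw [this, mul_one]
      exact (v_le_one hh.le _).trans h2
    · rw [max_eq_left (by linarith)]
      rcases le_total 0 y with h0 | h0
      · rw [abs_of_nonneg h0] at h1 ⊢
        have h3 : h ≤ y / h := by
          rw [le_div_iff₀ hh]; nlinarith
        refine (v_gt hh.le h3).trans (le_of_eq ?_)
        congr 2
        field_simp
      · rw [abs_of_nonpos h0] at h1 ⊢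
        have h3 : y / h ≤ 0 := div_nonpos_of_nonpos_of_nonneg h0 hh.le
        refine (v_neg hh.le h3).trans ?_
        refine mul_le_mul_of_nonneg_left (Real.exp_le_exp.2 ?_) (Real.sqrt_nonneg _)
        rw [div_pow, neg_div, neg_div, div_div, mul_comm (h ^ 2) 2, neg_le_neg_iff]
        refine div_le_div_of_nonneg_right ?_ (by positivity)
        nlinarith
  have h1 := key t
  have h2 := key (-t)
  rw [abs_neg] at h2
  unfold ph
  linarith

end

end Pool.Agent.TH535.PZ
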