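import Pool.Agent.TH535.PZ.P9

set_option autoImplicit false

/-! The lower bound for the mean square. -/

namespace Pool.Agent.TH535.PZ

open Complex MeasureTheory Filter Topology Set
open Pool.Agent.W182.KO (XX XX_diff XX_bound zeta_XX strip_shift)
open Pool.Agent.TH535.SM
open scoped FourierTransform ComplexConjugate

noncomputable section

lemma main_ineq {k N : ℕ} (hk : 1 ≤ k) {Z : ℝ} (hZ : 0 < Z) {P : Polynomial ℝ} (hP : P.natDegree < k) (y0 : ℝ) :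
    2 * (∫ y : ℝ, (Dt k P y : ℂ) * Gt (FF k N Z) y).re -
      2 * (∫ y in Ioi y0, ‖(Dt k P y : ℂ) * Gt (FF k N Z) y‖) - (2 * Real.pi)⁻¹ * NN k N Z ≤
      ∫ y in Iic y0, Dt k P y ^ 2 := by
  obtain ⟨hI, -⟩ := pair_total (N := N) hk hZ hP
  obtain ⟨hG, hG2⟩ := Gt_planch (FF_dec k N hZ)
  set G := Gt (FF k N Z) with hGd
  have hcompl : (Iic y0)ᶜ = Ioi y0 := compl_Iic
  have h1 : (∫ y : ℝ, (Dt k P y : ℂ) * G y).re = (∫ y in Iic y0, (Dt k P y : ℂ) * G y).re +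
      (∫ y in Ioi y0, (Dt k P y : ℂ) * G y).re := by
    rw [← integral_add_compl (measurableSet_Iic (a := y0)) hI, hcompl, Complex.add_re]
  have h2 : (∫ y in Ioi y0, (Dt k P y : ℂ) * G y).re ≤ ∫ y in Ioi y0, ‖(Dt k P y : ℂ) * G y‖ :=
    (Complex.re_le_norm _).trans (norm_integral_le_integral_norm _)
  have h3 : 2 * (∫ y in Iic y0, (Dt k P y : ℂ) * G y).re ≤
      (∫ y in Iic y0, Dt k P y ^ 2) + ∫ y in Iic y0, ‖G y‖ ^ 2 := by
    have e : (∫ y in Iic y0, (Dt k P y : ℂ) * G y).re = ∫ y in Iic y0, ((Dt k P y : ℂ) * G y).re :=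
      (Complex.reCLM.integral_comp_comm (hI.integrableOn (s := Iic y0))).symm
    rw [e, ← integral_add (Dt_sq_int k P y0) hG.integrableOn, ← integral_const_mul]
    refine integral_mono ?_ ((Dt_sq_int k P y0).add hG.integrableOn) fun y => ?_
    · exact (Complex.reCLM.integrable_comp (hI.integrableOn (s := Iic y0))).const_mul 2
    · simp only
      rw [Complex.re_ofReal_mul]
      have h4 : (G y).re ^ 2 ≤ ‖G y‖ ^ 2 := by
        rw [← sq_abs (G y).re]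
        exact pow_le_pow_left₀ (abs_nonneg _) (Complex.abs_re_le_norm _) 2
      nlinarith [sq_nonneg (Dt k P y - (G y).re)]
  have h4 : ∫ y in Iic y0, ‖G y‖ ^ 2 ≤ (2 * Real.pi)⁻¹ * NN k N Z := by
    unfold NN
    rw [← hG2]
    exact setIntegral_le_integral hG (Eventually.of_forall fun y => by positivity)
  linarith

lemma tail_FF (k N : ℕ) (hk : 1 ≤ k) {δ : ℝ} (hδ : 0 < δ) :
    ∃ C : ℝ, 0 ≤ C ∧ ∀ᶠ Z : ℝ in atTop, ∀ y : ℝ, k * Real.log Z + δ ≤ y →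
      ‖Gt (FF k N Z) y‖ ≤ C * Z⁻¹ * Real.exp (-(4 * y)) := by
  have h : ∀ n ∈ Finset.Icc 1 N, ∃ C : ℝ, 0 ≤ C ∧ ∀ᶠ Z : ℝ in atTop, ∀ y : ℝ, k * Real.log Z + δ ≤ y →
      ‖Gt (Ln (Bk k n k) (hz (cn k n) Z) 0) y‖ ≤ C * Z⁻¹ * Real.exp (-(4 * y)) :=
    fun n hn => tail_pt hk (Finset.mem_Icc.1 hn).1 hδ
  choose! C hC hev using h
  refine ⟨∑ n ∈ Finset.Icc 1 N, dr k n * C n, Finset.sum_nonneg fun n hn =>
    mul_nonneg (dr_nonneg k n) (hC n hn), ?_⟩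
  filter_upwards [(Filter.eventually_all_finset _).2 hev, eventually_gt_atTop 0] with Z hZ hZ0 y hy
  rw [Gt_FF hZ0, Finset.sum_mul, Finset.sum_mul]
  refine (norm_sum_le _ _).trans (Finset.sum_le_sum fun n hn => ?_)
  rw [norm_mul, Complex.norm_real, Real.norm_of_nonneg (dr_nonneg k n), mul_assoc, mul_assoc,
    ← mul_assoc (C n)]
  exact mul_le_mul_of_nonneg_left (hZ n hn y hy) (dr_nonneg k n)

lemma tail_total {k : ℕ} (N : ℕ) (hk : 1 ≤ k) {δ : ℝ} (hδ : 0 < δ) {P : Polynomial ℝ} (hP : P.natDegree < k) :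
    ∃ C : ℝ, 0 ≤ C ∧ ∀ᶠ Z : ℝ in atTop,
      ∫ y in Ioi (k * Real.log Z + δ), ‖(Dt k P y : ℂ) * Gt (FF k N Z) y‖ ≤ C * Z⁻¹ := by
  obtain ⟨C1, hC1, h1⟩ := Dt_bd k P
  obtain ⟨C2, hC2, h2⟩ := tail_FF k N hk hδ
  refine ⟨C1 * C2, by positivity, ?_⟩
  filter_upwards [h2, eventually_ge_atTop 1] with Z hZ hZ1
  have hZ0 : 0 < Z := by linarith
  set y0 := k * Real.log Z + δ with hy0
  have hy0' : 0 ≤ y0 := by
    have := Real.log_nonneg hZ1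
    positivity
  have hg : IntegrableOn (fun y : ℝ => C1 * C2 * Z⁻¹ * Real.exp (-(3 / 2) * y)) (Ioi y0) :=
    (integrableOn_exp_mul_Ioi (by norm_num) y0).const_mul _
  have hf : IntegrableOn (fun y : ℝ => ‖(Dt k P y : ℂ) * Gt (FF k N Z) y‖) (Ioi y0) :=
    (pair_total (N := N) hk hZ0 hP).1.norm.integrableOn
  calc _ ≤ ∫ y in Ioi y0, C1 * C2 * Z⁻¹ * Real.exp (-(3 / 2) * y) := by
        refine setIntegral_mono_on hf hg measurableSet_Ioi fun y hy => ?_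
        have hy1 : y0 ≤ y := le_of_lt hy
        rw [norm_mul, Complex.norm_real, Real.norm_eq_abs]
        have h3 := h1 y
        have h4 := hZ y hy1
        rw [max_eq_left (hy0'.trans hy1)] at h3
        calc _ ≤ (C1 * Real.exp (y / 2 + 2 * y)) * (C2 * Z⁻¹ * Real.exp (-(4 * y))) :=
              mul_le_mul h3 h4 (norm_nonneg _) (by positivity)
          _ = C1 * C2 * Z⁻¹ * (Real.exp (y / 2 + 2 * y) * Real.exp (-(4 * y))) := by ring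
          _ = _ := by
              rw [← Real.exp_add]
              congr 2
              ring
    _ ≤ C1 * C2 * Z⁻¹ := by
        rw [integral_const_mul, integral_exp_mul_Ioi (by norm_num)]
        have h5 : Real.exp (-(3 / 2) * y0) ≤ 1 := Real.exp_le_one_iff.2 (by linarith)
        have h6 : -Real.exp (-(3 / 2) * y0) / (-(3 / 2)) ≤ 1 := by
          rw [neg_div_neg_eq, div_le_one (by norm_num)]
          linarith
        calc _ ≤ C1 * C2 * Z⁻¹ * 1 := mul_le_mul_of_nonneg_left h6 (by positivity)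
          _ = _ := mul_one _

/-- the limit constant -/
def Lc (k N : ℕ) : ℝ := ((4 * Real.pi ^ 2) ^ k)⁻¹ * ∑ n ∈ Finset.Icc 1 N, bm k n ^ 2 *
        (2 * cn k n ^ (2 * k - 1) / (2 * k - 1))

lemma pair_lim {k : ℕ} (N : ℕ) (hk : 1 ≤ k) {P : Polynomial ℝ} (hP : P.natDegree < k) :
    Tendsto (fun Z : ℝ => (Z ^ (2 * k - 1))⁻¹ * (∫ y : ℝ, (Dt k P y : ℂ) * Gt (FF k N Z) y).re) atTop
      (𝓝 ((2 * Real.pi)⁻¹ * Lc k N)) := by
  have h1 : ∀ n ∈ Finset.Icc 1 N, Tendsto (fun Z : ℝ => (dr k n : ℂ) *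
      ((((Z ^ (2 * k - 1))⁻¹ : ℝ) : ℂ) * PP k n (cn k n) Z)) atTop
      (𝓝 ((dr k n : ℂ) * ((((4 * Real.pi ^ 2) ^ k)⁻¹ * (n : ℝ) ^ (-(3 / 2) : ℝ) * (bm k n *
        (2 * cn k n ^ (2 * k - 1) / (2 * k - 1))) : ℝ) : ℂ))) := fun n hn =>
    (PP_lim hk (Finset.mem_Icc.1 hn).1 (cn_pos k (Finset.mem_Icc.1 hn).1)).const_mul _
  have h2 := (tendsto_finsetSum _ h1).const_mul (((2 * Real.pi : ℝ) : ℂ)⁻¹)
  have h3 := (Complex.continuous_re.tendsto _).comp h2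
  have e1 : (((2 * Real.pi : ℝ) : ℂ)⁻¹ * ∑ n ∈ Finset.Icc 1 N, ((dr k n : ℂ) *
      ((((4 * Real.pi ^ 2) ^ k)⁻¹ * (n : ℝ) ^ (-(3 / 2) : ℝ) * (bm k n *
        (2 * cn k n ^ (2 * k - 1) / (2 * k - 1))) : ℝ) : ℂ))).re = (2 * Real.pi)⁻¹ * Lc k N := by
    have e2 : (((2 * Real.pi : ℝ) : ℂ)⁻¹ * ∑ n ∈ Finset.Icc 1 N, ((dr k n : ℂ) *
      ((((4 * Real.pi ^ 2) ^ k)⁻¹ * (n : ℝ) ^ (-(3 / 2) : ℝ) * (bm k n *
        (2 * cn k n ^ (2 * k - 1) / (2 * k - 1))) : ℝ) : ℂ))) = (((2 * Real.pi)⁻¹ * Lc k N : ℝ) : ℂ) := by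
      unfold Lc bm
      push_cast
      rw [Finset.mul_sum, Finset.mul_sum, Finset.mul_sum]
      refine Finset.sum_congr rfl fun n _ => ?_
      ring
    rw [e2, Complex.ofReal_re]
  rw [e1] at h3
  refine h3.congr' ?_
  filter_upwards [eventually_gt_atTop 0] with Z hZ
  rw [(pair_total hk hZ hP).2]
  simp only [Function.comp]
  have e3 : ∑ n ∈ Finset.Icc 1 N, (dr k n : ℂ) * ((((Z ^ (2 * k - 1))⁻¹ : ℝ) : ℂ) * PP k n (cn k n) Z) =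
      (((Z ^ (2 * k - 1))⁻¹ : ℝ) : ℂ) * ∑ n ∈ Finset.Icc 1 N, (dr k n : ℂ) * PP k n (cn k n) Z := by
    rw [Finset.mul_sum]
    refine Finset.sum_congr rfl fun n _ => ?_
    ring
  rw [e3, ← Complex.re_ofReal_mul]
  congr 1
  ring

/-- the lower bound along the scale `Z` -/
lemma lower_Z {k : ℕ} (N : ℕ) (hk : 1 ≤ k) {δ : ℝ} (hδ : 0 < δ) {P : Polynomial ℝ} (hP : P.natDegree < k)
    {c : ℝ} (hc : c < (2 * Real.pi)⁻¹ * Lc k N) :
    ∀ᶠ Z : ℝ in atTop, c * Z ^ (2 * k - 1) ≤ ∫ y in Iic (k * Real.log Z + δ), Dt k P y ^ 2 := by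
  obtain ⟨C, hC, ht⟩ := tail_total N hk hδ hP
  have h1 := (pair_lim N hk hP).const_mul 2
  have h2 := (NN_lim hk N).const_mul ((2 * Real.pi)⁻¹)
  have h3 : Tendsto (fun Z : ℝ => 2 * (C * Z⁻¹)) atTop (𝓝 (2 * (C * 0))) :=
    (tendsto_inv_atTop_zero.const_mul C).const_mul 2
  have h4 := (h1.sub h3).sub h2
  have e : 2 * ((2 * Real.pi)⁻¹ * Lc k N) - 2 * (C * 0) - (2 * Real.pi)⁻¹ * (((4 * Real.pi ^ 2) ^ k)⁻¹ *
      ∑ n ∈ Finset.Icc 1 N, bm k n ^ 2 * (2 * cn k n ^ (2 * k - 1) / (2 * k - 1))) = (2 * Real.pi)⁻¹ * Lc k N := by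
    unfold Lc
    ring
  rw [e] at h4
  filter_upwards [h4.eventually_const_lt hc, ht, eventually_ge_atTop 1] with Z hZ hZt hZ1
  have hZ0 : 0 < Z := by linarith
  have hW : 1 ≤ Z ^ (2 * k - 1) := one_le_pow₀ hZ1
  have hW0 : 0 < Z ^ (2 * k - 1) := by positivity
  have h5 := main_ineq (N := N) hk hZ0 hP (k * Real.log Z + δ)
  refine le_trans ?_ h5
  set W := Z ^ (2 * k - 1) with hWd
  set A := (∫ y : ℝ, (Dt k P y : ℂ) * Gt (FF k N Z) y).re with hA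
  set B := ∫ y in Ioi (k * Real.log Z + δ), ‖(Dt k P y : ℂ) * Gt (FF k N Z) y‖ with hB
  have h6 : c * W ≤ (2 * (W⁻¹ * A) - 2 * (C * Z⁻¹) - (2 * Real.pi)⁻¹ * (W⁻¹ * NN k N Z)) * W :=
    mul_le_mul_of_nonneg_right hZ.le hW0.le
  have h7 : (2 * (W⁻¹ * A) - 2 * (C * Z⁻¹) - (2 * Real.pi)⁻¹ * (W⁻¹ * NN k N Z)) * W =
      2 * A - 2 * (C * Z⁻¹) * W - (2 * Real.pi)⁻¹ * NN k N Z := by
    have : W⁻¹ * W = 1 := inv_mul_cancel₀ hW0.ne'
    linear_combination (2 * A - (2 * Real.pi)⁻¹ * NN k N Z) * this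
  have h8 : B ≤ (C * Z⁻¹) * W := by
    calc B ≤ C * Z⁻¹ := hZt
      _ = (C * Z⁻¹) * 1 := (mul_one _).symm
      _ ≤ _ := by gcongr
  linarith

end

end Pool.Agent.TH535.PZ
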