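import Pool.Agent.TH535.PZ.P10

set_option autoImplicit false

/-! The final form. -/

namespace Pool.Agent.TH535.PZ

open Complex MeasureTheory Filter Topology Set
open Pool.Agent.W182.KO (XX XX_diff XX_bound zeta_XX strip_shift)
open Pool.Agent.TH535.SM
open scoped FourierTransform ComplexConjugate

noncomputable section

lemma Lc_eq {k : ℕ} (hk : 1 ≤ k) (N : ℕ) : (2 * Real.pi)⁻¹ * Lc k N =
    1 / ((4 * k - 2) * Real.pi ^ 2) * ∑ n ∈ Finset.Icc 1 N, dr k n ^ 2 * (n : ℝ) ^ (-(1 + 1 / (k : ℝ))) := by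
  have hk1 : (1:ℝ) ≤ k := by exact_mod_cast hk
  have hk0 : (k : ℝ) ≠ 0 := by linarith
  have hk2 : (2 * (k : ℝ) - 1) ≠ 0 := by linarith
  have hk3 : (4 * (k : ℝ) - 2) ≠ 0 := by linarith
  have hp := Real.pi_ne_zero
  unfold Lc
  rw [Finset.mul_sum, Finset.mul_sum, Finset.mul_sum]
  refine Finset.sum_congr rfl fun n hn => ?_
  have hn0 : (0:ℝ) < n := by exact_mod_cast (Finset.mem_Icc.1 hn).1
  have e1 : bm k n ^ 2 = dr k n ^ 2 * (n : ℝ) ^ (-3 : ℝ) := by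
    unfold bm
    rw [mul_pow, ← Real.rpow_natCast ((n : ℝ) ^ (-(3 / 2) : ℝ)) 2, ← Real.rpow_mul hn0.le]
    norm_num
  have e2 : cn k n ^ (2 * k - 1) = (2 * Real.pi) ^ (2 * k - 1) * (n : ℝ) ^ (2 - 1 / (k : ℝ)) := by
    unfold cn
    rw [mul_pow, ← Real.rpow_natCast ((n : ℝ) ^ (1 / (k : ℝ))), ← Real.rpow_mul hn0.le]
    congr 2
    rw [Nat.cast_sub (by omega)]
    push_cast
    field_simp
  have e3 : (4 * Real.pi ^ 2) ^ k = (2 * Real.pi) ^ (2 * k - 1) * (2 * Real.pi) := by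
    rw [← pow_succ, show 2 * k - 1 + 1 = 2 * k by omega, pow_mul]
    congr 1
    ring
  have e4 : (n : ℝ) ^ (-3 : ℝ) * (n : ℝ) ^ (2 - 1 / (k : ℝ)) = (n : ℝ) ^ (-(1 + 1 / (k : ℝ))) := by
    rw [← Real.rpow_add hn0]
    congr 1
    ring
  have hq : (2 * Real.pi) ^ (2 * k - 1) ≠ 0 := by positivity
  rw [e1, e2, e3, ← e4]
  set u := (n : ℝ) ^ (-3 : ℝ)
  set w := (n : ℝ) ^ (2 - 1 / (k : ℝ))
  set q := (2 * Real.pi) ^ (2 * k - 1)
  have h42 : (4 * (k : ℝ) - 2) = 2 * (2 * k - 1) := by ring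
  rw [h42]
  field_simp

lemma sum_conv {k : ℕ} (hk : 1 ≤ k) : Summable (fun n : ℕ => dr k n ^ 2 * (n : ℝ) ^ (-(1 + 1 / (k : ℝ)))) := by
  have hk1 : (1:ℝ) ≤ k := by exact_mod_cast hk
  have hk0 : (0:ℝ) < k := by linarith
  obtain ⟨D, hD, h⟩ := dr_le k (κ := 1 / (4 * k)) (by positivity)
  have h1 : Summable (fun n : ℕ => D ^ 2 * (n : ℝ) ^ (-(1 + 1 / (2 * k)) : ℝ)) := by
    refine (Real.summable_nat_rpow.2 ?_).mul_left _
    have : (0:ℝ) < 1 / (2 * k) := by positivity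
    linarith
  refine Summable.of_nonneg_of_le (fun n => by positivity) (fun n => ?_) h1
  rcases Nat.eq_zero_or_pos n with hn | hn
  · subst hn
    have e1 : ((0:ℕ) : ℝ) ^ (-(1 + 1 / (k : ℝ))) = 0 := by
      rw [Nat.cast_zero]
      refine Real.zero_rpow ?_
      have : (0:ℝ) < 1 / k := by positivity
      linarith
    rw [e1, mul_zero]
    positivity
  · have hn0 : (0:ℝ) < n := by exact_mod_cast hn
    have h2 : dr k n ^ 2 ≤ D ^ 2 * (n : ℝ) ^ (1 / (2 * k) : ℝ) := by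
      calc dr k n ^ 2 ≤ (D * (n : ℝ) ^ (1 / (4 * k) : ℝ)) ^ 2 := pow_le_pow_left₀ (dr_nonneg k n) (h n) 2
        _ = D ^ 2 * (n : ℝ) ^ (1 / (2 * k) : ℝ) := by
            rw [mul_pow, ← Real.rpow_natCast ((n : ℝ) ^ (1 / (4 * k) : ℝ)) 2, ← Real.rpow_mul hn0.le]
            congr 2
            push_cast
            field_simp
            norm_num
    calc _ ≤ (D ^ 2 * (n : ℝ) ^ (1 / (2 * k) : ℝ)) * (n : ℝ) ^ (-(1 + 1 / (k : ℝ))) := by gcongr
      _ = D ^ 2 * ((n : ℝ) ^ (1 / (2 * k) : ℝ) * (n : ℝ) ^ (-(1 + 1 / (k : ℝ)))) := by ring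
      _ = _ := by
          rw [← Real.rpow_add hn0]
          congr 2
          field_simp
          ring

lemma change_var (k : ℕ) (P : Polynomial ℝ) (y0 : ℝ) :
    ∫ y in Ioc (0:ℝ) y0, Dt k P y ^ 2 = ∫ x in Ioc (1:ℝ) (Real.exp y0), (Dk k x - x * P.eval (Real.log x)) ^ 2 := by
  have himg : Real.exp '' Ioc (0:ℝ) y0 = Ioc 1 (Real.exp y0) := by
    ext x
    simp only [mem_image, mem_Ioc]
    constructor
    · rintro ⟨y, ⟨hy, hy2⟩, rfl⟩
      exact ⟨Real.one_lt_exp_iff.2 hy, Real.exp_le_exp.2 hy2⟩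
    · rintro ⟨hx, hx2⟩
      refine ⟨Real.log x, ⟨Real.log_pos hx, ?_⟩, Real.exp_log (by linarith)⟩
      rw [Real.log_le_iff_le_exp (by linarith)]
      exact hx2
  have h := integral_image_eq_integral_abs_deriv_smul (s := Ioc (0:ℝ) y0) (f := Real.exp) (f' := Real.exp)
    measurableSet_Ioc (fun x _ => (Real.hasDerivAt_exp x).hasDerivWithinAt) Real.exp_injective.injOn
    (fun x : ℝ => (Dk k x - x * P.eval (Real.log x)) ^ 2)
  rw [himg] at h
  rw [h]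
  refine integral_congr_ae (Eventually.of_forall fun y => ?_)
  simp only
  rw [abs_of_pos (Real.exp_pos y), smul_eq_mul, Real.log_exp]
  unfold Dt
  have e : Real.exp y = Real.exp (y / 2) ^ 2 := by
    rw [← Real.exp_nat_mul]; congr 1; push_cast; ring
  rw [mul_pow, ← e]
  ring

lemma lower_X {k : ℕ} (N : ℕ) (hk : 1 ≤ k) {P : Polynomial ℝ} (hP : P.natDegree < k)
    {c : ℝ} (hc : c < (2 * Real.pi)⁻¹ * Lc k N) :
    ∀ᶠ X : ℝ in atTop, c * X ^ (2 - 1 / (k : ℝ)) ≤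
      ∫ x in (1:ℝ)..X, (Dk k x - x * P.eval (Real.log x)) ^ 2 := by
  have hk1 : (1:ℝ) ≤ k := by exact_mod_cast hk
  have hk0 : (0:ℝ) < k := by linarith
  have he : (0:ℝ) < 2 - 1 / (k : ℝ) := by
    have : 1 / (k : ℝ) ≤ 1 := by rw [div_le_one hk0]; exact hk1
    linarith
  obtain ⟨c', h1, h2⟩ := exists_between hc
  have hlim : Tendsto (fun δ : ℝ => c' * Real.exp (-δ * (2 - 1 / (k : ℝ)))) (𝓝 0) (𝓝 c') := by
    have : Continuous (fun δ : ℝ => c' * Real.exp (-δ * (2 - 1 / (k : ℝ)))) := by fun_prop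
    have h3 := this.tendsto 0
    simpa using h3
  have hev : ∀ᶠ δ : ℝ in 𝓝[>] 0, c < c' * Real.exp (-δ * (2 - 1 / (k : ℝ))) :=
    (hlim.mono_left nhdsWithin_le_nhds).eventually_const_lt h1
  obtain ⟨δ, hδ, hδ0⟩ := (hev.and self_mem_nhdsWithin).exists
  have hδ0' : 0 < δ := hδ0
  set K0 := ∫ y in Iic (0:ℝ), Dt k P y ^ 2 with hK0
  have hl := lower_Z N hk hδ0' hP h2
  -- the substitution
  have hZt : Tendsto (fun X : ℝ => (Real.exp (-δ) * X) ^ (1 / (k : ℝ))) atTop atTop :=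
    (tendsto_rpow_atTop (by positivity)).comp (tendsto_id.const_mul_atTop (Real.exp_pos _))
  have hl2 := hZt.eventually hl
  have hbig : ∀ᶠ X : ℝ in atTop, K0 / (c' * Real.exp (-δ * (2 - 1 / (k : ℝ))) - c) ≤ X ^ (2 - 1 / (k : ℝ)) :=
    (tendsto_rpow_atTop he).eventually_ge_atTop _
  filter_upwards [hl2, hbig, eventually_ge_atTop 1] with X hX hXb hX1
  have hX0 : 0 < X := by linarith
  have hgap : 0 < c' * Real.exp (-δ * (2 - 1 / (k : ℝ))) - c := by linarith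
  rw [div_le_iff₀ hgap] at hXb
  have hpos : 0 < Real.exp (-δ) * X := by positivity
  have e1 : k * Real.log ((Real.exp (-δ) * X) ^ (1 / (k : ℝ))) + δ = Real.log X := by
    rw [Real.log_rpow hpos, Real.log_mul (Real.exp_pos _).ne' hX0.ne', Real.log_exp]
    field_simp
    ring
  have e2 : ((Real.exp (-δ) * X) ^ (1 / (k : ℝ))) ^ (2 * k - 1) =
      Real.exp (-δ * (2 - 1 / (k : ℝ))) * X ^ (2 - 1 / (k : ℝ)) := by
    rw [← Real.rpow_natCast, ← Real.rpow_mul hpos.le, Nat.cast_sub (by omega)]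
    have e3 : 1 / (k : ℝ) * (((2 * k : ℕ) : ℝ) - ((1 : ℕ) : ℝ)) = 2 - 1 / (k : ℝ) := by
      push_cast
      field_simp
    rw [e3, Real.mul_rpow (Real.exp_pos _).le hX0.le, ← Real.exp_mul]
  rw [e1, e2] at hX
  have hlogX : 0 ≤ Real.log X := Real.log_nonneg hX1
  have e4 : ∫ y in Iic (Real.log X), Dt k P y ^ 2 = K0 +
      ∫ x in (1:ℝ)..X, (Dk k x - x * P.eval (Real.log x)) ^ 2 := by
    have hu : Iic (Real.log X) = Iic 0 ∪ Ioc 0 (Real.log X) := (Iic_union_Ioc_eq_Iic hlogX).symm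
    rw [hu, setIntegral_union (Iic_disjoint_Ioc le_rfl) measurableSet_Ioc
      (Dt_sq_int k P 0) ((Dt_sq_int k P (Real.log X)).mono_set Ioc_subset_Iic_self), change_var,
      Real.exp_log hX0, intervalIntegral.integral_of_le hX1]
  rw [e4] at hX
  have e5 : c' * (Real.exp (-δ * (2 - 1 / (k : ℝ))) * X ^ (2 - 1 / (k : ℝ))) =
      (c' * Real.exp (-δ * (2 - 1 / (k : ℝ))) - c) * X ^ (2 - 1 / (k : ℝ)) + c * X ^ (2 - 1 / (k : ℝ)) := by ring
  rw [e5] at hX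
  linarith

theorem final {k : ℕ} (hk : 1 ≤ k) {P : Polynomial ℝ} (hP : P.natDegree < k) {c : ℝ}
    (hc : c < 1 / ((4 * k - 2) * Real.pi ^ 2) * ∑' n : ℕ, dr k n ^ 2 * (n : ℝ) ^ (-(1 + 1 / (k : ℝ)))) :
    ∃ X0 : ℝ, 1 ≤ X0 ∧ ∀ X : ℝ, X0 ≤ X → c * X ^ (2 - 1 / (k : ℝ)) ≤
      ∫ x in (1:ℝ)..X, (Dk k x - x * P.eval (Real.log x)) ^ 2 := by
  have hk1 : (1:ℝ) ≤ k := by exact_mod_cast hk
  have hk0 : (0:ℝ) < k := by linarith
  set f : ℕ → ℝ := fun n => dr k n ^ 2 * (n : ℝ) ^ (-(1 + 1 / (k : ℝ))) with hf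
  have hfn : ∀ n, 0 ≤ f n := fun n => by simp only [hf]; positivity
  have hlim := ((sum_conv hk).hasSum.tendsto_sum_nat).const_mul (1 / ((4 * k - 2) * Real.pi ^ 2))
  obtain ⟨N, hN⟩ := (hlim.eventually_const_lt hc).exists
  have h1 : c < (2 * Real.pi)⁻¹ * Lc k N := by
    rw [Lc_eq hk]
    refine hN.trans_le (mul_le_mul_of_nonneg_left ?_ ?_)
    · have hsub : Finset.range N ⊆ insert 0 (Finset.Icc 1 N) := by
        intro n hn
        rw [Finset.mem_range] at hn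
        rw [Finset.mem_insert, Finset.mem_Icc]
        omega
      have h0 : f 0 = 0 := by
        simp only [hf]
        rw [Nat.cast_zero, Real.zero_rpow, mul_zero]
        have : (0:ℝ) < 1 / k := by positivity
        linarith
      refine (Finset.sum_le_sum_of_subset_of_nonneg hsub fun n _ _ => hfn n).trans (le_of_eq ?_)
      rw [Finset.sum_insert (by simp), h0, zero_add]
    · have : (0:ℝ) < 4 * k - 2 := by linarith
      positivity
  obtain ⟨X0, hX0⟩ := Filter.eventually_atTop.1 (lower_X N hk hP h1)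
  exact ⟨max 1 X0, le_max_left _ _, fun X hX => hX0 X ((le_max_right _ _).trans hX)⟩

end

end Pool.Agent.TH535.PZ
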