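import Pool.Agent.TH535.PZ.P8

set_option autoImplicit false

/-! The complementary smoothed indicator and the factor to the left of the critical line. -/

namespace Pool.Agent.TH535.PZ

open Complex MeasureTheory Filter Topology Set
open Pool.Agent.W182.KO (XX XX_diff XX_bound zeta_XX strip_shift)
open Pool.Agent.TH535.SM
open scoped FourierTransform ComplexConjugate

noncomputable section

lemma gint (ζ : ℂ) : Integrable (fun u : ℝ => cexp ((ζ - u * I) ^ 2)) ∧
    ∫ u : ℝ, cexp ((ζ - u * I) ^ 2) = ((√Real.pi : ℝ) : ℂ) := by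
  have e : ∀ u : ℝ, cexp ((ζ - u * I) ^ 2) = cexp (-1 * (((u - ζ.im : ℝ) : ℂ) + ζ.re * I) ^ 2) := by
    intro u
    congr 1
    have hz : ζ = (ζ.re : ℂ) + ζ.im * I := (Complex.re_add_im ζ).symm
    have h2 : (ζ - u * I) ^ 2 = ((ζ.re : ℂ) + ζ.im * I - u * I) ^ 2 := by rw [← hz]
    rw [h2]
    push_cast
    linear_combination ((ζ.im : ℂ) ^ 2 + (u : ℂ) ^ 2 - 2 * ζ.im * u + ζ.re ^ 2) * I_sq
  have h1 := GaussianFourier.integrable_cexp_neg_mul_sq_add_real_mul_I (b := 1) (by simp) ζ.re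
  have h2 := GaussianFourier.integral_cexp_neg_mul_sq_add_real_mul_I (b := 1) (by simp) ζ.re
  simp_rw [e]
  refine ⟨h1.comp_sub_right ζ.im, ?_⟩
  rw [integral_sub_right_eq_self (fun x : ℝ => cexp (-1 * ((x : ℂ) + ζ.re * I) ^ 2)) ζ.im, h2, div_one,
    Real.sqrt_eq_rpow, Complex.ofReal_cpow Real.pi_pos.le]
  push_cast
  rfl

lemma Ph_ioc (h : ℝ) (z : ℂ) : Ph h z = (((√Real.pi)⁻¹ : ℝ) : ℂ) *
    ∫ u in (-h)..h, cexp (((z - 3 / 2) / h - u * I) ^ 2) := by
  set ζ : ℂ := (z - 3 / 2) / h with hζ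
  have hc : Continuous (fun u : ℝ => cexp ((ζ - u * I) ^ 2)) := by fun_prop
  have h1 : V h (1 / 2 + ζ) = (((√Real.pi)⁻¹ : ℝ) : ℂ) * ∫ u in (0:ℝ)..h, cexp ((ζ - u * I) ^ 2) := by
    have hs := intervalIntegral.smul_integral_comp_mul_left (a := 0) (b := 1)
      (f := fun u : ℝ => cexp ((ζ - u * I) ^ 2)) h
    rw [mul_zero, mul_one] at hs
    rw [← hs]
    unfold V
    rw [intervalIntegral.integral_const_mul, Complex.real_smul]
    push_cast
    rw [mul_comm (h : ℂ), mul_assoc]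
    congr 2
    refine intervalIntegral.integral_congr fun x _ => ?_
    congr 2
    ring
  have h2 : V h (1 / 2 - ζ) = (((√Real.pi)⁻¹ : ℝ) : ℂ) * ∫ u in (-h)..(0:ℝ), cexp ((ζ - u * I) ^ 2) := by
    have h3 := intervalIntegral.integral_comp_neg (a := 0) (b := h) (fun u : ℝ => cexp ((ζ - u * I) ^ 2))
    rw [neg_zero] at h3
    rw [← h3]
    have hs := intervalIntegral.smul_integral_comp_mul_left (a := 0) (b := 1)
      (f := fun u : ℝ => cexp ((ζ - ((-u : ℝ) : ℂ) * I) ^ 2)) h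
    rw [mul_zero, mul_one] at hs
    rw [← hs]
    unfold V
    rw [intervalIntegral.integral_const_mul, Complex.real_smul]
    push_cast
    rw [mul_comm (h : ℂ), mul_assoc]
    congr 2
    refine intervalIntegral.integral_congr fun x _ => ?_
    congr 1
    ring
  unfold Ph
  rw [← hζ, h1, h2, ← mul_add, add_comm,
    intervalIntegral.integral_add_adjacent_intervals (hc.intervalIntegrable _ _) (hc.intervalIntegrable _ _)]

/-- the complementary function is small inside -/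
lemma Ph_compl {h : ℝ} (hh : 0 < h) {z : ℂ} (hz : |z.im| ≤ h ^ 2) : ‖1 - Ph h z‖ ≤
    √2 * (Real.exp (((z.re - 3 / 2) / h) ^ 2) * Real.exp (-(h ^ 2 - |z.im|) ^ 2 / (2 * h ^ 2))) := by
  set ζ : ℂ := (z - 3 / 2) / h with hζ
  obtain ⟨hI, hV⟩ := gint ζ
  have hre : ζ.re = (z.re - 3 / 2) / h := by
    rw [hζ, Complex.div_ofReal_re]; simp
  have him : ζ.im = z.im / h := by
    rw [hζ, Complex.div_ofReal_im]; simp
  have hp : 0 < √Real.pi := Real.sqrt_pos.2 Real.pi_pos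
  have h1 : 1 - Ph h z = (((√Real.pi)⁻¹ : ℝ) : ℂ) * ∫ u in (Ioc (-h) h)ᶜ, cexp ((ζ - u * I) ^ 2) := by
    rw [Ph_ioc, intervalIntegral.integral_of_le (by linarith)]
    have h2 := integral_add_compl (measurableSet_Ioc (a := -h) (b := h)) hI
    rw [hV] at h2
    have h3 : ∫ u in (Ioc (-h) h)ᶜ, cexp ((ζ - u * I) ^ 2) = ((√Real.pi : ℝ) : ℂ) -
        ∫ u in Ioc (-h) h, cexp ((ζ - u * I) ^ 2) := by rw [← h2]; ring
    rw [h3, mul_sub, ← Complex.ofReal_mul, inv_mul_cancel₀ hp.ne', Complex.ofReal_one]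
  have hnorm : ∀ u : ℝ, ‖cexp ((ζ - u * I) ^ 2)‖ = Real.exp (ζ.re ^ 2) * Real.exp (-(u - ζ.im) ^ 2) := by
    intro u
    rw [Complex.norm_exp, ← Real.exp_add]
    congr 1
    simp [pow_two]
    ring
  set d : ℝ := h - |z.im| / h with hd
  have hd0 : 0 ≤ d := by
    rw [hd, sub_nonneg, div_le_iff₀ hh, ← pow_two]
    exact hz
  have hfar : ∀ u ∈ (Ioc (-h) h)ᶜ, d ≤ |u - ζ.im| := by
    intro u hu
    have habs : |ζ.im| = |z.im| / h := by rw [him, abs_div, abs_of_pos hh]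
    have h4 : h ≤ |u| := by
      by_contra hcon
      rw [not_le, abs_lt] at hcon
      exact hu ⟨hcon.1, hcon.2.le⟩
    have h5 := abs_sub_abs_le_abs_sub u ζ.im
    rw [habs] at h5
    rw [hd]
    linarith
  rw [h1, norm_mul, Complex.norm_real, Real.norm_of_nonneg (by positivity)]
  have h2 : ‖∫ u in (Ioc (-h) h)ᶜ, cexp ((ζ - u * I) ^ 2)‖ ≤
      ∫ u in (Ioc (-h) h)ᶜ, Real.exp (ζ.re ^ 2) * (Real.exp (-d ^ 2 / 2) * Real.exp (-(u - ζ.im) ^ 2 / 2)) := by
    refine (norm_integral_le_integral_norm _).trans ?_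
    refine setIntegral_mono_on hI.norm.integrableOn
      ((((g_int2.comp_sub_right ζ.im).const_mul _).const_mul _).integrableOn) measurableSet_Ioc.compl fun u hu => ?_
    rw [hnorm]
    refine mul_le_mul_of_nonneg_left ?_ (Real.exp_pos _).le
    rw [← Real.exp_add]
    refine Real.exp_le_exp.2 ?_
    have h6 : d ^ 2 ≤ (u - ζ.im) ^ 2 := by
      rw [← sq_abs (u - ζ.im)]
      exact pow_le_pow_left₀ hd0 (hfar u hu) 2
    linarith
  have h3 : ∫ u in (Ioc (-h) h)ᶜ, Real.exp (ζ.re ^ 2) * (Real.exp (-d ^ 2 / 2) * Real.exp (-(u - ζ.im) ^ 2 / 2)) ≤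
      Real.exp (ζ.re ^ 2) * (Real.exp (-d ^ 2 / 2) * √(2 * Real.pi)) := by
    rw [integral_const_mul, integral_const_mul]
    refine mul_le_mul_of_nonneg_left (mul_le_mul_of_nonneg_left ?_ (Real.exp_pos _).le) (Real.exp_pos _).le
    have h7 := integral_sub_right_eq_self (μ := volume) (fun x : ℝ => Real.exp (-x ^ 2 / 2)) ζ.im
    rw [← g_val2, ← h7]
    exact setIntegral_le_integral (g_int2.comp_sub_right ζ.im) (Eventually.of_forall fun z => by positivity)
  have h4 : Real.exp (-(h ^ 2 - |z.im|) ^ 2 / (2 * h ^ 2)) = Real.exp (-d ^ 2 / 2) := by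
    congr 1
    rw [hd]
    field_simp
  rw [h4, ← hre]
  rw [inv_mul_le_iff₀ hp]
  refine (h2.trans h3).trans (le_of_eq ?_)
  rw [Real.sqrt_mul (by norm_num)]
  ring

/-- the reflection formula for the factor -/
lemma XX_mul {s : ℂ} (g5 : Complex.sin (Real.pi * s) ≠ 0) : XX s * XX (1 - s) = 1 := by
  have hpi : (Real.pi : ℂ) ≠ 0 := by exact_mod_cast Real.pi_ne_zero
  have h2pi : (2 * Real.pi : ℂ) ≠ 0 := mul_ne_zero two_ne_zero hpi
  have g1 := Complex.Gamma_mul_Gamma_one_sub s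
  have g2 : (2 * Real.pi : ℂ) ^ (-s) * (2 * Real.pi : ℂ) ^ (-(1 - s)) = (2 * Real.pi : ℂ)⁻¹ := by
    rw [← Complex.cpow_add _ _ h2pi]
    have : -s + -(1 - s) = -1 := by ring
    rw [this, Complex.cpow_neg_one]
  have g3 : Complex.cos (Real.pi * (1 - s) / 2) = Complex.sin (Real.pi * s / 2) := by
    have : (Real.pi : ℂ) * (1 - s) / 2 = Real.pi / 2 - Real.pi * s / 2 := by ring
    rw [this, Complex.cos_pi_div_two_sub]
  have g4 : 2 * (Complex.sin (Real.pi * s / 2) * Complex.cos (Real.pi * s / 2)) =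
      Complex.sin (Real.pi * s) := by
    have : (Real.pi : ℂ) * s = 2 * (Real.pi * s / 2) := by ring
    rw [this, Complex.sin_two_mul]
    have e : (2 * ((Real.pi : ℂ) * s / 2)) / 2 = Real.pi * s / 2 := by ring
    rw [e]
    ring
  unfold XX
  rw [g3]
  calc _ = 2 * ((2 * Real.pi : ℂ) ^ (-s) * (2 * Real.pi : ℂ) ^ (-(1 - s))) *
        (Complex.Gamma s * Complex.Gamma (1 - s)) *
        (2 * (Complex.sin (Real.pi * s / 2) * Complex.cos (Real.pi * s / 2))) := by ring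
    _ = 1 := by
        rw [g2, g1, g4]
        field_simp

lemma sin_ne {s : ℂ} (hs : s.im ≠ 0) : Complex.sin (Real.pi * s) ≠ 0 := by
  intro h
  rw [Complex.sin_eq_zero_iff] at h
  obtain ⟨m, hm⟩ := h
  have hpi : (Real.pi : ℂ) ≠ 0 := by exact_mod_cast Real.pi_ne_zero
  have h1 : s = m := by
    have : (Real.pi : ℂ) * s = Real.pi * m := by rw [hm]; ring
    exact mul_left_cancel₀ hpi this
  rw [h1] at hs
  simp at hs

lemma XX_left (m : ℕ) {t : ℝ} (ht : 0 < t) : ‖XX (((1 / 2 - m : ℝ) : ℂ) + t * I)‖ ≤ (2 * Real.pi / t) ^ m := by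
  set s : ℂ := ((1 / 2 - m : ℝ) : ℂ) + t * I with hs
  have him : s.im = t := by simp [hs]
  have h1 := XX_mul (sin_ne (s := s) (by rw [him]; exact ht.ne'))
  have e1 : 1 - s = ((1 / 2 + m : ℝ) : ℂ) + ((-t : ℝ) : ℂ) * I := by rw [hs]; push_cast; ring
  have h2 := XX_prod m (-t)
  rw [← e1] at h2
  have h3 : ‖XX s‖ * ‖XX (1 - s)‖ = 1 := by rw [← norm_mul, h1, norm_one]
  have h4 : (t / (2 * Real.pi)) ^ m ≤ ‖XX (1 - s)‖ := by
    rw [h2]
    calc (t / (2 * Real.pi)) ^ m = ∏ _i ∈ Finset.range m, (t / (2 * Real.pi)) := by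
          rw [Finset.prod_const, Finset.card_range]
      _ ≤ _ := by
          refine Finset.prod_le_prod (fun i _ => by positivity) fun i _ => ?_
          refine div_le_div_of_nonneg_right ?_ (by positivity)
          have h5 := Complex.abs_im_le_norm (((1 / 2 + i : ℝ) : ℂ) + ((-t : ℝ) : ℂ) * I)
          have h6 : (((1 / 2 + i : ℝ) : ℂ) + ((-t : ℝ) : ℂ) * I).im = -t := by simp
          rw [h6, abs_neg, abs_of_pos ht] at h5
          exact h5
  have h5 : 0 < (t / (2 * Real.pi)) ^ m := by positivity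
  have h6 : 0 < ‖XX (1 - s)‖ := h5.trans_le h4
  have h7 : ‖XX s‖ = ‖XX (1 - s)‖⁻¹ := eq_inv_of_mul_eq_one_left h3
  have h8 : (2 * Real.pi / t) ^ m = ((t / (2 * Real.pi)) ^ m)⁻¹ := by rw [← inv_pow, inv_div]
  rw [h7, h8]
  exact inv_anti₀ h5 h4

/-- one step to the left -/
lemma XX_step {s : ℂ} (hs : 1 ≤ s.im) : ‖XX s‖ ≤ 13 * ‖XX (s + 1)‖ := by
  have hpi : (Real.pi : ℂ) ≠ 0 := by exact_mod_cast Real.pi_ne_zero
  have h2pi : (2 * Real.pi : ℂ) ≠ 0 := mul_ne_zero two_ne_zero hpi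
  have hnorm1 : 1 ≤ ‖s‖ := by
    have := Complex.abs_im_le_norm s
    rw [abs_of_nonneg (by linarith)] at this
    linarith
  have hs0 : s ≠ 0 := by
    intro h
    rw [h] at hs
    simp at hs
    linarith
  set w : ℂ := Real.pi * s / 2 with hw
  have e1 : XX (s + 1) * Complex.cos w = -(s / (2 * Real.pi)) * Complex.sin w * XX s := by
    unfold XX
    have g1 : (2 * Real.pi : ℂ) ^ (-(s + 1)) = (2 * Real.pi : ℂ) ^ (-s) * (2 * Real.pi : ℂ)⁻¹ := by
      have : -(s + 1) = -s + -1 := by ring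
      rw [this, Complex.cpow_add _ _ h2pi, Complex.cpow_neg_one]
    have g2 : Complex.cos (Real.pi * (s + 1) / 2) = -Complex.sin w := by
      have : (Real.pi : ℂ) * (s + 1) / 2 = w + Real.pi / 2 := by rw [hw]; ring
      rw [this, Complex.cos_add_pi_div_two]
    rw [g1, g2, Complex.Gamma_add_one s hs0, ← hw]
    field_simp
  have hwim : w.im = Real.pi * s.im / 2 := by
    have : w = ((Real.pi / 2 : ℝ) : ℂ) * s := by rw [hw]; push_cast; ring
    rw [this, Complex.im_ofReal_mul]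
    ring
  have hb : 1 ≤ w.im := by
    rw [hwim]
    have := Real.pi_gt_three
    nlinarith
  have hsq : ∀ x : ℂ, x = (x.re : ℂ) + x.im * I := fun x => (Complex.re_add_im x).symm
  have hsin : ‖Complex.sin w‖ ^ 2 = Real.sin w.re ^ 2 + Real.sinh w.im ^ 2 := by
    rw [← Complex.normSq_eq_norm_sq, Complex.sin_eq w, Complex.normSq_apply]
    have e1 : (Complex.sin w.re * Complex.cosh w.im + Complex.cos w.re * Complex.sinh w.im * I) =
        ((Real.sin w.re * Real.cosh w.im : ℝ) : ℂ) + ((Real.cos w.re * Real.sinh w.im : ℝ) : ℂ) * I := by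
      push_cast; ring
    rw [e1]
    simp only [Complex.add_re, Complex.add_im, Complex.ofReal_re, Complex.ofReal_im, Complex.mul_re,
      Complex.mul_im, Complex.I_re, Complex.I_im]
    nlinarith [Real.sin_sq_add_cos_sq w.re, Real.cosh_sq w.im]
  have hcos : ‖Complex.cos w‖ ^ 2 = Real.cos w.re ^ 2 + Real.sinh w.im ^ 2 := by
    rw [← Complex.normSq_eq_norm_sq, Complex.cos_eq w, Complex.normSq_apply]
    have e2 : (Complex.cos w.re * Complex.cosh w.im - Complex.sin w.re * Complex.sinh w.im * I) =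
        ((Real.cos w.re * Real.cosh w.im : ℝ) : ℂ) + ((-(Real.sin w.re * Real.sinh w.im) : ℝ) : ℂ) * I := by
      push_cast; ring
    rw [e2]
    simp only [Complex.add_re, Complex.add_im, Complex.ofReal_re, Complex.ofReal_im, Complex.mul_re,
      Complex.mul_im, Complex.I_re, Complex.I_im]
    nlinarith [Real.sin_sq_add_cos_sq w.re, Real.cosh_sq w.im]
  have hsinh : 1 ≤ Real.sinh w.im := by
    have h1 := Real.self_le_sinh_iff.2 (by linarith : 0 ≤ w.im)
    linarith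
  have hratio : ‖Complex.cos w‖ ≤ 2 * ‖Complex.sin w‖ := by
    refine (pow_le_pow_iff_left₀ (norm_nonneg _) (by positivity) two_ne_zero).1 ?_
    rw [mul_pow, hsin, hcos]
    have h1 : Real.cos w.re ^ 2 ≤ 1 := Real.cos_sq_le_one _
    nlinarith [sq_nonneg (Real.sin w.re)]
  have hsin0 : 0 < ‖Complex.sin w‖ := by
    have : 1 ≤ ‖Complex.sin w‖ ^ 2 := by
      rw [hsin]; nlinarith [sq_nonneg (Real.sin w.re)]
    refine (norm_nonneg _).lt_of_ne fun h => ?_
    rw [← h] at this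
    norm_num at this
  have h3 : ‖XX (s + 1)‖ * ‖Complex.cos w‖ = ‖s‖ / (2 * Real.pi) * ‖Complex.sin w‖ * ‖XX s‖ := by
    rw [← norm_mul, e1, norm_mul, norm_mul, norm_neg, norm_div, norm_mul]
    congr 3
    rw [Complex.norm_real, Real.norm_of_nonneg Real.pi_pos.le]
    norm_num
  have h4 : ‖s‖ / (2 * Real.pi) * ‖Complex.sin w‖ * ‖XX s‖ ≤ ‖XX (s + 1)‖ * (2 * ‖Complex.sin w‖) := by
    rw [← h3]
    exact mul_le_mul_of_nonneg_left hratio (norm_nonneg _)
  have h5 : ‖s‖ / (2 * Real.pi) * ‖XX s‖ ≤ 2 * ‖XX (s + 1)‖ := by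
    have : (‖s‖ / (2 * Real.pi) * ‖XX s‖) * ‖Complex.sin w‖ ≤ (2 * ‖XX (s + 1)‖) * ‖Complex.sin w‖ := by linarith
    exact le_of_mul_le_mul_right this hsin0
  have hpi4 := Real.pi_lt_d2
  have h6 : 1 / (2 * Real.pi) * ‖XX s‖ ≤ 2 * ‖XX (s + 1)‖ := by
    refine le_trans ?_ h5
    refine mul_le_mul_of_nonneg_right ?_ (norm_nonneg _)
    exact div_le_div_of_nonneg_right hnorm1 (by positivity)
  rw [one_div, inv_mul_le_iff₀ (by positivity)] at h6
  nlinarith [norm_nonneg (XX (s + 1))]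

/-- the factor in a wide strip away from the real axis -/
lemma XX_strip : ∃ K : ℝ, 1 ≤ K ∧ ∀ j : ℕ, ∀ s : ℂ, 1 / 2 - (j : ℝ) ≤ s.re → s.re ≤ 3 / 2 → 1 ≤ s.im →
    ‖XX s‖ ≤ 13 ^ j * (K * (1 + s.im)) := by
  obtain ⟨K, hK, h⟩ := XX_bound (c := 3 / 2) (by norm_num)
  refine ⟨K, hK, fun j => ?_⟩
  have base : ∀ s : ℂ, 1 / 2 ≤ s.re → s.re ≤ 3 / 2 → 1 ≤ s.im → ‖XX s‖ ≤ K * (1 + s.im) := by
    intro s h1 h2 h3
    have h4 := h s.re s.im h1 h2
    rw [Complex.re_add_im, abs_of_nonneg (by linarith)] at h4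
    norm_num at h4
    exact h4
  induction j with
  | zero =>
    intro s h1 h2 h3
    rw [pow_zero, one_mul]
    exact base s (by simpa using h1) h2 h3
  | succ j ih =>
    intro s h1 h2 h3
    rcases le_total (1 / 2) s.re with h4 | h4
    · have h5 := base s h4 h2 h3
      have h6 : (1:ℝ) ≤ 13 ^ (j + 1) := one_le_pow₀ (by norm_num)
      have h7 : 0 ≤ K * (1 + s.im) := by positivity
      nlinarith
    · have h5 := ih (s + 1) (by
        rw [Complex.add_re, Complex.one_re]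
        push_cast at h1
        linarith) (by rw [Complex.add_re, Complex.one_re]; linarith) (by simpa using h3)
      have h6 := XX_step h3
      have h7 : (s + 1).im = s.im := by simp
      rw [h7] at h5
      calc ‖XX s‖ ≤ 13 * (13 ^ j * (K * (1 + s.im))) := h6.trans (by gcongr)
        _ = _ := by rw [pow_succ]; ring

end

end Pool.Agent.TH535.PZ
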