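import Pool.Agent.TH535.PZ.P12

set_option autoImplicit false

/-! Half strips, conjugation symmetry, bounds to the left of the line. -/

namespace Pool.Agent.TH535.PZ

open Complex MeasureTheory Filter Topology Set
open Pool.Agent.W182.KO (XX XX_diff XX_bound zeta_XX strip_shift)
open Pool.Agent.TH535.SM
open scoped FourierTransform ComplexConjugate

noncomputable section

lemma half_int {f : ℂ → ℂ} {a b B : ℝ}
    (hd : ∀ z : ℂ, a ≤ z.re → z.re ≤ b → 1 ≤ z.im → DifferentiableAt ℂ f z)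
    (hb : ∀ z : ℂ, a ≤ z.re → z.re ≤ b → 1 ≤ z.im → ‖f z‖ ≤ B * ((1 + |z.im|) ^ 2)⁻¹)
    {c : ℝ} (h1 : a ≤ c) (h2 : c ≤ b) : IntegrableOn (fun t : ℝ => f ((c : ℂ) + t * I)) (Ioi 1) := by
  have hre : ∀ t : ℝ, ((c : ℂ) + t * I).re = c := fun t => by simp
  have him : ∀ t : ℝ, ((c : ℂ) + t * I).im = t := fun t => by simp
  have hcont : ContinuousOn (fun t : ℝ => f ((c : ℂ) + t * I)) (Ioi 1) := by
    intro t ht
    have h3 := (hd ((c : ℂ) + t * I) (by rw [hre]; exact h1) (by rw [hre]; exact h2)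
      (by rw [him]; exact le_of_lt ht)).continuousAt
    have h4 : ContinuousAt (fun t : ℝ => (c : ℂ) + t * I) t := by fun_prop
    exact (ContinuousAt.comp (f := fun t : ℝ => (c : ℂ) + t * I) h3 h4).continuousWithinAt
  refine (inv_sq_int.const_mul B).integrableOn.mono' (hcont.aestronglyMeasurable measurableSet_Ioi) ?_
  refine (ae_restrict_iff' measurableSet_Ioi).2 (Eventually.of_forall fun t ht => ?_)
  have h3 := hb ((c : ℂ) + t * I) (by rw [hre]; exact h1) (by rw [hre]; exact h2)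
      (by rw [him]; exact le_of_lt ht)
  rwa [him] at h3

lemma half_strip {f : ℂ → ℂ} {a b B : ℝ} (hab : a ≤ b) (hB : 0 ≤ B)
    (hd : ∀ z : ℂ, a ≤ z.re → z.re ≤ b → 1 ≤ z.im → DifferentiableAt ℂ f z)
    (hb : ∀ z : ℂ, a ≤ z.re → z.re ≤ b → 1 ≤ z.im → ‖f z‖ ≤ B * ((1 + |z.im|) ^ 2)⁻¹) :
    ‖∫ t in Ioi (1:ℝ), f ((b : ℂ) + t * I)‖ ≤ ‖∫ t in Ioi (1:ℝ), f ((a : ℂ) + t * I)‖ +
      ‖∫ x in a..b, f ((x : ℂ) + (1 : ℝ) * I)‖ := by
  have hRb := intervalIntegral_tendsto_integral_Ioi (1:ℝ) (half_int hd hb hab le_rfl) tendsto_id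
  have hRa := intervalIntegral_tendsto_integral_Ioi (1:ℝ) (half_int hd hb le_rfl hab) tendsto_id
  have htop : Tendsto (fun R : ℝ => B * ((1 + |R|) ^ 2)⁻¹ * |b - a|) atTop (𝓝 (B * 0 * |b - a|)) := by
    refine Tendsto.mul_const _ (Tendsto.const_mul _ ?_)
    refine tendsto_inv_atTop_zero.comp ?_
    refine (tendsto_pow_atTop two_ne_zero).comp ?_
    exact tendsto_atTop_add_const_left _ _ tendsto_abs_atTop_atTop
  have hkey : ∀ᶠ R : ℝ in atTop, ‖∫ t in (1:ℝ)..(id R), f ((b : ℂ) + t * I)‖ ≤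
      ‖∫ t in (1:ℝ)..(id R), f ((a : ℂ) + t * I)‖ + ‖∫ x in a..b, f ((x : ℂ) + (1 : ℝ) * I)‖ +
        B * ((1 + |R|) ^ 2)⁻¹ * |b - a| := by
    filter_upwards [eventually_ge_atTop 1] with R hR
    have hrect := Complex.integral_boundary_rect_eq_zero_of_differentiableOn f ⟨a, 1⟩ ⟨b, R⟩ (by
      intro z hz
      rw [mem_reProdIm, uIcc_of_le hab, uIcc_of_le hR] at hz
      exact (hd z hz.1.1 hz.1.2 hz.2.1).differentiableWithinAt)
    have h1 : (∫ x : ℝ in a..b, f (x + (1:ℝ) * I)) - (∫ x : ℝ in a..b, f (x + R * I)) +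
      I • (∫ y : ℝ in (1:ℝ)..R, f (b + y * I)) - I • (∫ y : ℝ in (1:ℝ)..R, f (a + y * I)) = 0 := hrect
    have h2 : I * (∫ y : ℝ in (1:ℝ)..R, f (b + y * I)) = I * (∫ y : ℝ in (1:ℝ)..R, f (a + y * I)) -
        (∫ x : ℝ in a..b, f (x + (1:ℝ) * I)) + (∫ x : ℝ in a..b, f (x + R * I)) := by
      simp only [smul_eq_mul] at h1
      linear_combination h1
    have h3 : ‖∫ y : ℝ in (1:ℝ)..R, f (b + y * I)‖ = ‖I * (∫ y : ℝ in (1:ℝ)..R, f (b + y * I))‖ := by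
      rw [norm_mul, Complex.norm_I, one_mul]
    have h4 : ‖I * (∫ y : ℝ in (1:ℝ)..R, f (a + y * I))‖ = ‖∫ y : ℝ in (1:ℝ)..R, f (a + y * I)‖ := by
      rw [norm_mul, Complex.norm_I, one_mul]
    have h5 : ‖∫ x : ℝ in a..b, f (x + R * I)‖ ≤ B * ((1 + |R|) ^ 2)⁻¹ * |b - a| := by
      refine intervalIntegral.norm_integral_le_of_norm_le_const fun x hx => ?_
      rw [uIoc_of_le hab] at hx
      have h6 : ((x : ℂ) + R * I).re = x := by simp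
      have h7 : ((x : ℂ) + R * I).im = R := by simp
      have h8 := hb ((x : ℂ) + R * I) (by rw [h6]; exact hx.1.le) (by rw [h6]; exact hx.2)
        (by rw [h7]; exact hR)
      rwa [h7] at h8
    show ‖∫ y : ℝ in (1:ℝ)..R, f (b + y * I)‖ ≤ ‖∫ y : ℝ in (1:ℝ)..R, f (a + y * I)‖ + _ + _
    rw [h3, h2, ← h4]
    refine (norm_add_le _ _).trans (add_le_add ?_ h5)
    exact norm_sub_le _ _
  have hlim := (hRa.norm.add_const (‖∫ x in a..b, f ((x : ℂ) + (1 : ℝ) * I)‖)).add htop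
  have := le_of_tendsto_of_tendsto hRb.norm hlim hkey
  simpa using this

/-- a conjugation symmetric transform -/
lemma Gt_half {F : ℝ → ℂ} (hF : Integrable F) (hc : ∀ t, F (-t) = conj (F t)) (y : ℝ) :
    ‖Gt F y‖ ≤ ‖∫ t in Ioi (0:ℝ), cexp (-(t * y * I)) * F t‖ := by
  set g : ℝ → ℂ := fun t => cexp (-(t * y * I)) * F t with hg
  have hgI : Integrable g := by
    refine hF.norm.mono' (((by fun_prop : Continuous (fun t : ℝ => cexp (-(t * y * I))))).aestronglyMeasurable.mul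
      hF.aestronglyMeasurable) (Eventually.of_forall fun t => ?_)
    rw [norm_mul]
    have : ‖cexp (-(t * y * I))‖ = 1 := by
      have e : -((t : ℂ) * y * I) = ((-(t * y) : ℝ) : ℂ) * I := by push_cast; ring
      rw [e, Complex.norm_exp_ofReal_mul_I]
    rw [this, one_mul]
  have hgc : ∀ t, g (-t) = conj (g t) := by
    intro t
    simp only [hg]
    rw [hc, map_mul, ← Complex.exp_conj]
    congr 2
    simp
  have h1 : ∫ t in Iic (0:ℝ), g t = conj (∫ t in Ioi (0:ℝ), g t) := by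
    have h2 := integral_comp_neg_Ioi (0:ℝ) g
    rw [neg_zero] at h2
    rw [← h2]
    simp_rw [hgc]
    exact integral_conj
  have h2 : ∫ t, g t = conj (∫ t in Ioi (0:ℝ), g t) + ∫ t in Ioi (0:ℝ), g t := by
    rw [← h1, ← integral_add_compl (measurableSet_Iic (a := (0:ℝ))) hgI, compl_Iic]
  have h3 : ‖∫ t, g t‖ ≤ 2 * ‖∫ t in Ioi (0:ℝ), g t‖ := by
    rw [h2]
    refine (norm_add_le _ _).trans (le_of_eq ?_)
    rw [RCLike.norm_conj]
    ring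
  show ‖((2 * Real.pi : ℝ) : ℂ)⁻¹ * ∫ t : ℝ, g t‖ ≤ _
  rw [norm_mul, norm_inv, Complex.norm_real, Real.norm_of_nonneg (by positivity)]
  have hp := Real.pi_gt_three
  rw [inv_mul_le_iff₀ (by positivity)]
  nlinarith [norm_nonneg (∫ t in Ioi (0:ℝ), g t)]

lemma Bk_conj (k : ℕ) {n : ℕ} (hn : 1 ≤ n) (l : ℕ) (z : ℂ) : Bk k n l (conj z) = conj (Bk k n l z) := by
  have hn0 : (n : ℂ) ≠ 0 := by
    have : n ≠ 0 := by omega
    exact_mod_cast this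
  have h1 : (n : ℂ) ^ (-(conj z)) = conj ((n : ℂ) ^ (-z)) := by
    rw [Complex.cpow_def_of_ne_zero hn0, Complex.cpow_def_of_ne_zero hn0, ← Complex.exp_conj, map_mul,
      map_neg, ← Complex.natCast_log, Complex.conj_ofReal]
  unfold Bk
  rw [h1, XX_conj]
  simp only [map_mul, map_pow, map_sub, map_inv₀, map_one, map_ofNat]

lemma ph_neg (h t : ℝ) : ph h (-t) = ph h t := by
  unfold ph
  rw [neg_neg, add_comm]

lemma Ln_conj (k : ℕ) {n : ℕ} (hn : 1 ≤ n) (h t : ℝ) : Ln (Bk k n k) h 0 (-t) = conj (Ln (Bk k n k) h 0 t) := by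
  have e0 : ∀ t : ℝ, (((3 / 2 + 0 : ℝ) : ℂ) + t * I) = ((3 / 2 : ℝ) : ℂ) + t * I := by
    intro t; push_cast; ring
  have e1 : ((3 / 2 : ℝ) : ℂ) + ((-t : ℝ) : ℂ) * I = conj (((3 / 2 : ℝ) : ℂ) + t * I) := by
    rw [map_add, map_mul, Complex.conj_ofReal, Complex.conj_ofReal, conj_I]
    push_cast
    ring
  unfold Ln
  rw [e0, e0, Ph_line, Ph_line, ph_neg, map_mul, Complex.conj_ofReal, e1, Bk_conj k hn]

lemma XX_diff' {s : ℂ} (hs : s.im ≠ 0) : DifferentiableAt ℂ XX s := by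
  have h2pi : (2 * Real.pi : ℂ) ≠ 0 := mul_ne_zero two_ne_zero (by exact_mod_cast Real.pi_ne_zero)
  have h1 : DifferentiableAt ℂ (fun s : ℂ => (2 * Real.pi : ℂ) ^ (-s)) s :=
    DifferentiableAt.const_cpow (by fun_prop) (Or.inl h2pi)
  have h2 : DifferentiableAt ℂ Gamma s := by
    refine differentiableAt_Gamma s fun n h => ?_
    rw [h] at hs
    simp at hs
  have h3 : DifferentiableAt ℂ (fun s : ℂ => cos (Real.pi * s / 2)) s := by fun_prop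
  exact ((h1.const_mul 2).mul h2).mul h3

lemma Bk_diff' (k : ℕ) {n : ℕ} (hn : 1 ≤ n) {z : ℂ} (hz : 1 ≤ z.im) : DifferentiableAt ℂ (Bk k n k) z := by
  have hn0 : (n : ℂ) ≠ 0 := by
    have : n ≠ 0 := by omega
    exact_mod_cast this
  have him : z.im ≠ 0 := by linarith
  have hz0 : z ≠ 0 := by
    intro h; rw [h] at hz; simp at hz; linarith
  have hz1 : 1 - z ≠ 0 := by
    intro h
    have h1 : z = 1 := by linear_combination -h
    rw [h1] at hz; simp at hz; linarith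
  unfold Bk
  have h1 : DifferentiableAt ℂ (fun s : ℂ => (n : ℂ) ^ (-s)) z :=
    DifferentiableAt.const_cpow (by fun_prop) (Or.inl hn0)
  have h2 : DifferentiableAt ℂ (fun z : ℂ => (1 - z)⁻¹) z := DifferentiableAt.inv (by fun_prop) hz1
  have h3 : DifferentiableAt ℂ (fun z : ℂ => z⁻¹) z := DifferentiableAt.inv (by fun_prop) hz0
  have h4 := (XX_diff' him).pow k
  exact ((h4.mul h1).mul (((by fun_prop : DifferentiableAt ℂ (fun z : ℂ => 2 - z) z)).mul (h2.mul h2))).mul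
    (((by fun_prop : DifferentiableAt ℂ (fun z : ℂ => (z - 3) ^ k) z)).mul (h3.pow k))

lemma Bk_ratio (k : ℕ) {z : ℂ} (hz : 1 ≤ z.im) :
    ‖2 - z‖ * (‖1 - z‖⁻¹ * ‖1 - z‖⁻¹) * (‖z - 3‖ ^ k * ‖z‖⁻¹ ^ k) ≤ 2 * 4 ^ k := by
  have h1 : 1 ≤ ‖z‖ := by
    have := Complex.abs_im_le_norm z
    rw [abs_of_nonneg (by linarith)] at this
    linarith
  have h2 : 1 ≤ ‖1 - z‖ := by
    have := Complex.abs_im_le_norm (1 - z)
    rw [Complex.sub_im, Complex.one_im, zero_sub, abs_neg, abs_of_nonneg (by linarith)] at this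
    linarith
  have h3 : ‖2 - z‖ ≤ 1 + ‖1 - z‖ := by
    have e : 2 - z = 1 + (1 - z) := by ring
    rw [e]
    refine (norm_add_le _ _).trans ?_
    rw [norm_one]
  have h4 : ‖z - 3‖ ≤ 4 * ‖z‖ := by
    refine (norm_sub_le _ _).trans ?_
    have : ‖(3:ℂ)‖ = 3 := by norm_num
    rw [this]
    linarith
  have h5 : ‖2 - z‖ * (‖1 - z‖⁻¹ * ‖1 - z‖⁻¹) ≤ 2 := by
    have h6 : ‖2 - z‖ * ‖1 - z‖⁻¹ ≤ 2 := by
      rw [← div_eq_mul_inv, div_le_iff₀ (by linarith)]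
      linarith
    have h7 : ‖1 - z‖⁻¹ ≤ 1 := inv_le_one_of_one_le₀ h2
    rw [← mul_assoc]
    calc _ ≤ 2 * 1 := mul_le_mul h6 h7 (by positivity) (by norm_num)
      _ = 2 := mul_one 2
  have h6 : ‖z - 3‖ ^ k * ‖z‖⁻¹ ^ k ≤ 4 ^ k := by
    rw [← mul_pow]
    refine pow_le_pow_left₀ (by positivity) ?_ k
    rw [← div_eq_mul_inv, div_le_iff₀ (by linarith)]
    exact h4
  exact mul_le_mul h5 h6 (by positivity) (by norm_num)

lemma Bk_strip (k : ℕ) {n : ℕ} (hn : 1 ≤ n) : ∃ K1 K2 : ℝ, 1 ≤ K1 ∧ 1 ≤ K2 ∧ ∀ j : ℕ, ∀ z : ℂ,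
    1 / 2 - (j : ℝ) ≤ z.re → z.re ≤ 3 / 2 → 1 ≤ z.im → ‖Bk k n k z‖ ≤ K1 * K2 ^ j * (1 + z.im) ^ k := by
  obtain ⟨K, hK, h⟩ := XX_strip
  have hn1 : (1:ℝ) ≤ n := by exact_mod_cast hn
  refine ⟨2 * 4 ^ k * K ^ k, 13 ^ k * n, ?_, ?_, fun j z h1 h2 h3 => ?_⟩
  · have h4 : (1:ℝ) ≤ 4 ^ k := one_le_pow₀ (by norm_num)
    have h5 : (1:ℝ) ≤ K ^ k := one_le_pow₀ hK
    nlinarith
  · have h4 : (1:ℝ) ≤ 13 ^ k := one_le_pow₀ (by norm_num)
    nlinarith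
  have hX := h j z h1 h2 h3
  have hN : ‖(n : ℂ) ^ (-z)‖ ≤ (n : ℝ) ^ j := by
    rw [Complex.norm_natCast_cpow_of_pos (by omega), ← Real.rpow_natCast]
    refine Real.rpow_le_rpow_of_exponent_le hn1 ?_
    rw [Complex.neg_re]
    linarith
  have hR := Bk_ratio k h3
  unfold Bk
  simp only [norm_mul, norm_pow, norm_inv]
  calc ‖XX z‖ ^ k * ‖(n : ℂ) ^ (-z)‖ * (‖2 - z‖ * (‖1 - z‖⁻¹ * ‖1 - z‖⁻¹)) * (‖z - 3‖ ^ k * ‖z‖⁻¹ ^ k) =
        (‖XX z‖ ^ k * ‖(n : ℂ) ^ (-z)‖) * (‖2 - z‖ * (‖1 - z‖⁻¹ * ‖1 - z‖⁻¹) * (‖z - 3‖ ^ k * ‖z‖⁻¹ ^ k)) := by ring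
    _ ≤ ((13 ^ j * (K * (1 + z.im))) ^ k * (n : ℝ) ^ j) * (2 * 4 ^ k) := by gcongr
    _ = _ := by
        rw [mul_pow, mul_pow, mul_pow, ← pow_mul, ← pow_mul, mul_comm j k]
        ring

lemma Bk_leftline (k : ℕ) {n : ℕ} (hn : 1 ≤ n) (m : ℕ) {t : ℝ} (ht : 1 ≤ t) :
    ‖Bk k n k (((1 / 2 - m : ℝ) : ℂ) + t * I)‖ ≤
      2 * 4 ^ k * ((2 * Real.pi / t) ^ (k * m) * (n : ℝ) ^ ((m : ℝ) - 1 / 2)) := by
  set z : ℂ := ((1 / 2 - m : ℝ) : ℂ) + t * I with hz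
  have him : z.im = t := by simp [hz]
  have hre : z.re = 1 / 2 - m := by simp [hz]
  have hX := XX_left m (t := t) (by linarith)
  rw [← hz] at hX
  have hN : ‖(n : ℂ) ^ (-z)‖ = (n : ℝ) ^ ((m : ℝ) - 1 / 2) := by
    rw [Complex.norm_natCast_cpow_of_pos (by omega), Complex.neg_re, hre]
    congr 1
    ring
  have hR := Bk_ratio k (z := z) (by rw [him]; exact ht)
  unfold Bk
  simp only [norm_mul, norm_pow, norm_inv]
  calc ‖XX z‖ ^ k * ‖(n : ℂ) ^ (-z)‖ * (‖2 - z‖ * (‖1 - z‖⁻¹ * ‖1 - z‖⁻¹)) * (‖z - 3‖ ^ k * ‖z‖⁻¹ ^ k) =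
        (‖XX z‖ ^ k * ‖(n : ℂ) ^ (-z)‖) * (‖2 - z‖ * (‖1 - z‖⁻¹ * ‖1 - z‖⁻¹) * (‖z - 3‖ ^ k * ‖z‖⁻¹ ^ k)) := by ring
    _ ≤ (((2 * Real.pi / t) ^ m) ^ k * (n : ℝ) ^ ((m : ℝ) - 1 / 2)) * (2 * 4 ^ k) := by
        rw [hN]
        gcongr
    _ = _ := by
        rw [← pow_mul, mul_comm m k]
        ring

end

end Pool.Agent.TH535.PZ
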