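import Pool.Agent.TH535.PZ.P13

set_option autoImplicit false

/-! Localization from the left. -/

namespace Pool.Agent.TH535.PZ

open Complex MeasureTheory Filter Topology Set
open Pool.Agent.W182.KO (XX XX_diff XX_bound zeta_XX strip_shift)
open Pool.Agent.TH535.SM
open scoped FourierTransform ComplexConjugate

noncomputable section

lemma gauss_dec {T : ℝ} (hT : 1 ≤ T) (t : ℝ) :
    Real.exp (-(max (|t| - T) 0) ^ 2 / (2 * T)) ≤ 16 * T ^ 2 * ((1 + |t|) ^ 2)⁻¹ := by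
  have hT0 : 0 < T := by linarith
  set a := max (|t| - T) 0 with ha
  have ha0 : 0 ≤ a := le_max_right _ _
  have ha1 : |t| ≤ T + a := by
    have := le_max_left (|t| - T) 0
    rw [← ha] at this
    linarith
  have ht := abs_nonneg t
  have e0 : -a ^ 2 / (2 * T) = -(a ^ 2 / (2 * T)) := by ring
  rw [e0, Real.exp_neg, ← div_eq_mul_inv, inv_eq_one_div, div_le_div_iff₀ (Real.exp_pos _) (by positivity), one_mul]
  have h5 := Real.add_one_le_exp (a ^ 2 / (2 * T))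
  have h6 : (1 + |t|) ^ 2 ≤ 16 * T ^ 2 * (a ^ 2 / (2 * T) + 1) := by
    have e : 16 * T ^ 2 * (a ^ 2 / (2 * T) + 1) = 8 * T * a ^ 2 + 16 * T ^ 2 := by
      field_simp
      ring
    rw [e]
    have h7 : (1 + |t|) ^ 2 ≤ (2 * T + a) ^ 2 := pow_le_pow_left₀ (by positivity) (by linarith) 2
    nlinarith [sq_nonneg (2 * T - a), mul_nonneg (sub_nonneg.2 hT) (sq_nonneg a)]
  exact h6.trans (by gcongr)

lemma exp_r_le {h r : ℝ} (hh : 0 < h) (hr : r ^ 2 ≤ h ^ 2) : Real.exp ((r / h) ^ 2) ≤ Real.exp 1 := by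
  refine Real.exp_le_exp.2 ?_
  rw [div_pow, div_le_one (by positivity)]
  exact hr

lemma Phi_small {h1 h2 : ℝ} (hh1 : 0 < h1) (h12 : h1 ≤ h2) {z : ℂ} (hr : (z.re - 3 / 2) ^ 2 ≤ h1 ^ 2)
    (ht0 : 0 ≤ z.im) (ht : z.im ≤ h1 ^ 2) :
    ‖Ph h2 z - Ph h1 z‖ ≤ 2 * √2 * Real.exp 1 * Real.exp (-(h1 ^ 2 - z.im) ^ 2 / (2 * h1 ^ 2)) := by
  have hh2 : 0 < h2 := by linarith
  have hsq : h1 ^ 2 ≤ h2 ^ 2 := pow_le_pow_left₀ hh1.le h12 2
  have habs : |z.im| = z.im := abs_of_nonneg ht0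
  have c1 := Ph_compl hh1 (z := z) (by rw [habs]; exact ht)
  have c2 := Ph_compl hh2 (z := z) (by rw [habs]; exact ht.trans hsq)
  rw [habs] at c1 c2
  have e1 := exp_r_le hh1 hr
  have e2 := exp_r_le hh2 (hr.trans hsq)
  have e3 : Real.exp (-(h2 ^ 2 - z.im) ^ 2 / (2 * h2 ^ 2)) ≤ Real.exp (-(h1 ^ 2 - z.im) ^ 2 / (2 * h1 ^ 2)) := by
    refine Real.exp_le_exp.2 ?_
    rw [neg_div, neg_div, neg_le_neg_iff, div_le_div_iff₀ (by positivity) (by positivity)]
    have h3 : 0 ≤ h1 ^ 2 * h2 ^ 2 - z.im ^ 2 := by nlinarith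
    nlinarith [mul_nonneg (sub_nonneg.2 hsq) h3]
  have e4 : Ph h2 z - Ph h1 z = (1 - Ph h1 z) - (1 - Ph h2 z) := by ring
  rw [e4]
  set E := Real.exp (-(h1 ^ 2 - z.im) ^ 2 / (2 * h1 ^ 2)) with hE
  calc _ ≤ ‖1 - Ph h1 z‖ + ‖1 - Ph h2 z‖ := norm_sub_le _ _
    _ ≤ √2 * (Real.exp 1 * E) + √2 * (Real.exp 1 * E) := by
        refine add_le_add (c1.trans ?_) (c2.trans ?_)
        · gcongr
        · gcongr
    _ = _ := by ring

lemma Phi_gen {h1 h2 : ℝ} (hh1 : 0 < h1) (h12 : h1 ≤ h2) {z : ℂ} (hr : (z.re - 3 / 2) ^ 2 ≤ h1 ^ 2) :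
    ‖Ph h2 z - Ph h1 z‖ ≤ Real.exp 1 * (ph h2 z.im + ph h1 z.im) := by
  have hh2 : 0 < h2 := by linarith
  have hsq : h1 ^ 2 ≤ h2 ^ 2 := pow_le_pow_left₀ hh1.le h12 2
  have c1 := Ph_norm hh1 z
  have c2 := Ph_norm hh2 z
  have e1 := exp_r_le hh1 hr
  have e2 := exp_r_le hh2 (hr.trans hsq)
  have p1 := ph_nonneg hh1.le z.im
  have p2 := ph_nonneg hh2.le z.im
  calc _ ≤ ‖Ph h2 z‖ + ‖Ph h1 z‖ := norm_sub_le _ _
    _ ≤ Real.exp 1 * ph h2 z.im + Real.exp 1 * ph h1 z.im := by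
        refine add_le_add (c2.trans ?_) (c1.trans ?_)
        · gcongr
        · gcongr
    _ = _ := by ring

lemma line_bd {h1 h2 : ℝ} (hh1 : 0 < h1) (h12 : h1 ≤ h2) {K : ℕ} (hT1 : 1 ≤ h1 ^ 2)
    (hK : (K : ℝ) ^ 2 ≤ h1 ^ 2) (hK2 : K * Real.log (h1 ^ 2) ≤ h1 ^ 2 / 8) {z : ℂ}
    (hr : (z.re - 3 / 2) ^ 2 ≤ h1 ^ 2) (ht : 1 ≤ z.im) :
    (2 * Real.pi / z.im) ^ K * ‖Ph h2 z - Ph h1 z‖ ≤
      64 * √2 * Real.exp 3 * (2 * Real.pi / h1 ^ 2) ^ K * (h2 ^ 2) ^ 2 * ((1 + |z.im|) ^ 2)⁻¹ := by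
  have hh2 : 0 < h2 := by linarith
  have hsq : h1 ^ 2 ≤ h2 ^ 2 := pow_le_pow_left₀ hh1.le h12 2
  have hpi := Real.pi_pos
  set t := z.im with htd
  have ht0 : 0 < t := by linarith
  have habs : |t| = t := abs_of_nonneg ht0.le
  set T := h1 ^ 2 with hT
  have hT0 : 0 < T := by linarith
  rcases le_total T t with hc | hc
  · have g1 := Phi_gen hh1 h12 hr
    have q1 := ph_le hh1 z.im
    have q2 := ph_le hh2 z.im
    have g2 := gauss_dec hT1 t
    have g3 := gauss_dec (hT1.trans hsq) t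
    rw [← htd] at g1 q1 q2
    rw [← hT] at q1
    have s1 : (2 * Real.pi / t) ^ K ≤ (2 * Real.pi / T) ^ K := by
      refine pow_le_pow_left₀ (by positivity) ?_ K
      exact div_le_div_of_nonneg_left (by positivity) hT0 hc
    have s2 : ph h2 t + ph h1 t ≤ 64 * √2 * (h2 ^ 2) ^ 2 * ((1 + |t|) ^ 2)⁻¹ := by
      have s3 : ph h1 t ≤ 2 * √2 * (16 * (h2 ^ 2) ^ 2 * ((1 + |t|) ^ 2)⁻¹) := by
        refine q1.trans (mul_le_mul_of_nonneg_left (g2.trans ?_) (by positivity))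
        gcongr
      have s4 : ph h2 t ≤ 2 * √2 * (16 * (h2 ^ 2) ^ 2 * ((1 + |t|) ^ 2)⁻¹) :=
        q2.trans (mul_le_mul_of_nonneg_left g3 (by positivity))
      linarith
    have p1 := ph_nonneg hh1.le t
    have p2 := ph_nonneg hh2.le t
    have he : Real.exp 1 ≤ Real.exp 3 := Real.exp_le_exp.2 (by norm_num)
    calc _ ≤ (2 * Real.pi / T) ^ K * (Real.exp 3 * (64 * √2 * (h2 ^ 2) ^ 2 * ((1 + |t|) ^ 2)⁻¹)) := by
          refine mul_le_mul s1 (g1.trans ?_) (norm_nonneg _) (by positivity)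
          exact mul_le_mul he s2 (by positivity) (by positivity)
      _ = _ := by ring
  · have g1 := Phi_small hh1 h12 hr (by rw [← htd]; exact ht0.le) (by rw [← htd]; exact hc)
    rw [← htd, ← hT] at g1
    have e0 : (2 * Real.pi / t) ^ K = (2 * Real.pi / T) ^ K * (T / t) ^ K := by
      rw [← mul_pow]; congr 1; field_simp
    have key : (T / t) ^ K * Real.exp (-(T - t) ^ 2 / (2 * T)) ≤ Real.exp 2 := by
      rcases le_total (T / 2) t with hc2 | hc2
      · have r1 : T / t ≤ Real.exp (2 * (T - t) / T) := by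
          have r2 := Real.add_one_le_exp (2 * (T - t) / T)
          refine le_trans ?_ r2
          rw [div_le_iff₀ ht0]
          have r3 : (2 * (T - t) / T + 1) * t - T = (T - t) * (2 * t - T) / T := by
            field_simp
            ring
          have r4 : 0 ≤ (T - t) * (2 * t - T) / T := by
            refine div_nonneg (mul_nonneg (by linarith) (by linarith)) hT0.le
          linarith
        have r2 : (T / t) ^ K ≤ Real.exp (K * (2 * (T - t) / T)) := by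
          calc _ ≤ Real.exp (2 * (T - t) / T) ^ K := pow_le_pow_left₀ (by positivity) r1 K
            _ = _ := by rw [← Real.exp_nat_mul]
        calc _ ≤ Real.exp (K * (2 * (T - t) / T)) * Real.exp (-(T - t) ^ 2 / (2 * T)) := by gcongr
          _ = Real.exp (K * (2 * (T - t) / T) + -(T - t) ^ 2 / (2 * T)) := by rw [Real.exp_add]
          _ ≤ Real.exp 2 := by
              refine Real.exp_le_exp.2 ?_
              have r3 : K * (2 * (T - t) / T) + -(T - t) ^ 2 / (2 * T) - 2 =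
                  (4 * K * (T - t) - (T - t) ^ 2 - 4 * T) / (2 * T) := by
                field_simp
                ring
              have r4 : (4 * K * (T - t) - (T - t) ^ 2 - 4 * T) / (2 * T) ≤ 0 := by
                refine div_nonpos_of_nonpos_of_nonneg ?_ (by positivity)
                nlinarith [sq_nonneg (T - t - 2 * K)]
              linarith
      · have r1 : (T / t) ^ K ≤ Real.exp (T / 8) := by
          calc (T / t) ^ K ≤ T ^ K := by
                refine pow_le_pow_left₀ (by positivity) ?_ K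
                rw [div_le_iff₀ ht0]
                nlinarith
            _ = Real.exp (K * Real.log T) := by rw [Real.exp_nat_mul, Real.exp_log hT0]
            _ ≤ _ := Real.exp_le_exp.2 hK2
        have r2 : Real.exp (-(T - t) ^ 2 / (2 * T)) ≤ Real.exp (-(T / 8)) := by
          refine Real.exp_le_exp.2 ?_
          rw [neg_div, neg_le_neg_iff, le_div_iff₀ (by positivity)]
          nlinarith
        calc _ ≤ Real.exp (T / 8) * Real.exp (-(T / 8)) := by gcongr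
          _ = 1 := by rw [← Real.exp_add]; simp
          _ ≤ Real.exp 2 := Real.one_le_exp (by norm_num)
    have r5 : 1 ≤ 4 * (h2 ^ 2) ^ 2 * ((1 + |t|) ^ 2)⁻¹ := by
      rw [habs, ← div_eq_mul_inv, le_div_iff₀ (by positivity), one_mul]
      have : 1 + t ≤ 2 * h2 ^ 2 := by linarith
      calc (1 + t) ^ 2 ≤ (2 * h2 ^ 2) ^ 2 := pow_le_pow_left₀ (by positivity) this 2
        _ = _ := by ring
    have he : Real.exp 1 * Real.exp 2 = Real.exp 3 := by rw [← Real.exp_add]; norm_num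
    rw [e0]
    calc (2 * Real.pi / T) ^ K * (T / t) ^ K * ‖Ph h2 z - Ph h1 z‖ ≤
          (2 * Real.pi / T) ^ K * (T / t) ^ K * (2 * √2 * Real.exp 1 * Real.exp (-(T - t) ^ 2 / (2 * T))) := by gcongr
      _ = (2 * √2 * Real.exp 1 * (2 * Real.pi / T) ^ K) * ((T / t) ^ K * Real.exp (-(T - t) ^ 2 / (2 * T))) := by ring
      _ ≤ (2 * √2 * Real.exp 1 * (2 * Real.pi / T) ^ K) * Real.exp 2 := by gcongr
      _ = 2 * √2 * Real.exp 3 * (2 * Real.pi / T) ^ K * 1 := by rw [← he]; ring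
      _ ≤ 2 * √2 * Real.exp 3 * (2 * Real.pi / T) ^ K * (4 * (h2 ^ 2) ^ 2 * ((1 + |t|) ^ 2)⁻¹) := by gcongr
      _ = 8 * (√2 * Real.exp 3 * (2 * Real.pi / T) ^ K * (h2 ^ 2) ^ 2 * ((1 + |t|) ^ 2)⁻¹) := by ring
      _ ≤ 64 * (√2 * Real.exp 3 * (2 * Real.pi / T) ^ K * (h2 ^ 2) ^ 2 * ((1 + |t|) ^ 2)⁻¹) := by
          have : 0 ≤ √2 * Real.exp 3 * (2 * Real.pi / T) ^ K * (h2 ^ 2) ^ 2 * ((1 + |t|) ^ 2)⁻¹ := by positivity
          linarith
      _ = _ := by ring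

end

end Pool.Agent.TH535.PZ
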