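import Pool.Agent.TH535.PZ.P14

set_option autoImplicit false

/-! Localization from the left: the main estimate. -/

namespace Pool.Agent.TH535.PZ

open Complex MeasureTheory Filter Topology Set
open Pool.Agent.W182.KO (XX XX_diff XX_bound zeta_XX strip_shift)
open Pool.Agent.TH535.SM
open scoped FourierTransform ComplexConjugate

noncomputable section

lemma int_tw {F : ℝ → ℂ} (hF : Integrable F) (y : ℝ) : Integrable (fun t : ℝ => cexp (-(t * y * I)) * F t) := by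
  refine hF.norm.mono' (((by fun_prop : Continuous (fun t : ℝ => cexp (-(t * y * I))))).aestronglyMeasurable.mul
    hF.aestronglyMeasurable) (Eventually.of_forall fun t => ?_)
  rw [norm_mul]
  have : ‖cexp (-(t * y * I))‖ = 1 := by
    have e : -((t : ℂ) * y * I) = ((-(t * y) : ℝ) : ℂ) * I := by push_cast; ring
    rw [e, Complex.norm_exp_ofReal_mul_I]
  rw [this, one_mul]

lemma Gt_sub {F G : ℝ → ℂ} (hF : Integrable F) (hG : Integrable G) (y : ℝ) :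
    Gt (fun t => F t - G t) y = Gt F y - Gt G y := by
  unfold Gt
  rw [← mul_sub, ← integral_sub (int_tw hF y) (int_tw hG y)]
  congr 1
  refine integral_congr_ae (Eventually.of_forall fun t => ?_)
  simp only
  ring

/-- the integral of the majorant -/
def JJ : ℝ := ∫ t : ℝ, ((1 + |t|) ^ 2)⁻¹

lemma JJ_nonneg : 0 ≤ JJ := integral_nonneg fun t => by positivity

lemma left_core {k n : ℕ} (hk : 1 ≤ k) (hn : 1 ≤ n) {ρ : ℝ} (hρ : 1 ≤ ρ) {δ : ℝ}
    {K1 K2 : ℝ} (hK1 : 1 ≤ K1) (hK2 : 1 ≤ K2) (hB : ∀ j : ℕ, ∀ z : ℂ,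
      1 / 2 - (j : ℝ) ≤ z.re → z.re ≤ 3 / 2 → 1 ≤ z.im → ‖Bk k n k z‖ ≤ K1 * K2 ^ j * (1 + z.im) ^ k)
    {Cb : ℝ} (hCb : 0 ≤ Cb) (hB0 : ∀ t : ℝ, |t| ≤ 1 → ‖Bk k n k (((3 / 2 : ℝ) : ℂ) + t * I)‖ ≤ Cb)
    {Z : ℝ} {m : ℕ} {y : ℝ} (hZ : 1 ≤ Z) (c1 : ((m : ℝ) + 1) ^ 2 ≤ cn k n * Z)
    (c2 : ((k * m : ℕ) : ℝ) ^ 2 ≤ cn k n * Z)
    (c3 : ((k * m : ℕ) : ℝ) * Real.log (cn k n * Z) ≤ cn k n * Z / 8) (c4 : 2 ≤ cn k n * Z)
    (c5 : ((m : ℝ) + 1) * (1 + Real.log K2 + k * Real.log Z) + (3 * k + 1) * Real.log Z ≤ cn k n * Z / 8)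
    (c6 : (4 * k + 3) * Real.log Z ≤ ((m : ℝ) + 1) * δ) (hδ : 0 ≤ δ) (hy : y ≤ k * Real.log Z - δ) :
    ‖Gt (Ln (Bk k n k) (hz (cn k n) (ρ * Z)) 0) y - Gt (Ln (Bk k n k) (hz (cn k n) Z) 0) y‖ ≤
      (2 * √2 * Real.exp 1 * Cb + 2 * √2 * Real.exp 1 * (K1 * 2 ^ k) +
        128 * √2 * 4 ^ k * Real.exp 3 * (n : ℝ) ^ (-(1 / 2) : ℝ) * (cn k n * ρ) ^ 2 * JJ) *
        Real.exp (-((3 * k + 1) * Real.log Z)) := by
  have hc := cn_pos k hn
  have hZ0 : 0 < Z := by linarith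
  have hL : 0 ≤ Real.log Z := Real.log_nonneg hZ
  have hρ0 : 0 < ρ := by linarith
  have hρZ : 0 < ρ * Z := by positivity
  have hn0 : (0:ℝ) < n := by exact_mod_cast hn
  have hk1 : (1:ℝ) ≤ k := by exact_mod_cast hk
  have hk0 : (k : ℝ) ≠ 0 := by linarith
  have hm0 : (0:ℝ) ≤ m := Nat.cast_nonneg m
  have hpi := Real.pi_pos
  set c := cn k n with hcd
  set h1 := hz c Z with hh1d
  set h2 := hz c (ρ * Z) with hh2d
  have hh1 : 0 < h1 := hz_pos hc hZ0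
  have hh2 : 0 < h2 := hz_pos hc hρZ
  have e1 : h1 ^ 2 = c * Z := hz_sq hc hZ0
  have e2 : h2 ^ 2 = c * (ρ * Z) := hz_sq hc hρZ
  have h12 : h1 ≤ h2 := by
    refine Real.sqrt_le_sqrt ?_
    have : Z ≤ ρ * Z := by nlinarith
    gcongr
  set T := c * Z with hT
  have hT0 : 0 < T := by linarith
  set f : ℂ → ℂ := fun z => (Ph h2 z - Ph h1 z) * Bk k n k z * cexp (-((z - 3 / 2) * y)) with hf
  set F : ℝ → ℂ := fun t => Ln (Bk k n k) h2 0 t - Ln (Bk k n k) h1 0 t with hF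
  have hA := Bk_PA k hn k
  have hD1 : Dec (Ln (Bk k n k) h1 0) := Ln_dec hA hh1 le_rfl
  have hD2 : Dec (Ln (Bk k n k) h2 0) := Ln_dec hA hh2 le_rfl
  have hFI : Integrable F := hD2.int.sub hD1.int
  have hcj : ∀ t, F (-t) = conj (F t) := by
    intro t
    simp only [hF]
    rw [Ln_conj k hn, Ln_conj k hn, map_sub]
  have hG := Gt_half hFI hcj y
  rw [← Gt_sub hD2.int hD1.int y]
  refine hG.trans ?_
  have e3 : ∀ t : ℝ, cexp (-(t * y * I)) * F t = f (((3 / 2 : ℝ) : ℂ) + t * I) := by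
    intro t
    simp only [hF, hf]
    unfold Ln
    have e0 : (((3 / 2 + 0 : ℝ) : ℂ) + t * I) = ((3 / 2 : ℝ) : ℂ) + t * I := by push_cast; ring
    have e4 : cexp (-((((3 / 2 : ℝ) : ℂ) + t * I - 3 / 2) * y)) = cexp (-(t * y * I)) := by
      congr 1
      push_cast
      ring
    rw [e0, e4]
    ring
  have hsplit : ∫ t in Ioi (0:ℝ), cexp (-(t * y * I)) * F t =
      (∫ t in Ioc (0:ℝ) 1, f (((3 / 2 : ℝ) : ℂ) + t * I)) + ∫ t in Ioi (1:ℝ), f (((3 / 2 : ℝ) : ℂ) + t * I) := by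
    have hI := int_tw hFI y
    simp_rw [e3] at hI ⊢
    rw [← Ioc_union_Ioi_eq_Ioi (zero_le_one : (0:ℝ) ≤ 1), setIntegral_union (Ioc_disjoint_Ioi le_rfl)
      measurableSet_Ioi hI.integrableOn hI.integrableOn]
  have hexpn : ∀ z : ℂ, ‖cexp (-((z - 3 / 2) * y))‖ = Real.exp ((3 / 2 - z.re) * y) := by
    intro z
    rw [Complex.norm_exp]
    congr 1
    simp
    ring
  -- the conditions on the region
  have hreg : ∀ z : ℂ, 1 / 2 - (m : ℝ) ≤ z.re → z.re ≤ 3 / 2 → (z.re - 3 / 2) ^ 2 ≤ h1 ^ 2 := by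
    intro z g1 g2
    rw [e1]
    refine le_trans ?_ c1
    nlinarith
  have hsmall : ∀ z : ℂ, 1 / 2 - (m : ℝ) ≤ z.re → z.re ≤ 3 / 2 → 0 ≤ z.im → z.im ≤ 1 →
      ‖Ph h2 z - Ph h1 z‖ ≤ 2 * √2 * Real.exp 1 * Real.exp (-(T / 8)) := by
    intro z g1 g2 g3 g4
    have q := Phi_small hh1 h12 (hreg z g1 g2) g3 (by rw [e1]; linarith)
    refine q.trans (mul_le_mul_of_nonneg_left (Real.exp_le_exp.2 ?_) (by positivity))
    rw [e1, neg_div, neg_le_neg_iff, le_div_iff₀ (by positivity)]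
    nlinarith
  -- piece 0
  have p0 : ‖∫ t in Ioc (0:ℝ) 1, f (((3 / 2 : ℝ) : ℂ) + t * I)‖ ≤
      2 * √2 * Real.exp 1 * Cb * Real.exp (-((3 * k + 1) * Real.log Z)) := by
    have hb : ∀ t ∈ Ioc (0:ℝ) 1, ‖f (((3 / 2 : ℝ) : ℂ) + t * I)‖ ≤
        2 * √2 * Real.exp 1 * Cb * Real.exp (-((3 * k + 1) * Real.log Z)) := by
      intro t ht
      simp only [hf]
      have hre : (((3 / 2 : ℝ) : ℂ) + t * I).re = 3 / 2 := by simp
      have him : (((3 / 2 : ℝ) : ℂ) + t * I).im = t := by simp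
      have g1 := hsmall (((3 / 2 : ℝ) : ℂ) + t * I) (by rw [hre]; linarith) (by rw [hre])
        (by rw [him]; exact ht.1.le) (by rw [him]; exact ht.2)
      have g2 := hB0 t (by rw [abs_of_pos ht.1]; exact ht.2)
      rw [norm_mul, norm_mul, hexpn, hre, sub_self, zero_mul, Real.exp_zero, mul_one]
      have g3 : Real.exp (-(T / 8)) ≤ Real.exp (-((3 * k + 1) * Real.log Z)) := by
        refine Real.exp_le_exp.2 (neg_le_neg ?_)
        have : 0 ≤ ((m : ℝ) + 1) * (1 + Real.log K2 + k * Real.log Z) := by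
          have := Real.log_nonneg hK2
          positivity
        linarith
      calc _ ≤ (2 * √2 * Real.exp 1 * Real.exp (-(T / 8))) * Cb := mul_le_mul g1 g2 (norm_nonneg _) (by positivity)
        _ ≤ (2 * √2 * Real.exp 1 * Real.exp (-((3 * k + 1) * Real.log Z))) * Cb := by gcongr
        _ = _ := by ring
    have h := norm_setIntegral_le_of_norm_le_const (μ := volume) (s := Ioc (0:ℝ) 1) (by simp) hb
    refine h.trans (le_of_eq ?_)
    simp
  -- the half strip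
  obtain ⟨B1, hB1, hp1⟩ := ph_poly (k + 2) hh1
  obtain ⟨B2, hB2, hp2⟩ := ph_poly (k + 2) hh2
  have hab : 1 / 2 - (m : ℝ) ≤ 3 / 2 := by linarith
  have hfd : ∀ z : ℂ, 1 / 2 - (m : ℝ) ≤ z.re → z.re ≤ 3 / 2 → 1 ≤ z.im → DifferentiableAt ℂ f z := by
    intro z _ _ g3
    simp only [hf]
    exact (((Ph_diff h2 z).sub (Ph_diff h1 z)).mul (Bk_diff' k hn g3)).mul (by fun_prop)
  have hfb : ∀ z : ℂ, 1 / 2 - (m : ℝ) ≤ z.re → z.re ≤ 3 / 2 → 1 ≤ z.im →
      ‖f z‖ ≤ (Real.exp 1 * (K1 * K2 ^ m) * Real.exp (((m : ℝ) + 1) * |y|) * (B1 + B2)) *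
        ((1 + |z.im|) ^ 2)⁻¹ := by
    intro z g1 g2 g3
    have q1 := Phi_gen hh1 h12 (hreg z g1 g2)
    have q2 := hB m z g1 g2 g3
    have q3 : Real.exp ((3 / 2 - z.re) * y) ≤ Real.exp (((m : ℝ) + 1) * |y|) := by
      refine Real.exp_le_exp.2 ?_
      have := le_abs_self y
      have h0 := abs_nonneg y
      calc (3 / 2 - z.re) * y ≤ (3 / 2 - z.re) * |y| := by
            refine mul_le_mul_of_nonneg_left this (by linarith)
        _ ≤ _ := by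
            refine mul_le_mul_of_nonneg_right (by linarith) h0
    have habs : |z.im| = z.im := abs_of_nonneg (by linarith)
    have r1 := hp1 z.im
    have r2 := hp2 z.im
    rw [habs] at r1 r2
    have n1 := ph_nonneg hh1.le z.im
    have n2 := ph_nonneg hh2.le z.im
    simp only [hf]
    rw [norm_mul, norm_mul, hexpn, habs, ← div_eq_mul_inv, le_div_iff₀ (by positivity)]
    calc ‖Ph h2 z - Ph h1 z‖ * ‖Bk k n k z‖ * Real.exp ((3 / 2 - z.re) * y) * (1 + z.im) ^ 2 ≤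
          (Real.exp 1 * (ph h2 z.im + ph h1 z.im)) * (K1 * K2 ^ m * (1 + z.im) ^ k) *
            Real.exp (((m : ℝ) + 1) * |y|) * (1 + z.im) ^ 2 := by gcongr
      _ = (Real.exp 1 * (K1 * K2 ^ m) * Real.exp (((m : ℝ) + 1) * |y|)) *
          (ph h1 z.im * (1 + z.im) ^ (k + 2) + ph h2 z.im * (1 + z.im) ^ (k + 2)) := by ring
      _ ≤ _ := by gcongr
  have hBpos : 0 ≤ Real.exp 1 * (K1 * K2 ^ m) * Real.exp (((m : ℝ) + 1) * |y|) * (B1 + B2) := by positivity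
  have hstrip := half_strip hab hBpos hfd hfb
  -- piece h
  have ph' : ‖∫ x in (1 / 2 - (m : ℝ))..(3 / 2), f ((x : ℂ) + (1 : ℝ) * I)‖ ≤
      2 * √2 * Real.exp 1 * (K1 * 2 ^ k) * Real.exp (-((3 * k + 1) * Real.log Z)) := by
    have hb : ∀ x ∈ uIoc (1 / 2 - (m : ℝ)) (3 / 2), ‖f ((x : ℂ) + (1 : ℝ) * I)‖ ≤
        (2 * √2 * Real.exp 1 * Real.exp (-(T / 8))) * (K1 * K2 ^ m * 2 ^ k) *
          Real.exp (((m : ℝ) + 1) * (k * Real.log Z)) := by
      intro x hx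
      rw [uIoc_of_le hab] at hx
      have hre : ((x : ℂ) + (1 : ℝ) * I).re = x := by simp
      have him : ((x : ℂ) + (1 : ℝ) * I).im = 1 := by simp
      have g1 := hsmall ((x : ℂ) + (1 : ℝ) * I) (by rw [hre]; exact hx.1.le) (by rw [hre]; exact hx.2)
        (by rw [him]; norm_num) (by rw [him])
      have g2 := hB m ((x : ℂ) + (1 : ℝ) * I) (by rw [hre]; exact hx.1.le) (by rw [hre]; exact hx.2)
        (by rw [him])
      rw [him] at g2
      have g3 : Real.exp ((3 / 2 - x) * y) ≤ Real.exp (((m : ℝ) + 1) * (k * Real.log Z)) := by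
        refine Real.exp_le_exp.2 ?_
        have hkL : 0 ≤ k * Real.log Z := by positivity
        calc (3 / 2 - x) * y ≤ (3 / 2 - x) * (k * Real.log Z) :=
              mul_le_mul_of_nonneg_left (by linarith) (by linarith [hx.2])
          _ ≤ _ := mul_le_mul_of_nonneg_right (by linarith [hx.1]) hkL
      simp only [hf]
      rw [norm_mul, norm_mul, hexpn, hre]
      have g4 : (1 + 1 : ℝ) ^ k = 2 ^ k := by norm_num
      rw [g4] at g2
      exact mul_le_mul (mul_le_mul g1 g2 (norm_nonneg _) (by positivity)) g3 (Real.exp_pos _).le (by positivity)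
    have h := intervalIntegral.norm_integral_le_of_norm_le_const hb
    refine h.trans ?_
    have hlen : |3 / 2 - (1 / 2 - (m : ℝ))| = (m : ℝ) + 1 := by
      rw [abs_of_nonneg (by linarith)]; ring
    rw [hlen]
    have g5 : K2 ^ m ≤ Real.exp (((m : ℝ) + 1) * Real.log K2) := by
      have : K2 ^ m = Real.exp (m * Real.log K2) := by rw [Real.exp_nat_mul, Real.exp_log (by linarith)]
      rw [this]
      refine Real.exp_le_exp.2 ?_
      have := Real.log_nonneg hK2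
      nlinarith
    have g6 : (m : ℝ) + 1 ≤ Real.exp ((m : ℝ) + 1) := by
      have := Real.add_one_le_exp ((m : ℝ) + 1)
      linarith
    calc (2 * √2 * Real.exp 1 * Real.exp (-(T / 8))) * (K1 * K2 ^ m * 2 ^ k) *
          Real.exp (((m : ℝ) + 1) * (k * Real.log Z)) * ((m : ℝ) + 1) ≤
          (2 * √2 * Real.exp 1 * Real.exp (-(T / 8))) * (K1 * Real.exp (((m : ℝ) + 1) * Real.log K2) * 2 ^ k) *
          Real.exp (((m : ℝ) + 1) * (k * Real.log Z)) * Real.exp ((m : ℝ) + 1) := by gcongr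
      _ = 2 * √2 * Real.exp 1 * (K1 * 2 ^ k) * (Real.exp (-(T / 8)) * Real.exp (((m : ℝ) + 1) * Real.log K2) *
          Real.exp (((m : ℝ) + 1) * (k * Real.log Z)) * Real.exp ((m : ℝ) + 1)) := by ring
      _ = 2 * √2 * Real.exp 1 * (K1 * 2 ^ k) * Real.exp (-(T / 8) + ((m : ℝ) + 1) * Real.log K2 +
          ((m : ℝ) + 1) * (k * Real.log Z) + ((m : ℝ) + 1)) := by
          congr 1
          rw [← Real.exp_add, ← Real.exp_add, ← Real.exp_add]
      _ ≤ _ := by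
          refine mul_le_mul_of_nonneg_left (Real.exp_le_exp.2 ?_) (by positivity)
          linarith
  -- piece a
  have hJ := JJ_nonneg
  have pa : ‖∫ t in Ioi (1:ℝ), f (((1 / 2 - (m : ℝ) : ℝ) : ℂ) + t * I)‖ ≤
      128 * √2 * 4 ^ k * Real.exp 3 * (n : ℝ) ^ (-(1 / 2) : ℝ) * (c * ρ) ^ 2 * JJ *
        Real.exp (-((3 * k + 1) * Real.log Z)) := by
    set D : ℝ := (64 * √2 * Real.exp 3 * (2 * Real.pi / h1 ^ 2) ^ (k * m) * (h2 ^ 2) ^ 2) *
      (2 * 4 ^ k * (n : ℝ) ^ ((m : ℝ) - 1 / 2)) * Real.exp (((m : ℝ) + 1) * y) with hDd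
    have hb : ∀ t ∈ Ioi (1:ℝ), ‖f (((1 / 2 - (m : ℝ) : ℝ) : ℂ) + t * I)‖ ≤ D * ((1 + |t|) ^ 2)⁻¹ := by
      intro t ht
      have ht1 : 1 ≤ t := le_of_lt ht
      have hre : (((1 / 2 - (m : ℝ) : ℝ) : ℂ) + t * I).re = 1 / 2 - m := by simp
      have him : (((1 / 2 - (m : ℝ) : ℝ) : ℂ) + t * I).im = t := by simp
      have g1 := line_bd hh1 h12 (K := k * m) (by rw [e1]; linarith) (by rw [e1]; exact c2)
        (by rw [e1]; exact c3) (z := (((1 / 2 - (m : ℝ) : ℝ) : ℂ) + t * I))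
        (hreg _ (by rw [hre]) (by rw [hre]; linarith)) (by rw [him]; exact ht1)
      rw [him] at g1
      have g2 := Bk_leftline k hn m ht1
      simp only [hf]
      rw [norm_mul, norm_mul, hexpn, hre]
      have g3 : (3 / 2 - (1 / 2 - (m : ℝ))) * y = ((m : ℝ) + 1) * y := by ring
      rw [g3]
      calc _ ≤ ‖Ph h2 (((1 / 2 - (m : ℝ) : ℝ) : ℂ) + t * I) - Ph h1 (((1 / 2 - (m : ℝ) : ℝ) : ℂ) + t * I)‖ *
            (2 * 4 ^ k * ((2 * Real.pi / t) ^ (k * m) * (n : ℝ) ^ ((m : ℝ) - 1 / 2))) *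
            Real.exp (((m : ℝ) + 1) * y) := by gcongr
        _ = ((2 * Real.pi / t) ^ (k * m) *
            ‖Ph h2 (((1 / 2 - (m : ℝ) : ℝ) : ℂ) + t * I) - Ph h1 (((1 / 2 - (m : ℝ) : ℝ) : ℂ) + t * I)‖) *
            (2 * 4 ^ k * (n : ℝ) ^ ((m : ℝ) - 1 / 2)) * Real.exp (((m : ℝ) + 1) * y) := by ring
        _ ≤ (64 * √2 * Real.exp 3 * (2 * Real.pi / h1 ^ 2) ^ (k * m) * (h2 ^ 2) ^ 2 * ((1 + |t|) ^ 2)⁻¹) *
            (2 * 4 ^ k * (n : ℝ) ^ ((m : ℝ) - 1 / 2)) * Real.exp (((m : ℝ) + 1) * y) := by gcongr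
        _ = _ := by rw [hDd]; ring
    have hD0 : 0 ≤ D := by rw [hDd]; positivity
    have h3 : ‖∫ t in Ioi (1:ℝ), f (((1 / 2 - (m : ℝ) : ℝ) : ℂ) + t * I)‖ ≤ D * JJ := by
      calc _ ≤ ∫ t in Ioi (1:ℝ), ‖f (((1 / 2 - (m : ℝ) : ℝ) : ℂ) + t * I)‖ := norm_integral_le_integral_norm _
        _ ≤ ∫ t in Ioi (1:ℝ), D * ((1 + |t|) ^ 2)⁻¹ :=
            setIntegral_mono_on (half_int hfd hfb le_rfl hab).norm (inv_sq_int.const_mul D).integrableOn
              measurableSet_Ioi hb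
        _ ≤ ∫ t : ℝ, D * ((1 + |t|) ^ 2)⁻¹ :=
            setIntegral_le_integral (inv_sq_int.const_mul D) (Eventually.of_forall fun t => by positivity)
        _ = D * JJ := by rw [integral_const_mul]; rfl
    refine h3.trans ?_
    -- evaluate D
    have r1 : 2 * Real.pi / h1 ^ 2 = ((n : ℝ) ^ (1 / (k : ℝ)) * Z)⁻¹ := by
      rw [e1, hT, hcd]
      unfold cn
      field_simp
    have hpow : ∀ j : ℕ, Z ^ j = Real.exp (j * Real.log Z) := by
      intro j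
      rw [Real.exp_nat_mul, Real.exp_log hZ0]
    have r2 : (2 * Real.pi / h1 ^ 2) ^ (k * m) * (n : ℝ) ^ ((m : ℝ) - 1 / 2) =
        (n : ℝ) ^ (-(1 / 2) : ℝ) * Real.exp (-(k * m * Real.log Z)) := by
      have r3 : ((n : ℝ) ^ (1 / (k : ℝ))) ^ (k * m) = (n : ℝ) ^ (m : ℝ) := by
        rw [← Real.rpow_natCast, ← Real.rpow_mul hn0.le]
        congr 1
        push_cast
        field_simp
      have r4 : (n : ℝ) ^ ((m : ℝ) - 1 / 2) = (n : ℝ) ^ (m : ℝ) * (n : ℝ) ^ (-(1 / 2) : ℝ) := by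
        rw [← Real.rpow_add hn0]; congr 1
      have r5 : (n : ℝ) ^ (m : ℝ) ≠ 0 := (Real.rpow_pos_of_pos hn0 _).ne'
      rw [r1, inv_pow, mul_pow, r3, r4, hpow, Real.exp_neg]
      push_cast
      field_simp
    have r6 : (h2 ^ 2) ^ 2 = (c * ρ) ^ 2 * Real.exp (2 * Real.log Z) := by
      have : Real.exp (2 * Real.log Z) = Z ^ 2 := by rw [hpow]; push_cast; rfl
      rw [e2, this]
      ring
    have r7 : Real.exp (((m : ℝ) + 1) * y) ≤ Real.exp (((m : ℝ) + 1) * (k * Real.log Z - δ)) := by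
      refine Real.exp_le_exp.2 (mul_le_mul_of_nonneg_left hy (by positivity))
    have r8 : Real.exp (-(k * m * Real.log Z)) * Real.exp (2 * Real.log Z) *
        Real.exp (((m : ℝ) + 1) * (k * Real.log Z - δ)) ≤ Real.exp (-((3 * k + 1) * Real.log Z)) := by
      rw [← Real.exp_add, ← Real.exp_add]
      refine Real.exp_le_exp.2 ?_
      nlinarith
    calc D * JJ = (128 * √2 * 4 ^ k * Real.exp 3 * ((2 * Real.pi / h1 ^ 2) ^ (k * m) * (n : ℝ) ^ ((m : ℝ) - 1 / 2)) *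
          (h2 ^ 2) ^ 2 * JJ) * Real.exp (((m : ℝ) + 1) * y) := by rw [hDd]; ring
      _ ≤ (128 * √2 * 4 ^ k * Real.exp 3 * ((2 * Real.pi / h1 ^ 2) ^ (k * m) * (n : ℝ) ^ ((m : ℝ) - 1 / 2)) *
          (h2 ^ 2) ^ 2 * JJ) * Real.exp (((m : ℝ) + 1) * (k * Real.log Z - δ)) := by gcongr
      _ = (128 * √2 * 4 ^ k * Real.exp 3 * (n : ℝ) ^ (-(1 / 2) : ℝ) * (c * ρ) ^ 2 * JJ) *
          (Real.exp (-(k * m * Real.log Z)) * Real.exp (2 * Real.log Z) *
            Real.exp (((m : ℝ) + 1) * (k * Real.log Z - δ))) := by rw [r2, r6]; ring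
      _ ≤ _ := by gcongr
  rw [hsplit]
  calc _ ≤ ‖∫ t in Ioc (0:ℝ) 1, f (((3 / 2 : ℝ) : ℂ) + t * I)‖ + ‖∫ t in Ioi (1:ℝ), f (((3 / 2 : ℝ) : ℂ) + t * I)‖ :=
        norm_add_le _ _
    _ ≤ _ := by
        have h := add_le_add p0 (hstrip.trans (add_le_add pa ph'))
        refine h.trans (le_of_eq ?_)
        ring

end

end Pool.Agent.TH535.PZ
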