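import Pool.Agent.TH535.PZ.P8

set_option autoImplicit false

/-! The remainder term and its pairing with the test function. -/

namespace Pool.Agent.TH535.PZ

open Complex MeasureTheory Filter Topology Set
open Pool.Agent.W182.KO (XX XX_diff XX_bound zeta_XX strip_shift)
open Pool.Agent.TH535.SM
open scoped FourierTransform ComplexConjugate

noncomputable section

/-- the remainder in the variable `y = log x` -/
def Dt (k : ℕ) (P : Polynomial ℝ) (y : ℝ) : ℝ :=
  (Dk k (Real.exp y) - Real.exp y * P.eval y) * Real.exp (y / 2)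

lemma Dt_split (k : ℕ) (P : Polynomial ℝ) (hP : P.natDegree < k) (y : ℝ) (g : ℂ) :
    (Dt k P y : ℂ) * g = (((Dk k (Real.exp y) : ℂ) * cexp ((1 / 2) * y)) * g) -
      ∑ j ∈ Finset.range k, (P.coeff j : ℂ) * (((y : ℂ) ^ j * cexp ((3 / 2) * y)) * g) := by
  have e1 : cexp ((1 / 2) * y) = ((Real.exp (y / 2) : ℝ) : ℂ) := by
    rw [Complex.ofReal_exp]; congr 1; push_cast; ring
  have e2 : cexp ((3 / 2) * y) = ((Real.exp y : ℝ) : ℂ) * ((Real.exp (y / 2) : ℝ) : ℂ) := by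
    rw [Complex.ofReal_exp, Complex.ofReal_exp, ← Complex.exp_add]; congr 1; push_cast; ring
  have e3 : ((P.eval y : ℝ) : ℂ) = ∑ j ∈ Finset.range k, (P.coeff j : ℂ) * (y : ℂ) ^ j := by
    rw [Polynomial.eval_eq_sum_range' hP]
    push_cast
    rfl
  unfold Dt
  rw [e1, e2, Complex.ofReal_mul, Complex.ofReal_sub, Complex.ofReal_mul, e3, sub_mul, sub_mul, Finset.mul_sum,
    Finset.sum_mul, Finset.sum_mul]
  congr 1
  refine Finset.sum_congr rfl fun j _ => ?_
  ring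

lemma Dt_pair {k n : ℕ} (hn : 1 ≤ n) {h : ℝ} (hh : 0 < h) {P : Polynomial ℝ} (hP : P.natDegree < k) :
    Integrable (fun y : ℝ => (Dt k P y : ℂ) * Gt (Ln (Bk k n k) h 0) y) ∧
    ∫ y : ℝ, (Dt k P y : ℂ) * Gt (Ln (Bk k n k) h 0) y =
      ((2 * Real.pi : ℝ) : ℂ)⁻¹ * ∫ t : ℝ, Ln (Kk k n) h 0 t := by
  obtain ⟨i1, r1⟩ := pairD1 k hn hh
  set f : ℝ → ℂ := fun y => ((Dk k (Real.exp y) : ℂ) * cexp ((1 / 2) * y)) * Gt (Ln (Bk k n k) h 0) y with hf
  have hz : ∀ y, y ∉ Ici (0:ℝ) → f y = 0 := by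
    intro y hy
    have hy0 : y < 0 := not_le.1 hy
    have : Dk k (Real.exp y) = 0 := Dk_zero k (by rw [Real.exp_lt_one_iff]; exact hy0)
    simp only [hf]
    rw [this]
    simp
  have i2 : IntegrableOn f (Ici 0) := (integrableOn_Ici_iff_integrableOn_Ioi (by finiteness)).2 i1
  have i3 : Integrable f := by
    refine (integrableOn_iff_integrable_of_support_subset (s := Ici (0:ℝ)) ?_).1 i2
    intro y hy
    by_contra h
    exact hy (hz y h)
  have r2 : ∫ y, f y = ((2 * Real.pi : ℝ) : ℂ)⁻¹ * ∫ t : ℝ, Ln (Kk k n) h 0 t := by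
    rw [← r1, ← integral_Ici_eq_integral_Ioi, setIntegral_eq_integral_of_forall_compl_eq_zero hz]
  have i4 : ∀ j ∈ Finset.range k, Integrable (fun y : ℝ => (P.coeff j : ℂ) *
      (((y : ℂ) ^ j * cexp ((3 / 2) * y)) * Gt (Ln (Bk k n k) h 0) y)) := fun j hj =>
    (orth_poly k hn hh (Finset.mem_range.1 hj)).1.const_mul _
  have r4 : ∫ y : ℝ, ∑ j ∈ Finset.range k, (P.coeff j : ℂ) *
      (((y : ℂ) ^ j * cexp ((3 / 2) * y)) * Gt (Ln (Bk k n k) h 0) y) = 0 := by
    rw [integral_finsetSum _ i4]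
    refine Finset.sum_eq_zero fun j hj => ?_
    rw [integral_const_mul, (orth_poly k hn hh (Finset.mem_range.1 hj)).2, mul_zero]
  simp_rw [Dt_split k P hP]
  refine ⟨i3.sub (integrable_finsetSum _ i4), ?_⟩
  rw [integral_sub i3 (integrable_finsetSum _ i4), r4, sub_zero, r2]

lemma poly_exp_bd (P : Polynomial ℝ) : ∃ C : ℝ, 0 ≤ C ∧ ∀ y : ℝ, |P.eval y| ≤ C * Real.exp |y| := by
  refine ⟨∑ j ∈ Finset.range (P.natDegree + 1), |P.coeff j| * j.factorial, by positivity, fun y => ?_⟩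
  rw [Polynomial.eval_eq_sum_range, Finset.sum_mul]
  refine (Finset.abs_sum_le_sum_abs _ _).trans (Finset.sum_le_sum fun j _ => ?_)
  rw [abs_mul, abs_pow, mul_assoc]
  refine mul_le_mul_of_nonneg_left ?_ (abs_nonneg _)
  have h := Real.pow_div_factorial_le_exp |y| (abs_nonneg y) j
  rw [div_le_iff₀ (by positivity)] at h
  linarith

lemma Dt_bd (k : ℕ) (P : Polynomial ℝ) : ∃ C : ℝ, 0 ≤ C ∧ ∀ y : ℝ, |Dt k P y| ≤
    C * Real.exp (y / 2 + 2 * max y 0) := by
  obtain ⟨C1, hC1, h1⟩ := Dk_le k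
  obtain ⟨C2, hC2, h2⟩ := poly_exp_bd P
  refine ⟨C1 + C2, by positivity, fun y => ?_⟩
  unfold Dt
  have h3 := h1 (Real.exp y) (Real.exp_pos y).le
  have h4 := h2 y
  have h5 : |Dk k (Real.exp y) - Real.exp y * P.eval y| ≤ (C1 + C2) * Real.exp (2 * max y 0) := by
    have h6 : Real.exp y ^ 2 ≤ Real.exp (2 * max y 0) := by
      rw [← Real.exp_nat_mul]
      refine Real.exp_le_exp.2 ?_
      have := le_max_left y 0
      push_cast
      linarith
    have h7 : Real.exp y * Real.exp |y| ≤ Real.exp (2 * max y 0) := by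
      rw [← Real.exp_add]
      refine Real.exp_le_exp.2 ?_
      rcases le_total 0 y with hy | hy
      · rw [abs_of_nonneg hy, max_eq_left hy]; linarith
      · rw [abs_of_nonpos hy, max_eq_right hy]; linarith
    calc _ ≤ |Dk k (Real.exp y)| + |Real.exp y * P.eval y| := abs_sub _ _
      _ = Dk k (Real.exp y) + Real.exp y * |P.eval y| := by
          rw [abs_of_nonneg (Dk_nonneg k _), abs_mul, abs_of_pos (Real.exp_pos y)]
      _ ≤ C1 * Real.exp y ^ 2 + Real.exp y * (C2 * Real.exp |y|) := by gcongr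
      _ = C1 * Real.exp y ^ 2 + C2 * (Real.exp y * Real.exp |y|) := by ring
      _ ≤ C1 * Real.exp (2 * max y 0) + C2 * Real.exp (2 * max y 0) := by gcongr
      _ = _ := by ring
  rw [abs_mul, abs_of_pos (Real.exp_pos (y / 2)), Real.exp_add]
  calc _ ≤ ((C1 + C2) * Real.exp (2 * max y 0)) * Real.exp (y / 2) := by gcongr
    _ = _ := by ring

lemma Dt_meas (k : ℕ) (P : Polynomial ℝ) : Measurable (Dt k P) := by
  unfold Dt
  have h1 : Measurable (fun y : ℝ => Dk k (Real.exp y)) := (Dk_mono k).measurable.comp Real.measurable_exp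
  have h2 : Continuous (fun y : ℝ => P.eval y) := P.continuous
  exact (h1.sub (Real.measurable_exp.mul h2.measurable)).mul (by fun_prop)

lemma Dt_sq_int (k : ℕ) (P : Polynomial ℝ) (y0 : ℝ) : IntegrableOn (fun y => Dt k P y ^ 2) (Iic y0) := by
  obtain ⟨C, hC, h⟩ := Dt_bd k P
  have h1 : IntegrableOn (fun y : ℝ => C ^ 2 * Real.exp (4 * max y0 0) * Real.exp y) (Iic y0) :=
    (integrableOn_exp_Iic y0).const_mul _
  refine h1.mono' ((Dt_meas k P).pow_const 2).aestronglyMeasurable ?_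
  refine (ae_restrict_iff' measurableSet_Iic).2 (Eventually.of_forall fun y hy => ?_)
  rw [Real.norm_of_nonneg (sq_nonneg _), ← sq_abs]
  calc |Dt k P y| ^ 2 ≤ (C * Real.exp (y / 2 + 2 * max y 0)) ^ 2 := pow_le_pow_left₀ (abs_nonneg _) (h y) 2
    _ = C ^ 2 * Real.exp (y + 4 * max y 0) := by
        rw [mul_pow, ← Real.exp_nat_mul]
        congr 2
        push_cast
        ring
    _ ≤ C ^ 2 * Real.exp (y + 4 * max y0 0) := by
        have : max y 0 ≤ max y0 0 := max_le_max_right _ hy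
        gcongr
    _ = _ := by rw [Real.exp_add]; ring

lemma Gt_FF {k N : ℕ} {Z : ℝ} (hZ : 0 < Z) (y : ℝ) : Gt (FF k N Z) y =
    ∑ n ∈ Finset.Icc 1 N, (dr k n : ℂ) * Gt (Ln (Bk k n k) (hz (cn k n) Z) 0) y := by
  unfold Gt FF
  have hint : ∀ n ∈ Finset.Icc 1 N, Integrable (fun t : ℝ => cexp (-(t * y * I)) *
      ((dr k n : ℂ) * Ln (Bk k n k) (hz (cn k n) Z) 0 t)) := by
    intro n hn
    have hn1 := (Finset.mem_Icc.1 hn).1
    have h1 := ((Ln_dec (Bk_PA k hn1 k) (hz_pos (cn_pos k hn1) hZ) (r := 0) le_rfl).smul (dr k n : ℂ)).int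
    refine h1.norm.mono' (((by fun_prop : Continuous (fun t : ℝ => cexp (-(t * y * I))))).aestronglyMeasurable.mul
      h1.aestronglyMeasurable) (Eventually.of_forall fun t => ?_)
    rw [norm_mul]
    have : ‖cexp (-(t * y * I))‖ = 1 := by
      have e : -((t : ℂ) * y * I) = ((-(t * y) : ℝ) : ℂ) * I := by push_cast; ring
      rw [e, Complex.norm_exp_ofReal_mul_I]
    rw [this, one_mul]
  simp_rw [Finset.mul_sum]
  rw [integral_finsetSum _ hint, Finset.mul_sum]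
  refine Finset.sum_congr rfl fun n _ => ?_
  rw [← mul_assoc, mul_comm (dr k n : ℂ), mul_assoc, ← integral_const_mul (dr k n : ℂ)]
  congr 1
  refine integral_congr_ae (Eventually.of_forall fun t => ?_)
  simp only
  ring

lemma pair_total {k N : ℕ} (hk : 1 ≤ k) {Z : ℝ} (hZ : 0 < Z) {P : Polynomial ℝ} (hP : P.natDegree < k) :
    Integrable (fun y : ℝ => (Dt k P y : ℂ) * Gt (FF k N Z) y) ∧
    ∫ y : ℝ, (Dt k P y : ℂ) * Gt (FF k N Z) y = ((2 * Real.pi : ℝ) : ℂ)⁻¹ *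
      ∑ n ∈ Finset.Icc 1 N, (dr k n : ℂ) * PP k n (cn k n) Z := by
  have h1 : ∀ n ∈ Finset.Icc 1 N, Integrable (fun y : ℝ => (dr k n : ℂ) * ((Dt k P y : ℂ) *
      Gt (Ln (Bk k n k) (hz (cn k n) Z) 0) y)) := fun n hn =>
    (Dt_pair (Finset.mem_Icc.1 hn).1 (hz_pos (cn_pos k (Finset.mem_Icc.1 hn).1) hZ) hP).1.const_mul _
  have e : ∀ y : ℝ, (Dt k P y : ℂ) * Gt (FF k N Z) y = ∑ n ∈ Finset.Icc 1 N, (dr k n : ℂ) * ((Dt k P y : ℂ) *
      Gt (Ln (Bk k n k) (hz (cn k n) Z) 0) y) := by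
    intro y
    rw [Gt_FF hZ, Finset.mul_sum]
    refine Finset.sum_congr rfl fun n _ => ?_
    ring
  simp_rw [e]
  refine ⟨integrable_finsetSum _ h1, ?_⟩
  rw [integral_finsetSum _ h1, Finset.mul_sum]
  refine Finset.sum_congr rfl fun n hn => ?_
  have hn1 := (Finset.mem_Icc.1 hn).1
  rw [integral_const_mul, (Dt_pair hn1 (hz_pos (cn_pos k hn1) hZ) hP).2]
  have e2 : ∫ t : ℝ, Ln (Kk k n) (hz (cn k n) Z) 0 t = PP k n (cn k n) Z := by
    unfold PP
    exact integral_congr_ae (Eventually.of_forall fun t => Kk_line hk n _ t)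
  rw [e2]
  ring

end

end Pool.Agent.TH535.PZ
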