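import Pool.Agent.TH535.PZ.P15
import Pool.Agent.TH535.PZ.P9

set_option autoImplicit false

/-! Left tails, cross terms. -/

namespace Pool.Agent.TH535.PZ

open Complex MeasureTheory Filter Topology Set
open Pool.Agent.W182.KO (XX XX_diff XX_bound zeta_XX strip_shift)
open Pool.Agent.TH535.SM
open scoped FourierTransform ComplexConjugate

noncomputable section

lemma ev_log (E : ℝ) {c : ℝ} (hc : 0 < c) : ∀ᶠ Z : ℝ in atTop, E * Real.log Z ^ 2 ≤ c * Z := by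
  have h := (Real.isLittleO_pow_log_id_atTop (n := 2)).def (c := c / (|E| + 1)) (by positivity)
  filter_upwards [h, eventually_ge_atTop (1:ℝ)] with Z hZ hZ1
  have hZ0 : 0 < Z := by linarith
  rw [Real.norm_of_nonneg (by positivity), id, Real.norm_of_nonneg hZ0.le] at hZ
  have hE : E ≤ |E| + 1 := by linarith [le_abs_self E]
  calc E * Real.log Z ^ 2 ≤ (|E| + 1) * Real.log Z ^ 2 := by gcongr
    _ ≤ (|E| + 1) * (c / (|E| + 1) * Z) := by gcongr
    _ = c * Z := by field_simp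

lemma left_pt {k n : ℕ} (hk : 1 ≤ k) (hn : 1 ≤ n) {ρ : ℝ} (hρ : 1 ≤ ρ) {δ : ℝ} (hδ : 0 < δ) :
    ∃ C : ℝ, 0 ≤ C ∧ ∀ᶠ Z : ℝ in atTop, ∀ y : ℝ, y ≤ k * Real.log Z - δ →
      ‖Gt (Ln (Bk k n k) (hz (cn k n) (ρ * Z)) 0) y - Gt (Ln (Bk k n k) (hz (cn k n) Z) 0) y‖ ≤
        C * Real.exp (-((3 * k + 1) * Real.log Z)) := by
  have hc := cn_pos k hn
  obtain ⟨K1, K2, hK1, hK2, hB⟩ := Bk_strip k hn
  obtain ⟨Cb, M, hCb, hB0⟩ := (Bk_PA k hn k).bd (3 / 2)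
  have hB1 : ∀ t : ℝ, |t| ≤ 1 → ‖Bk k n k (((3 / 2 : ℝ) : ℂ) + t * I)‖ ≤ Cb * 2 ^ M := by
    intro t ht
    have hre : (((3 / 2 : ℝ) : ℂ) + t * I).re = 3 / 2 := by simp
    have him : (((3 / 2 : ℝ) : ℂ) + t * I).im = t := by simp
    have h := hB0 (((3 / 2 : ℝ) : ℂ) + t * I) (by rw [hre]) (by rw [hre])
    rw [him] at h
    refine h.trans (mul_le_mul_of_nonneg_left ?_ hCb)
    exact pow_le_pow_left₀ (by positivity) (by linarith) M
  have hJ := JJ_nonneg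
  have hn0 : (0:ℝ) < n := by exact_mod_cast hn
  set A : ℝ := (4 * k + 3) / δ with hA
  have hA0 : 0 < A := by positivity
  have hk0 : (0:ℝ) ≤ k := Nat.cast_nonneg k
  have hlK2 := Real.log_nonneg hK2
  have hρ0 : 0 < ρ := by linarith
  refine ⟨(2 * √2 * Real.exp 1 * (Cb * 2 ^ M) + 2 * √2 * Real.exp 1 * (K1 * 2 ^ k) +
        128 * √2 * 4 ^ k * Real.exp 3 * (n : ℝ) ^ (-(1 / 2) : ℝ) * (cn k n * ρ) ^ 2 * JJ), by positivity, ?_⟩
  filter_upwards [ev_log ((A + 2) ^ 2) hc, ev_log ((k : ℝ) ^ 2 * (A + 2) ^ 2) hc,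
    ev_log (8 * (k * (A + 2) * (|Real.log (cn k n)| + 1))) hc,
    ev_log (8 * ((A + 2) * (1 + Real.log K2 + k) + (3 * k + 1))) hc,
    eventually_ge_atTop (Real.exp 1), eventually_ge_atTop (2 / cn k n)] with Z g1 g2 g3 g4 g5 g6 y hy
  have hZ0 : 0 < Z := lt_of_lt_of_le (Real.exp_pos 1) g5
  have hL : 1 ≤ Real.log Z := by
    rw [Real.le_log_iff_exp_le hZ0]; exact g5
  have hZ1 : 1 ≤ Z := by
    have := Real.add_one_le_exp (1:ℝ)
    linarith
  set L := Real.log Z with hLd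
  set m := ⌈A * L⌉₊ with hm
  have hm1 : (m : ℝ) < A * L + 1 := Nat.ceil_lt_add_one (by positivity)
  have hm2 : A * L ≤ (m : ℝ) := Nat.le_ceil _
  have hm3 : (m : ℝ) + 1 ≤ (A + 2) * L := by nlinarith
  have hm0 : (0:ℝ) ≤ m := Nat.cast_nonneg m
  refine left_core hk hn hρ hK1 hK2 hB (by positivity) hB1 hZ1 (m := m) ?_ ?_ ?_ ?_ ?_ ?_ hδ.le hy
  · calc ((m : ℝ) + 1) ^ 2 ≤ ((A + 2) * L) ^ 2 := pow_le_pow_left₀ (by positivity) hm3 2
      _ = (A + 2) ^ 2 * L ^ 2 := by ring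
      _ ≤ _ := g1
  · push_cast
    calc ((k : ℝ) * m) ^ 2 ≤ (k * ((A + 2) * L)) ^ 2 := by
          refine pow_le_pow_left₀ (by positivity) (mul_le_mul_of_nonneg_left (by linarith) hk0) 2
      _ = (k : ℝ) ^ 2 * (A + 2) ^ 2 * L ^ 2 := by ring
      _ ≤ _ := g2
  · push_cast
    have hlog : Real.log (cn k n * Z) ≤ (|Real.log (cn k n)| + 1) * L := by
      rw [Real.log_mul hc.ne' hZ0.ne', ← hLd]
      have h1 := le_abs_self (Real.log (cn k n))
      have h2 := abs_nonneg (Real.log (cn k n))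
      nlinarith
    have h3 : (k : ℝ) * m * Real.log (cn k n * Z) ≤ (k * ((A + 2) * L)) * ((|Real.log (cn k n)| + 1) * L) := by
      calc (k : ℝ) * m * Real.log (cn k n * Z) ≤ (k : ℝ) * m * ((|Real.log (cn k n)| + 1) * L) :=
            mul_le_mul_of_nonneg_left hlog (by positivity)
        _ ≤ _ := by
            refine mul_le_mul_of_nonneg_right (mul_le_mul_of_nonneg_left (by linarith) hk0) (by positivity)
    have h4 : 8 * ((k * ((A + 2) * L)) * ((|Real.log (cn k n)| + 1) * L)) =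
      8 * (k * (A + 2) * (|Real.log (cn k n)| + 1)) * L ^ 2 := by ring
    linarith
  · rw [div_le_iff₀ hc] at g6
    linarith
  · have h5 : ((m : ℝ) + 1) * (1 + Real.log K2 + k * L) ≤ ((A + 2) * L) * ((1 + Real.log K2 + k) * L) := by
      refine mul_le_mul hm3 ?_ (by positivity) (by positivity)
      nlinarith
    have h6 : (3 * k + 1) * L ≤ (3 * k + 1) * L ^ 2 := by
      refine mul_le_mul_of_nonneg_left ?_ (by positivity)
      nlinarith
    have h7 : 8 * (((A + 2) * L) * ((1 + Real.log K2 + k) * L) + (3 * k + 1) * L ^ 2) =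
      8 * ((A + 2) * (1 + Real.log K2 + k) + (3 * k + 1)) * L ^ 2 := by ring
    linarith
  · have h8 : (4 * (k : ℝ) + 3) = A * δ := by rw [hA]; field_simp
    rw [h8]
    nlinarith

lemma left_FF (k N : ℕ) (hk : 1 ≤ k) {ρ : ℝ} (hρ : 1 ≤ ρ) {δ : ℝ} (hδ : 0 < δ) :
    ∃ C : ℝ, 0 ≤ C ∧ ∀ᶠ Z : ℝ in atTop, ∀ y : ℝ, y ≤ k * Real.log Z - δ →
      ‖Gt (FF k N (ρ * Z)) y - Gt (FF k N Z) y‖ ≤ C * Real.exp (-((3 * k + 1) * Real.log Z)) := by
  have h : ∀ n ∈ Finset.Icc 1 N, ∃ C : ℝ, 0 ≤ C ∧ ∀ᶠ Z : ℝ in atTop, ∀ y : ℝ, y ≤ k * Real.log Z - δ →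
      ‖Gt (Ln (Bk k n k) (hz (cn k n) (ρ * Z)) 0) y - Gt (Ln (Bk k n k) (hz (cn k n) Z) 0) y‖ ≤
        C * Real.exp (-((3 * k + 1) * Real.log Z)) :=
    fun n hn => left_pt hk (Finset.mem_Icc.1 hn).1 hρ hδ
  choose! C hC hev using h
  refine ⟨∑ n ∈ Finset.Icc 1 N, dr k n * C n, Finset.sum_nonneg fun n hn =>
    mul_nonneg (dr_nonneg k n) (hC n hn), ?_⟩
  filter_upwards [(Filter.eventually_all_finset _).2 hev, eventually_gt_atTop 0] with Z hZ hZ0 y hy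
  have hρZ : 0 < ρ * Z := mul_pos (by linarith) hZ0
  rw [Gt_FF hZ0, Gt_FF hρZ, ← Finset.sum_sub_distrib, Finset.sum_mul]
  refine (norm_sum_le _ _).trans (Finset.sum_le_sum fun n hn => ?_)
  rw [← mul_sub, norm_mul, Complex.norm_real, Real.norm_of_nonneg (dr_nonneg k n), mul_assoc]
  exact mul_le_mul_of_nonneg_left (hZ n hn y hy) (dr_nonneg k n)

/-- general scales -/
def FG (k N : ℕ) (a : ℕ → ℝ) (Z t : ℝ) : ℂ := ∑ n ∈ Finset.Icc 1 N, (dr k n : ℂ) * Ln (Bk k n k) (hz (a n) Z) 0 t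

lemma FF_eq (k N : ℕ) (Z t : ℝ) : FF k N Z t = FG k N (cn k) Z t := rfl

lemma FF_eq2 (k N : ℕ) (ρ Z t : ℝ) : FF k N (ρ * Z) t = FG k N (fun n => cn k n * ρ) Z t := by
  unfold FF FG
  refine Finset.sum_congr rfl fun n _ => ?_
  have : hz (cn k n) (ρ * Z) = hz (cn k n * ρ) Z := by unfold hz; rw [mul_assoc]
  rw [this]

lemma FG_mul {k N : ℕ} (hk : 1 ≤ k) (a b : ℕ → ℝ) (Z t : ℝ) : FG k N a Z t * conj (FG k N b Z t) =
    ∑ n ∈ Finset.Icc 1 N, ∑ m ∈ Finset.Icc 1 N, ((bm k n * bm k m : ℝ) : ℂ) *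
      (((wt k t * (ph (hz (a n) Z) t * ph (hz (b m) Z) t) : ℝ) : ℂ) *
        cexp (((Real.log m - Real.log n) * t : ℝ) * I)) := by
  have e1 : ∀ a : ℕ → ℝ, FG k N a Z t = CC k t * ∑ n ∈ Finset.Icc 1 N, (bm k n : ℂ) * ((ph (hz (a n) Z) t : ℂ) *
      cexp ((-(t * Real.log n) : ℝ) * I)) := by
    intro a
    unfold FG
    rw [Finset.mul_sum]
    refine Finset.sum_congr rfl fun n hn => ?_
    rw [Bk_line, npow (Finset.mem_Icc.1 hn).1]
    unfold bm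
    push_cast
    ring
  have e2 : CC k t * conj (CC k t) = ((wt k t : ℝ) : ℂ) := by
    rw [Complex.mul_conj, Complex.normSq_eq_norm_sq, CC_sq hk]
  rw [e1 a, e1 b, map_mul]
  set u := ∑ n ∈ Finset.Icc 1 N, (bm k n : ℂ) * ((ph (hz (a n) Z) t : ℂ) *
      cexp ((-(t * Real.log n) : ℝ) * I)) with hu
  set w := ∑ n ∈ Finset.Icc 1 N, (bm k n : ℂ) * ((ph (hz (b n) Z) t : ℂ) *
      cexp ((-(t * Real.log n) : ℝ) * I)) with hw
  have e0 : CC k t * u * (conj (CC k t) * conj w) = (CC k t * conj (CC k t)) * (u * conj w) := by ring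
  rw [e0, e2, hu, hw, map_sum, Finset.sum_mul_sum, Finset.mul_sum]
  refine Finset.sum_congr rfl fun n _ => ?_
  rw [Finset.mul_sum]
  refine Finset.sum_congr rfl fun m _ => ?_
  rw [map_mul, map_mul, Complex.conj_ofReal, Complex.conj_ofReal, ← Complex.exp_conj, map_mul,
    Complex.conj_ofReal, conj_I]
  have e3 : cexp (((Real.log m - Real.log n) * t : ℝ) * I) = cexp ((-(t * Real.log n) : ℝ) * I) *
      cexp ((-(t * Real.log m) : ℝ) * -I) := by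
    rw [← Complex.exp_add]
    congr 1
    push_cast
    ring
  rw [e3]
  push_cast
  ring

lemma wp_int2 {k : ℕ} (hk : 1 ≤ k) {c d : ℝ} (hc : 0 < c) (hd : 0 < d) (lam : ℝ) {Z : ℝ} (hZ : 1 ≤ Z) :
    Integrable (fun t : ℝ => ((wt k t * (ph (hz c Z) t * ph (hz d Z) t) : ℝ) : ℂ) *
        cexp ((lam * t : ℝ) * I)) ∧
    ∫ t : ℝ, ((wt k t * (ph (hz c Z) t * ph (hz d Z) t) : ℝ) : ℂ) *
        cexp ((lam * t : ℝ) * I) =
      ((Z ^ (2 * k - 1) / (4 * Real.pi ^ 2) ^ k : ℝ) : ℂ) *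
        ∫ y : ℝ, qs k c d Z y * cexp ((lam * Z * y : ℝ) * I) := by
  have hZ0 : 0 < Z := by linarith
  set g : ℝ → ℂ := fun t : ℝ => ((wt k t * (ph (hz c Z) t * ph (hz d Z) t) : ℝ) : ℂ) *
        cexp ((lam * t : ℝ) * I) with hg
  have e1 : ∀ y : ℝ, (Z : ℂ) * g (Z * y) = ((Z ^ (2 * k - 1) / (4 * Real.pi ^ 2) ^ k : ℝ) : ℂ) *
      (qs k c d Z y * cexp ((lam * Z * y : ℝ) * I)) := by
    intro y
    simp only [hg]
    have h3 := wt_scale hk hZ0 y
    have h4 : (Z : ℂ) * ((wt k (Z * y) : ℝ) : ℂ) =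
        (((Z ^ (2 * k - 1) * (pw k Z y / (4 * Real.pi ^ 2) ^ k)) : ℝ) : ℂ) := by
      rw [← h3]; push_cast; ring
    have h5 : cexp ((lam * (Z * y) : ℝ) * I) = cexp ((lam * Z * y : ℝ) * I) := by
      congr 2
      push_cast
      ring
    rw [h5, Complex.ofReal_mul (wt k (Z * y)), ← mul_assoc, ← mul_assoc, h4]
    unfold qs ff
    push_cast
    ring
  obtain ⟨K, hK, hb⟩ := qs_bd k hc hd
  have hqI : Integrable (fun y : ℝ => qs k c d Z y * cexp ((lam * Z * y : ℝ) * I)) := by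
    refine (inv_sq_int.const_mul K).mono' ((qs_cont k _ _ Z).mul (by fun_prop)).aestronglyMeasurable
      (Eventually.of_forall fun y => ?_)
    rw [norm_mul, Complex.norm_exp_ofReal_mul_I, mul_one]
    exact hb Z hZ y
  refine ⟨?_, ?_⟩
  · have h1 : Integrable (fun y => g (Z * y)) := by
      have h2 := (hqI.const_mul ((Z ^ (2 * k - 1) / (4 * Real.pi ^ 2) ^ k : ℝ) : ℂ)).const_mul ((Z : ℂ)⁻¹)
      refine h2.congr (Eventually.of_forall fun y => ?_)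
      simp only
      rw [← e1 y, ← mul_assoc, inv_mul_cancel₀ (by exact_mod_cast hZ0.ne'), one_mul]
    exact (integrable_comp_mul_left_iff g hZ0.ne').1 h1
  · have h := Measure.integral_comp_mul_left g Z
    rw [abs_of_pos (inv_pos.2 hZ0), Complex.real_smul] at h
    have h2 : ∫ t : ℝ, g t = (Z : ℂ) * ∫ y : ℝ, g (Z * y) := by
      rw [h, ← mul_assoc]
      have : (Z : ℂ) * ((Z⁻¹ : ℝ) : ℂ) = 1 := by
        rw [← Complex.ofReal_mul, mul_inv_cancel₀ hZ0.ne', Complex.ofReal_one]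
      rw [this, one_mul]
    rw [h2, ← integral_const_mul, ← integral_const_mul]
    exact integral_congr_ae (Eventually.of_forall e1)

lemma chi0_rho (k : ℕ) {c ρ : ℝ} (hc : 0 < c) (hρ : 1 ≤ ρ) (y : ℝ) : chi0 k (c * ρ) c y = phi0 k c y := by
  unfold chi0 phi0
  congr 2
  by_cases hy : y ∈ Icc (-c) c
  · have hcr : c ≤ c * ρ := by nlinarith
    have hy2 : y ∈ Icc (-(c * ρ)) (c * ρ) := ⟨by linarith [hy.1], by linarith [hy.2]⟩
    rw [indicator_of_mem hy, indicator_of_mem hy2, mul_one]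
  · rw [indicator_of_notMem hy, mul_zero]

lemma CR_lim {k : ℕ} (hk : 1 ≤ k) (N : ℕ) {ρ : ℝ} (hρ : 1 ≤ ρ) :
    Tendsto (fun Z : ℝ => (Z ^ (2 * k - 1))⁻¹ * (∫ t, FF k N (ρ * Z) t * conj (FF k N Z t)).re) atTop
      (𝓝 (((4 * Real.pi ^ 2) ^ k)⁻¹ * ∑ n ∈ Finset.Icc 1 N, bm k n ^ 2 *
        (2 * cn k n ^ (2 * k - 1) / (2 * k - 1)))) := by
  have hρ0 : 0 < ρ := by linarith
  have hterm : ∀ n ∈ Finset.Icc 1 N, ∀ m ∈ Finset.Icc 1 N, Tendsto (fun Z : ℝ =>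
      ((bm k n * bm k m : ℝ) : ℂ) * ∫ y : ℝ, qs k (cn k n * ρ) (cn k m) Z y *
        cexp (((Real.log m - Real.log n) * Z * y : ℝ) * I)) atTop
      (𝓝 (if m = n then ((bm k n ^ 2 * (2 * cn k n ^ (2 * k - 1) / (2 * k - 1)) : ℝ) : ℂ) else 0)) := by
    intro n hn m hm
    rw [Finset.mem_Icc] at hn hm
    have hcn : 0 < cn k n * ρ := mul_pos (cn_pos k hn.1) hρ0
    obtain ⟨K, hK, hb⟩ := qs_bd k hcn (cn_pos k hm.1)
    have h := (rl (φ := qs k (cn k n * ρ) (cn k m)) (φ0 := chi0 k (cn k n * ρ) (cn k m))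
      (inv_sq_int.const_mul K)
      (Eventually.of_forall fun Z => (qs_cont k _ _ Z).aestronglyMeasurable)
      (by filter_upwards [eventually_ge_atTop 1] with Z hZ using hb Z hZ)
      (qs_lim k hcn (cn_pos k hm.1))
      (Real.log m - Real.log n)).const_mul ((bm k n * bm k m : ℝ) : ℂ)
    have e : ((bm k n * bm k m : ℝ) : ℂ) * (if Real.log m - Real.log n = 0 then
        ∫ y, chi0 k (cn k n * ρ) (cn k m) y else 0) =
        if m = n then ((bm k n ^ 2 * (2 * cn k n ^ (2 * k - 1) / (2 * k - 1)) : ℝ) : ℂ) else 0 := by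
      by_cases hmn : m = n
      · subst hmn
        rw [if_pos (sub_self _), if_pos rfl]
        simp_rw [chi0_rho k (cn_pos k hm.1) hρ]
        rw [phi0_int hk (cn_pos k hm.1)]
        push_cast
        ring
      · rw [if_neg hmn]
        have : Real.log m - Real.log n ≠ 0 := by
          rw [sub_ne_zero]
          intro h1
          have h2 := Real.log_injOn_pos (Set.mem_Ioi.2 (by exact_mod_cast hm.1 : (0:ℝ) < m))
            (Set.mem_Ioi.2 (by exact_mod_cast hn.1 : (0:ℝ) < n)) h1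
          exact hmn (by exact_mod_cast h2)
        rw [if_neg this, mul_zero]
    rw [e] at h
    exact h
  have h1 : Tendsto (fun Z : ℝ => ∑ n ∈ Finset.Icc 1 N, ∑ m ∈ Finset.Icc 1 N,
      ((bm k n * bm k m : ℝ) : ℂ) * ∫ y : ℝ, qs k (cn k n * ρ) (cn k m) Z y *
        cexp (((Real.log m - Real.log n) * Z * y : ℝ) * I)) atTop
      (𝓝 (∑ n ∈ Finset.Icc 1 N, ∑ m ∈ Finset.Icc 1 N,
        (if m = n then ((bm k n ^ 2 * (2 * cn k n ^ (2 * k - 1) / (2 * k - 1)) : ℝ) : ℂ) else 0))) :=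
    tendsto_finsetSum _ fun n hn => tendsto_finsetSum _ fun m hm => hterm n hn m hm
  have e0 : (∑ n ∈ Finset.Icc 1 N, ∑ m ∈ Finset.Icc 1 N,
        (if m = n then ((bm k n ^ 2 * (2 * cn k n ^ (2 * k - 1) / (2 * k - 1)) : ℝ) : ℂ) else 0)) =
      ((∑ n ∈ Finset.Icc 1 N, bm k n ^ 2 * (2 * cn k n ^ (2 * k - 1) / (2 * k - 1)) : ℝ) : ℂ) := by
    rw [Complex.ofReal_sum]
    refine Finset.sum_congr rfl fun n hn => ?_
    rw [Finset.sum_ite_eq' (Finset.Icc 1 N) n, if_pos hn]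
  rw [e0] at h1
  have h2 := ((Complex.continuous_re.tendsto _).comp h1).const_mul (((4 * Real.pi ^ 2) ^ k)⁻¹)
  rw [Complex.ofReal_re] at h2
  refine h2.congr' ?_
  filter_upwards [eventually_ge_atTop 1] with Z hZ
  have hZ0 : 0 < Z := by linarith
  have h3 : ∫ t, FF k N (ρ * Z) t * conj (FF k N Z t) = ((Z ^ (2 * k - 1) / (4 * Real.pi ^ 2) ^ k : ℝ) : ℂ) *
      ∑ n ∈ Finset.Icc 1 N, ∑ m ∈ Finset.Icc 1 N,
      ((bm k n * bm k m : ℝ) : ℂ) * ∫ y : ℝ, qs k (cn k n * ρ) (cn k m) Z y *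
        cexp (((Real.log m - Real.log n) * Z * y : ℝ) * I) := by
    simp_rw [FF_eq2, FF_eq, FG_mul hk]
    have hint : ∀ n ∈ Finset.Icc 1 N, ∀ m ∈ Finset.Icc 1 N, Integrable (fun t : ℝ =>
        ((bm k n * bm k m : ℝ) : ℂ) * (((wt k t * (ph (hz (cn k n * ρ) Z) t * ph (hz (cn k m) Z) t) : ℝ) : ℂ) *
        cexp (((Real.log m - Real.log n) * t : ℝ) * I))) := fun n hn m hm =>
      (wp_int2 hk (mul_pos (cn_pos k (Finset.mem_Icc.1 hn).1) hρ0) (cn_pos k (Finset.mem_Icc.1 hm).1) _ hZ).1.const_mul _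
    rw [integral_finsetSum _ fun n hn => integrable_finsetSum _ fun m hm => hint n hn m hm, Finset.mul_sum]
    refine Finset.sum_congr rfl fun n hn => ?_
    rw [integral_finsetSum _ fun m hm => hint n hn m hm, Finset.mul_sum]
    refine Finset.sum_congr rfl fun m hm => ?_
    rw [integral_const_mul, (wp_int2 hk (mul_pos (cn_pos k (Finset.mem_Icc.1 hn).1) hρ0)
      (cn_pos k (Finset.mem_Icc.1 hm).1) _ hZ).2]
    ring
  rw [h3, Complex.re_ofReal_mul]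
  simp only [Function.comp]
  have hZp : (Z ^ (2 * k - 1)) ≠ 0 := by positivity
  have halg : ∀ a b r : ℝ, a ≠ 0 → b⁻¹ * r = a⁻¹ * (a / b * r) := by
    intro a b r ha
    rw [← mul_assoc, ← mul_div_assoc, inv_mul_cancel₀ ha, one_div]
  exact halg _ _ _ hZp

end

end Pool.Agent.TH535.PZ
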