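import Pool.Agent.TH535.PZ.P16
import Pool.Agent.TH535.PZ.P11

set_option autoImplicit false

/-! The lower bound on `[X, λX]`. -/

namespace Pool.Agent.TH535.PZ

open Complex MeasureTheory Filter Topology Set
open Pool.Agent.W182.KO (XX XX_diff XX_bound zeta_XX strip_shift)
open Pool.Agent.TH535.SM
open scoped FourierTransform ComplexConjugate

noncomputable section

/-- the norm of the difference -/
def ND (k N : ℕ) (ρ Z : ℝ) : ℝ := ∫ t, ‖FF k N (ρ * Z) t - FF k N Z t‖ ^ 2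

lemma ND_eq {k N : ℕ} {ρ Z : ℝ} (hρ : 0 < ρ) (hZ : 0 < Z) : ND k N ρ Z = NN k N (ρ * Z) + NN k N Z -
    2 * (∫ t, FF k N (ρ * Z) t * conj (FF k N Z t)).re := by
  have hD1 := FF_dec k N hZ
  have hD2 := FF_dec k N (mul_pos hρ hZ)
  have hI : Integrable (fun t => FF k N (ρ * Z) t * conj (FF k N Z t)) := by
    obtain ⟨B, hB, hb⟩ := hD1.bd
    refine (hD2.int.norm.mul_const B).mono' (hD2.cont.mul (Complex.continuous_conj.comp hD1.cont)).aestronglyMeasurable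
      (Eventually.of_forall fun t => ?_)
    rw [norm_mul, RCLike.norm_conj]
    refine mul_le_mul_of_nonneg_left ((hb t).trans ?_) (norm_nonneg _)
    have h1 : (1:ℝ) ≤ (1 + |t|) ^ 2 := one_le_pow₀ (by have := abs_nonneg t; linarith)
    have h2 : ((1 + |t|) ^ 2)⁻¹ ≤ 1 := inv_le_one_of_one_le₀ h1
    nlinarith
  have hre : (∫ t, FF k N (ρ * Z) t * conj (FF k N Z t)).re = ∫ t, (FF k N (ρ * Z) t * conj (FF k N Z t)).re :=
    (Complex.reCLM.integral_comp_comm hI).symm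
  have hIre : Integrable (fun t => (FF k N (ρ * Z) t * conj (FF k N Z t)).re) := Complex.reCLM.integrable_comp hI
  have hsum : Integrable (fun t => ‖FF k N (ρ * Z) t‖ ^ 2 + ‖FF k N Z t‖ ^ 2) := hD2.sq.add hD1.sq
  unfold ND NN
  rw [hre, ← integral_const_mul, ← integral_add hD2.sq hD1.sq, ← integral_sub hsum (hIre.const_mul 2)]
  refine integral_congr_ae (Eventually.of_forall fun t => ?_)
  simp only
  set a := FF k N (ρ * Z) t
  set b := FF k N Z t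
  have h := Complex.normSq_sub a b
  rw [Complex.normSq_eq_norm_sq, Complex.normSq_eq_norm_sq, Complex.normSq_eq_norm_sq] at h
  exact h

lemma main_ineq2 {k N : ℕ} (hk : 1 ≤ k) {ρ Z : ℝ} (hρ : 0 < ρ) (hZ : 0 < Z) {P : Polynomial ℝ} (hP : P.natDegree < k)
    {y1 y2 : ℝ} (hy : y1 ≤ y2) :
    2 * ((∫ y : ℝ, (Dt k P y : ℂ) * Gt (FF k N (ρ * Z)) y).re - (∫ y : ℝ, (Dt k P y : ℂ) * Gt (FF k N Z) y).re) -
      2 * (∫ y in Ioi y2, ‖(Dt k P y : ℂ) * (Gt (FF k N (ρ * Z)) y - Gt (FF k N Z) y)‖) -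
      2 * (∫ y in Iic y1, ‖(Dt k P y : ℂ) * (Gt (FF k N (ρ * Z)) y - Gt (FF k N Z) y)‖) -
      (2 * Real.pi)⁻¹ * ND k N ρ Z ≤ ∫ y in Ioc y1 y2, Dt k P y ^ 2 := by
  have hρZ := mul_pos hρ hZ
  obtain ⟨hI1, -⟩ := pair_total (N := N) hk hZ hP
  obtain ⟨hI2, -⟩ := pair_total (N := N) hk hρZ hP
  have hD := (FF_dec k N hρZ).sub (FF_dec k N hZ)
  obtain ⟨hG, hG2⟩ := Gt_planch hD
  have hsub : ∀ y, Gt (fun t => FF k N (ρ * Z) t - FF k N Z t) y = Gt (FF k N (ρ * Z)) y - Gt (FF k N Z) y :=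
    Gt_sub (FF_dec k N hρZ).int (FF_dec k N hZ).int
  simp_rw [hsub] at hG hG2
  set G : ℝ → ℂ := fun y => Gt (FF k N (ρ * Z)) y - Gt (FF k N Z) y with hGd
  have hI : Integrable (fun y => (Dt k P y : ℂ) * G y) := by
    refine (hI2.sub hI1).congr (Eventually.of_forall fun y => ?_)
    simp only [hGd, Pi.sub_apply]
    ring
  have h0 : (∫ y : ℝ, (Dt k P y : ℂ) * Gt (FF k N (ρ * Z)) y).re - (∫ y : ℝ, (Dt k P y : ℂ) * Gt (FF k N Z) y).re =
      (∫ y : ℝ, (Dt k P y : ℂ) * G y).re := by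
    rw [← Complex.sub_re, ← integral_sub hI2 hI1]
    congr 1
    refine integral_congr_ae (Eventually.of_forall fun y => ?_)
    simp only [hGd]
    ring
  rw [h0]
  have hcompl : (Iic y2)ᶜ = Ioi y2 := compl_Iic
  have hu : Iic y2 = Iic y1 ∪ Ioc y1 y2 := (Iic_union_Ioc_eq_Iic hy).symm
  have h1 : (∫ y : ℝ, (Dt k P y : ℂ) * G y).re = (∫ y in Iic y1, (Dt k P y : ℂ) * G y).re +
      (∫ y in Ioc y1 y2, (Dt k P y : ℂ) * G y).re + (∫ y in Ioi y2, (Dt k P y : ℂ) * G y).re := by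
    rw [← integral_add_compl (measurableSet_Iic (a := y2)) hI, hcompl, hu,
      setIntegral_union (Iic_disjoint_Ioc le_rfl) measurableSet_Ioc hI.integrableOn hI.integrableOn,
      Complex.add_re, Complex.add_re]
  have h2 : (∫ y in Ioi y2, (Dt k P y : ℂ) * G y).re ≤ ∫ y in Ioi y2, ‖(Dt k P y : ℂ) * G y‖ :=
    (Complex.re_le_norm _).trans (norm_integral_le_integral_norm _)
  have h2' : (∫ y in Iic y1, (Dt k P y : ℂ) * G y).re ≤ ∫ y in Iic y1, ‖(Dt k P y : ℂ) * G y‖ :=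
    (Complex.re_le_norm _).trans (norm_integral_le_integral_norm _)
  have hsq : IntegrableOn (fun y => Dt k P y ^ 2) (Ioc y1 y2) := (Dt_sq_int k P y2).mono_set Ioc_subset_Iic_self
  have h3 : 2 * (∫ y in Ioc y1 y2, (Dt k P y : ℂ) * G y).re ≤
      (∫ y in Ioc y1 y2, Dt k P y ^ 2) + ∫ y in Ioc y1 y2, ‖G y‖ ^ 2 := by
    have e : (∫ y in Ioc y1 y2, (Dt k P y : ℂ) * G y).re = ∫ y in Ioc y1 y2, ((Dt k P y : ℂ) * G y).re :=
      (Complex.reCLM.integral_comp_comm (hI.integrableOn (s := Ioc y1 y2))).symm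
    rw [e, ← integral_add hsq hG.integrableOn, ← integral_const_mul]
    refine integral_mono ?_ (hsq.add hG.integrableOn) fun y => ?_
    · exact (Complex.reCLM.integrable_comp (hI.integrableOn (s := Ioc y1 y2))).const_mul 2
    · simp only
      rw [Complex.re_ofReal_mul]
      have h4 : (G y).re ^ 2 ≤ ‖G y‖ ^ 2 := by
        rw [← sq_abs (G y).re]
        exact pow_le_pow_left₀ (abs_nonneg _) (Complex.abs_re_le_norm _) 2
      nlinarith [sq_nonneg (Dt k P y - (G y).re)]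
  have h4 : ∫ y in Ioc y1 y2, ‖G y‖ ^ 2 ≤ (2 * Real.pi)⁻¹ * ND k N ρ Z := by
    unfold ND
    rw [← hG2]
    exact setIntegral_le_integral hG (Eventually.of_forall fun y => by positivity)
  linarith

lemma right_total {k : ℕ} (N : ℕ) (hk : 1 ≤ k) {ρ : ℝ} (hρ : 1 ≤ ρ) {δ : ℝ} (hδ : 0 < δ) {P : Polynomial ℝ}
    (hP : P.natDegree < k) : ∃ C : ℝ, 0 ≤ C ∧ ∀ᶠ Z : ℝ in atTop,
      ∫ y in Ioi (k * Real.log (ρ * Z) + δ), ‖(Dt k P y : ℂ) * (Gt (FF k N (ρ * Z)) y - Gt (FF k N Z) y)‖ ≤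
        C * Z⁻¹ := by
  obtain ⟨C, hC, h⟩ := tail_total N hk hδ hP
  have hρ0 : 0 < ρ := by linarith
  refine ⟨2 * C, by positivity, ?_⟩
  have h2 : ∀ᶠ Z : ℝ in atTop, ∫ y in Ioi (k * Real.log (ρ * Z) + δ), ‖(Dt k P y : ℂ) * Gt (FF k N (ρ * Z)) y‖ ≤
      C * (ρ * Z)⁻¹ := (tendsto_id.const_mul_atTop hρ0).eventually h
  filter_upwards [h, h2, eventually_gt_atTop 0] with Z g1 g2 hZ
  have hρZ := mul_pos hρ0 hZ
  obtain ⟨hI1, -⟩ := pair_total (N := N) hk hZ hP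
  obtain ⟨hI2, -⟩ := pair_total (N := N) hk hρZ hP
  have hle : k * Real.log Z + δ ≤ k * Real.log (ρ * Z) + δ := by
    have : Real.log Z ≤ Real.log (ρ * Z) := Real.log_le_log hZ (by nlinarith)
    have hk0 : (0:ℝ) ≤ k := Nat.cast_nonneg k
    nlinarith
  have g3 : ∫ y in Ioi (k * Real.log (ρ * Z) + δ), ‖(Dt k P y : ℂ) * Gt (FF k N Z) y‖ ≤ C * Z⁻¹ :=
    (setIntegral_mono_set hI1.norm.integrableOn (Eventually.of_forall fun y => norm_nonneg _)
      (Ioi_subset_Ioi hle).eventuallyLE).trans g1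
  have g4 : C * (ρ * Z)⁻¹ ≤ C * Z⁻¹ := by
    refine mul_le_mul_of_nonneg_left (inv_anti₀ hZ (by nlinarith)) hC
  calc _ ≤ ∫ y in Ioi (k * Real.log (ρ * Z) + δ), (‖(Dt k P y : ℂ) * Gt (FF k N (ρ * Z)) y‖ +
        ‖(Dt k P y : ℂ) * Gt (FF k N Z) y‖) := by
        refine integral_mono ?_ (hI2.norm.integrableOn.add hI1.norm.integrableOn) fun y => ?_
        · have : IntegrableOn (fun y => (Dt k P y : ℂ) * Gt (FF k N (ρ * Z)) y - (Dt k P y : ℂ) * Gt (FF k N Z) y)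
              (Ioi (k * Real.log (ρ * Z) + δ)) := (hI2.sub hI1).integrableOn
          simp_rw [← mul_sub] at this
          exact this.norm
        · simp only
          rw [mul_sub]
          exact norm_sub_le _ _
    _ = (∫ y in Ioi (k * Real.log (ρ * Z) + δ), ‖(Dt k P y : ℂ) * Gt (FF k N (ρ * Z)) y‖) +
        ∫ y in Ioi (k * Real.log (ρ * Z) + δ), ‖(Dt k P y : ℂ) * Gt (FF k N Z) y‖ :=
        integral_add hI2.norm.integrableOn hI1.norm.integrableOn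
    _ ≤ _ := by linarith

lemma left_total {k : ℕ} (N : ℕ) (hk : 1 ≤ k) {ρ : ℝ} (hρ : 1 ≤ ρ) {δ : ℝ} (hδ : 0 < δ) {P : Polynomial ℝ}
    (hP : P.natDegree < k) : ∃ C : ℝ, 0 ≤ C ∧ ∀ᶠ Z : ℝ in atTop,
      ∫ y in Iic (k * Real.log Z - δ), ‖(Dt k P y : ℂ) * (Gt (FF k N (ρ * Z)) y - Gt (FF k N Z) y)‖ ≤
        C * Z⁻¹ := by
  obtain ⟨C1, hC1, h1⟩ := Dt_bd k P
  obtain ⟨C2, hC2, h2⟩ := left_FF k N hk hρ hδ
  have hρ0 : 0 < ρ := by linarith
  refine ⟨2 * C1 * C2, by positivity, ?_⟩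
  filter_upwards [h2, eventually_ge_atTop 1] with Z hZ hZ1
  have hZ0 : 0 < Z := by linarith
  have hρZ := mul_pos hρ0 hZ0
  have hL := Real.log_nonneg hZ1
  have hk1 : (1:ℝ) ≤ k := by exact_mod_cast hk
  obtain ⟨hI1, -⟩ := pair_total (N := N) hk hZ0 hP
  obtain ⟨hI2, -⟩ := pair_total (N := N) hk hρZ hP
  set y1 := k * Real.log Z - δ with hy1
  have hy1' : y1 ≤ k * Real.log Z := by linarith
  set W : ℝ := C1 * C2 * Real.exp (-((3 * k + 1) * Real.log Z) + 2 * (k * Real.log Z)) with hW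
  have hg : IntegrableOn (fun y : ℝ => W * Real.exp (1 / 2 * y)) (Iic y1) :=
    (integrableOn_exp_mul_Iic (by norm_num) y1).const_mul _
  have hval : ∫ y in Iic y1, Real.exp (1 / 2 * y) = 2 * Real.exp (1 / 2 * y1) := by
    have h3 := integral_exp_Iic (1 / 2 * y1)
    have h4 := integral_image_eq_integral_abs_deriv_smul (s := Iic y1) (f := fun y : ℝ => 1 / 2 * y)
      (f' := fun _ => 1 / 2) measurableSet_Iic
      (fun x _ => ((hasDerivAt_id' x).const_mul (1 / 2) |>.congr_deriv (by ring)).hasDerivWithinAt)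
      (fun a _ b _ hab => by simp only at hab; linarith) Real.exp
    have himg : (fun y : ℝ => 1 / 2 * y) '' Iic y1 = Iic (1 / 2 * y1) := by
      ext x
      simp only [mem_image, mem_Iic]
      constructor
      · rintro ⟨y, hy, rfl⟩; linarith
      · intro hx; exact ⟨2 * x, by linarith, by ring⟩
    rw [himg, h3] at h4
    have h5 : ∫ y in Iic y1, |(1 / 2 : ℝ)| • Real.exp (1 / 2 * y) = 1 / 2 * ∫ y in Iic y1, Real.exp (1 / 2 * y) := by
      rw [← integral_const_mul]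
      refine integral_congr_ae (Eventually.of_forall fun y => ?_)
      simp only [smul_eq_mul]
      rw [abs_of_pos (by norm_num)]
    rw [h5] at h4
    linarith
  have hf : IntegrableOn (fun y => ‖(Dt k P y : ℂ) * (Gt (FF k N (ρ * Z)) y - Gt (FF k N Z) y)‖) (Iic y1) := by
    have : IntegrableOn (fun y => (Dt k P y : ℂ) * Gt (FF k N (ρ * Z)) y - (Dt k P y : ℂ) * Gt (FF k N Z) y)
              (Iic y1) := (hI2.sub hI1).integrableOn
    simp_rw [← mul_sub] at this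
    exact this.norm
  calc _ ≤ ∫ y in Iic y1, W * Real.exp (1 / 2 * y) := by
        refine setIntegral_mono_on hf hg measurableSet_Iic fun y hy => ?_
        have hyy : y ≤ y1 := hy
        rw [norm_mul, Complex.norm_real, Real.norm_eq_abs]
        have h3 := h1 y
        have h4 := hZ y hyy
        have h5 : Real.exp (y / 2 + 2 * max y 0) ≤ Real.exp (2 * (k * Real.log Z)) * Real.exp (1 / 2 * y) := by
          rw [← Real.exp_add]
          refine Real.exp_le_exp.2 ?_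
          have : max y 0 ≤ k * Real.log Z := max_le (hyy.trans hy1') (by positivity)
          linarith
        calc _ ≤ (C1 * (Real.exp (2 * (k * Real.log Z)) * Real.exp (1 / 2 * y))) *
              (C2 * Real.exp (-((3 * k + 1) * Real.log Z))) :=
              mul_le_mul (h3.trans (mul_le_mul_of_nonneg_left h5 hC1)) h4 (norm_nonneg _) (by positivity)
          _ = _ := by rw [hW, Real.exp_add]; ring
    _ = W * (2 * Real.exp (1 / 2 * y1)) := by rw [integral_const_mul, hval]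
    _ ≤ W * (2 * Real.exp (1 / 2 * (k * Real.log Z))) := by
        have hW0 : 0 ≤ W := by rw [hW]; positivity
        gcongr
    _ = 2 * C1 * C2 * Real.exp ((-((3 * k + 1) * Real.log Z) + 2 * (k * Real.log Z)) + 1 / 2 * (k * Real.log Z)) := by
        rw [hW, Real.exp_add (_ + _)]; ring
    _ ≤ 2 * C1 * C2 * Z⁻¹ := by
        refine mul_le_mul_of_nonneg_left ?_ (by positivity)
        have e6 : Z⁻¹ = Real.exp (-Real.log Z) := by rw [Real.exp_neg, Real.exp_log hZ0]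
        rw [e6]
        refine Real.exp_le_exp.2 ?_
        nlinarith [mul_nonneg (by linarith : (0:ℝ) ≤ k) hL]

/-- the lower bound along the scale `Z` -/
lemma lower_Z2 {k : ℕ} (N : ℕ) (hk : 1 ≤ k) {ρ : ℝ} (hρ : 1 ≤ ρ) {δ : ℝ} (hδ : 0 < δ) {P : Polynomial ℝ}
    (hP : P.natDegree < k) {c : ℝ} (hc : c < (2 * Real.pi)⁻¹ * Lc k N * (ρ ^ (2 * k - 1) - 1)) :
    ∀ᶠ Z : ℝ in atTop, c * Z ^ (2 * k - 1) ≤
      ∫ y in Ioc (k * Real.log Z - δ) (k * Real.log (ρ * Z) + δ), Dt k P y ^ 2 := by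
  have hρ0 : 0 < ρ := by linarith
  obtain ⟨Cr, hCr, hr⟩ := right_total N hk hρ hδ hP
  obtain ⟨Cl, hCl, hl⟩ := left_total N hk hρ hδ hP
  have hscale : Tendsto (fun Z : ℝ => ρ * Z) atTop atTop := tendsto_id.const_mul_atTop hρ0
  have hr0 : ρ ^ (2 * k - 1) ≠ 0 := by positivity
  -- pairing
  have p1 := pair_lim N hk hP
  have p2 := ((pair_lim N hk hP).comp hscale).const_mul (ρ ^ (2 * k - 1))
  have n1 := NN_lim hk N
  have n2 := ((NN_lim hk N).comp hscale).const_mul (ρ ^ (2 * k - 1))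
  have n3 := CR_lim hk N hρ
  have h3 : Tendsto (fun Z : ℝ => 2 * (Cr * Z⁻¹) + 2 * (Cl * Z⁻¹)) atTop (𝓝 (2 * (Cr * 0) + 2 * (Cl * 0))) :=
    ((tendsto_inv_atTop_zero.const_mul Cr).const_mul 2).add ((tendsto_inv_atTop_zero.const_mul Cl).const_mul 2)
  have h4 := ((((p2.sub p1).const_mul 2).sub h3).sub (((n2.add n1).sub (n3.const_mul 2)).const_mul ((2 * Real.pi)⁻¹)))
  have e : 2 * (ρ ^ (2 * k - 1) * ((2 * Real.pi)⁻¹ * Lc k N) - (2 * Real.pi)⁻¹ * Lc k N) -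
      (2 * (Cr * 0) + 2 * (Cl * 0)) - (2 * Real.pi)⁻¹ * (ρ ^ (2 * k - 1) * (((4 * Real.pi ^ 2) ^ k)⁻¹ *
      ∑ n ∈ Finset.Icc 1 N, bm k n ^ 2 * (2 * cn k n ^ (2 * k - 1) / (2 * k - 1))) + (((4 * Real.pi ^ 2) ^ k)⁻¹ *
      ∑ n ∈ Finset.Icc 1 N, bm k n ^ 2 * (2 * cn k n ^ (2 * k - 1) / (2 * k - 1))) -
      2 * (((4 * Real.pi ^ 2) ^ k)⁻¹ *
      ∑ n ∈ Finset.Icc 1 N, bm k n ^ 2 * (2 * cn k n ^ (2 * k - 1) / (2 * k - 1)))) =
      (2 * Real.pi)⁻¹ * Lc k N * (ρ ^ (2 * k - 1) - 1) := by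
    unfold Lc
    ring
  rw [e] at h4
  filter_upwards [h4.eventually_const_lt hc, hr, hl, eventually_ge_atTop 1] with Z hZ hZr hZl hZ1
  have hZ0 : 0 < Z := by linarith
  have hW : 1 ≤ Z ^ (2 * k - 1) := one_le_pow₀ hZ1
  have hW0 : 0 < Z ^ (2 * k - 1) := by positivity
  have hle : k * Real.log Z - δ ≤ k * Real.log (ρ * Z) + δ := by
    have : Real.log Z ≤ Real.log (ρ * Z) := Real.log_le_log hZ0 (by nlinarith)
    have hk0 : (0:ℝ) ≤ k := Nat.cast_nonneg k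
    nlinarith
  have h5 := main_ineq2 (N := N) hk hρ0 hZ0 hP hle
  refine le_trans ?_ h5
  rw [ND_eq hρ0 hZ0]
  simp only [Function.comp] at hZ
  have hsc : ∀ r : ℝ, ρ ^ (2 * k - 1) * (((ρ * Z) ^ (2 * k - 1))⁻¹ * r) = (Z ^ (2 * k - 1))⁻¹ * r := by
    intro r
    rw [mul_pow, mul_inv, ← mul_assoc, ← mul_assoc, mul_inv_cancel₀ hr0, one_mul]
  rw [hsc, hsc] at hZ
  set W := Z ^ (2 * k - 1) with hWd
  set A2 := (∫ y : ℝ, (Dt k P y : ℂ) * Gt (FF k N (ρ * Z)) y).re with hA2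
  set A1 := (∫ y : ℝ, (Dt k P y : ℂ) * Gt (FF k N Z) y).re with hA1
  set R := ∫ y in Ioi (k * Real.log (ρ * Z) + δ), ‖(Dt k P y : ℂ) * (Gt (FF k N (ρ * Z)) y - Gt (FF k N Z) y)‖ with hR
  set L := ∫ y in Iic (k * Real.log Z - δ), ‖(Dt k P y : ℂ) * (Gt (FF k N (ρ * Z)) y - Gt (FF k N Z) y)‖ with hL
  set X := (∫ t, FF k N (ρ * Z) t * conj (FF k N Z t)).re with hX
  have h6 : c * W ≤ (2 * (W⁻¹ * A2 - W⁻¹ * A1) - (2 * (Cr * Z⁻¹) + 2 * (Cl * Z⁻¹)) -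
      (2 * Real.pi)⁻¹ * (W⁻¹ * NN k N (ρ * Z) + W⁻¹ * NN k N Z - 2 * (W⁻¹ * X))) * W :=
    mul_le_mul_of_nonneg_right hZ.le hW0.le
  have h7 : (2 * (W⁻¹ * A2 - W⁻¹ * A1) - (2 * (Cr * Z⁻¹) + 2 * (Cl * Z⁻¹)) -
      (2 * Real.pi)⁻¹ * (W⁻¹ * NN k N (ρ * Z) + W⁻¹ * NN k N Z - 2 * (W⁻¹ * X))) * W =
      2 * (A2 - A1) - (2 * (Cr * Z⁻¹) + 2 * (Cl * Z⁻¹)) * W -
      (2 * Real.pi)⁻¹ * (NN k N (ρ * Z) + NN k N Z - 2 * X) := by
    have : W⁻¹ * W = 1 := inv_mul_cancel₀ hW0.ne'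
    linear_combination (2 * (A2 - A1) - (2 * Real.pi)⁻¹ * (NN k N (ρ * Z) + NN k N Z - 2 * X)) * this
  have hZi : 0 < Z⁻¹ := inv_pos.2 hZ0
  have h8 : R ≤ (Cr * Z⁻¹) * W := by
    calc R ≤ Cr * Z⁻¹ := hZr
      _ = (Cr * Z⁻¹) * 1 := (mul_one _).symm
      _ ≤ _ := by gcongr
  have h9 : L ≤ (Cl * Z⁻¹) * W := by
    calc L ≤ Cl * Z⁻¹ := hZl
      _ = (Cl * Z⁻¹) * 1 := (mul_one _).symm
      _ ≤ _ := by gcongr
  linarith

end

end Pool.Agent.TH535.PZ
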