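import Pool.Agent.TH535.PZ.P17

set_option autoImplicit false

/-! The final form on `[X, λX]`. -/

namespace Pool.Agent.TH535.PZ

open Complex MeasureTheory Filter Topology Set
open Pool.Agent.W182.KO (XX XX_diff XX_bound zeta_XX strip_shift)
open Pool.Agent.TH535.SM
open scoped FourierTransform ComplexConjugate

noncomputable section

lemma change_var2 (k : ℕ) (P : Polynomial ℝ) (y1 y2 : ℝ) :
    ∫ y in Ioc y1 y2, Dt k P y ^ 2 =
      ∫ x in Ioc (Real.exp y1) (Real.exp y2), (Dk k x - x * P.eval (Real.log x)) ^ 2 := by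
  have himg : Real.exp '' Ioc y1 y2 = Ioc (Real.exp y1) (Real.exp y2) := by
    ext x
    simp only [mem_image, mem_Ioc]
    constructor
    · rintro ⟨y, ⟨hy, hy2⟩, rfl⟩
      exact ⟨Real.exp_lt_exp.2 hy, Real.exp_le_exp.2 hy2⟩
    · rintro ⟨hx, hx2⟩
      have hx0 : 0 < x := (Real.exp_pos y1).trans hx
      refine ⟨Real.log x, ⟨?_, ?_⟩, Real.exp_log hx0⟩
      · rw [Real.lt_log_iff_exp_lt hx0]; exact hx
      · rw [Real.log_le_iff_le_exp hx0]; exact hx2
  have h := integral_image_eq_integral_abs_deriv_smul (s := Ioc y1 y2) (f := Real.exp) (f' := Real.exp)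
    measurableSet_Ioc (fun x _ => (Real.hasDerivAt_exp x).hasDerivWithinAt) Real.exp_injective.injOn
    (fun x : ℝ => (Dk k x - x * P.eval (Real.log x)) ^ 2)
  rw [himg] at h
  rw [h]
  refine integral_congr_ae (Eventually.of_forall fun y => ?_)
  simp only
  rw [abs_of_pos (Real.exp_pos y), smul_eq_mul, Real.log_exp]
  unfold Dt
  have e : Real.exp y = Real.exp (y / 2) ^ 2 := by
    rw [← Real.exp_nat_mul]; congr 1; push_cast; ring
  rw [mul_pow, ← e]
  ring

lemma lower_X2 {k : ℕ} (N : ℕ) (hk : 1 ≤ k) {P : Polynomial ℝ} (hP : P.natDegree < k) {lam : ℝ} (hlam : 1 < lam)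
    {c : ℝ} (hc : c < (2 * Real.pi)⁻¹ * Lc k N * (lam ^ (2 - 1 / (k : ℝ)) - 1)) :
    ∀ᶠ X : ℝ in atTop, c * X ^ (2 - 1 / (k : ℝ)) ≤
      ∫ x in X..(lam * X), (Dk k x - x * P.eval (Real.log x)) ^ 2 := by
  have hk1 : (1:ℝ) ≤ k := by exact_mod_cast hk
  have hk0 : (0:ℝ) < k := by linarith
  have hlam0 : 0 < lam := by linarith
  set e := 2 - 1 / (k : ℝ) with he
  have he0 : 0 < e := by
    have : 1 / (k : ℝ) ≤ 1 := by rw [div_le_one hk0]; exact hk1
    linarith
  -- choice of `δ`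
  have hlim1 : Tendsto (fun δ : ℝ => c * Real.exp (-δ * e)) (𝓝 0) (𝓝 c) := by
    have : Continuous (fun δ : ℝ => c * Real.exp (-δ * e)) := by fun_prop
    have h3 := this.tendsto 0
    simpa using h3
  have hlim2 : Tendsto (fun δ : ℝ => (2 * Real.pi)⁻¹ * Lc k N * (Real.exp (-(2 * δ) * e) * lam ^ e - 1)) (𝓝 0)
      (𝓝 ((2 * Real.pi)⁻¹ * Lc k N * (lam ^ e - 1))) := by
    have : Continuous (fun δ : ℝ => (2 * Real.pi)⁻¹ * Lc k N * (Real.exp (-(2 * δ) * e) * lam ^ e - 1)) := by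
      fun_prop
    have h3 := this.tendsto 0
    simpa using h3
  have hlim3 : Tendsto (fun δ : ℝ => Real.exp (-(2 * δ)) * lam) (𝓝 0) (𝓝 lam) := by
    have : Continuous (fun δ : ℝ => Real.exp (-(2 * δ)) * lam) := by fun_prop
    have h3 := this.tendsto 0
    simpa using h3
  have hev : ∀ᶠ δ : ℝ in 𝓝[>] 0, c * Real.exp (-δ * e) <
      (2 * Real.pi)⁻¹ * Lc k N * (Real.exp (-(2 * δ) * e) * lam ^ e - 1) :=
    ((hlim1.mono_left nhdsWithin_le_nhds).eventually_lt (hlim2.mono_left nhdsWithin_le_nhds) hc)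
  have hev3 : ∀ᶠ δ : ℝ in 𝓝[>] 0, 1 < Real.exp (-(2 * δ)) * lam :=
    (hlim3.mono_left nhdsWithin_le_nhds).eventually_const_lt hlam
  obtain ⟨δ, ⟨hδ, hδ3⟩, hδ0⟩ := ((hev.and hev3).and self_mem_nhdsWithin).exists
  have hδ0' : 0 < δ := hδ0
  set ρ : ℝ := (Real.exp (-(2 * δ)) * lam) ^ (1 / (k : ℝ)) with hρd
  have hbase : 0 < Real.exp (-(2 * δ)) * lam := by positivity
  have hρ : 1 ≤ ρ := Real.one_le_rpow hδ3.le (by positivity)
  have hρ0 : 0 < ρ := by linarith
  have hexpo : ∀ b : ℝ, 0 < b → (b ^ (1 / (k : ℝ))) ^ (2 * k - 1) = b ^ e := by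
    intro b hb
    rw [← Real.rpow_natCast, ← Real.rpow_mul hb.le, Nat.cast_sub (by omega)]
    congr 1
    rw [he]
    push_cast
    field_simp
  have hρp : ρ ^ (2 * k - 1) = Real.exp (-(2 * δ) * e) * lam ^ e := by
    rw [hρd, hexpo _ hbase, Real.mul_rpow (Real.exp_pos _).le hlam0.le, ← Real.exp_mul]
  have hl := lower_Z2 N hk hρ hδ0' hP (c := c * Real.exp (-δ * e)) (by rw [hρp]; exact hδ)
  have hZt : Tendsto (fun X : ℝ => (Real.exp δ * X) ^ (1 / (k : ℝ))) atTop atTop :=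
    (tendsto_rpow_atTop (by positivity)).comp (tendsto_id.const_mul_atTop (Real.exp_pos _))
  have hl2 := hZt.eventually hl
  filter_upwards [hl2, eventually_ge_atTop 1] with X hX hX1
  have hX0 : 0 < X := by linarith
  have hpos : 0 < Real.exp δ * X := by positivity
  have hlogZ : Real.log ((Real.exp δ * X) ^ (1 / (k : ℝ))) = 1 / k * (δ + Real.log X) := by
    rw [Real.log_rpow hpos, Real.log_mul (Real.exp_pos _).ne' hX0.ne', Real.log_exp]
  have e1 : k * Real.log ((Real.exp δ * X) ^ (1 / (k : ℝ))) - δ = Real.log X := by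
    rw [hlogZ]
    field_simp
    ring
  have hZpos : 0 < (Real.exp δ * X) ^ (1 / (k : ℝ)) := Real.rpow_pos_of_pos hpos _
  have e1' : k * Real.log (ρ * (Real.exp δ * X) ^ (1 / (k : ℝ))) + δ = Real.log (lam * X) := by
    rw [Real.log_mul hρ0.ne' hZpos.ne', hlogZ, hρd, Real.log_rpow hbase,
      Real.log_mul (Real.exp_pos _).ne' hlam0.ne', Real.log_exp, Real.log_mul hlam0.ne' hX0.ne']
    field_simp
    ring
  have e2 : ((Real.exp δ * X) ^ (1 / (k : ℝ))) ^ (2 * k - 1) = Real.exp (δ * e) * X ^ e := by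
    rw [hexpo _ hpos, Real.mul_rpow (Real.exp_pos _).le hX0.le, ← Real.exp_mul]
  rw [e1, e1', e2, change_var2, Real.exp_log hX0, Real.exp_log (by positivity)] at hX
  have hle : X ≤ lam * X := by nlinarith
  rw [intervalIntegral.integral_of_le hle]
  refine le_trans (le_of_eq ?_) hX
  have e3 : Real.exp (-δ * e) * Real.exp (δ * e) = 1 := by
    rw [← Real.exp_add]
    simp
  linear_combination (-(c * X ^ e)) * e3

theorem final2 {k : ℕ} (hk : 1 ≤ k) {P : Polynomial ℝ} (hP : P.natDegree < k) {lam : ℝ} (hlam : 1 < lam) {c : ℝ}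
    (hc : c < 1 / ((4 * k - 2) * Real.pi ^ 2) * (∑' n : ℕ, dr k n ^ 2 * (n : ℝ) ^ (-(1 + 1 / (k : ℝ)))) *
      (lam ^ (2 - 1 / (k : ℝ)) - 1)) :
    ∃ X0 : ℝ, 1 ≤ X0 ∧ ∀ X : ℝ, X0 ≤ X → c * X ^ (2 - 1 / (k : ℝ)) ≤
      ∫ x in X..(lam * X), (Dk k x - x * P.eval (Real.log x)) ^ 2 := by
  have hk1 : (1:ℝ) ≤ k := by exact_mod_cast hk
  have hk0 : (0:ℝ) < k := by linarith
  have he0 : 0 < 2 - 1 / (k : ℝ) := by
    have : 1 / (k : ℝ) ≤ 1 := by rw [div_le_one hk0]; exact hk1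
    linarith
  have hgap : 0 ≤ lam ^ (2 - 1 / (k : ℝ)) - 1 := by
    have := Real.one_le_rpow hlam.le he0.le
    linarith
  set f : ℕ → ℝ := fun n => dr k n ^ 2 * (n : ℝ) ^ (-(1 + 1 / (k : ℝ))) with hf
  have hfn : ∀ n, 0 ≤ f n := fun n => by simp only [hf]; positivity
  have hlim := (((sum_conv hk).hasSum.tendsto_sum_nat).const_mul (1 / ((4 * k - 2) * Real.pi ^ 2))).mul_const
    (lam ^ (2 - 1 / (k : ℝ)) - 1)
  obtain ⟨N, hN⟩ := (hlim.eventually_const_lt hc).exists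
  have h1 : c < (2 * Real.pi)⁻¹ * Lc k N * (lam ^ (2 - 1 / (k : ℝ)) - 1) := by
    rw [Lc_eq hk]
    refine hN.trans_le (mul_le_mul_of_nonneg_right (mul_le_mul_of_nonneg_left ?_ ?_) hgap)
    · have hsub : Finset.range N ⊆ insert 0 (Finset.Icc 1 N) := by
        intro n hn
        rw [Finset.mem_range] at hn
        rw [Finset.mem_insert, Finset.mem_Icc]
        omega
      have h0 : f 0 = 0 := by
        simp only [hf]
        rw [Nat.cast_zero, Real.zero_rpow, mul_zero]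
        have : (0:ℝ) < 1 / k := by positivity
        linarith
      refine (Finset.sum_le_sum_of_subset_of_nonneg hsub fun n _ _ => hfn n).trans (le_of_eq ?_)
      rw [Finset.sum_insert (by simp), h0, zero_add]
    · have : (0:ℝ) < 4 * k - 2 := by linarith
      positivity
  obtain ⟨X0, hX0⟩ := Filter.eventually_atTop.1 (lower_X2 N hk hP hlam h1)
  exact ⟨max 1 X0, le_max_left _ _, fun X hX => hX0 X ((le_max_right _ _).trans hX)⟩

end

end Pool.Agent.TH535.PZ
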