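import Pool.Agent.TH535.PZ.P18

set_option autoImplicit false

/-! Short windows: sharp cutoffs and oscillating integrals. -/

namespace Pool.Agent.TH535.PZ

open Complex MeasureTheory Filter Topology Set
open Pool.Agent.W182.KO (XX XX_diff XX_bound zeta_XX strip_shift)
open Pool.Agent.TH535.SM
open scoped FourierTransform ComplexConjugate

noncomputable section

lemma ph_cont (h : ℝ) : Continuous (ph h) := by
  have h1 : Continuous (fun t : ℝ => ((ph h t : ℝ) : ℂ)) := by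
    have h2 : (fun t : ℝ => ((ph h t : ℝ) : ℂ)) = fun t : ℝ => Ph h (((3 / 2 : ℝ) : ℂ) + t * I) :=
      funext fun t => (Ph_line _ t).symm
    rw [h2]
    exact (Ph_diff _).continuous.comp (by fun_prop)
  exact Complex.continuous_re.comp h1

lemma wt_nonneg (k : ℕ) (t : ℝ) : 0 ≤ wt k t := by unfold wt; positivity

lemma wt_cont (k : ℕ) : Continuous (wt k) := by unfold wt; fun_prop

lemma wt_bd (k : ℕ) (t : ℝ) : wt k t ≤ (1 + |t|) ^ (2 * (k - 1)) := by
  unfold wt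
  have h1 : (1 / 4 + t ^ 2) ^ (k - 1) ≤ (1 + |t|) ^ (2 * (k - 1)) := by
    rw [pow_mul]
    refine pow_le_pow_left₀ (by positivity) ?_ _
    have h3 : t ^ 2 = |t| ^ 2 := (sq_abs t).symm
    rw [h3]
    have := abs_nonneg t
    nlinarith
  have h2 : (1:ℝ) ≤ (4 * Real.pi ^ 2) ^ k := by
    refine one_le_pow₀ ?_
    have := Real.pi_gt_three
    nlinarith
  rw [div_le_iff₀ (by positivity)]
  have h3 : 0 ≤ (1 + |t|) ^ (2 * (k - 1)) := by positivity
  nlinarith

/-- distance to the sharp cutoff -/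
def er (T t : ℝ) : ℝ := |ph (√T) t - (Iic T).indicator (fun _ => (1:ℝ)) t|

lemma er_nonneg (T t : ℝ) : 0 ≤ er T t := abs_nonneg _

lemma er_meas (T : ℝ) : Measurable (er T) := by
  unfold er
  exact ((ph_cont _).measurable.sub (measurable_const.indicator measurableSet_Iic)).abs

lemma er_le {T t : ℝ} (hT : 0 < T) (ht : 0 ≤ t) :
    er T t ≤ 2 * √2 * Real.exp (-(|(t - T) / √T|) ^ 2 / 2) := by
  have hs : 0 < √T := Real.sqrt_pos.2 hT
  have hs2 : √T ^ 2 = T := Real.sq_sqrt hT.le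
  have e0 : -(|(t - T) / √T|) ^ 2 / 2 = -(T - t) ^ 2 / (2 * T) := by
    rw [sq_abs, div_pow, hs2]
    field_simp
    ring
  rw [e0]
  unfold er
  rcases le_or_gt t T with h | h
  · rw [indicator_of_mem (by exact h)]
    have hc := Ph_compl hs (z := ((3 / 2 : ℝ) : ℂ) + t * I) (by
      have : (((3 / 2 : ℝ) : ℂ) + t * I).im = t := by simp
      rw [this, abs_of_nonneg ht, hs2]
      exact h)
    have hre : (((3 / 2 : ℝ) : ℂ) + t * I).re = 3 / 2 := by simp
    have him : (((3 / 2 : ℝ) : ℂ) + t * I).im = t := by simp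
    rw [hre, him, Ph_line, hs2, abs_of_nonneg ht] at hc
    have e1 : ‖(1 : ℂ) - ((ph √T t : ℝ) : ℂ)‖ = |ph √T t - 1| := by
      rw [← Complex.ofReal_one, ← Complex.ofReal_sub, Complex.norm_real, Real.norm_eq_abs, abs_sub_comm]
    rw [e1] at hc
    have e2 : Real.exp (((3 / 2 - 3 / 2 : ℝ) / √T) ^ 2) = 1 := by simp
    rw [e2, one_mul] at hc
    refine hc.trans ?_
    have : 0 ≤ √2 * Real.exp (-(T - t) ^ 2 / (2 * T)) := by positivity
    linarith
  · rw [indicator_of_notMem (by rw [mem_Iic, not_le]; exact h), sub_zero,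
      abs_of_nonneg (ph_nonneg hs.le t)]
    have h1 := ph_le hs t
    rw [hs2, abs_of_nonneg ht, max_eq_left (by linarith)] at h1
    refine h1.trans (le_of_eq ?_)
    congr 3
    ring

lemma sharp_err (k : ℕ) : ∃ C : ℝ, 0 ≤ C ∧ ∀ T : ℝ, 1 ≤ T →
    IntegrableOn (fun t => wt k t * er T t) (Ioi 0) ∧
    ∫ t in Ioi (0:ℝ), wt k t * er T t ≤ C * (T ^ (2 * (k - 1)) * √T) := by
  set p := 2 * (k - 1) with hp
  have hJ := JJ_nonneg
  refine ⟨2 * √2 * 2 ^ p * ((p + 2).factorial * Real.exp (3 / 2)) * JJ, by positivity, fun T hT => ?_⟩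
  have hT0 : 0 < T := by linarith
  have hs : 0 < √T := Real.sqrt_pos.2 hT0
  have hs1 : 1 ≤ √T := by rw [Real.one_le_sqrt]; exact hT
  have hs2 : √T * √T = T := Real.mul_self_sqrt hT0.le
  set M : ℝ := 2 * √2 * 2 ^ p * ((p + 2).factorial * Real.exp (3 / 2)) * T ^ p with hM
  have hgI : Integrable (fun t : ℝ => M * ((1 + |(t - T) / √T|) ^ 2)⁻¹) :=
    ((inv_sq_int.comp_div hs.ne').comp_sub_right T).const_mul M
  have hval : ∫ t : ℝ, M * ((1 + |(t - T) / √T|) ^ 2)⁻¹ = M * (√T * JJ) := by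
    rw [integral_const_mul]
    congr 1
    have h1 := integral_sub_right_eq_self (μ := volume) (fun s : ℝ => ((1 + |s / √T|) ^ 2)⁻¹) T
    have h2 := Measure.integral_comp_div (fun s : ℝ => ((1 + |s|) ^ 2)⁻¹) (√T)
    rw [h1, h2, abs_of_pos hs, smul_eq_mul]
    rfl
  have hb : ∀ t ∈ Ioi (0:ℝ), wt k t * er T t ≤ M * ((1 + |(t - T) / √T|) ^ 2)⁻¹ := by
    intro t ht
    have ht0 : 0 ≤ t := le_of_lt ht
    set w := |(t - T) / √T| with hw
    have hw0 : 0 ≤ w := abs_nonneg _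
    have h1 := er_le hT0 ht0
    rw [← hw] at h1
    have h2 := wt_bd k t
    rw [abs_of_nonneg ht0] at h2
    have h3 : 1 + t ≤ 2 * T * (1 + w) := by
      have h4 : |t - T| = √T * w := by
        rw [hw, abs_div, abs_of_pos hs]; field_simp
      have h5 : t ≤ T + |t - T| := by
        have := le_abs_self (t - T)
        linarith
      have h6 : √T ≤ T := by nlinarith
      rw [h4] at h5
      nlinarith
    have h4 := poly_exp (p + 2) hw0
    have h5 : (1 + w) ^ p * Real.exp (-w ^ 2 / 2) ≤ ((p + 2).factorial * Real.exp (3 / 2)) * ((1 + w) ^ 2)⁻¹ := by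
      rw [← div_eq_mul_inv, le_div_iff₀ (by positivity)]
      calc _ = (1 + w) ^ (p + 2) * Real.exp (-w ^ 2 / 2) := by ring
        _ ≤ _ := h4
    calc wt k t * er T t ≤ (2 * T * (1 + w)) ^ p * (2 * √2 * Real.exp (-w ^ 2 / 2)) := by
          refine mul_le_mul (h2.trans ?_) h1 (er_nonneg _ _) (by positivity)
          exact pow_le_pow_left₀ (by positivity) h3 p
      _ = (2 * √2 * 2 ^ p * T ^ p) * ((1 + w) ^ p * Real.exp (-w ^ 2 / 2)) := by
          rw [mul_pow, mul_pow]; ring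
      _ ≤ (2 * √2 * 2 ^ p * T ^ p) * (((p + 2).factorial * Real.exp (3 / 2)) * ((1 + w) ^ 2)⁻¹) := by gcongr
      _ = _ := by rw [hM]; ring
  have hI : IntegrableOn (fun t => wt k t * er T t) (Ioi 0) := by
    refine hgI.integrableOn.mono' ((wt_cont k).measurable.mul (er_meas T)).aestronglyMeasurable ?_
    refine (ae_restrict_iff' measurableSet_Ioi).2 (Eventually.of_forall fun t ht => ?_)
    rw [Real.norm_of_nonneg (mul_nonneg (wt_nonneg k t) (er_nonneg T t))]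
    exact hb t ht
  refine ⟨hI, ?_⟩
  calc _ ≤ ∫ t in Ioi (0:ℝ), M * ((1 + |(t - T) / √T|) ^ 2)⁻¹ :=
        setIntegral_mono_on hI hgI.integrableOn measurableSet_Ioi hb
    _ ≤ ∫ t : ℝ, M * ((1 + |(t - T) / √T|) ^ 2)⁻¹ :=
        setIntegral_le_integral hgI (Eventually.of_forall fun t => by positivity)
    _ = _ := by rw [hval, hM]; ring

lemma osc_pow (p : ℕ) {lam : ℝ} (hl : lam ≠ 0) {a b : ℝ} (ha : 0 ≤ a) (hab : a ≤ b) :
    ‖∫ t in a..b, ((t ^ p : ℝ) : ℂ) * cexp ((lam * t : ℝ) * I)‖ ≤ 3 * b ^ p / |lam| := by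
  have hb : 0 ≤ b := ha.trans hab
  have hlI : ((lam : ℂ) * I) ≠ 0 := mul_ne_zero (by exact_mod_cast hl) I_ne_zero
  have hu : ∀ t ∈ uIcc a b, HasDerivAt (fun t : ℝ => ((t ^ p : ℝ) : ℂ)) (((p * t ^ (p - 1) : ℝ)) : ℂ) t :=
    fun t _ => (hasDerivAt_pow p t).ofReal_comp
  have hv : ∀ t ∈ uIcc a b, HasDerivAt (fun t : ℝ => cexp ((lam * t : ℝ) * I) / (lam * I))
      (cexp ((lam * t : ℝ) * I)) t := by
    intro t _
    have h1 : HasDerivAt (fun t : ℝ => ((lam * t : ℝ) : ℂ) * I) ((lam : ℂ) * I) t := by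
      have h2 : HasDerivAt (fun t : ℝ => lam * t) lam t := by
        simpa using (hasDerivAt_id' t).const_mul lam
      exact h2.ofReal_comp.mul_const I
    have h3 := h1.cexp.div_const ((lam : ℂ) * I)
    refine h3.congr_deriv ?_
    rw [mul_div_cancel_right₀ _ hlI]
  have hparts := intervalIntegral.integral_mul_deriv_eq_deriv_mul hu hv
    (by fun_prop : Continuous (fun t : ℝ => (((p * t ^ (p - 1) : ℝ)) : ℂ))).continuousOn.intervalIntegrable
    (by fun_prop : Continuous (fun t : ℝ => cexp ((lam * t : ℝ) * I))).continuousOn.intervalIntegrable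
  rw [hparts]
  have hn : ∀ t : ℝ, ‖cexp ((lam * t : ℝ) * I) / (lam * I)‖ = |lam|⁻¹ := by
    intro t
    rw [norm_div, Complex.norm_exp_ofReal_mul_I, norm_mul, Complex.norm_I, mul_one, Complex.norm_real,
      Real.norm_eq_abs, one_div]
  have h1 : ‖((b ^ p : ℝ) : ℂ) * (cexp ((lam * b : ℝ) * I) / (lam * I))‖ = b ^ p * |lam|⁻¹ := by
    rw [norm_mul, hn, Complex.norm_real, Real.norm_of_nonneg (by positivity)]
  have h2 : ‖((a ^ p : ℝ) : ℂ) * (cexp ((lam * a : ℝ) * I) / (lam * I))‖ = a ^ p * |lam|⁻¹ := by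
    rw [norm_mul, hn, Complex.norm_real, Real.norm_of_nonneg (by positivity)]
  have h3 : ‖∫ t in a..b, (((p * t ^ (p - 1) : ℝ)) : ℂ) * (cexp ((lam * t : ℝ) * I) / (lam * I))‖ ≤
      (b ^ p - a ^ p) * |lam|⁻¹ := by
    have h4 : ∫ t in a..b, (p * t ^ (p - 1) : ℝ) = b ^ p - a ^ p :=
      intervalIntegral.integral_eq_sub_of_hasDerivAt (fun t _ => hasDerivAt_pow p t)
        (by fun_prop : Continuous (fun t : ℝ => (p * t ^ (p - 1) : ℝ))).continuousOn.intervalIntegrable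
    calc _ ≤ ∫ t in a..b, ‖(((p * t ^ (p - 1) : ℝ)) : ℂ) * (cexp ((lam * t : ℝ) * I) / (lam * I))‖ :=
          intervalIntegral.norm_integral_le_integral_norm hab
      _ = ∫ t in a..b, (p * t ^ (p - 1) : ℝ) * |lam|⁻¹ := by
          refine intervalIntegral.integral_congr fun t ht => ?_
          rw [uIcc_of_le hab] at ht
          have ht0 : 0 ≤ t := ha.trans ht.1
          show ‖(((p * t ^ (p - 1) : ℝ)) : ℂ) * (cexp ((lam * t : ℝ) * I) / (lam * I))‖ = (p * t ^ (p - 1) : ℝ) * |lam|⁻¹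
          rw [norm_mul, hn, Complex.norm_real, Real.norm_of_nonneg (by positivity)]
      _ = _ := by rw [intervalIntegral.integral_mul_const, h4]
  have hap : 0 ≤ a ^ p := by positivity
  have hli : 0 ≤ |lam|⁻¹ := by positivity
  refine (norm_sub_le _ _).trans ?_
  refine (add_le_add ((norm_sub_le _ _).trans (add_le_add h1.le h2.le)) h3).trans ?_
  rw [div_eq_mul_inv]
  have hbp : 0 ≤ b ^ p := by positivity
  nlinarith

lemma SH_err {g : ℝ → ℂ} (hg : Continuous g) {p : ℕ} {w : ℂ}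
    (hlim : Tendsto (fun t : ℝ => g t * (((t ^ p : ℝ)) : ℂ)⁻¹) atTop (𝓝 w)) {ε : ℝ} (hε : 0 < ε) :
    ∃ t0 : ℝ, 1 ≤ t0 ∧ ∀ t : ℝ, t0 ≤ t → ‖g t - w * ((t ^ p : ℝ) : ℂ)‖ ≤ ε * t ^ p := by
  obtain ⟨t0, h0⟩ := Filter.eventually_atTop.1 (Metric.tendsto_nhds.1 hlim ε hε)
  refine ⟨max 1 t0, le_max_left _ _, fun t ht => ?_⟩
  have h1 := h0 t ((le_max_right _ _).trans ht)
  have ht1 : 1 ≤ t := (le_max_left _ _).trans ht
  have htp : 0 < t ^ p := by positivity
  have hne : ((t ^ p : ℝ) : ℂ) ≠ 0 := by exact_mod_cast htp.ne'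
  rw [dist_eq_norm] at h1
  have e : g t - w * ((t ^ p : ℝ) : ℂ) = (g t * ((t ^ p : ℝ) : ℂ)⁻¹ - w) * ((t ^ p : ℝ) : ℂ) := by
    field_simp
  rw [e, norm_mul, Complex.norm_real, Real.norm_of_nonneg htp.le]
  exact mul_le_mul_of_nonneg_right h1.le htp.le

/-- the sharp window, with the error term -/
lemma SH_core {g : ℝ → ℂ} (hg : Continuous g) {p : ℕ} {w : ℂ} {ε t0 : ℝ} (hε : 0 ≤ ε) (ht0 : 1 ≤ t0)
    (h : ∀ t : ℝ, t0 ≤ t → ‖g t - w * ((t ^ p : ℝ) : ℂ)‖ ≤ ε * t ^ p) (lam : ℝ) {a b : ℝ} (ha : t0 ≤ a) (hab : a ≤ b) :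
    ‖(∫ t in a..b, g t * cexp ((lam * t : ℝ) * I)) - w * ∫ t in a..b, ((t ^ p : ℝ) : ℂ) * cexp ((lam * t : ℝ) * I)‖ ≤
      ε * (b ^ (p + 1) - a ^ (p + 1)) := by
  have hcont1 : Continuous (fun t : ℝ => g t * cexp ((lam * t : ℝ) * I)) := hg.mul (by fun_prop)
  have hcont2 : Continuous (fun t : ℝ => w * (((t ^ p : ℝ) : ℂ) * cexp ((lam * t : ℝ) * I))) := by fun_prop
  have ha0 : 0 ≤ a := by linarith
  rw [← intervalIntegral.integral_const_mul, ← intervalIntegral.integral_sub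
    (hcont1.intervalIntegrable _ _) (hcont2.intervalIntegrable _ _)]
  have hval : ∫ t in a..b, t ^ p = (b ^ (p + 1) - a ^ (p + 1)) / (p + 1) := integral_pow p
  have hd : 0 ≤ b ^ (p + 1) - a ^ (p + 1) := sub_nonneg.2 (pow_le_pow_left₀ ha0 hab _)
  calc _ ≤ ∫ t in a..b, ε * t ^ p := by
        refine intervalIntegral.norm_integral_le_of_norm_le hab ?_ (by fun_prop : Continuous (fun t : ℝ => ε * t ^ p)).continuousOn.intervalIntegrable
        refine Eventually.of_forall fun t ht => ?_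
        have e : g t * cexp ((lam * t : ℝ) * I) - w * (((t ^ p : ℝ) : ℂ) * cexp ((lam * t : ℝ) * I)) =
            (g t - w * ((t ^ p : ℝ) : ℂ)) * cexp ((lam * t : ℝ) * I) := by ring
        rw [e, norm_mul, Complex.norm_exp_ofReal_mul_I, mul_one]
        exact h t (ha.trans ht.1.le)
    _ = ε * ((b ^ (p + 1) - a ^ (p + 1)) / (p + 1)) := by
        rw [intervalIntegral.integral_const_mul, hval]
    _ ≤ _ := by
        refine mul_le_mul_of_nonneg_left ?_ hε
        refine div_le_self hd ?_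
        have : (0:ℝ) ≤ p := Nat.cast_nonneg p
        linarith

end

end Pool.Agent.TH535.PZ
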