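import Pool.Agent.TH535.PZ.P1

set_option autoImplicit false

/-! Test functions: shifting lines, size, Plancherel. -/

namespace Pool.Agent.TH535.PZ

open Complex MeasureTheory Filter Topology Set
open Pool.Agent.W182.KO (XX XX_diff XX_bound zeta_XX strip_shift)
open Pool.Agent.TH535.SM
open scoped FourierTransform

noncomputable section

lemma ph_poly (p : ℕ) {h : ℝ} (hh : 0 < h) : ∃ B : ℝ, 0 ≤ B ∧ ∀ t : ℝ, ph h t * (1 + |t|) ^ p ≤ B := by
  refine ⟨2 * √2 * ((1 + h ^ 2) * (1 + h)) ^ p * (p.factorial * Real.exp (3 / 2)), by positivity,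
    fun t => ?_⟩
  set a : ℝ := max (|t| - h ^ 2) 0 with ha
  have ha0 : 0 ≤ a := le_max_right _ _
  have h1 : |t| ≤ h ^ 2 + a := by
    have := le_max_left (|t| - h ^ 2) 0
    linarith
  set d : ℝ := a / h with hd
  have hd0 : 0 ≤ d := by positivity
  have had : a = h * d := by rw [hd]; field_simp
  have h2 : 1 + |t| ≤ ((1 + h ^ 2) * (1 + h)) * (1 + d) := by
    have e1 : 1 + |t| ≤ (1 + h ^ 2) * (1 + a) := by nlinarith [mul_nonneg (sq_nonneg h) ha0]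
    have e2 : 1 + a ≤ (1 + h) * (1 + d) := by rw [had]; nlinarith
    calc 1 + |t| ≤ (1 + h ^ 2) * (1 + a) := e1
      _ ≤ (1 + h ^ 2) * ((1 + h) * (1 + d)) := by gcongr
      _ = _ := by ring
  have h3 := poly_exp p hd0
  have h4 : -a ^ 2 / (2 * h ^ 2) = -d ^ 2 / 2 := by
    rw [hd]; field_simp
  have h5 := ph_le hh t
  rw [← ha, h4] at h5
  have habs := abs_nonneg t
  calc ph h t * (1 + |t|) ^ p ≤ (2 * √2 * Real.exp (-d ^ 2 / 2)) *
        (((1 + h ^ 2) * (1 + h)) * (1 + d)) ^ p := by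
        gcongr
    _ = 2 * √2 * ((1 + h ^ 2) * (1 + h)) ^ p * ((1 + d) ^ p * Real.exp (-d ^ 2 / 2)) := by
        rw [mul_pow]; ring
    _ ≤ _ := by gcongr

/-- analytic of polynomial growth for `Re z ≥ 3/2` -/
structure PA (A : ℂ → ℂ) : Prop where
  diff : ∀ z : ℂ, 3 / 2 ≤ z.re → DifferentiableAt ℂ A z
  bd : ∀ b : ℝ, ∃ (C : ℝ) (M : ℕ), 0 ≤ C ∧ ∀ z : ℂ, 3 / 2 ≤ z.re → z.re ≤ b →
    ‖A z‖ ≤ C * (1 + |z.im|) ^ M

lemma PA.mul {A B : ℂ → ℂ} (hA : PA A) (hB : PA B) : PA (fun z => A z * B z) := by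
  refine ⟨fun z hz => (hA.diff z hz).mul (hB.diff z hz), fun b => ?_⟩
  obtain ⟨C1, M1, hC1, h1⟩ := hA.bd b
  obtain ⟨C2, M2, hC2, h2⟩ := hB.bd b
  refine ⟨C1 * C2, M1 + M2, by positivity, fun z ha hb => ?_⟩
  rw [norm_mul, pow_add]
  calc ‖A z‖ * ‖B z‖ ≤ (C1 * (1 + |z.im|) ^ M1) * (C2 * (1 + |z.im|) ^ M2) :=
        mul_le_mul (h1 z ha hb) (h2 z ha hb) (norm_nonneg _) (by positivity)
    _ = _ := by ring

lemma PA.of_bdd {A : ℂ → ℂ} (hd : ∀ z : ℂ, 3 / 2 ≤ z.re → DifferentiableAt ℂ A z)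
    (hb : ∀ b : ℝ, ∃ C : ℝ, ∀ z : ℂ, 3 / 2 ≤ z.re → z.re ≤ b → ‖A z‖ ≤ C) : PA A := by
  refine ⟨hd, fun b => ?_⟩
  obtain ⟨C, h⟩ := hb b
  refine ⟨max C 0, 0, le_max_right _ _, fun z h1 h2 => ?_⟩
  rw [pow_zero, mul_one]
  exact (h z h1 h2).trans (le_max_left _ _)

lemma PA.const (c : ℂ) : PA (fun _ => c) :=
  PA.of_bdd (fun _ _ => by fun_prop) fun _ => ⟨‖c‖, fun _ _ _ => le_rfl⟩

lemma PA.pow {A : ℂ → ℂ} (hA : PA A) (k : ℕ) : PA (fun z => A z ^ k) := by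
  induction k with
  | zero => simpa using PA.const 1
  | succ n ih => simpa [pow_succ] using ih.mul hA

lemma PA.expc (y : ℝ) : PA (fun z => cexp (-((z - 3 / 2) * y))) := by
  refine PA.of_bdd (fun _ _ => by fun_prop) fun b => ⟨Real.exp ((|b| + 2) * |y|), fun z h1 h2 => ?_⟩
  rw [Complex.norm_exp]
  refine Real.exp_le_exp.2 ?_
  have e : (-((z - 3 / 2) * y)).re = -((z.re - 3 / 2) * y) := by
    simp
  rw [e]
  have h3 : |z.re - 3 / 2| ≤ |b| + 2 := by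
    rw [abs_of_nonneg (by linarith)]
    have := le_abs_self b
    linarith
  have h4 := neg_abs_le ((z.re - 3 / 2) * y)
  rw [abs_mul] at h4
  have h5 := mul_le_mul_of_nonneg_right h3 (abs_nonneg y)
  linarith

/-- `c ^ (-z)` for `c ≥ 1` -/
lemma PA.cpow {n : ℕ} (hn : 1 ≤ n) : PA (fun z => (n : ℂ) ^ (-z)) := by
  have hn0 : (n : ℂ) ≠ 0 := by
    have : n ≠ 0 := by omega
    exact_mod_cast this
  refine PA.of_bdd (fun z _ => ?_) fun b => ⟨1, fun z h1 h2 => ?_⟩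
  · exact DifferentiableAt.const_cpow (by fun_prop) (Or.inl hn0)
  · rw [Complex.norm_natCast_cpow_of_pos (by omega)]
    refine Real.rpow_le_one_of_one_le_of_nonpos (by exact_mod_cast hn) ?_
    simp
    linarith

lemma PA.xx : PA XX := by
  refine ⟨fun z hz => XX_diff (by linarith), fun b => ?_⟩
  obtain ⟨K, hK, hX⟩ := XX_bound (c := max b 1) (le_max_right _ _)
  obtain ⟨M, hM⟩ := exists_nat_ge (max b 1 - 1 / 2)
  refine ⟨K, M, by linarith, fun z h1 h2 => ?_⟩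
  have h3 := hX z.re z.im (by linarith) (h2.trans (le_max_left _ _))
  rw [Complex.re_add_im] at h3
  refine h3.trans ?_
  have h4 : (1:ℝ) ≤ 1 + |z.im| := by have := abs_nonneg z.im; linarith
  refine mul_le_mul_of_nonneg_left ?_ (by linarith)
  rw [← Real.rpow_natCast]
  exact Real.rpow_le_rpow_of_exponent_le h4 hM

/-- `1/(1-z)` -/
lemma PA.inv1 : PA (fun z => (1 - z)⁻¹) := by
  have key : ∀ z : ℂ, 3 / 2 ≤ z.re → 1 / 2 ≤ ‖1 - z‖ := by
    intro z hz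
    have h1 := Complex.abs_re_le_norm (1 - z)
    rw [Complex.sub_re, Complex.one_re, abs_of_nonpos (by linarith)] at h1
    linarith
  refine PA.of_bdd (fun z hz => ?_) fun b => ⟨2, fun z h1 h2 => ?_⟩
  · refine DifferentiableAt.inv (by fun_prop) fun h => ?_
    have := key z hz
    rw [h, norm_zero] at this
    linarith
  · rw [norm_inv]
    have := key z h1
    rw [inv_le_comm₀ (by linarith) (by norm_num)]
    linarith

/-- `1/z` -/
lemma PA.inv0 : PA (fun z => z⁻¹) := by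
  have key : ∀ z : ℂ, 3 / 2 ≤ z.re → 1 ≤ ‖z‖ := by
    intro z hz
    have h1 := Complex.abs_re_le_norm z
    rw [abs_of_nonneg (by linarith)] at h1
    linarith
  refine PA.of_bdd (fun z hz => ?_) fun b => ⟨1, fun z h1 h2 => ?_⟩
  · refine DifferentiableAt.inv (by fun_prop) fun h => ?_
    have := key z hz
    rw [h, norm_zero] at this
    linarith
  · rw [norm_inv]
    have := key z h1
    exact inv_le_one_of_one_le₀ this

/-- linear functions -/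
lemma PA.lin (c : ℝ) : PA (fun z => (c : ℂ) - z) := by
  refine ⟨fun _ _ => by fun_prop, fun b => ⟨|c| + |b| + 2, 1, by positivity, fun z h1 h2 => ?_⟩⟩
  have h3 := Complex.norm_le_abs_re_add_abs_im ((c : ℂ) - z)
  rw [Complex.sub_re, Complex.sub_im, Complex.ofReal_re, Complex.ofReal_im, zero_sub, abs_neg] at h3
  have h4 : |c - z.re| ≤ |c| + |b| := by
    have h5 := abs_sub c z.re
    have h6 : |z.re| ≤ |b| := by
      rw [abs_of_nonneg (by linarith)]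
      exact h2.trans (le_abs_self b)
    linarith
  have h7 := abs_nonneg z.im
  have h8 := abs_nonneg c
  have h9 := abs_nonneg b
  rw [pow_one]
  nlinarith

lemma PhA_bd {A : ℂ → ℂ} (hA : PA A) {h : ℝ} (hh : 0 < h) (b : ℝ) : ∃ B : ℝ, 0 ≤ B ∧ ∀ z : ℂ,
    3 / 2 ≤ z.re → z.re ≤ b → ‖Ph h z * A z‖ ≤ B * ((1 + |z.im|) ^ 2)⁻¹ := by
  obtain ⟨C, M, hC, hb⟩ := hA.bd b
  obtain ⟨D, hD, hp⟩ := ph_poly (M + 2) hh
  refine ⟨Real.exp (((|b| + 2) / h) ^ 2) * C * D, by positivity, fun z h1 h2 => ?_⟩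
  have habs := abs_nonneg z.im
  have h4 := Ph_norm hh z
  have h5 : Real.exp (((z.re - 3 / 2) / h) ^ 2) ≤ Real.exp (((|b| + 2) / h) ^ 2) := by
    refine Real.exp_le_exp.2 ?_
    have h6 : 0 ≤ (z.re - 3 / 2) / h := div_nonneg (by linarith) hh.le
    have h7 : (z.re - 3 / 2) / h ≤ (|b| + 2) / h := by
      refine div_le_div_of_nonneg_right ?_ hh.le
      have := le_abs_self b
      linarith
    exact pow_le_pow_left₀ h6 h7 2
  have hpos : 0 < (1 + |z.im|) ^ 2 := by positivity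
  have hv0 := ph_nonneg hh.le z.im
  rw [norm_mul, ← div_eq_mul_inv, le_div_iff₀ hpos]
  calc ‖Ph h z‖ * ‖A z‖ * (1 + |z.im|) ^ 2 ≤
        (Real.exp (((|b| + 2) / h) ^ 2) * ph h z.im) * (C * (1 + |z.im|) ^ M) * (1 + |z.im|) ^ 2 := by
        gcongr
        · exact h4.trans (by gcongr)
        · exact hb z h1 h2
    _ = Real.exp (((|b| + 2) / h) ^ 2) * C * (ph h z.im * (1 + |z.im|) ^ (M + 2)) := by ring
    _ ≤ _ := by gcongr; exact hp _

/-- the function on the line `Re z = 3/2 + r` -/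
def Ln (A : ℂ → ℂ) (h r t : ℝ) : ℂ := Ph h (((3 / 2 + r : ℝ) : ℂ) + t * I) *
  A (((3 / 2 + r : ℝ) : ℂ) + t * I)

lemma ln_re (r t : ℝ) : (((3 / 2 + r : ℝ) : ℂ) + t * I).re = 3 / 2 + r := by simp

lemma ln_im (r t : ℝ) : (((3 / 2 + r : ℝ) : ℂ) + t * I).im = t := by simp

lemma Ln_dec {A : ℂ → ℂ} (hA : PA A) {h : ℝ} (hh : 0 < h) {r : ℝ} (hr : 0 ≤ r) : Dec (Ln A h r) := by
  refine ⟨?_, ?_⟩
  · rw [continuous_iff_continuousAt]
    intro t
    have hd : ContinuousAt (fun z : ℂ => Ph h z * A z) (((3 / 2 + r : ℝ) : ℂ) + t * I) :=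
      ((Ph_diff h _).mul (hA.diff _ (by rw [ln_re]; linarith))).continuousAt
    exact ContinuousAt.comp (f := fun t : ℝ => (((3 / 2 + r : ℝ) : ℂ) + t * I)) hd (by fun_prop)
  · obtain ⟨B, hB, hb⟩ := PhA_bd hA hh (3 / 2 + r)
    refine ⟨B, hB, fun t => ?_⟩
    have := hb (((3 / 2 + r : ℝ) : ℂ) + t * I) (by rw [ln_re]; linarith) (by rw [ln_re])
    rwa [ln_im] at this

lemma line_shift {A : ℂ → ℂ} (hA : PA A) {h : ℝ} (hh : 0 < h) {r1 r2 : ℝ} (h1 : 0 ≤ r1)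
    (h12 : r1 ≤ r2) : ∫ t, Ln A h r1 t = ∫ t, Ln A h r2 t := by
  obtain ⟨B, hB, hb⟩ := PhA_bd hA hh (3 / 2 + r2)
  refine strip_shift (f := fun z => Ph h z * A z) (B := B) (by linarith) hB ?_ ?_
  · intro s a b
    exact (Ph_diff h _).mul (hA.diff s (by linarith))
  · intro s a b
    rw [div_eq_mul_inv]
    exact hb s (by linarith) b

/-- the transform -/
def Gt (F : ℝ → ℂ) (y : ℝ) : ℂ := ((2 * Real.pi : ℝ) : ℂ)⁻¹ * ∫ t : ℝ, cexp (-(t * y * I)) * F t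

lemma Gt_ft (F : ℝ → ℂ) (y : ℝ) : Gt F y = ((2 * Real.pi : ℝ) : ℂ)⁻¹ * 𝓕 F (y / (2 * Real.pi)) := by
  unfold Gt
  rw [ft_eq]
  congr 1
  refine integral_congr_ae (Eventually.of_forall fun t => ?_)
  simp only
  congr 2
  have hp : (Real.pi : ℂ) ≠ 0 := by exact_mod_cast Real.pi_ne_zero
  push_cast
  field_simp

lemma Gt_cont {F : ℝ → ℂ} (hF : Dec F) : Continuous (Gt F) := by
  have h1 := ft_cont hF
  have h2 : Gt F = fun y => ((2 * Real.pi : ℝ) : ℂ)⁻¹ * 𝓕 F (y / (2 * Real.pi)) := funext (Gt_ft F)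
  rw [h2]
  exact continuous_const.mul (h1.comp (by fun_prop))

lemma Gt_planch {F : ℝ → ℂ} (hF : Dec F) : Integrable (fun y => ‖Gt F y‖ ^ 2) ∧
    ∫ y, ‖Gt F y‖ ^ 2 = (2 * Real.pi)⁻¹ * ∫ t, ‖F t‖ ^ 2 := by
  obtain ⟨h1, h2⟩ := planch hF
  have hp : (0:ℝ) < 2 * Real.pi := by positivity
  have e : ∀ y, ‖Gt F y‖ ^ 2 = ((2 * Real.pi)⁻¹) ^ 2 * ‖𝓕 F (y / (2 * Real.pi))‖ ^ 2 := by
    intro y
    rw [Gt_ft, norm_mul, mul_pow, norm_inv, Complex.norm_real, Real.norm_of_nonneg hp.le]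
  refine ⟨?_, ?_⟩
  · simp_rw [e]
    exact (h1.comp_div hp.ne').const_mul _
  · simp_rw [e]
    rw [integral_const_mul]
    have h3 := Measure.integral_comp_div (fun w => ‖𝓕 F w‖ ^ 2) (2 * Real.pi)
    rw [h3, h2, abs_of_pos hp, smul_eq_mul]
    field_simp

lemma gt_shift {A : ℂ → ℂ} (hA : PA A) {h : ℝ} (hh : 0 < h) {r : ℝ} (hr : 0 ≤ r) (y : ℝ) :
    Gt (Ln A h 0) y = ((2 * Real.pi : ℝ) : ℂ)⁻¹ *
      ∫ t : ℝ, cexp (-((r + t * I) * y)) * Ln A h r t := by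
  have h1 := line_shift ((PA.expc y).mul hA) hh le_rfl hr
  unfold Gt
  congr 1
  have e : ∀ r' t : ℝ, Ln (fun z => cexp (-((z - 3 / 2) * y)) * A z) h r' t =
      cexp (-((r' + t * I) * y)) * Ln A h r' t := by
    intro r' t
    unfold Ln
    beta_reduce
    have : cexp (-(((((3 / 2 + r' : ℝ) : ℂ) + t * I) - 3 / 2) * y)) = cexp (-((r' + t * I) * y)) := by
      congr 1
      push_cast
      ring
    rw [this]
    ring
  simp_rw [e] at h1
  rw [← h1]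
  refine integral_congr_ae (Eventually.of_forall fun t => ?_)
  simp only
  congr 2
  push_cast
  ring

lemma gt_bd {A : ℂ → ℂ} (hA : PA A) {h : ℝ} (hh : 0 < h) {r : ℝ} (hr : 0 ≤ r) (y : ℝ) :
    ‖Gt (Ln A h 0) y‖ ≤ Real.exp (-(r * y)) * ∫ t, ‖Ln A h r t‖ := by
  rw [gt_shift hA hh hr y, norm_mul, norm_inv, Complex.norm_real, Real.norm_of_nonneg (by positivity)]
  have h1 : ‖∫ t : ℝ, cexp (-((r + t * I) * y)) * Ln A h r t‖ ≤
      Real.exp (-(r * y)) * ∫ t, ‖Ln A h r t‖ := by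
    refine (norm_integral_le_integral_norm _).trans (le_of_eq ?_)
    rw [← integral_const_mul]
    refine integral_congr_ae (Eventually.of_forall fun t => ?_)
    simp only
    rw [norm_mul, Complex.norm_exp]
    congr 2
    simp
  have h2 : (2 * Real.pi)⁻¹ ≤ 1 := by
    refine inv_le_one_of_one_le₀ ?_
    have := Real.pi_gt_three
    linarith
  have h3 : 0 ≤ Real.exp (-(r * y)) * ∫ t, ‖Ln A h r t‖ :=
    mul_nonneg (Real.exp_pos _).le (integral_nonneg fun _ => norm_nonneg _)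
  calc _ ≤ (2 * Real.pi)⁻¹ * (Real.exp (-(r * y)) * ∫ t, ‖Ln A h r t‖) :=
        mul_le_mul_of_nonneg_left h1 (by positivity)
    _ ≤ 1 * (Real.exp (-(r * y)) * ∫ t, ‖Ln A h r t‖) := mul_le_mul_of_nonneg_right h2 h3
    _ = _ := one_mul _

end

end Pool.Agent.TH535.PZ
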