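import Pool.Agent.TH535.PZ.P19

set_option autoImplicit false

/-! Windows. -/

namespace Pool.Agent.TH535.PZ

open Complex MeasureTheory Filter Topology Set
open Pool.Agent.W182.KO (XX XX_diff XX_bound zeta_XX strip_shift)
open Pool.Agent.TH535.SM
open scoped FourierTransform ComplexConjugate

noncomputable section

/-- a family of windows -/
structure Win {α : Type*} (l : Filter α) (Z1 Z2 : α → ℝ) : Prop where
  h1 : Tendsto Z1 l atTop
  h2 : ∀ᶠ x in l, Z1 x < Z2 x ∧ Z2 x ≤ 2 * Z1 x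
  h3 : Tendsto (fun x => √(Z1 x) / (Z2 x - Z1 x)) l (𝓝 0)

/-- the normalization -/
def SS (k : ℕ) (z1 z2 : ℝ) : ℝ := z2 ^ (2 * (k - 1) + 1) - z1 ^ (2 * (k - 1) + 1)

lemma SS_ge (k : ℕ) {z1 z2 : ℝ} (h0 : 0 ≤ z1) (h : z1 ≤ z2) : (z2 - z1) * z1 ^ (2 * (k - 1)) ≤ SS k z1 z2 := by
  unfold SS
  rw [pow_succ, pow_succ]
  have h1 : z1 ^ (2 * (k - 1)) ≤ z2 ^ (2 * (k - 1)) := pow_le_pow_left₀ h0 h _
  have h2 : 0 ≤ z2 := h0.trans h
  nlinarith

lemma SS_pos (k : ℕ) {z1 z2 : ℝ} (h0 : 0 < z1) (h : z1 < z2) : 0 < SS k z1 z2 :=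
  lt_of_lt_of_le (mul_pos (by linarith) (by positivity)) (SS_ge k h0.le h.le)

lemma win_gap {α : Type*} {l : Filter α} {Z1 Z2 : α → ℝ} (hW : Win l Z1 Z2) (k : ℕ) :
    Tendsto (fun x => Z2 x ^ (2 * (k - 1)) * √(Z2 x) / SS k (Z1 x) (Z2 x)) l (𝓝 0) := by
  have hlim := hW.h3.const_mul ((2:ℝ) ^ (2 * (k - 1)) * 2)
  rw [mul_zero] at hlim
  refine squeeze_zero' ?_ ?_ hlim
  · filter_upwards [hW.h2, hW.h1.eventually_gt_atTop 0] with x h2 h1
    have := SS_pos k h1 h2.1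
    have h3 : 0 ≤ Z2 x := by linarith [h2.1]
    positivity
  · filter_upwards [hW.h2, hW.h1.eventually_gt_atTop 0] with x h2 h1
    have hS := SS_ge k h1.le h2.1.le
    have hd : 0 < Z2 x - Z1 x := by linarith [h2.1]
    have hz2 : 0 ≤ Z2 x := by linarith [h2.1]
    have hp : 0 < Z1 x ^ (2 * (k - 1)) := by positivity
    have h3 : √(Z2 x) ≤ 2 * √(Z1 x) := by
      rw [show (2:ℝ) * √(Z1 x) = √(4 * Z1 x) by
        rw [Real.sqrt_mul (by norm_num)]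
        congr 1
        rw [show (4:ℝ) = 2 ^ 2 by norm_num, Real.sqrt_sq (by norm_num)]]
      exact Real.sqrt_le_sqrt (by linarith [h2.2])
    have h4 : Z2 x ^ (2 * (k - 1)) ≤ 2 ^ (2 * (k - 1)) * Z1 x ^ (2 * (k - 1)) := by
      rw [← mul_pow]
      exact pow_le_pow_left₀ hz2 h2.2 _
    calc Z2 x ^ (2 * (k - 1)) * √(Z2 x) / SS k (Z1 x) (Z2 x) ≤
          (2 ^ (2 * (k - 1)) * Z1 x ^ (2 * (k - 1))) * (2 * √(Z1 x)) / ((Z2 x - Z1 x) * Z1 x ^ (2 * (k - 1))) := by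
          gcongr
      _ = _ := by field_simp

lemma win_gap0 {α : Type*} {l : Filter α} {Z1 Z2 : α → ℝ} (hW : Win l Z1 Z2) (k : ℕ) :
    Tendsto (fun x => Z2 x ^ (2 * (k - 1)) / SS k (Z1 x) (Z2 x)) l (𝓝 0) := by
  refine squeeze_zero' ?_ ?_ (win_gap hW k)
  · filter_upwards [hW.h2, hW.h1.eventually_gt_atTop 0] with x h2 h1
    have := SS_pos k h1 h2.1
    have h3 : 0 ≤ Z2 x := by linarith [h2.1]
    positivity
  · filter_upwards [hW.h2, hW.h1.eventually_ge_atTop 1] with x h2 h1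
    have hS := SS_pos k (by linarith) h2.1
    have hz2 : 1 ≤ Z2 x := by linarith [h2.1]
    have h3 : 1 ≤ √(Z2 x) := by rw [Real.one_le_sqrt]; exact hz2
    have h4 : 0 ≤ Z2 x ^ (2 * (k - 1)) := by positivity
    refine div_le_div_of_nonneg_right ?_ hS.le
    nlinarith

lemma SS_scale (k : ℕ) (c z1 z2 : ℝ) : (c * z2) ^ (2 * (k - 1) + 1) - (c * z1) ^ (2 * (k - 1) + 1) =
    c ^ (2 * (k - 1) + 1) * SS k z1 z2 := by
  unfold SS
  rw [mul_pow, mul_pow]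
  ring

lemma OS_sharp {α : Type*} {l : Filter α} {Z1 Z2 : α → ℝ} (hW : Win l Z1 Z2) (k : ℕ)
    {g : ℝ → ℂ} (hg : Continuous g) {w : ℂ}
    (hlim : Tendsto (fun t : ℝ => g t * (((t ^ (2 * (k - 1)) : ℝ)) : ℂ)⁻¹) atTop (𝓝 w))
    {c : ℝ} (hc : 0 < c) {a b : α → ℝ}
    (hab : ∀ᶠ x in l, b x ≤ a x ∨ (c * Z1 x ≤ a x ∧ a x ≤ b x ∧ b x ≤ c * Z2 x)) {lam : ℝ} (hl : lam ≠ 0) :
    Tendsto (fun x => (((SS k (Z1 x) (Z2 x))⁻¹ : ℝ) : ℂ) *
      ∫ t in Ioc (a x) (b x), g t * cexp ((lam * t : ℝ) * I)) l (𝓝 0) := by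
  rw [Metric.tendsto_nhds]
  intro ε hε
  set p := 2 * (k - 1) with hp
  have hcp : 0 < c ^ (p + 1) := by positivity
  obtain ⟨t0, ht0, h⟩ := SH_err hg hlim (ε := ε / (2 * c ^ (p + 1))) (by positivity)
  have hsm := (win_gap0 hW k).const_mul (3 * ‖w‖ * c ^ p / |lam|)
  rw [mul_zero] at hsm
  filter_upwards [hab, hW.h2, hW.h1.eventually_ge_atTop (t0 / c), hsm.eventually_lt_const (half_pos hε)]
    with x h1 h2 h3 h4
  rw [div_le_iff₀ hc] at h3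
  have hZ1 : 0 < Z1 x := by
    by_contra hcon
    rw [not_lt] at hcon
    nlinarith
  have hS := SS_pos k hZ1 h2.1
  rw [dist_zero_right]
  rcases h1 with h1 | ⟨h5, h6, h7⟩
  · rw [Ioc_eq_empty (not_lt.2 h1)]
    simpa using hε
  · have hat0 : t0 ≤ a x := by nlinarith
    have ha0 : 0 ≤ a x := by linarith
    have hb0 : 0 ≤ b x := ha0.trans h6
    have e1 := SH_core hg (by positivity) ht0 h lam hat0 h6
    have e2 := osc_pow p hl ha0 h6
    rw [← intervalIntegral.integral_of_le h6]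
    set A := ∫ t in (a x)..(b x), g t * cexp ((lam * t : ℝ) * I) with hA
    set B := ∫ t in (a x)..(b x), ((t ^ p : ℝ) : ℂ) * cexp ((lam * t : ℝ) * I) with hB
    have e3 : ‖A‖ ≤ ε / (2 * c ^ (p + 1)) * (b x ^ (p + 1) - a x ^ (p + 1)) + ‖w‖ * (3 * b x ^ p / |lam|) := by
      calc ‖A‖ = ‖(A - w * B) + w * B‖ := by rw [sub_add_cancel]
        _ ≤ ‖A - w * B‖ + ‖w * B‖ := norm_add_le _ _
        _ ≤ _ := by
            rw [norm_mul]
            exact add_le_add e1 (mul_le_mul_of_nonneg_left e2 (norm_nonneg _))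
    have e4 : b x ^ (p + 1) - a x ^ (p + 1) ≤ c ^ (p + 1) * SS k (Z1 x) (Z2 x) := by
      rw [← SS_scale]
      have f1 : b x ^ (p + 1) ≤ (c * Z2 x) ^ (p + 1) := pow_le_pow_left₀ hb0 h7 _
      have f2 : (c * Z1 x) ^ (p + 1) ≤ a x ^ (p + 1) := pow_le_pow_left₀ (by positivity) h5 _
      linarith
    have e5 : b x ^ p ≤ c ^ p * Z2 x ^ p := by
      rw [← mul_pow]; exact pow_le_pow_left₀ hb0 h7 _
    have hl0 : 0 < |lam| := abs_pos.2 hl
    rw [norm_mul, Complex.norm_real, Real.norm_of_nonneg (inv_nonneg.2 hS.le), inv_mul_lt_iff₀ hS]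
    have e6 : ε / (2 * c ^ (p + 1)) * (b x ^ (p + 1) - a x ^ (p + 1)) ≤ ε / 2 * SS k (Z1 x) (Z2 x) := by
      calc _ ≤ ε / (2 * c ^ (p + 1)) * (c ^ (p + 1) * SS k (Z1 x) (Z2 x)) := by gcongr
        _ = _ := by field_simp
    have e7 : ‖w‖ * (3 * b x ^ p / |lam|) ≤ (3 * ‖w‖ * c ^ p / |lam|) * Z2 x ^ p := by
      calc _ ≤ ‖w‖ * (3 * (c ^ p * Z2 x ^ p) / |lam|) := by gcongr
        _ = _ := by ring
    have e8 : (3 * ‖w‖ * c ^ p / |lam|) * Z2 x ^ p < ε / 2 * SS k (Z1 x) (Z2 x) := by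
      have : (3 * ‖w‖ * c ^ p / |lam|) * (Z2 x ^ p / SS k (Z1 x) (Z2 x)) =
          (3 * ‖w‖ * c ^ p / |lam|) * Z2 x ^ p / SS k (Z1 x) (Z2 x) := by ring
      rw [this, div_lt_iff₀ hS] at h4
      exact h4
    linarith

lemma OS_diag {α : Type*} {l : Filter α} {Z1 Z2 : α → ℝ} (hW : Win l Z1 Z2) (k : ℕ)
    {g : ℝ → ℂ} (hg : Continuous g) {w : ℂ}
    (hlim : Tendsto (fun t : ℝ => g t * (((t ^ (2 * (k - 1)) : ℝ)) : ℂ)⁻¹) atTop (𝓝 w))
    {c : ℝ} (hc : 0 < c) :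
    Tendsto (fun x => (((SS k (Z1 x) (Z2 x))⁻¹ : ℝ) : ℂ) *
      ∫ t in Ioc (c * Z1 x) (c * Z2 x), g t) l
      (𝓝 (w * ((c ^ (2 * (k - 1) + 1) / ((2 * (k - 1) : ℕ) + 1) : ℝ) : ℂ))) := by
  rw [Metric.tendsto_nhds]
  intro ε hε
  set p := 2 * (k - 1) with hp
  have hcp : 0 < c ^ (p + 1) := by positivity
  obtain ⟨t0, ht0, h⟩ := SH_err hg hlim (ε := ε / (2 * c ^ (p + 1))) (by positivity)
  filter_upwards [hW.h2, hW.h1.eventually_ge_atTop (t0 / c)] with x h2 h3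
  rw [div_le_iff₀ hc] at h3
  have hZ1 : 0 < Z1 x := by
    by_contra hcon
    rw [not_lt] at hcon
    nlinarith
  have hS := SS_pos k hZ1 h2.1
  have h6 : c * Z1 x ≤ c * Z2 x := by nlinarith [h2.1]
  have hat0 : t0 ≤ c * Z1 x := by linarith
  have e1 := SH_core hg (by positivity) ht0 h 0 hat0 h6
  have e0 : ∀ t : ℝ, cexp ((0 * t : ℝ) * I) = 1 := fun t => by simp
  simp_rw [e0, mul_one] at e1
  have hval : ∫ t in (c * Z1 x)..(c * Z2 x), ((t ^ p : ℝ) : ℂ) =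
      ((c ^ (p + 1) * SS k (Z1 x) (Z2 x) / (p + 1) : ℝ) : ℂ) := by
    rw [intervalIntegral.integral_ofReal, integral_pow, SS_scale]
  rw [hval, SS_scale] at e1
  rw [← intervalIntegral.integral_of_le h6, dist_eq_norm]
  set A := ∫ t in (c * Z1 x)..(c * Z2 x), g t with hA
  set S := SS k (Z1 x) (Z2 x) with hSd
  have hSne : (S : ℂ) ≠ 0 := by exact_mod_cast hS.ne'
  have e2 : ((S⁻¹ : ℝ) : ℂ) * A - w * ((c ^ (p + 1) / ((p : ℕ) + 1) : ℝ) : ℂ) =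
      ((S⁻¹ : ℝ) : ℂ) * (A - w * ((c ^ (p + 1) * S / (p + 1) : ℝ) : ℂ)) := by
    push_cast
    field_simp
  rw [e2, norm_mul, Complex.norm_real, Real.norm_of_nonneg (inv_nonneg.2 hS.le), inv_mul_lt_iff₀ hS]
  calc _ ≤ ε / (2 * c ^ (p + 1)) * (c ^ (p + 1) * S) := e1
    _ = ε / 2 * S := by field_simp
    _ < _ := by nlinarith

/-- passing to the sharp window -/
lemma OS_gen {α : Type*} {l : Filter α} {Z1 Z2 : α → ℝ} (hW : Win l Z1 Z2) (k : ℕ)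
    {G : ℝ → ℂ} (hG : Continuous G) (hG1 : ∀ t, ‖G t‖ ≤ 1) {Q E : α → ℝ → ℝ} (hQc : ∀ x, Continuous (Q x))
    {a b : α → ℝ} (ha : ∀ᶠ x in l, 0 ≤ a x)
    (hE : ∀ᶠ x in l, ∀ t ∈ Ioi (0:ℝ), |Q x t - (Ioc (a x) (b x)).indicator (fun _ => (1:ℝ)) t| ≤ E x t)
    {C : ℝ} (hEi : ∀ᶠ x in l, IntegrableOn (fun t => wt k t * E x t) (Ioi 0) ∧
      ∫ t in Ioi (0:ℝ), wt k t * E x t ≤ C * (Z2 x ^ (2 * (k - 1)) * √(Z2 x))) (lam : ℝ) :
    Tendsto (fun x => (((SS k (Z1 x) (Z2 x))⁻¹ : ℝ) : ℂ) *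
      ((∫ t in Ioi (0:ℝ), ((wt k t * Q x t : ℝ) : ℂ) * G t * cexp ((lam * t : ℝ) * I)) -
        ∫ t in Ioc (a x) (b x), ((wt k t : ℝ) : ℂ) * G t * cexp ((lam * t : ℝ) * I))) l (𝓝 0) := by
  have hsm := (win_gap hW k).const_mul |C|
  rw [mul_zero] at hsm
  refine squeeze_zero_norm' ?_ hsm
  filter_upwards [ha, hE, hEi, hW.h2, hW.h1.eventually_gt_atTop 0] with x ha hE hEi h2 h1
  have hS := SS_pos k h1 h2.1
  obtain ⟨hEi1, hEi2⟩ := hEi
  set f : ℝ → ℂ := fun t => ((wt k t : ℝ) : ℂ) * G t * cexp ((lam * t : ℝ) * I) with hf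
  have hfc : Continuous f := by
    simp only [hf]
    exact ((Complex.continuous_ofReal.comp (wt_cont k)).mul hG).mul (by fun_prop)
  have hsub : Ioc (a x) (b x) ⊆ Ioi 0 := fun t ht => lt_of_le_of_lt ha ht.1
  have hfI : IntegrableOn f (Ioc (a x) (b x)) :=
    (hfc.continuousOn.integrableOn_compact isCompact_Icc).mono_set Ioc_subset_Icc_self
  have hindI : IntegrableOn ((Ioc (a x) (b x)).indicator f) (Ioi 0) := by
    rw [IntegrableOn, integrable_indicator_iff measurableSet_Ioc, IntegrableOn, Measure.restrict_restrict measurableSet_Ioc]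
    exact hfI.mono_set inter_subset_left
  have hfn : ∀ t, ‖f t‖ ≤ wt k t := by
    intro t
    simp only [hf]
    rw [norm_mul, norm_mul, Complex.norm_exp_ofReal_mul_I, mul_one, Complex.norm_real,
      Real.norm_of_nonneg (wt_nonneg k t)]
    exact mul_le_of_le_one_right (wt_nonneg k t) (hG1 t)
  have hpt : ∀ t ∈ Ioi (0:ℝ), ‖(Q x t : ℂ) * f t - (Ioc (a x) (b x)).indicator f t‖ ≤ wt k t * E x t := by
    intro t ht
    have e1 : (Q x t : ℂ) * f t - (Ioc (a x) (b x)).indicator f t =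
        ((Q x t - (Ioc (a x) (b x)).indicator (fun _ => (1:ℝ)) t : ℝ) : ℂ) * f t := by
      by_cases hm : t ∈ Ioc (a x) (b x)
      · rw [indicator_of_mem hm, indicator_of_mem hm]; push_cast; ring
      · rw [indicator_of_notMem hm, indicator_of_notMem hm]; push_cast; ring
    rw [e1, norm_mul, Complex.norm_real, Real.norm_eq_abs, mul_comm]
    exact mul_le_mul (hfn t) (hE t ht) (abs_nonneg _) (wt_nonneg k t)
  have hQf : ∀ t : ℝ, ((wt k t * Q x t : ℝ) : ℂ) * G t * cexp ((lam * t : ℝ) * I) = (Q x t : ℂ) * f t := by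
    intro t
    simp only [hf]
    push_cast
    ring
  have hdiffI : IntegrableOn (fun t => (Q x t : ℂ) * f t - (Ioc (a x) (b x)).indicator f t) (Ioi 0) := by
    refine hEi1.mono' ?_ ((ae_restrict_iff' measurableSet_Ioi).2 (Eventually.of_forall hpt))
    exact (((Complex.continuous_ofReal.comp (hQc x)).mul hfc).measurable.sub
      (hfc.measurable.indicator measurableSet_Ioc)).aestronglyMeasurable
  have hQI : IntegrableOn (fun t => (Q x t : ℂ) * f t) (Ioi 0) := by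
    have := hdiffI.add hindI
    refine this.congr (Eventually.of_forall fun t => ?_)
    simp
  have e2 : (∫ t in Ioi (0:ℝ), ((wt k t * Q x t : ℝ) : ℂ) * G t * cexp ((lam * t : ℝ) * I)) -
        ∫ t in Ioc (a x) (b x), ((wt k t : ℝ) : ℂ) * G t * cexp ((lam * t : ℝ) * I) =
      ∫ t in Ioi (0:ℝ), ((Q x t : ℂ) * f t - (Ioc (a x) (b x)).indicator f t) := by
    rw [integral_sub hQI hindI, setIntegral_indicator measurableSet_Ioc, inter_eq_right.2 hsub]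
    simp_rw [hQf]
    rfl
  rw [e2, norm_mul, Complex.norm_real, Real.norm_of_nonneg (inv_nonneg.2 hS.le)]
  have e3 : ‖∫ t in Ioi (0:ℝ), ((Q x t : ℂ) * f t - (Ioc (a x) (b x)).indicator f t)‖ ≤
      |C| * (Z2 x ^ (2 * (k - 1)) * √(Z2 x)) := by
    calc _ ≤ ∫ t in Ioi (0:ℝ), ‖(Q x t : ℂ) * f t - (Ioc (a x) (b x)).indicator f t‖ :=
          norm_integral_le_integral_norm _
      _ ≤ ∫ t in Ioi (0:ℝ), wt k t * E x t := setIntegral_mono_on hdiffI.norm hEi1 measurableSet_Ioi hpt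
      _ ≤ C * (Z2 x ^ (2 * (k - 1)) * √(Z2 x)) := hEi2
      _ ≤ _ := by
          have hz2 : 0 ≤ Z2 x := by linarith [h2.1]
          have : 0 ≤ Z2 x ^ (2 * (k - 1)) * √(Z2 x) := by positivity
          exact mul_le_mul_of_nonneg_right (le_abs_self C) this
  calc _ ≤ (SS k (Z1 x) (Z2 x))⁻¹ * (|C| * (Z2 x ^ (2 * (k - 1)) * √(Z2 x))) :=
        mul_le_mul_of_nonneg_left e3 (inv_nonneg.2 hS.le)
    _ = _ := by rw [div_eq_mul_inv]; ring

end

end Pool.Agent.TH535.PZ
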