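import Pool.Agent.TH535.PZ.P20

set_option autoImplicit false

/-! Windows: pairing and norm integrals. -/

namespace Pool.Agent.TH535.PZ

open Complex MeasureTheory Filter Topology Set
open Pool.Agent.W182.KO (XX XX_diff XX_bound zeta_XX strip_shift)
open Pool.Agent.TH535.SM
open scoped FourierTransform ComplexConjugate

noncomputable section

/-- the window function -/
def Dw (c z1 z2 t : ℝ) : ℝ := ph (hz c z2) t - ph (hz c z1) t

lemma Dw_cont (c z1 z2 : ℝ) : Continuous (Dw c z1 z2) := (ph_cont _).sub (ph_cont _)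

lemma Dw_neg (c z1 z2 t : ℝ) : Dw c z1 z2 (-t) = Dw c z1 z2 t := by
  unfold Dw
  rw [ph_neg, ph_neg]

lemma ph_le2 {h : ℝ} (hh : 0 ≤ h) (t : ℝ) : ph h t ≤ 2 := by
  unfold ph
  have h1 := v_le_one hh (t / h)
  have h2 := v_le_one hh (-t / h)
  linarith

lemma hz_nonneg (c Z : ℝ) : 0 ≤ hz c Z := Real.sqrt_nonneg _

lemma Dw_abs (c z1 z2 t : ℝ) : |Dw c z1 z2 t| ≤ 2 := by
  unfold Dw
  rw [abs_le]
  have h1 := ph_nonneg (hz_nonneg c z1) t
  have h2 := ph_nonneg (hz_nonneg c z2) t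
  have h3 := ph_le2 (hz_nonneg c z1) t
  have h4 := ph_le2 (hz_nonneg c z2) t
  constructor <;> linarith

/-- the error majorant -/
def Er (c z1 z2 t : ℝ) : ℝ := er (c * z2) t + er (c * z1) t

lemma Er_nonneg (c z1 z2 t : ℝ) : 0 ≤ Er c z1 z2 t := add_nonneg (er_nonneg _ _) (er_nonneg _ _)

lemma Dw_err {c : ℝ} (hc : 0 < c) {z1 z2 : ℝ} (h : z1 ≤ z2) (t : ℝ) :
    |Dw c z1 z2 t - (Ioc (c * z1) (c * z2)).indicator (fun _ => (1:ℝ)) t| ≤ Er c z1 z2 t := by
  have h12 : c * z1 ≤ c * z2 := by nlinarith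
  have e1 : (Ioc (c * z1) (c * z2)).indicator (fun _ => (1:ℝ)) t =
      (Iic (c * z2)).indicator (fun _ => (1:ℝ)) t - (Iic (c * z1)).indicator (fun _ => (1:ℝ)) t := by
    by_cases g1 : t ≤ c * z1
    · have g2 : t ≤ c * z2 := g1.trans h12
      rw [indicator_of_notMem (fun hm => absurd hm.1 (not_lt.2 g1)), indicator_of_mem (by exact g2),
        indicator_of_mem (by exact g1)]
      ring
    · by_cases g2 : t ≤ c * z2
      · rw [indicator_of_mem (show t ∈ Ioc (c * z1) (c * z2) from ⟨not_le.1 g1, g2⟩), indicator_of_mem (by exact g2), indicator_of_notMem (by exact g1)]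
        ring
      · rw [indicator_of_notMem (fun hm => g2 hm.2), indicator_of_notMem (by exact g2),
          indicator_of_notMem (by exact g1)]
        ring
  rw [e1]
  unfold Dw Er er hz
  have e2 : ph √(c * z2) t - ph √(c * z1) t - ((Iic (c * z2)).indicator (fun _ => (1:ℝ)) t -
      (Iic (c * z1)).indicator (fun _ => (1:ℝ)) t) = (ph √(c * z2) t - (Iic (c * z2)).indicator (fun _ => (1:ℝ)) t) -
      (ph √(c * z1) t - (Iic (c * z1)).indicator (fun _ => (1:ℝ)) t) := by ring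
  rw [e2]
  exact abs_sub _ _

lemma Er_int (k : ℕ) {c : ℝ} (hc : 0 < c) : ∃ C : ℝ, 0 ≤ C ∧ ∀ z1 z2 : ℝ, 1 ≤ c * z1 → z1 ≤ z2 →
    IntegrableOn (fun t => wt k t * Er c z1 z2 t) (Ioi 0) ∧
    ∫ t in Ioi (0:ℝ), wt k t * Er c z1 z2 t ≤ C * (z2 ^ (2 * (k - 1)) * √z2) := by
  obtain ⟨C, hC, h⟩ := sharp_err k
  refine ⟨2 * C * (c ^ (2 * (k - 1)) * √c), by positivity, fun z1 z2 h1 h12 => ?_⟩
  have hz1 : 0 < z1 := by
    by_contra hcon
    rw [not_lt] at hcon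
    nlinarith
  have hz2 : 0 < z2 := by linarith
  have h2 : 1 ≤ c * z2 := by nlinarith
  obtain ⟨i1, j1⟩ := h (c * z1) h1
  obtain ⟨i2, j2⟩ := h (c * z2) h2
  have e : ∀ t, wt k t * Er c z1 z2 t = wt k t * er (c * z2) t + wt k t * er (c * z1) t := by
    intro t
    unfold Er
    ring
  simp_rw [e]
  refine ⟨i2.add i1, ?_⟩
  rw [integral_add i2 i1]
  have g : ∀ z : ℝ, 0 < z → (c * z) ^ (2 * (k - 1)) * √(c * z) = (c ^ (2 * (k - 1)) * √c) * (z ^ (2 * (k - 1)) * √z) := by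
    intro z hz
    rw [mul_pow, Real.sqrt_mul hc.le]
    ring
  rw [g z1 hz1] at j1
  rw [g z2 hz2] at j2
  have j3 : z1 ^ (2 * (k - 1)) * √z1 ≤ z2 ^ (2 * (k - 1)) * √z2 := by
    gcongr
  have hq : 0 ≤ C * (c ^ (2 * (k - 1)) * √c) := by positivity
  have j4 := mul_le_mul_of_nonneg_left j3 hq
  linarith

lemma wt_lim (k : ℕ) : Tendsto (fun t : ℝ => wt k t * (t ^ (2 * (k - 1)))⁻¹) atTop (𝓝 ((4 * Real.pi ^ 2) ^ k)⁻¹) := by
  have h := (pw_lim k 1).mul_const ((4 * Real.pi ^ 2) ^ k)⁻¹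
  have e : ((1:ℝ) ^ 2) ^ (k - 1) * ((4 * Real.pi ^ 2) ^ k)⁻¹ = ((4 * Real.pi ^ 2) ^ k)⁻¹ := by simp
  rw [e] at h
  refine h.congr' ?_
  filter_upwards [eventually_gt_atTop 0] with t ht
  unfold wt pw
  have e1 : 1 / 4 + t ^ 2 = t ^ 2 * (1 / (4 * t ^ 2) + 1 ^ 2) := by
    field_simp
  have hne : t ^ (2 * (k - 1)) ≠ 0 := by positivity
  rw [e1, mul_pow (t ^ 2), ← pow_mul]
  generalize (1 / (4 * t ^ 2) + 1 ^ 2) ^ (k - 1) = u
  field_simp

lemma g_lim (k : ℕ) {G : ℝ → ℂ} (hG : Tendsto G atTop (𝓝 1)) :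
    Tendsto (fun t : ℝ => (((wt k t : ℝ) : ℂ) * G t) * (((t ^ (2 * (k - 1)) : ℝ)) : ℂ)⁻¹) atTop
      (𝓝 ((((4 * Real.pi ^ 2) ^ k)⁻¹ : ℝ) : ℂ)) := by
  have h := ((Complex.continuous_ofReal.tendsto _).comp (wt_lim k)).mul hG
  rw [mul_one] at h
  refine h.congr fun t => ?_
  simp only [Function.comp]
  push_cast
  ring

/-- the one sided pairing integral -/
lemma OSP {α : Type*} {l : Filter α} {Z1 Z2 : α → ℝ} (hW : Win l Z1 Z2) (k : ℕ)
    {G : ℝ → ℂ} (hG : Continuous G) (hG1 : ∀ t, ‖G t‖ ≤ 1) (hGl : Tendsto G atTop (𝓝 1)) {c : ℝ} (hc : 0 < c) (lam : ℝ) :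
    Tendsto (fun x => (((SS k (Z1 x) (Z2 x))⁻¹ : ℝ) : ℂ) *
      ∫ t in Ioi (0:ℝ), ((wt k t * Dw c (Z1 x) (Z2 x) t : ℝ) : ℂ) * G t * cexp ((lam * t : ℝ) * I)) l
      (𝓝 (if lam = 0 then ((((4 * Real.pi ^ 2) ^ k)⁻¹ : ℝ) : ℂ) *
        ((c ^ (2 * (k - 1) + 1) / ((2 * (k - 1) : ℕ) + 1) : ℝ) : ℂ) else 0)) := by
  obtain ⟨C, hC, hE⟩ := Er_int k hc
  have hbig : ∀ᶠ x in l, 1 ≤ c * Z1 x := by
    filter_upwards [hW.h1.eventually_ge_atTop (1 / c)] with x hx
    rw [div_le_iff₀ hc] at hx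
    linarith
  have h1 := OS_gen hW k hG hG1 (Q := fun x t => Dw c (Z1 x) (Z2 x) t) (E := fun x t => Er c (Z1 x) (Z2 x) t)
    (fun x => Dw_cont _ _ _) (a := fun x => c * Z1 x) (b := fun x => c * Z2 x)
    (by filter_upwards [hbig] with x hx; linarith)
    (by filter_upwards [hW.h2] with x hx t _ using Dw_err hc hx.1.le t) (C := C)
    (by filter_upwards [hbig, hW.h2] with x hx h2 using hE _ _ hx h2.1.le) lam
  have hgc : Continuous (fun t : ℝ => ((wt k t : ℝ) : ℂ) * G t) :=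
    (Complex.continuous_ofReal.comp (wt_cont k)).mul hG
  have h2 : Tendsto (fun x => (((SS k (Z1 x) (Z2 x))⁻¹ : ℝ) : ℂ) *
      ∫ t in Ioc (c * Z1 x) (c * Z2 x), ((wt k t : ℝ) : ℂ) * G t * cexp ((lam * t : ℝ) * I)) l
      (𝓝 (if lam = 0 then ((((4 * Real.pi ^ 2) ^ k)⁻¹ : ℝ) : ℂ) *
        ((c ^ (2 * (k - 1) + 1) / ((2 * (k - 1) : ℕ) + 1) : ℝ) : ℂ) else 0)) := by
    by_cases hl : lam = 0
    · subst hl
      rw [if_pos rfl]
      have e0 : ∀ t : ℝ, cexp ((0 * t : ℝ) * I) = 1 := fun t => by simp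
      simp_rw [e0, mul_one]
      exact OS_diag hW k hgc (g_lim k hGl) hc
    · rw [if_neg hl]
      refine OS_sharp hW k hgc (g_lim k hGl) hc ?_ hl
      filter_upwards [hW.h2] with x hx
      right
      exact ⟨le_rfl, by nlinarith [hx.1], le_rfl⟩
  have h3 := h1.add h2
  rw [zero_add] at h3
  refine h3.congr fun x => ?_
  ring

/-- the one sided norm integral -/
lemma OSN {α : Type*} {l : Filter α} {Z1 Z2 : α → ℝ} (hW : Win l Z1 Z2) (k : ℕ)
    {c d : ℝ} (hc : 0 < c) (hd : 0 < d) {lam : ℝ} (hcd : lam = 0 → c = d) :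
    Tendsto (fun x => (((SS k (Z1 x) (Z2 x))⁻¹ : ℝ) : ℂ) *
      ∫ t in Ioi (0:ℝ), ((wt k t * (Dw c (Z1 x) (Z2 x) t * Dw d (Z1 x) (Z2 x) t) : ℝ) : ℂ) * 1 *
        cexp ((lam * t : ℝ) * I)) l
      (𝓝 (if lam = 0 then ((((4 * Real.pi ^ 2) ^ k)⁻¹ : ℝ) : ℂ) *
        ((c ^ (2 * (k - 1) + 1) / ((2 * (k - 1) : ℕ) + 1) : ℝ) : ℂ) else 0)) := by
  obtain ⟨C, hC, hE⟩ := Er_int k hc
  obtain ⟨C', hC', hE'⟩ := Er_int k hd
  have hbig : ∀ᶠ x in l, 1 ≤ c * Z1 x := by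
    filter_upwards [hW.h1.eventually_ge_atTop (1 / c)] with x hx
    rw [div_le_iff₀ hc] at hx
    linarith
  have hbig' : ∀ᶠ x in l, 1 ≤ d * Z1 x := by
    filter_upwards [hW.h1.eventually_ge_atTop (1 / d)] with x hx
    rw [div_le_iff₀ hd] at hx
    linarith
  have h1 := OS_gen hW k (G := fun _ => (1:ℂ)) continuous_const (fun _ => by simp)
    (Q := fun x t => Dw c (Z1 x) (Z2 x) t * Dw d (Z1 x) (Z2 x) t)
    (E := fun x t => 2 * Er c (Z1 x) (Z2 x) t + Er d (Z1 x) (Z2 x) t)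
    (fun x => (Dw_cont _ _ _).mul (Dw_cont _ _ _)) (a := fun x => max (c * Z1 x) (d * Z1 x))
    (b := fun x => min (c * Z2 x) (d * Z2 x))
    (by filter_upwards [hbig] with x hx; exact le_trans (by linarith) (le_max_left _ _))
    (by
      filter_upwards [hW.h2] with x hx t _
      have e1 := Dw_err hc hx.1.le t
      have e2 := Dw_err hd hx.1.le t
      have e3 := Dw_abs d (Z1 x) (Z2 x) t
      have e4 : (Ioc (max (c * Z1 x) (d * Z1 x)) (min (c * Z2 x) (d * Z2 x))).indicator (fun _ => (1:ℝ)) t =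
          (Ioc (c * Z1 x) (c * Z2 x)).indicator (fun _ => (1:ℝ)) t *
          (Ioc (d * Z1 x) (d * Z2 x)).indicator (fun _ => (1:ℝ)) t := by
        have := Ioc_inter_Ioc (b₁ := c * Z1 x) (b₂ := d * Z1 x) (a₁ := c * Z2 x) (a₂ := d * Z2 x)
        rw [show max (c * Z1 x) (d * Z1 x) = c * Z1 x ⊔ d * Z1 x from rfl,
          show min (c * Z2 x) (d * Z2 x) = c * Z2 x ⊓ d * Z2 x from rfl, ← this]
        by_cases m1 : t ∈ Ioc (c * Z1 x) (c * Z2 x)
        · by_cases m2 : t ∈ Ioc (d * Z1 x) (d * Z2 x)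
          · rw [indicator_of_mem (show t ∈ Ioc (c * Z1 x) (c * Z2 x) ∩ Ioc (d * Z1 x) (d * Z2 x) from ⟨m1, m2⟩),
              indicator_of_mem m1, indicator_of_mem m2, mul_one]
          · rw [indicator_of_notMem (fun hm => m2 hm.2), indicator_of_notMem m2, mul_zero]
        · rw [indicator_of_notMem (fun hm => m1 hm.1), indicator_of_notMem m1, zero_mul]
      rw [e4]
      set A := Dw c (Z1 x) (Z2 x) t
      set B := Dw d (Z1 x) (Z2 x) t
      set a := (Ioc (c * Z1 x) (c * Z2 x)).indicator (fun _ => (1:ℝ)) t with ha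
      set b := (Ioc (d * Z1 x) (d * Z2 x)).indicator (fun _ => (1:ℝ)) t with hb
      have ha1 : |a| ≤ 1 := by
        rw [ha]
        by_cases hm : t ∈ Ioc (c * Z1 x) (c * Z2 x)
        · rw [indicator_of_mem hm]; norm_num
        · rw [indicator_of_notMem hm]; norm_num
      have e5 : A * B - a * b = (A - a) * B + a * (B - b) := by ring
      rw [e5]
      calc |(A - a) * B + a * (B - b)| ≤ |(A - a) * B| + |a * (B - b)| := abs_add_le _ _
        _ = |A - a| * |B| + |a| * |B - b| := by rw [abs_mul, abs_mul]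
        _ ≤ Er c (Z1 x) (Z2 x) t * 2 + 1 * Er d (Z1 x) (Z2 x) t := by
            have := Er_nonneg c (Z1 x) (Z2 x) t
            gcongr
        _ = _ := by ring) (C := 2 * C + C')
    (by
      filter_upwards [hbig, hbig', hW.h2] with x hx hx' h2
      obtain ⟨i1, j1⟩ := hE _ _ hx h2.1.le
      obtain ⟨i2, j2⟩ := hE' _ _ hx' h2.1.le
      have e : ∀ t, wt k t * (2 * Er c (Z1 x) (Z2 x) t + Er d (Z1 x) (Z2 x) t) =
          2 * (wt k t * Er c (Z1 x) (Z2 x) t) + wt k t * Er d (Z1 x) (Z2 x) t := fun t => by ring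
      simp_rw [e]
      refine ⟨(i1.const_mul 2).add i2, ?_⟩
      rw [integral_add (i1.const_mul 2) i2, integral_const_mul]
      linarith) lam
  have hgc : Continuous (fun t : ℝ => ((wt k t : ℝ) : ℂ) * 1) :=
    (Complex.continuous_ofReal.comp (wt_cont k)).mul continuous_const
  have hgl := g_lim k (G := fun _ => (1:ℂ)) tendsto_const_nhds
  have h2 : Tendsto (fun x => (((SS k (Z1 x) (Z2 x))⁻¹ : ℝ) : ℂ) *
      ∫ t in Ioc (max (c * Z1 x) (d * Z1 x)) (min (c * Z2 x) (d * Z2 x)), ((wt k t : ℝ) : ℂ) * 1 *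
        cexp ((lam * t : ℝ) * I)) l
      (𝓝 (if lam = 0 then ((((4 * Real.pi ^ 2) ^ k)⁻¹ : ℝ) : ℂ) *
        ((c ^ (2 * (k - 1) + 1) / ((2 * (k - 1) : ℕ) + 1) : ℝ) : ℂ) else 0)) := by
    by_cases hl : lam = 0
    · have hcd' := hcd hl
      subst hl
      subst hcd'
      rw [if_pos rfl]
      have e0 : ∀ t : ℝ, cexp ((0 * t : ℝ) * I) = 1 := fun t => by simp
      simp_rw [e0, mul_one, max_self, min_self]
      have := OS_diag hW k hgc hgl hc
      simp_rw [mul_one] at this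
      exact this
    · rw [if_neg hl]
      refine OS_sharp hW k hgc hgl hc ?_ hl
      filter_upwards [] with x
      rcases le_total (min (c * Z2 x) (d * Z2 x)) (max (c * Z1 x) (d * Z1 x)) with h | h
      · exact Or.inl h
      · exact Or.inr ⟨le_max_left _ _, h, min_le_left _ _⟩
  have h3 := h1.add h2
  rw [zero_add] at h3
  refine h3.congr fun x => ?_
  ring

/-- the mass of the window -/
lemma Dw_mass {α : Type*} {l : Filter α} {Z1 Z2 : α → ℝ} (hW : Win l Z1 Z2) (k : ℕ) {c : ℝ} (hc : 0 < c) :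
    ∃ K : ℝ, 0 ≤ K ∧ ∀ᶠ x in l, Integrable (fun t => wt k t * |Dw c (Z1 x) (Z2 x) t|) ∧
      ∫ t, wt k t * |Dw c (Z1 x) (Z2 x) t| ≤ K * SS k (Z1 x) (Z2 x) := by
  obtain ⟨C, hC, hE⟩ := Er_int k hc
  set p := 2 * (k - 1) with hp
  refine ⟨2 * (c * (2 * c * 2) ^ p + C), by positivity, ?_⟩
  filter_upwards [hW.h2, hW.h1.eventually_ge_atTop (1 / c), (win_gap hW k).eventually_lt_const one_pos]
    with x h2 h1 h4
  rw [div_le_iff₀ hc] at h1
  have h1' : 1 ≤ c * Z1 x := by linarith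
  obtain ⟨i1, j1⟩ := hE _ _ h1' h2.1.le
  have hZ1 : 0 < Z1 x := by
    by_contra hcon
    rw [not_lt] at hcon
    nlinarith
  have hZ2 : 0 < Z2 x := by linarith [h2.1]
  have hS := SS_pos k hZ1 h2.1
  have hSg := SS_ge k hZ1.le h2.1.le
  rw [div_lt_one hS] at h4
  have h12 : c * Z1 x ≤ c * Z2 x := by nlinarith [h2.1]
  have hev : ∀ t, wt k (-t) * |Dw c (Z1 x) (Z2 x) (-t)| = wt k t * |Dw c (Z1 x) (Z2 x) t| := by
    intro t
    rw [Dw_neg]
    unfold wt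
    rw [neg_sq]
  have hindI : IntegrableOn ((Ioc (c * Z1 x) (c * Z2 x)).indicator (wt k)) (Ioi 0) := by
    rw [IntegrableOn, integrable_indicator_iff measurableSet_Ioc, IntegrableOn, Measure.restrict_restrict measurableSet_Ioc]
    exact ((((wt_cont k).continuousOn.integrableOn_compact isCompact_Icc).mono_set Ioc_subset_Icc_self)).mono_set
      inter_subset_left
  have hpt : ∀ t ∈ Ioi (0:ℝ), wt k t * |Dw c (Z1 x) (Z2 x) t| ≤
      (Ioc (c * Z1 x) (c * Z2 x)).indicator (wt k) t + wt k t * Er c (Z1 x) (Z2 x) t := by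
    intro t _
    have e1 := Dw_err hc h2.1.le t
    have e2 : |Dw c (Z1 x) (Z2 x) t| ≤ (Ioc (c * Z1 x) (c * Z2 x)).indicator (fun _ => (1:ℝ)) t +
        Er c (Z1 x) (Z2 x) t := by
      have e3 : 0 ≤ (Ioc (c * Z1 x) (c * Z2 x)).indicator (fun _ => (1:ℝ)) t :=
        indicator_nonneg (fun _ _ => zero_le_one) _
      have e4 := abs_sub_abs_le_abs_sub (Dw c (Z1 x) (Z2 x) t) ((Ioc (c * Z1 x) (c * Z2 x)).indicator (fun _ => (1:ℝ)) t)
      rw [abs_of_nonneg e3] at e4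
      linarith
    have e5 : wt k t * (Ioc (c * Z1 x) (c * Z2 x)).indicator (fun _ => (1:ℝ)) t =
        (Ioc (c * Z1 x) (c * Z2 x)).indicator (wt k) t := by
      by_cases hm : t ∈ Ioc (c * Z1 x) (c * Z2 x)
      · rw [indicator_of_mem hm, indicator_of_mem hm, mul_one]
      · rw [indicator_of_notMem hm, indicator_of_notMem hm, mul_zero]
    calc _ ≤ wt k t * ((Ioc (c * Z1 x) (c * Z2 x)).indicator (fun _ => (1:ℝ)) t + Er c (Z1 x) (Z2 x) t) :=
          mul_le_mul_of_nonneg_left e2 (wt_nonneg k t)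
      _ = _ := by rw [mul_add, e5]
  have hfI : IntegrableOn (fun t => wt k t * |Dw c (Z1 x) (Z2 x) t|) (Ioi 0) := by
    refine (hindI.add i1).mono' ((wt_cont k).mul (Dw_cont _ _ _).abs).aestronglyMeasurable
      ((ae_restrict_iff' measurableSet_Ioi).2 (Eventually.of_forall fun t ht => ?_))
    rw [Real.norm_of_nonneg (mul_nonneg (wt_nonneg k t) (abs_nonneg _))]
    exact hpt t ht
  have hfI2 : IntegrableOn (fun t => wt k t * |Dw c (Z1 x) (Z2 x) t|) (Iic 0) := by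
    have := ((Measure.measurePreserving_neg (volume : Measure ℝ)).integrableOn_comp_preimage
      (Homeomorph.neg ℝ).measurableEmbedding (f := fun t => wt k t * |Dw c (Z1 x) (Z2 x) t|) (s := Ioi 0)).2 hfI
    have h2 : (Neg.neg ⁻¹' Ioi (0:ℝ)) = Iio 0 := by
      ext y
      simp
    rw [h2] at this
    have h3 : IntegrableOn (fun t => wt k t * |Dw c (Z1 x) (Z2 x) t|) (Iio 0) := by
      refine this.congr (Eventually.of_forall fun t => ?_)
      exact hev t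
    exact (integrableOn_Iic_iff_integrableOn_Iio).2 h3
  have hfull : Integrable (fun t => wt k t * |Dw c (Z1 x) (Z2 x) t|) := by
    rw [← integrableOn_univ, ← Iic_union_Ioi (a := (0:ℝ))]
    exact hfI2.union hfI
  refine ⟨hfull, ?_⟩
  have hsplit : ∫ t, wt k t * |Dw c (Z1 x) (Z2 x) t| = 2 * ∫ t in Ioi (0:ℝ), wt k t * |Dw c (Z1 x) (Z2 x) t| := by
    rw [← integral_add_compl (measurableSet_Iic (a := (0:ℝ))) hfull, compl_Iic]
    have h3 := integral_comp_neg_Ioi (0:ℝ) (fun t => wt k t * |Dw c (Z1 x) (Z2 x) t|)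
    rw [neg_zero] at h3
    rw [← h3]
    simp_rw [hev]
    ring
  rw [hsplit]
  have hind : ∫ t in Ioi (0:ℝ), (Ioc (c * Z1 x) (c * Z2 x)).indicator (wt k) t ≤
      c * (2 * c * 2) ^ p * SS k (Z1 x) (Z2 x) := by
    have hsub : Ioc (c * Z1 x) (c * Z2 x) ⊆ Ioi 0 := fun t ht => lt_of_le_of_lt (by linarith) ht.1
    rw [setIntegral_indicator measurableSet_Ioc, inter_eq_right.2 hsub, ← intervalIntegral.integral_of_le h12]
    have hb : ∀ t ∈ Icc (c * Z1 x) (c * Z2 x), wt k t ≤ (2 * c * 2 * Z1 x) ^ p := by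
      intro t ht
      have ht0 : 0 ≤ t := by linarith [ht.1]
      have h5 := wt_bd k t
      rw [abs_of_nonneg ht0] at h5
      refine h5.trans (pow_le_pow_left₀ (by positivity) ?_ _)
      have h6 := ht.2
      have h7 : c * Z2 x ≤ c * (2 * Z1 x) := mul_le_mul_of_nonneg_left h2.2 hc.le
      have h8 : (1:ℝ) ≤ c * Z1 x := h1'
      linarith
    calc ∫ t in (c * Z1 x)..(c * Z2 x), wt k t ≤ ∫ _t in (c * Z1 x)..(c * Z2 x), (2 * c * 2 * Z1 x) ^ p :=
          intervalIntegral.integral_mono_on h12 ((wt_cont k).intervalIntegrable _ _)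
            (continuous_const.intervalIntegrable _ _) hb
      _ = (c * Z2 x - c * Z1 x) * (2 * c * 2 * Z1 x) ^ p := by
          rw [intervalIntegral.integral_const, smul_eq_mul]
      _ = c * (2 * c * 2) ^ p * ((Z2 x - Z1 x) * Z1 x ^ p) := by rw [mul_pow]; ring
      _ ≤ _ := mul_le_mul_of_nonneg_left hSg (by positivity)
  have hmain : ∫ t in Ioi (0:ℝ), wt k t * |Dw c (Z1 x) (Z2 x) t| ≤
      c * (2 * c * 2) ^ p * SS k (Z1 x) (Z2 x) + C * SS k (Z1 x) (Z2 x) := by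
    calc _ ≤ ∫ t in Ioi (0:ℝ), ((Ioc (c * Z1 x) (c * Z2 x)).indicator (wt k) t + wt k t * Er c (Z1 x) (Z2 x) t) :=
          setIntegral_mono_on hfI (hindI.add i1) measurableSet_Ioi hpt
      _ = (∫ t in Ioi (0:ℝ), (Ioc (c * Z1 x) (c * Z2 x)).indicator (wt k) t) +
          ∫ t in Ioi (0:ℝ), wt k t * Er c (Z1 x) (Z2 x) t := integral_add hindI i1
      _ ≤ _ := add_le_add hind (j1.trans (mul_le_mul_of_nonneg_left h4.le hC))
  linarith

end

end Pool.Agent.TH535.PZ
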