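import Pool.Agent.TH535.PZ.P21

set_option autoImplicit false

/-! Windows: limits of the pairing and of the norm. -/

namespace Pool.Agent.TH535.PZ

open Complex MeasureTheory Filter Topology Set
open Pool.Agent.W182.KO (XX XX_diff XX_bound zeta_XX strip_shift)
open Pool.Agent.TH535.SM
open scoped FourierTransform ComplexConjugate

noncomputable section

lemma two_side {F : ℝ → ℂ} (hF : Integrable F) :
    ∫ t, F t = (∫ t in Ioi (0:ℝ), F t) + ∫ t in Ioi (0:ℝ), F (-t) := by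
  have h3 := integral_comp_neg_Ioi (0:ℝ) F
  rw [neg_zero] at h3
  rw [h3, ← integral_add_compl (measurableSet_Iic (a := (0:ℝ))) hF, compl_Iic, add_comm]

lemma wt_neg (k : ℕ) (t : ℝ) : wt k (-t) = wt k t := by
  unfold wt
  rw [neg_sq]

/-- the full pairing integral -/
def IM (k : ℕ) (c lam z1 z2 : ℝ) : ℂ := ∫ t : ℝ, ((wt k t * Dw c z1 z2 t : ℝ) : ℂ) * ee k t * cexp ((lam * t : ℝ) * I)

lemma IM_int {k : ℕ} {c z1 z2 : ℝ} (h : Integrable (fun t => wt k t * |Dw c z1 z2 t|)) (lam : ℝ) :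
    Integrable (fun t : ℝ => ((wt k t * Dw c z1 z2 t : ℝ) : ℂ) * ee k t * cexp ((lam * t : ℝ) * I)) := by
  refine h.mono' ?_ (Eventually.of_forall fun t => ?_)
  · exact (((Complex.continuous_ofReal.comp ((wt_cont k).mul (Dw_cont c z1 z2))).mul (ee_cont k)).mul
      (by fun_prop)).aestronglyMeasurable
  · rw [norm_mul, norm_mul, Complex.norm_exp_ofReal_mul_I, mul_one, Complex.norm_real, Real.norm_eq_abs, abs_mul,
      abs_of_nonneg (wt_nonneg k t)]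
    exact mul_le_of_le_one_right (mul_nonneg (wt_nonneg k t) (abs_nonneg _)) (ee_norm k t)

lemma IM_norm {k : ℕ} {c z1 z2 : ℝ} (h : Integrable (fun t => wt k t * |Dw c z1 z2 t|)) (lam : ℝ) :
    ‖IM k c lam z1 z2‖ ≤ ∫ t, wt k t * |Dw c z1 z2 t| := by
  unfold IM
  refine norm_integral_le_of_norm_le h (Eventually.of_forall fun t => ?_)
  rw [norm_mul, norm_mul, Complex.norm_exp_ofReal_mul_I, mul_one, Complex.norm_real, Real.norm_eq_abs, abs_mul,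
      abs_of_nonneg (wt_nonneg k t)]
  exact mul_le_of_le_one_right (mul_nonneg (wt_nonneg k t) (abs_nonneg _)) (ee_norm k t)

lemma ee_top (k : ℕ) : Tendsto (ee k) atTop (𝓝 1) := by
  have := ee_lim k (y := 1) one_ne_zero
  simpa using this

lemma ee_bot (k : ℕ) : Tendsto (fun t => ee k (-t)) atTop (𝓝 1) := by
  have := ee_lim k (y := -1) (by norm_num)
  refine this.congr fun t => ?_
  congr 1
  ring

lemma IM_lim {α : Type*} {l : Filter α} {Z1 Z2 : α → ℝ} (hW : Win l Z1 Z2) (k : ℕ) {c : ℝ} (hc : 0 < c) (lam : ℝ) :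
    Tendsto (fun x => (((SS k (Z1 x) (Z2 x))⁻¹ : ℝ) : ℂ) * IM k c lam (Z1 x) (Z2 x)) l
      (𝓝 (if lam = 0 then 2 * (((((4 * Real.pi ^ 2) ^ k)⁻¹ : ℝ) : ℂ) *
        ((c ^ (2 * (k - 1) + 1) / ((2 * (k - 1) : ℕ) + 1) : ℝ) : ℂ)) else 0)) := by
  obtain ⟨K, hK, hmass⟩ := Dw_mass hW k hc
  have h1 := OSP hW k (ee_cont k) (ee_norm k) (ee_top k) hc lam
  have h2 := OSP hW k (G := fun t => ee k (-t)) ((ee_cont k).comp continuous_neg) (fun t => ee_norm k _)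
    (ee_bot k) hc (-lam)
  have h3 := h1.add h2
  have e : (if lam = 0 then ((((4 * Real.pi ^ 2) ^ k)⁻¹ : ℝ) : ℂ) *
        ((c ^ (2 * (k - 1) + 1) / ((2 * (k - 1) : ℕ) + 1) : ℝ) : ℂ) else 0) +
      (if -lam = 0 then ((((4 * Real.pi ^ 2) ^ k)⁻¹ : ℝ) : ℂ) *
        ((c ^ (2 * (k - 1) + 1) / ((2 * (k - 1) : ℕ) + 1) : ℝ) : ℂ) else 0) =
      (if lam = 0 then 2 * (((((4 * Real.pi ^ 2) ^ k)⁻¹ : ℝ) : ℂ) *
        ((c ^ (2 * (k - 1) + 1) / ((2 * (k - 1) : ℕ) + 1) : ℝ) : ℂ)) else 0) := by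
    by_cases hl : lam = 0
    · rw [if_pos hl, if_pos (by rw [hl]; simp), if_pos hl]; ring
    · rw [if_neg hl, if_neg (by simpa using hl), if_neg hl]; ring
  rw [e] at h3
  refine h3.congr' ?_
  filter_upwards [hmass] with x hx
  unfold IM
  rw [two_side (IM_int hx.1 lam), mul_add]
  congr 2
  refine integral_congr_ae (Eventually.of_forall fun t => ?_)
  simp only
  rw [wt_neg, Dw_neg]
  congr 2
  push_cast
  ring

lemma PP_diff {k n : ℕ} (hk : 1 ≤ k) (hn : 1 ≤ n) {c z1 z2 : ℝ} (hc : 0 < c) (hz1 : 0 < z1) (hz2 : 0 < z2)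
    (h : Integrable (fun t => wt k t * |Dw c z1 z2 t|)) :
    PP k n c z2 - PP k n c z1 = (((n : ℝ) ^ (-(3 / 2) : ℝ) : ℝ) : ℂ) *
      ∑' m : ℕ, (bm k m : ℂ) * IM k c (Real.log m - Real.log n) z1 z2 := by
  have hI : ∀ z : ℝ, 0 < z → Integrable (fun t : ℝ => ((wt k t * ph (hz c z) t : ℝ) : ℂ) * ee k t *
      (n : ℂ) ^ (-(((3 / 2 : ℝ) : ℂ) + t * I)) * riemannZeta (((3 / 2 : ℝ) : ℂ) - t * I) ^ k) := by
    intro z hz'
    have := (Ln_dec (Kk_PA k hn) (hz_pos hc hz') (r := 0) le_rfl).int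
    refine this.congr (Eventually.of_forall fun t => ?_)
    exact Kk_line hk n _ t
  unfold PP
  rw [← integral_sub (hI z2 hz2) (hI z1 hz1)]
  have hexp : ∀ m : ℕ, ∀ t : ℝ, ‖cexp (((Real.log m - Real.log n) * t : ℝ) * I)‖ = 1 := fun m t =>
    Complex.norm_exp_ofReal_mul_I _
  set J := ∫ t, wt k t * |Dw c z1 z2 t| with hJ
  have h3 := hasSum_integral_of_summable_integral_norm (μ := volume)
    (F := fun (m : ℕ) (t : ℝ) => (bm k m : ℂ) *
      (((wt k t * Dw c z1 z2 t : ℝ) : ℂ) * ee k t * cexp (((Real.log m - Real.log n) * t : ℝ) * I)))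
    (fun m => (IM_int h _).const_mul _)
    (by
      refine Summable.of_nonneg_of_le (fun m => integral_nonneg fun t => norm_nonneg _) (fun m => ?_)
        ((bm_summable k).mul_right J)
      rw [hJ, ← integral_const_mul]
      refine integral_mono ((IM_int h _).const_mul _).norm (h.const_mul _) fun t => ?_
      simp only
      rw [norm_mul, norm_mul, norm_mul, hexp, mul_one, Complex.norm_real, Real.norm_of_nonneg (bm_nonneg k m),
        Complex.norm_real, Real.norm_eq_abs, abs_mul, abs_of_nonneg (wt_nonneg k t)]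
      refine mul_le_mul_of_nonneg_left ?_ (bm_nonneg k m)
      exact mul_le_of_le_one_right (mul_nonneg (wt_nonneg k t) (abs_nonneg _)) (ee_norm k t))
  have h4 : ∀ t : ℝ, ((wt k t * ph (hz c z2) t : ℝ) : ℂ) * ee k t *
      (n : ℂ) ^ (-(((3 / 2 : ℝ) : ℂ) + t * I)) * riemannZeta (((3 / 2 : ℝ) : ℂ) - t * I) ^ k -
      ((wt k t * ph (hz c z1) t : ℝ) : ℂ) * ee k t *
      (n : ℂ) ^ (-(((3 / 2 : ℝ) : ℂ) + t * I)) * riemannZeta (((3 / 2 : ℝ) : ℂ) - t * I) ^ k =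
      (((n : ℝ) ^ (-(3 / 2) : ℝ) : ℝ) : ℂ) * ∑' m : ℕ, (bm k m : ℂ) *
      (((wt k t * Dw c z1 z2 t : ℝ) : ℂ) * ee k t * cexp (((Real.log m - Real.log n) * t : ℝ) * I)) := by
    intro t
    have e1 : ∑' m : ℕ, (bm k m : ℂ) *
      (((wt k t * Dw c z1 z2 t : ℝ) : ℂ) * ee k t * cexp (((Real.log m - Real.log n) * t : ℝ) * I)) =
      (((wt k t * Dw c z1 z2 t : ℝ) : ℂ) * ee k t * cexp ((-(t * Real.log n) : ℝ) * I)) *
        riemannZeta (((3 / 2 : ℝ) : ℂ) - t * I) ^ k := by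
      rw [← (bm_hasSum k t).tsum_eq, ← tsum_mul_left]
      refine tsum_congr fun m => ?_
      have : cexp (((Real.log m - Real.log n) * t : ℝ) * I) = cexp ((-(t * Real.log n) : ℝ) * I) *
          cexp ((t * Real.log m : ℝ) * I) := by
        rw [← Complex.exp_add]
        congr 1
        push_cast
        ring
      rw [this]
      ring
    rw [e1, npow hn]
    unfold Dw
    push_cast
    ring
  simp_rw [h4]
  rw [integral_const_mul, ← h3.tsum_eq]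
  congr 1
  refine tsum_congr fun m => ?_
  rw [integral_const_mul]
  rfl

lemma PPD_lim {α : Type*} {l : Filter α} {Z1 Z2 : α → ℝ} (hW : Win l Z1 Z2) {k n : ℕ} (hk : 1 ≤ k) (hn : 1 ≤ n)
    {c : ℝ} (hc : 0 < c) :
    Tendsto (fun x => (((SS k (Z1 x) (Z2 x))⁻¹ : ℝ) : ℂ) * (PP k n c (Z2 x) - PP k n c (Z1 x))) l
      (𝓝 ((((n : ℝ) ^ (-(3 / 2) : ℝ) : ℝ) : ℂ) * ((bm k n : ℂ) * (2 * (((((4 * Real.pi ^ 2) ^ k)⁻¹ : ℝ) : ℂ) *
        ((c ^ (2 * (k - 1) + 1) / ((2 * (k - 1) : ℕ) + 1) : ℝ) : ℂ)))))) := by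
  obtain ⟨K, hK, hmass⟩ := Dw_mass hW k hc
  have hterm : ∀ m : ℕ, Tendsto (fun x => (bm k m : ℂ) * ((((SS k (Z1 x) (Z2 x))⁻¹ : ℝ) : ℂ) *
      IM k c (Real.log m - Real.log n) (Z1 x) (Z2 x))) l
      (𝓝 (if m = n then (bm k n : ℂ) * (2 * (((((4 * Real.pi ^ 2) ^ k)⁻¹ : ℝ) : ℂ) *
        ((c ^ (2 * (k - 1) + 1) / ((2 * (k - 1) : ℕ) + 1) : ℝ) : ℂ))) else 0)) := by
    intro m
    have h := (IM_lim hW k hc (Real.log m - Real.log n)).const_mul (bm k m : ℂ)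
    by_cases hmn : m = n
    · subst hmn
      rw [if_pos (sub_self _)] at h
      rw [if_pos rfl]
      exact h
    · rw [if_neg hmn]
      rcases Nat.eq_zero_or_pos m with h0 | h0
      · rw [h0, bm_zero]
        simp only [Complex.ofReal_zero, zero_mul]
        exact tendsto_const_nhds
      · have : Real.log m - Real.log n ≠ 0 := by
          rw [sub_ne_zero]
          intro h1
          have h2 := Real.log_injOn_pos (Set.mem_Ioi.2 (by exact_mod_cast h0 : (0:ℝ) < m))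
            (Set.mem_Ioi.2 (by exact_mod_cast hn : (0:ℝ) < n)) h1
          exact hmn (by exact_mod_cast h2)
        rw [if_neg this, mul_zero] at h
        exact h
  have hsum := tendsto_tsum_of_dominated_convergence (bound := fun m => bm k m * K)
    (f := fun x m => (bm k m : ℂ) * ((((SS k (Z1 x) (Z2 x))⁻¹ : ℝ) : ℂ) *
      IM k c (Real.log m - Real.log n) (Z1 x) (Z2 x)))
    ((bm_summable k).mul_right K) hterm (by
      filter_upwards [hmass, hW.h2, hW.h1.eventually_gt_atTop 0] with x hx h2 h1 m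
      have hS := SS_pos k h1 h2.1
      rw [norm_mul, norm_mul, Complex.norm_real, Real.norm_of_nonneg (bm_nonneg k m), Complex.norm_real,
        Real.norm_of_nonneg (inv_nonneg.2 hS.le)]
      refine mul_le_mul_of_nonneg_left ?_ (bm_nonneg k m)
      rw [inv_mul_le_iff₀ hS]
      calc _ ≤ _ := IM_norm hx.1 _
        _ ≤ K * SS k (Z1 x) (Z2 x) := hx.2
        _ = _ := by ring)
  rw [tsum_ite_eq] at hsum
  have h2 := hsum.const_mul ((((n : ℝ) ^ (-(3 / 2) : ℝ) : ℝ) : ℂ))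
  refine h2.congr' ?_
  filter_upwards [hmass, hW.h2, hW.h1.eventually_gt_atTop 0] with x hx h2 h1
  have e3 : ∑' m : ℕ, (bm k m : ℂ) * ((((SS k (Z1 x) (Z2 x))⁻¹ : ℝ) : ℂ) *
      IM k c (Real.log m - Real.log n) (Z1 x) (Z2 x)) = (((SS k (Z1 x) (Z2 x))⁻¹ : ℝ) : ℂ) *
      ∑' m : ℕ, (bm k m : ℂ) * IM k c (Real.log m - Real.log n) (Z1 x) (Z2 x) := by
    rw [← tsum_mul_left]
    refine tsum_congr fun m => ?_
    ring
  rw [PP_diff hk hn hc h1 (by linarith [h2.1]) hx.1, e3]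
  ring

lemma pairD_lim {α : Type*} {l : Filter α} {Z1 Z2 : α → ℝ} (hW : Win l Z1 Z2) {k : ℕ} (N : ℕ) (hk : 1 ≤ k)
    {P : Polynomial ℝ} (hP : P.natDegree < k) :
    Tendsto (fun x => (SS k (Z1 x) (Z2 x))⁻¹ * ((∫ y : ℝ, (Dt k P y : ℂ) * Gt (FF k N (Z2 x)) y).re -
      (∫ y : ℝ, (Dt k P y : ℂ) * Gt (FF k N (Z1 x)) y).re)) l (𝓝 ((2 * Real.pi)⁻¹ * Lc k N)) := by
  have h1 : ∀ n ∈ Finset.Icc 1 N, Tendsto (fun x => (dr k n : ℂ) *
      ((((SS k (Z1 x) (Z2 x))⁻¹ : ℝ) : ℂ) * (PP k n (cn k n) (Z2 x) - PP k n (cn k n) (Z1 x)))) l _ := fun n hn =>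
    (PPD_lim hW hk (Finset.mem_Icc.1 hn).1 (cn_pos k (Finset.mem_Icc.1 hn).1)).const_mul _
  have h2 := (tendsto_finsetSum _ h1).const_mul (((2 * Real.pi : ℝ) : ℂ)⁻¹)
  have h3 := (Complex.continuous_re.tendsto _).comp h2
  have e1 : (((2 * Real.pi : ℝ) : ℂ)⁻¹ * ∑ n ∈ Finset.Icc 1 N, ((dr k n : ℂ) *
      ((((n : ℝ) ^ (-(3 / 2) : ℝ) : ℝ) : ℂ) * ((bm k n : ℂ) * (2 * (((((4 * Real.pi ^ 2) ^ k)⁻¹ : ℝ) : ℂ) *
        ((cn k n ^ (2 * (k - 1) + 1) / ((2 * (k - 1) : ℕ) + 1) : ℝ) : ℂ))))))).re = (2 * Real.pi)⁻¹ * Lc k N := by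
    have e2 : (((2 * Real.pi : ℝ) : ℂ)⁻¹ * ∑ n ∈ Finset.Icc 1 N, ((dr k n : ℂ) *
      ((((n : ℝ) ^ (-(3 / 2) : ℝ) : ℝ) : ℂ) * ((bm k n : ℂ) * (2 * (((((4 * Real.pi ^ 2) ^ k)⁻¹ : ℝ) : ℂ) *
        ((cn k n ^ (2 * (k - 1) + 1) / ((2 * (k - 1) : ℕ) + 1) : ℝ) : ℂ))))))) =
        (((2 * Real.pi)⁻¹ * Lc k N : ℝ) : ℂ) := by
      unfold Lc bm
      have hk2 : 2 * (k - 1) + 1 = 2 * k - 1 := by omega
      have hk3 : (((2 * (k - 1) : ℕ) : ℝ) + 1) = 2 * (k : ℝ) - 1 := by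
        rw [Nat.cast_mul, Nat.cast_sub hk]
        push_cast
        ring
      rw [hk2, hk3]
      push_cast
      rw [Finset.mul_sum, Finset.mul_sum, Finset.mul_sum]
      refine Finset.sum_congr rfl fun n _ => ?_
      ring
    rw [e2, Complex.ofReal_re]
  rw [e1] at h3
  refine h3.congr' ?_
  filter_upwards [hW.h2, hW.h1.eventually_gt_atTop 0] with x h2 h1
  have hz2 : 0 < Z2 x := by linarith [h2.1]
  rw [(pair_total hk h1 hP).2, (pair_total hk hz2 hP).2, ← Complex.sub_re, ← Complex.re_ofReal_mul]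
  simp only [Function.comp]
  congr 1
  rw [← mul_sub, ← Finset.sum_sub_distrib]
  have e3 : ∑ n ∈ Finset.Icc 1 N, (dr k n : ℂ) * ((((SS k (Z1 x) (Z2 x))⁻¹ : ℝ) : ℂ) *
      (PP k n (cn k n) (Z2 x) - PP k n (cn k n) (Z1 x))) =
      (((SS k (Z1 x) (Z2 x))⁻¹ : ℝ) : ℂ) * ∑ n ∈ Finset.Icc 1 N, ((dr k n : ℂ) * PP k n (cn k n) (Z2 x) -
        (dr k n : ℂ) * PP k n (cn k n) (Z1 x)) := by
    rw [Finset.mul_sum]
    refine Finset.sum_congr rfl fun n _ => ?_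
    ring
  rw [e3]
  ring

/-- the norm of the difference -/
def ND2 (k N : ℕ) (z1 z2 : ℝ) : ℝ := ∫ t, ‖FF k N z2 t - FF k N z1 t‖ ^ 2

lemma FD_sq {k N : ℕ} (hk : 1 ≤ k) (z1 z2 t : ℝ) : ((‖FF k N z2 t - FF k N z1 t‖ ^ 2 : ℝ) : ℂ) =
    ∑ n ∈ Finset.Icc 1 N, ∑ m ∈ Finset.Icc 1 N, ((bm k n * bm k m : ℝ) : ℂ) *
      (((wt k t * (Dw (cn k n) z1 z2 t * Dw (cn k m) z1 z2 t) : ℝ) : ℂ) * 1 *
        cexp (((Real.log m - Real.log n) * t : ℝ) * I)) := by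
  have e1 : FF k N z2 t - FF k N z1 t = CC k t * ∑ n ∈ Finset.Icc 1 N, (bm k n : ℂ) *
      ((Dw (cn k n) z1 z2 t : ℂ) * cexp ((-(t * Real.log n) : ℝ) * I)) := by
    unfold FF
    rw [Finset.mul_sum, ← Finset.sum_sub_distrib]
    refine Finset.sum_congr rfl fun n hn => ?_
    rw [Bk_line, Bk_line, npow (Finset.mem_Icc.1 hn).1]
    unfold bm Dw
    push_cast
    ring
  set u := ∑ n ∈ Finset.Icc 1 N, (bm k n : ℂ) *
      ((Dw (cn k n) z1 z2 t : ℂ) * cexp ((-(t * Real.log n) : ℝ) * I)) with hu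
  rw [e1, norm_mul, mul_pow, CC_sq hk]
  have e2 : ((‖u‖ ^ 2 : ℝ) : ℂ) = u * conj u := by
    rw [Complex.mul_conj, Complex.normSq_eq_norm_sq]
  rw [Complex.ofReal_mul, e2, hu, map_sum, Finset.sum_mul_sum, Finset.mul_sum]
  refine Finset.sum_congr rfl fun n _ => ?_
  rw [Finset.mul_sum]
  refine Finset.sum_congr rfl fun m _ => ?_
  rw [map_mul, map_mul, Complex.conj_ofReal, Complex.conj_ofReal, ← Complex.exp_conj, map_mul,
    Complex.conj_ofReal, conj_I]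
  have e3 : cexp (((Real.log m - Real.log n) * t : ℝ) * I) = cexp ((-(t * Real.log n) : ℝ) * I) *
      cexp ((-(t * Real.log m) : ℝ) * -I) := by
    rw [← Complex.exp_add]
    congr 1
    push_cast
    ring
  rw [e3]
  push_cast
  ring

lemma DD_int {k : ℕ} {c d z1 z2 : ℝ} (h : Integrable (fun t => wt k t * |Dw c z1 z2 t|)) (lam : ℝ) :
    Integrable (fun t : ℝ => ((wt k t * (Dw c z1 z2 t * Dw d z1 z2 t) : ℝ) : ℂ) * 1 * cexp ((lam * t : ℝ) * I)) := by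
  refine (h.const_mul 2).mono' ?_ (Eventually.of_forall fun t => ?_)
  · exact (((Complex.continuous_ofReal.comp ((wt_cont k).mul ((Dw_cont c z1 z2).mul (Dw_cont d z1 z2)))).mul
      continuous_const).mul (by fun_prop)).aestronglyMeasurable
  · rw [norm_mul, mul_one, Complex.norm_exp_ofReal_mul_I, mul_one, Complex.norm_real, Real.norm_eq_abs, abs_mul, abs_mul,
      abs_of_nonneg (wt_nonneg k t)]
    have h2 := Dw_abs d z1 z2 t
    have h3 : 0 ≤ wt k t * |Dw c z1 z2 t| := mul_nonneg (wt_nonneg k t) (abs_nonneg _)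
    nlinarith

lemma DD_lim {α : Type*} {l : Filter α} {Z1 Z2 : α → ℝ} (hW : Win l Z1 Z2) (k : ℕ)
    {c d : ℝ} (hc : 0 < c) (hd : 0 < d) {lam : ℝ} (hcd : lam = 0 → c = d) :
    Tendsto (fun x => (((SS k (Z1 x) (Z2 x))⁻¹ : ℝ) : ℂ) *
      ∫ t : ℝ, ((wt k t * (Dw c (Z1 x) (Z2 x) t * Dw d (Z1 x) (Z2 x) t) : ℝ) : ℂ) * 1 * cexp ((lam * t : ℝ) * I)) l
      (𝓝 (if lam = 0 then 2 * (((((4 * Real.pi ^ 2) ^ k)⁻¹ : ℝ) : ℂ) *
        ((c ^ (2 * (k - 1) + 1) / ((2 * (k - 1) : ℕ) + 1) : ℝ) : ℂ)) else 0)) := by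
  obtain ⟨K, hK, hmass⟩ := Dw_mass hW k hc
  have h1 := OSN hW k hc hd hcd
  have h2 := OSN hW k hc hd (lam := -lam) (fun h => hcd (by simpa using h))
  have h3 := h1.add h2
  have e : (if lam = 0 then ((((4 * Real.pi ^ 2) ^ k)⁻¹ : ℝ) : ℂ) *
        ((c ^ (2 * (k - 1) + 1) / ((2 * (k - 1) : ℕ) + 1) : ℝ) : ℂ) else 0) +
      (if -lam = 0 then ((((4 * Real.pi ^ 2) ^ k)⁻¹ : ℝ) : ℂ) *
        ((c ^ (2 * (k - 1) + 1) / ((2 * (k - 1) : ℕ) + 1) : ℝ) : ℂ) else 0) =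
      (if lam = 0 then 2 * (((((4 * Real.pi ^ 2) ^ k)⁻¹ : ℝ) : ℂ) *
        ((c ^ (2 * (k - 1) + 1) / ((2 * (k - 1) : ℕ) + 1) : ℝ) : ℂ)) else 0) := by
    by_cases hl : lam = 0
    · rw [if_pos hl, if_pos (by rw [hl]; simp), if_pos hl]; ring
    · rw [if_neg hl, if_neg (by simpa using hl), if_neg hl]; ring
  rw [e] at h3
  refine h3.congr' ?_
  filter_upwards [hmass] with x hx
  rw [two_side (DD_int hx.1 lam), mul_add]
  congr 2
  refine integral_congr_ae (Eventually.of_forall fun t => ?_)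
  simp only
  rw [wt_neg, Dw_neg, Dw_neg]
  congr 2
  push_cast
  ring

lemma ND2_lim {α : Type*} {l : Filter α} {Z1 Z2 : α → ℝ} (hW : Win l Z1 Z2) {k : ℕ} (N : ℕ) (hk : 1 ≤ k) :
    Tendsto (fun x => (SS k (Z1 x) (Z2 x))⁻¹ * ND2 k N (Z1 x) (Z2 x)) l (𝓝 (Lc k N)) := by
  have hterm : ∀ n ∈ Finset.Icc 1 N, ∀ m ∈ Finset.Icc 1 N, Tendsto (fun x =>
      ((bm k n * bm k m : ℝ) : ℂ) * ((((SS k (Z1 x) (Z2 x))⁻¹ : ℝ) : ℂ) *
      ∫ t : ℝ, ((wt k t * (Dw (cn k n) (Z1 x) (Z2 x) t * Dw (cn k m) (Z1 x) (Z2 x) t) : ℝ) : ℂ) * 1 *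
        cexp (((Real.log m - Real.log n) * t : ℝ) * I))) l
      (𝓝 (if m = n then ((bm k n * bm k n : ℝ) : ℂ) * (2 * (((((4 * Real.pi ^ 2) ^ k)⁻¹ : ℝ) : ℂ) *
        ((cn k n ^ (2 * (k - 1) + 1) / ((2 * (k - 1) : ℕ) + 1) : ℝ) : ℂ))) else 0)) := by
    intro n hn m hm
    rw [Finset.mem_Icc] at hn hm
    by_cases hmn : m = n
    · subst hmn
      have h := (DD_lim hW k (cn_pos k hm.1) (cn_pos k hm.1) (lam := Real.log m - Real.log m)
        (fun _ => rfl)).const_mul ((bm k m * bm k m : ℝ) : ℂ)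
      rw [if_pos (sub_self _)] at h
      rw [if_pos rfl]
      exact h
    · have hne : Real.log m - Real.log n ≠ 0 := by
        rw [sub_ne_zero]
        intro h1
        have h2 := Real.log_injOn_pos (Set.mem_Ioi.2 (by exact_mod_cast hm.1 : (0:ℝ) < m))
          (Set.mem_Ioi.2 (by exact_mod_cast hn.1 : (0:ℝ) < n)) h1
        exact hmn (by exact_mod_cast h2)
      have h := (DD_lim hW k (cn_pos k hn.1) (cn_pos k hm.1) (lam := Real.log m - Real.log n)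
        (fun h0 => absurd h0 hne)).const_mul ((bm k n * bm k m : ℝ) : ℂ)
      rw [if_neg hne, mul_zero] at h
      rw [if_neg hmn]
      exact h
  have h1 := tendsto_finsetSum (Finset.Icc 1 N) fun n hn => tendsto_finsetSum (Finset.Icc 1 N) fun m hm => hterm n hn m hm
  have e0 : (∑ n ∈ Finset.Icc 1 N, ∑ m ∈ Finset.Icc 1 N,
        (if m = n then ((bm k n * bm k n : ℝ) : ℂ) * (2 * (((((4 * Real.pi ^ 2) ^ k)⁻¹ : ℝ) : ℂ) *
        ((cn k n ^ (2 * (k - 1) + 1) / ((2 * (k - 1) : ℕ) + 1) : ℝ) : ℂ))) else 0)) = ((Lc k N : ℝ) : ℂ) := by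
    unfold Lc
    have hk2 : 2 * (k - 1) + 1 = 2 * k - 1 := by omega
    have hk3 : (((2 * (k - 1) : ℕ) : ℝ) + 1) = 2 * (k : ℝ) - 1 := by
      rw [Nat.cast_mul, Nat.cast_sub hk]
      push_cast
      ring
    rw [hk2, hk3]
    push_cast
    rw [Finset.mul_sum]
    refine Finset.sum_congr rfl fun n hn => ?_
    rw [Finset.sum_ite_eq' (Finset.Icc 1 N) n, if_pos hn]
    ring
  rw [e0] at h1
  have h2 := (Complex.continuous_re.tendsto _).comp h1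
  rw [Complex.ofReal_re] at h2
  refine h2.congr' ?_
  have hmass : ∀ᶠ x in l, ∀ n ∈ Finset.Icc 1 N, Integrable (fun t => wt k t * |Dw (cn k n) (Z1 x) (Z2 x) t|) := by
    refine (Filter.eventually_all_finset _).2 fun n hn => ?_
    obtain ⟨K, hK, h⟩ := Dw_mass hW k (cn_pos k (Finset.mem_Icc.1 hn).1)
    filter_upwards [h] with x hx using hx.1
  filter_upwards [hmass] with x hx
  have h3 : ((ND2 k N (Z1 x) (Z2 x) : ℝ) : ℂ) = ∑ n ∈ Finset.Icc 1 N, ∑ m ∈ Finset.Icc 1 N,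
      ((bm k n * bm k m : ℝ) : ℂ) * ∫ t : ℝ, ((wt k t * (Dw (cn k n) (Z1 x) (Z2 x) t *
        Dw (cn k m) (Z1 x) (Z2 x) t) : ℝ) : ℂ) * 1 * cexp (((Real.log m - Real.log n) * t : ℝ) * I) := by
    unfold ND2
    rw [← integral_complex_ofReal]
    simp_rw [FD_sq hk]
    have hint : ∀ n ∈ Finset.Icc 1 N, ∀ m ∈ Finset.Icc 1 N, Integrable (fun t : ℝ =>
        ((bm k n * bm k m : ℝ) : ℂ) * (((wt k t * (Dw (cn k n) (Z1 x) (Z2 x) t *
        Dw (cn k m) (Z1 x) (Z2 x) t) : ℝ) : ℂ) * 1 * cexp (((Real.log m - Real.log n) * t : ℝ) * I))) := fun n hn m hm =>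
      (DD_int (hx n hn) _).const_mul _
    rw [integral_finsetSum _ fun n hn => integrable_finsetSum _ fun m hm => hint n hn m hm]
    refine Finset.sum_congr rfl fun n hn => ?_
    rw [integral_finsetSum _ fun m hm => hint n hn m hm]
    refine Finset.sum_congr rfl fun m hm => ?_
    rw [integral_const_mul]
  simp only [Function.comp]
  have h4 : (SS k (Z1 x) (Z2 x))⁻¹ * ND2 k N (Z1 x) (Z2 x) =
      ((((SS k (Z1 x) (Z2 x))⁻¹ : ℝ) : ℂ) * ((ND2 k N (Z1 x) (Z2 x) : ℝ) : ℂ)).re := by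
    rw [← Complex.ofReal_mul, Complex.ofReal_re]
  rw [h4, h3]
  congr 1
  rw [Finset.mul_sum]
  refine Finset.sum_congr rfl fun n _ => ?_
  rw [Finset.mul_sum]
  refine Finset.sum_congr rfl fun m _ => ?_
  ring

end

end Pool.Agent.TH535.PZ
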