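import Pool.Agent.TH535.PZ.P18

set_option autoImplicit false

/-! Uniform tails. -/

namespace Pool.Agent.TH535.PZ

open Complex MeasureTheory Filter Topology Set
open Pool.Agent.W182.KO (XX XX_diff XX_bound zeta_XX strip_shift)
open Pool.Agent.TH535.SM
open scoped FourierTransform ComplexConjugate

noncomputable section

lemma right_core {k n : ℕ} (hk : 1 ≤ k) (hn : 1 ≤ n) {δ Z : ℝ} {j : ℕ} (hZ1 : 1 ≤ Z) (hδ : 0 ≤ δ) (hj4' : 4 ≤ j)
    (hZ : ((k * (j + 1) : ℕ) : ℝ) ^ 2 ≤ cn k n * Z) (h8 : (5 * k + 3) * Real.log Z ≤ ((j : ℝ) - 4) * δ)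
    {y : ℝ} (hy : k * Real.log Z + δ ≤ y) :
    ‖Gt (Ln (Bk k n k) (hz (cn k n) Z) 0) y‖ ≤
      (C0 * (n : ℝ) ^ (-(1 / 2) : ℝ) * cn k n ^ 2) * Z⁻¹ * Real.exp (-(4 * y)) := by
  have hc := cn_pos k hn
  have hn0 : (0:ℝ) < n := by exact_mod_cast hn
  have hC0 := C0_nonneg
  have hZ0 : 0 < Z := by linarith
  have hL : 0 ≤ Real.log Z := Real.log_nonneg hZ1
  have hj4 : (4:ℝ) ≤ j := by exact_mod_cast hj4'
  have h1 := gt_bd (Bk_PA k hn k) (hz_pos hc hZ0) (r := (j : ℝ)) (by positivity) y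
  have h2 := Ln_far hk hn hZ0 j hZ
  have e1 : (n : ℝ) ^ (-(3 / 2 + (j : ℝ))) * ((cn k n * Z) / (2 * Real.pi)) ^ (k * (j + 1)) =
      (n : ℝ) ^ (-(1 / 2) : ℝ) * Z ^ (k * (j + 1)) := by
    have hk0 : (k : ℝ) ≠ 0 := by
      have : (1:ℝ) ≤ k := by exact_mod_cast hk
      linarith
    have e2 : cn k n * Z / (2 * Real.pi) = (n : ℝ) ^ (1 / (k : ℝ)) * Z := by
      unfold cn
      have := Real.pi_ne_zero
      field_simp
    have e3 : ((n : ℝ) ^ (1 / (k : ℝ))) ^ (k * (j + 1)) = (n : ℝ) ^ ((j : ℝ) + 1) := by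
      rw [← Real.rpow_natCast, ← Real.rpow_mul hn0.le]
      congr 1
      push_cast
      field_simp
    rw [e2, mul_pow, e3, ← mul_assoc, ← Real.rpow_add hn0]
    congr 2
    ring
  have e4 : Real.exp (-((j : ℝ) * y)) ≤ Real.exp (-(4 * y)) *
      Real.exp (-(((j : ℝ) - 4) * (k * Real.log Z + δ))) := by
    rw [← Real.exp_add]
    refine Real.exp_le_exp.2 ?_
    nlinarith [mul_nonneg (sub_nonneg.2 hj4) (sub_nonneg.2 hy)]
  have hpow : ∀ m : ℕ, Z ^ m = Real.exp (m * Real.log Z) := by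
    intro m
    rw [Real.exp_nat_mul, Real.exp_log hZ0]
  have e5 : Z ^ (k * (j + 1)) * Z ^ 2 * Real.exp (-(((j : ℝ) - 4) * (k * Real.log Z + δ))) ≤ Z⁻¹ := by
    have e6 : Z⁻¹ = Real.exp (-Real.log Z) := by rw [Real.exp_neg, Real.exp_log hZ0]
    rw [e6, hpow, hpow, ← Real.exp_add, ← Real.exp_add]
    refine Real.exp_le_exp.2 ?_
    push_cast
    nlinarith
  have hI : 0 ≤ ∫ t, ‖Ln (Bk k n k) (hz (cn k n) Z) j t‖ := integral_nonneg fun _ => norm_nonneg _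
  calc _ ≤ _ := h1
    _ ≤ (Real.exp (-(4 * y)) * Real.exp (-(((j : ℝ) - 4) * (k * Real.log Z + δ)))) *
        (C0 * ((n : ℝ) ^ (-(3 / 2 + (j : ℝ))) * ((cn k n * Z) / (2 * Real.pi)) ^ (k * (j + 1)) *
          (cn k n * Z) ^ 2)) := mul_le_mul e4 h2 hI (by positivity)
    _ = (C0 * (n : ℝ) ^ (-(1 / 2) : ℝ) * cn k n ^ 2) * (Z ^ (k * (j + 1)) * Z ^ 2 *
        Real.exp (-(((j : ℝ) - 4) * (k * Real.log Z + δ)))) * Real.exp (-(4 * y)) := by
        rw [e1]; ring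
    _ ≤ _ := by gcongr

lemma log_sqrt : Tendsto (fun z : ℝ => Real.log z / √z) atTop (𝓝 0) := by
  have h := (isLittleO_log_rpow_atTop (r := 1 / 2) (by norm_num)).tendsto_div_nhds_zero
  refine h.congr fun z => ?_
  rw [Real.sqrt_eq_rpow]

lemma inv_sqrt_lim : Tendsto (fun z : ℝ => (√z)⁻¹) atTop (𝓝 0) :=
  tendsto_inv_atTop_zero.comp Real.tendsto_sqrt_atTop

/-- uniform right tail -/
lemma right_unif {α : Type*} {l : Filter α} {Z δ : α → ℝ} (hZ : Tendsto Z l atTop) (hδ : ∀ᶠ x in l, 0 < δ x)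
    (hr : Tendsto (fun x => Real.log (Z x) / (δ x * √(Z x))) l (𝓝 0)) {k : ℕ} (hk : 1 ≤ k) (N : ℕ) :
    ∃ C : ℝ, 0 ≤ C ∧ ∀ᶠ x in l, ∀ y : ℝ, k * Real.log (Z x) + δ x ≤ y →
      ‖Gt (FF k N (Z x)) y‖ ≤ C * (Z x)⁻¹ * Real.exp (-(4 * y)) := by
  have hC0 := C0_nonneg
  have h : ∀ n ∈ Finset.Icc 1 N, ∀ᶠ x in l, ∀ y : ℝ, k * Real.log (Z x) + δ x ≤ y →
      ‖Gt (Ln (Bk k n k) (hz (cn k n) (Z x)) 0) y‖ ≤
        (C0 * (n : ℝ) ^ (-(1 / 2) : ℝ) * cn k n ^ 2) * (Z x)⁻¹ * Real.exp (-(4 * y)) := by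
    intro n hn
    have hn1 := (Finset.mem_Icc.1 hn).1
    have hc := cn_pos k hn1
    have hsc : 0 < √(cn k n) := Real.sqrt_pos.2 hc
    have hlim := (hr.const_mul ((k : ℝ) * (5 * k + 3))).add ((inv_sqrt_lim.comp hZ).const_mul (6 * (k : ℝ)))
    rw [mul_zero, mul_zero, add_zero] at hlim
    filter_upwards [hlim.eventually_lt_const hsc, hδ, hZ.eventually_ge_atTop 1] with x h1 h2 h3 y hy
    have hZ0 : 0 < Z x := by linarith
    have hsZ : 0 < √(Z x) := Real.sqrt_pos.2 hZ0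
    have hL := Real.log_nonneg h3
    have hk0 : (0:ℝ) ≤ k := Nat.cast_nonneg k
    have hceil : (⌈(5 * k + 3) * Real.log (Z x) / δ x⌉₊ : ℝ) < (5 * k + 3) * Real.log (Z x) / δ x + 1 :=
      Nat.ceil_lt_add_one (by positivity)
    have hceil2 := Nat.le_ceil ((5 * k + 3) * Real.log (Z x) / δ x)
    refine right_core hk hn1 (j := ⌈(5 * k + 3) * Real.log (Z x) / δ x⌉₊ + 4) h3 h2.le (by omega) ?_ ?_ hy
    · have e1 : ((k * (⌈(5 * k + 3) * Real.log (Z x) / δ x⌉₊ + 4 + 1) : ℕ) : ℝ) ≤ √(cn k n) * √(Z x) := by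
        push_cast
        simp only [Function.comp] at h1
        have e2 : (k : ℝ) * ((5 * k + 3) * Real.log (Z x) / δ x + 6) =
            ((k : ℝ) * (5 * k + 3) * (Real.log (Z x) / (δ x * √(Z x))) + 6 * k * (√(Z x))⁻¹) * √(Z x) := by
          field_simp
        calc (k : ℝ) * ((⌈(5 * k + 3) * Real.log (Z x) / δ x⌉₊ : ℝ) + 4 + 1) ≤
              (k : ℝ) * ((5 * k + 3) * Real.log (Z x) / δ x + 6) := mul_le_mul_of_nonneg_left (by linarith) hk0
          _ = _ := e2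
          _ ≤ _ := mul_le_mul_of_nonneg_right h1.le hsZ.le
      calc _ ≤ (√(cn k n) * √(Z x)) ^ 2 := pow_le_pow_left₀ (Nat.cast_nonneg _) e1 2
        _ = _ := by rw [mul_pow, Real.sq_sqrt hc.le, Real.sq_sqrt hZ0.le]
    · push_cast
      rw [div_le_iff₀ h2] at hceil2
      linarith
  refine ⟨∑ n ∈ Finset.Icc 1 N, dr k n * (C0 * (n : ℝ) ^ (-(1 / 2) : ℝ) * cn k n ^ 2), Finset.sum_nonneg fun n hn =>
    mul_nonneg (dr_nonneg k n) (by positivity), ?_⟩
  filter_upwards [(Filter.eventually_all_finset _).2 h, hZ.eventually_gt_atTop 0] with x hx hZ0 y hy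
  rw [Gt_FF hZ0, Finset.sum_mul, Finset.sum_mul]
  refine (norm_sum_le _ _).trans (Finset.sum_le_sum fun n hn => ?_)
  rw [norm_mul, Complex.norm_real, Real.norm_of_nonneg (dr_nonneg k n), mul_assoc, mul_assoc,
    ← mul_assoc (C0 * (n : ℝ) ^ (-(1 / 2) : ℝ) * cn k n ^ 2)]
  exact mul_le_mul_of_nonneg_left (hx n hn y hy) (dr_nonneg k n)

/-- uniform left tail -/
lemma left_unif {α : Type*} {l : Filter α} {Z Z2 δ : α → ℝ} (hZ : Tendsto Z l atTop) (hδ : ∀ᶠ x in l, 0 < δ x)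
    (hZ2 : ∀ᶠ x in l, Z x ≤ Z2 x ∧ Z2 x ≤ 2 * Z x)
    (hr : Tendsto (fun x => Real.log (Z x) / (δ x * √(Z x))) l (𝓝 0)) {k : ℕ} (hk : 1 ≤ k) (N : ℕ) :
    ∃ C : ℝ, 0 ≤ C ∧ ∀ᶠ x in l, ∀ y : ℝ, y ≤ k * Real.log (Z x) - δ x →
      ‖Gt (FF k N (Z2 x)) y - Gt (FF k N (Z x)) y‖ ≤ C * Real.exp (-((3 * k + 1) * Real.log (Z x))) := by
  have hJ := JJ_nonneg
  have h : ∀ n ∈ Finset.Icc 1 N, ∃ C : ℝ, 0 ≤ C ∧ ∀ᶠ x in l, ∀ y : ℝ, y ≤ k * Real.log (Z x) - δ x →
      ‖Gt (Ln (Bk k n k) (hz (cn k n) (Z2 x)) 0) y - Gt (Ln (Bk k n k) (hz (cn k n) (Z x)) 0) y‖ ≤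
        C * Real.exp (-((3 * k + 1) * Real.log (Z x))) := by
    intro n hn
    have hn1 := (Finset.mem_Icc.1 hn).1
    have hn0 : (0:ℝ) < n := by exact_mod_cast hn1
    have hc := cn_pos k hn1
    obtain ⟨K1, K2, hK1, hK2, hB⟩ := Bk_strip k hn1
    obtain ⟨Cb, M, hCb, hB0⟩ := (Bk_PA k hn1 k).bd (3 / 2)
    have hB1 : ∀ t : ℝ, |t| ≤ 1 → ‖Bk k n k (((3 / 2 : ℝ) : ℂ) + t * I)‖ ≤ Cb * 2 ^ M := by
      intro t ht
      have hre : (((3 / 2 : ℝ) : ℂ) + t * I).re = 3 / 2 := by simp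
      have him : (((3 / 2 : ℝ) : ℂ) + t * I).im = t := by simp
      have h := hB0 (((3 / 2 : ℝ) : ℂ) + t * I) (by rw [hre]) (by rw [hre])
      rw [him] at h
      refine h.trans (mul_le_mul_of_nonneg_left ?_ hCb)
      exact pow_le_pow_left₀ (by positivity) (by linarith) M
    have hk0 : (0:ℝ) ≤ k := Nat.cast_nonneg k
    have hlK2 := Real.log_nonneg hK2
    set c := cn k n with hcd
    have hsc : 0 < √c := Real.sqrt_pos.2 hc
    -- the limits
    have hi : Tendsto (fun x => (√(Z x))⁻¹) l (𝓝 0) := inv_sqrt_lim.comp hZ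
    have hl : Tendsto (fun x => Real.log (Z x) / √(Z x)) l (𝓝 0) := log_sqrt.comp hZ
    have hq : Tendsto (fun x => (4 * k + 3) * (Real.log (Z x) / (δ x * √(Z x))) + 2 * (√(Z x))⁻¹) l (𝓝 0) := by
      have := (hr.const_mul (4 * (k : ℝ) + 3)).add (hi.const_mul 2)
      rwa [mul_zero, mul_zero, add_zero] at this
    have hq2 : Tendsto (fun x => ((k : ℝ) + 1) * ((4 * k + 3) * (Real.log (Z x) / (δ x * √(Z x))) + 2 * (√(Z x))⁻¹))
        l (𝓝 0) := by
      have := hq.const_mul ((k : ℝ) + 1)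
      rwa [mul_zero] at this
    have hlog : Tendsto (fun x => |Real.log c| * (√(Z x))⁻¹ + Real.log (Z x) / √(Z x)) l (𝓝 0) := by
      have := (hi.const_mul |Real.log c|).add hl
      rwa [mul_zero, add_zero] at this
    have hg : Tendsto (fun x => (1 + Real.log K2) * (√(Z x))⁻¹ + k * (Real.log (Z x) / √(Z x))) l (𝓝 0) := by
      have := (hi.const_mul (1 + Real.log K2)).add (hl.const_mul (k : ℝ))
      rwa [mul_zero, mul_zero, add_zero] at this
    have h3 : Tendsto (fun x => (((k : ℝ) + 1) * ((4 * k + 3) * (Real.log (Z x) / (δ x * √(Z x))) + 2 * (√(Z x))⁻¹)) *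
        (|Real.log c| * (√(Z x))⁻¹ + Real.log (Z x) / √(Z x))) l (𝓝 0) := by
      have := hq2.mul hlog
      rwa [mul_zero] at this
    have h5 : Tendsto (fun x => ((4 * k + 3) * (Real.log (Z x) / (δ x * √(Z x))) + 2 * (√(Z x))⁻¹) *
        ((1 + Real.log K2) * (√(Z x))⁻¹ + k * (Real.log (Z x) / √(Z x))) +
        (3 * k + 1) * ((√(Z x))⁻¹ * (Real.log (Z x) / √(Z x)))) l (𝓝 0) := by
      have := (hq.mul hg).add ((hi.mul hl).const_mul (3 * (k : ℝ) + 1))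
      rwa [mul_zero, mul_zero, add_zero] at this
    refine ⟨(2 * √2 * Real.exp 1 * (Cb * 2 ^ M) + 2 * √2 * Real.exp 1 * (K1 * 2 ^ k) +
        128 * √2 * 4 ^ k * Real.exp 3 * (n : ℝ) ^ (-(1 / 2) : ℝ) * (c * 2) ^ 2 * JJ), by positivity, ?_⟩
    filter_upwards [hq2.eventually_lt_const hsc, h3.eventually_lt_const (by positivity : (0:ℝ) < c / 8),
      h5.eventually_lt_const (by positivity : (0:ℝ) < c / 8), hδ, hZ2, hZ.eventually_ge_atTop 1,
      hZ.eventually_ge_atTop (2 / c)] with x g1 g3 g5 gδ gZ2 gZ1 gZc y hy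
    have hZ0 : 0 < Z x := by linarith
    have hsZ : 0 < √(Z x) := Real.sqrt_pos.2 hZ0
    have hss : √(Z x) * √(Z x) = Z x := Real.mul_self_sqrt hZ0.le
    have hL := Real.log_nonneg gZ1
    set L := Real.log (Z x) with hLd
    set s := √(Z x) with hs
    set m := ⌈(4 * k + 3) * L / δ x⌉₊ with hm
    have hm1 : (m : ℝ) < (4 * k + 3) * L / δ x + 1 := Nat.ceil_lt_add_one (by positivity)
    have hm2 : (4 * k + 3) * L / δ x ≤ (m : ℝ) := Nat.le_ceil _
    have hm0 : (0:ℝ) ≤ m := Nat.cast_nonneg m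
    set q : ℝ := (4 * k + 3) * (L / (δ x * s)) + 2 * s⁻¹ with hqd
    have hq0 : 0 ≤ q := by positivity
    have hqs : (m : ℝ) + 1 ≤ q * s := by
      have e : q * s = (4 * k + 3) * L / δ x + 2 := by
        rw [hqd]; field_simp
      rw [e]; linarith
    have hZZ : s ^ 2 = Z x := by rw [pow_two]; exact hss
    have hkq : ((k : ℝ) + 1) * ((m : ℝ) + 1) ≤ √c * s := by
      calc ((k : ℝ) + 1) * ((m : ℝ) + 1) ≤ ((k : ℝ) + 1) * (q * s) := by gcongr
        _ = (((k : ℝ) + 1) * q) * s := by ring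
        _ ≤ √c * s := mul_le_mul_of_nonneg_right g1.le hsZ.le
    have hcs : (√c * s) ^ 2 = c * Z x := by rw [mul_pow, Real.sq_sqrt hc.le, hZZ]
    set ρ := Z2 x / Z x with hρ
    have hρ1 : 1 ≤ ρ := by rw [hρ, one_le_div hZ0]; exact gZ2.1
    have hρ2 : ρ ≤ 2 := by rw [hρ, div_le_iff₀ hZ0]; exact gZ2.2
    have hρZ : ρ * Z x = Z2 x := by rw [hρ]; field_simp
    have hcore := left_core hk hn1 hρ1 hK1 hK2 hB (Cb := Cb * 2 ^ M) (by positivity) hB1 gZ1 (m := m) (δ := δ x) (y := y)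
      (by
        rw [← hcs]
        refine pow_le_pow_left₀ (by positivity) (le_trans ?_ hkq) 2
        nlinarith)
      (by
        rw [← hcs]
        push_cast
        refine pow_le_pow_left₀ (by positivity) (le_trans ?_ hkq) 2
        nlinarith)
      (by
        push_cast
        have hlog1 : Real.log (c * Z x) ≤ (|Real.log c| * s⁻¹ + L / s) * s := by
          rw [Real.log_mul hc.ne' hZ0.ne', ← hLd]
          have e : (|Real.log c| * s⁻¹ + L / s) * s = |Real.log c| + L := by field_simp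
          rw [e]
          linarith [le_abs_self (Real.log c)]
        have hw0 : 0 ≤ (|Real.log c| * s⁻¹ + L / s) * s := by positivity
        calc (k : ℝ) * m * Real.log (c * Z x) ≤ (k : ℝ) * m * ((|Real.log c| * s⁻¹ + L / s) * s) :=
              mul_le_mul_of_nonneg_left hlog1 (by positivity)
          _ ≤ (((k : ℝ) + 1) * (q * s)) * ((|Real.log c| * s⁻¹ + L / s) * s) := by
              refine mul_le_mul_of_nonneg_right ?_ hw0
              nlinarith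
          _ = ((((k : ℝ) + 1) * q) * (|Real.log c| * s⁻¹ + L / s)) * Z x := by rw [← hZZ]; ring
          _ ≤ (c / 8) * Z x := mul_le_mul_of_nonneg_right g3.le hZ0.le
          _ = _ := by ring)
      (by
        rw [div_le_iff₀ hc] at gZc
        linarith)
      (by
        calc ((m : ℝ) + 1) * (1 + Real.log K2 + k * L) + (3 * k + 1) * L ≤
              (q * s) * (1 + Real.log K2 + k * L) + (3 * k + 1) * L := by
              have : 0 ≤ 1 + Real.log K2 + k * L := by positivity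
              have := mul_le_mul_of_nonneg_right hqs this
              linarith
          _ = (q * ((1 + Real.log K2) * s⁻¹ + k * (L / s)) + (3 * k + 1) * (s⁻¹ * (L / s))) * Z x := by
              rw [← hZZ]
              field_simp
          _ ≤ (c / 8) * Z x := mul_le_mul_of_nonneg_right g5.le hZ0.le
          _ = _ := by ring)
      (by
        rw [div_le_iff₀ gδ] at hm2
        nlinarith)
      gδ.le hy
    rw [hρZ] at hcore
    refine hcore.trans ?_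
    have hρ0 : 0 ≤ ρ := by linarith
    gcongr
  choose! C hC hev using h
  refine ⟨∑ n ∈ Finset.Icc 1 N, dr k n * C n, Finset.sum_nonneg fun n hn =>
    mul_nonneg (dr_nonneg k n) (hC n hn), ?_⟩
  filter_upwards [(Filter.eventually_all_finset _).2 hev, hZ.eventually_gt_atTop 0, hZ2] with x hx hZ0 gZ2 y hy
  have hz2 : 0 < Z2 x := by linarith [gZ2.1]
  rw [Gt_FF hZ0, Gt_FF hz2, ← Finset.sum_sub_distrib, Finset.sum_mul]
  refine (norm_sum_le _ _).trans (Finset.sum_le_sum fun n hn => ?_)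
  rw [← mul_sub, norm_mul, Complex.norm_real, Real.norm_of_nonneg (dr_nonneg k n), mul_assoc]
  exact mul_le_mul_of_nonneg_left (hx n hn y hy) (dr_nonneg k n)

end

end Pool.Agent.TH535.PZ
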