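import Pool.Agent.TH535.PZ.P22
import Pool.Agent.TH535.PZ.P23

set_option autoImplicit false

/-! Windows: the lower bound. -/

namespace Pool.Agent.TH535.PZ

open Complex MeasureTheory Filter Topology Set
open Pool.Agent.W182.KO (XX XX_diff XX_bound zeta_XX strip_shift)
open Pool.Agent.TH535.SM
open scoped FourierTransform ComplexConjugate

noncomputable section

lemma RTint (k : ℕ) (P : Polynomial ℝ) : ∃ C1 : ℝ, 0 ≤ C1 ∧ ∀ (g : ℝ → ℂ) (y2 B : ℝ), 0 ≤ y2 → 0 ≤ B →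
    Integrable (fun y => (Dt k P y : ℂ) * g y) → (∀ y, y2 ≤ y → ‖g y‖ ≤ B * Real.exp (-(4 * y))) →
    ∫ y in Ioi y2, ‖(Dt k P y : ℂ) * g y‖ ≤ C1 * B := by
  obtain ⟨C1, hC1, h1⟩ := Dt_bd k P
  refine ⟨C1, hC1, fun g y2 B hy2 hB hI hg => ?_⟩
  have hgI : IntegrableOn (fun y : ℝ => C1 * B * Real.exp (-(3 / 2) * y)) (Ioi y2) :=
    (integrableOn_exp_mul_Ioi (by norm_num) y2).const_mul _
  calc _ ≤ ∫ y in Ioi y2, C1 * B * Real.exp (-(3 / 2) * y) := by
        refine setIntegral_mono_on hI.norm.integrableOn hgI measurableSet_Ioi fun y hy => ?_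
        have hy1 : y2 ≤ y := le_of_lt hy
        rw [norm_mul, Complex.norm_real, Real.norm_eq_abs]
        have h3 := h1 y
        have h4 := hg y hy1
        rw [max_eq_left (hy2.trans hy1)] at h3
        calc _ ≤ (C1 * Real.exp (y / 2 + 2 * y)) * (B * Real.exp (-(4 * y))) :=
              mul_le_mul h3 h4 (norm_nonneg _) (by positivity)
          _ = C1 * B * (Real.exp (y / 2 + 2 * y) * Real.exp (-(4 * y))) := by ring
          _ = _ := by
              rw [← Real.exp_add]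
              congr 2
              ring
    _ ≤ C1 * B := by
        rw [integral_const_mul, integral_exp_mul_Ioi (by norm_num)]
        have h5 : Real.exp (-(3 / 2) * y2) ≤ 1 := Real.exp_le_one_iff.2 (by linarith)
        have h6 : -Real.exp (-(3 / 2) * y2) / (-(3 / 2)) ≤ 1 := by
          rw [neg_div_neg_eq, div_le_one (by norm_num)]
          linarith
        calc _ ≤ C1 * B * 1 := mul_le_mul_of_nonneg_left h6 (by positivity)
          _ = _ := mul_one _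

lemma LTint (k : ℕ) (P : Polynomial ℝ) : ∃ C1 : ℝ, 0 ≤ C1 ∧ ∀ (g : ℝ → ℂ) (y1 Y B : ℝ), 0 ≤ Y → y1 ≤ Y → 0 ≤ B →
    Integrable (fun y => (Dt k P y : ℂ) * g y) → (∀ y, y ≤ y1 → ‖g y‖ ≤ B) →
    ∫ y in Iic y1, ‖(Dt k P y : ℂ) * g y‖ ≤ 2 * C1 * B * Real.exp (5 / 2 * Y) := by
  obtain ⟨C1, hC1, h1⟩ := Dt_bd k P
  refine ⟨C1, hC1, fun g y1 Y B hY hy1 hB hI hg => ?_⟩
  set W : ℝ := C1 * B * Real.exp (2 * Y) with hW
  have hgI : IntegrableOn (fun y : ℝ => W * Real.exp (1 / 2 * y)) (Iic y1) :=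
    (integrableOn_exp_mul_Iic (by norm_num) y1).const_mul _
  have hval : ∫ y in Iic y1, Real.exp (1 / 2 * y) = 2 * Real.exp (1 / 2 * y1) := by
    have h3 := integral_exp_Iic (1 / 2 * y1)
    have h4 := integral_image_eq_integral_abs_deriv_smul (s := Iic y1) (f := fun y : ℝ => 1 / 2 * y)
      (f' := fun _ => 1 / 2) measurableSet_Iic
      (fun x _ => ((hasDerivAt_id' x).const_mul (1 / 2) |>.congr_deriv (by ring)).hasDerivWithinAt)
      (fun a _ b _ hab => by simp only at hab; linarith) Real.exp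
    have himg : (fun y : ℝ => 1 / 2 * y) '' Iic y1 = Iic (1 / 2 * y1) := by
      ext x
      simp only [mem_image, mem_Iic]
      constructor
      · rintro ⟨y, hy, rfl⟩; linarith
      · intro hx; exact ⟨2 * x, by linarith, by ring⟩
    rw [himg, h3] at h4
    have h5 : ∫ y in Iic y1, |(1 / 2 : ℝ)| • Real.exp (1 / 2 * y) = 1 / 2 * ∫ y in Iic y1, Real.exp (1 / 2 * y) := by
      rw [← integral_const_mul]
      refine integral_congr_ae (Eventually.of_forall fun y => ?_)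
      simp only [smul_eq_mul]
      rw [abs_of_pos (by norm_num)]
    rw [h5] at h4
    linarith
  calc _ ≤ ∫ y in Iic y1, W * Real.exp (1 / 2 * y) := by
        refine setIntegral_mono_on hI.norm.integrableOn hgI measurableSet_Iic fun y hy => ?_
        have hyy : y ≤ y1 := hy
        rw [norm_mul, Complex.norm_real, Real.norm_eq_abs]
        have h3 := h1 y
        have h4 := hg y hyy
        have h5 : Real.exp (y / 2 + 2 * max y 0) ≤ Real.exp (2 * Y) * Real.exp (1 / 2 * y) := by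
          rw [← Real.exp_add]
          refine Real.exp_le_exp.2 ?_
          have : max y 0 ≤ Y := max_le (hyy.trans hy1) hY
          linarith
        calc _ ≤ (C1 * (Real.exp (2 * Y) * Real.exp (1 / 2 * y))) * B :=
              mul_le_mul (h3.trans (mul_le_mul_of_nonneg_left h5 hC1)) h4 (norm_nonneg _) (by positivity)
          _ = _ := by rw [hW]; ring
    _ = W * (2 * Real.exp (1 / 2 * y1)) := by rw [integral_const_mul, hval]
    _ ≤ W * (2 * Real.exp (1 / 2 * Y)) := by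
        have hW0 : 0 ≤ W := by rw [hW]; positivity
        gcongr
    _ = 2 * C1 * B * (Real.exp (2 * Y) * Real.exp (1 / 2 * Y)) := by rw [hW]; ring
    _ = _ := by
        rw [← Real.exp_add]
        congr 2
        ring

lemma lower_win {α : Type*} {l : Filter α} {Z1 Z2 δ : α → ℝ} (hW : Win l Z1 Z2) (hδ : ∀ᶠ x in l, 0 < δ x)
    (hr : Tendsto (fun x => Real.log (Z1 x) / (δ x * √(Z1 x))) l (𝓝 0)) {k : ℕ} (hk : 1 ≤ k) (N : ℕ)
    {P : Polynomial ℝ} (hP : P.natDegree < k) {c : ℝ} (hc : c < (2 * Real.pi)⁻¹ * Lc k N) :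
    ∀ᶠ x in l, c * SS k (Z1 x) (Z2 x) ≤
      ∫ y in Ioc (k * Real.log (Z1 x) - δ x) (k * Real.log (Z2 x) + δ x), Dt k P y ^ 2 := by
  have hZ2 : Tendsto Z2 l atTop := by
    refine tendsto_atTop_mono' l ?_ hW.h1
    filter_upwards [hW.h2] with x hx using hx.1.le
  have hr2 : Tendsto (fun x => Real.log (Z2 x) / (δ x * √(Z2 x))) l (𝓝 0) := by
    have h2r := hr.const_mul 2
    rw [mul_zero] at h2r
    refine squeeze_zero' ?_ ?_ h2r
    · filter_upwards [hδ, hZ2.eventually_ge_atTop 1] with x h1 h2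
      have := Real.log_nonneg h2
      positivity
    · filter_upwards [hδ, hW.h2, hW.h1.eventually_ge_atTop 2] with x h1 h2 h3
      have hZ10 : 0 < Z1 x := by linarith
      have hZ20 : 0 < Z2 x := by linarith [h2.1]
      have g1 : Real.log (Z2 x) ≤ 2 * Real.log (Z1 x) := by
        have g2 : Real.log (Z2 x) ≤ Real.log (2 * Z1 x) := Real.log_le_log hZ20 h2.2
        rw [Real.log_mul two_ne_zero hZ10.ne'] at g2
        have g3 : Real.log 2 ≤ Real.log (Z1 x) := Real.log_le_log (by norm_num) h3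
        linarith
      have g4 : √(Z1 x) ≤ √(Z2 x) := Real.sqrt_le_sqrt h2.1.le
      have g5 : 0 < √(Z1 x) := Real.sqrt_pos.2 hZ10
      have g6 := Real.log_nonneg (by linarith : (1:ℝ) ≤ Z1 x)
      calc _ ≤ (2 * Real.log (Z1 x)) / (δ x * √(Z1 x)) := by gcongr
        _ = _ := by ring
  obtain ⟨Cr1, hCr1, r1⟩ := right_unif hW.h1 hδ hr hk N
  obtain ⟨Cr2, hCr2, r2⟩ := right_unif hZ2 hδ hr2 hk N
  obtain ⟨Cl, hCl, lf⟩ := left_unif hW.h1 hδ (by filter_upwards [hW.h2] with x hx using ⟨hx.1.le, hx.2⟩) hr hk N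
  obtain ⟨C1, hC1, RT⟩ := RTint k P
  obtain ⟨C2, hC2, LT⟩ := LTint k P
  have p1 := (pairD_lim hW N hk hP).const_mul 2
  have n1 := (ND2_lim hW N hk).const_mul ((2 * Real.pi)⁻¹)
  have t1 : Tendsto (fun x => (2 * (C1 * (Cr1 + Cr2)) + 2 * (2 * C2 * Cl)) * (Z1 x)⁻¹) l
      (𝓝 ((2 * (C1 * (Cr1 + Cr2)) + 2 * (2 * C2 * Cl)) * 0)) := (tendsto_inv_atTop_zero.comp hW.h1).const_mul _
  have h4 := (p1.sub t1).sub n1
  have e : 2 * ((2 * Real.pi)⁻¹ * Lc k N) - (2 * (C1 * (Cr1 + Cr2)) + 2 * (2 * C2 * Cl)) * 0 -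
      (2 * Real.pi)⁻¹ * Lc k N = (2 * Real.pi)⁻¹ * Lc k N := by ring
  rw [e] at h4
  filter_upwards [h4.eventually_const_lt hc, r1, r2, lf, hδ, hW.h2, hW.h1.eventually_ge_atTop 1,
    hW.h3.eventually_lt_const one_pos] with x hx g1 g2 g3 gδ gW gZ gS
  have hZ10 : 0 < Z1 x := by linarith
  have hZ20 : 0 < Z2 x := by linarith [gW.1]
  have hd : 0 < Z2 x - Z1 x := by linarith [gW.1]
  rw [div_lt_one hd] at gS
  have hs1 : 1 ≤ √(Z1 x) := by rw [Real.one_le_sqrt]; exact gZ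
  have hSS0 := SS_pos k hZ10 gW.1
  have hSS1 : 1 ≤ SS k (Z1 x) (Z2 x) := by
    have h5 := SS_ge k hZ10.le gW.1.le
    have h6 : (1:ℝ) ≤ Z1 x ^ (2 * (k - 1)) := one_le_pow₀ gZ
    nlinarith
  have hlog : Real.log (Z1 x) ≤ Real.log (Z2 x) := Real.log_le_log hZ10 gW.1.le
  have hL := Real.log_nonneg gZ
  have hk0 : (0:ℝ) ≤ k := Nat.cast_nonneg k
  have hk1 : (1:ℝ) ≤ k := by exact_mod_cast hk
  have hkl : k * Real.log (Z1 x) ≤ k * Real.log (Z2 x) := mul_le_mul_of_nonneg_left hlog hk0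
  have hkL : 0 ≤ k * Real.log (Z1 x) := by positivity
  set y1 := k * Real.log (Z1 x) - δ x with hy1
  set y2 := k * Real.log (Z2 x) + δ x with hy2
  have hy12 : y1 ≤ y2 := by linarith
  set ρ := Z2 x / Z1 x with hρ
  have hρ0 : 0 < ρ := by positivity
  have hρZ : ρ * Z1 x = Z2 x := by rw [hρ]; field_simp
  have h5 := main_ineq2 (N := N) hk hρ0 hZ10 hP hy12
  unfold ND at h5
  rw [hρZ] at h5
  have hI1 := (pair_total (N := N) hk hZ10 hP).1
  have hI2 := (pair_total (N := N) hk hZ20 hP).1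
  have hI : Integrable (fun y => (Dt k P y : ℂ) * (Gt (FF k N (Z2 x)) y - Gt (FF k N (Z1 x)) y)) := by
    refine (hI2.sub hI1).congr (Eventually.of_forall fun y => ?_)
    simp only [Pi.sub_apply]
    ring
  have hZi : 0 < (Z1 x)⁻¹ := inv_pos.2 hZ10
  have tr := RT (fun y => Gt (FF k N (Z2 x)) y - Gt (FF k N (Z1 x)) y) y2 ((Cr1 + Cr2) * (Z1 x)⁻¹)
    (by linarith) (by positivity) hI (fun y hy => by
      have q1 := g1 y (by linarith)
      have q2 := g2 y hy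
      have q3 : (Z2 x)⁻¹ ≤ (Z1 x)⁻¹ := inv_anti₀ hZ10 gW.1.le
      calc _ ≤ ‖Gt (FF k N (Z2 x)) y‖ + ‖Gt (FF k N (Z1 x)) y‖ := norm_sub_le _ _
        _ ≤ Cr2 * (Z2 x)⁻¹ * Real.exp (-(4 * y)) + Cr1 * (Z1 x)⁻¹ * Real.exp (-(4 * y)) := add_le_add q2 q1
        _ ≤ Cr2 * (Z1 x)⁻¹ * Real.exp (-(4 * y)) + Cr1 * (Z1 x)⁻¹ * Real.exp (-(4 * y)) := by gcongr
        _ = _ := by ring)
  have tl := LT (fun y => Gt (FF k N (Z2 x)) y - Gt (FF k N (Z1 x)) y) y1 (k * Real.log (Z1 x))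
    (Cl * Real.exp (-((3 * k + 1) * Real.log (Z1 x)))) hkL (by linarith) (by positivity) hI
    (fun y hy => g3 y hy)
  have tl2 : 2 * C2 * (Cl * Real.exp (-((3 * k + 1) * Real.log (Z1 x)))) * Real.exp (5 / 2 * (k * Real.log (Z1 x))) ≤
      2 * C2 * Cl * (Z1 x)⁻¹ := by
    have e6 : (Z1 x)⁻¹ = Real.exp (-Real.log (Z1 x)) := by rw [Real.exp_neg, Real.exp_log hZ10]
    have e7 : 2 * C2 * (Cl * Real.exp (-((3 * k + 1) * Real.log (Z1 x)))) * Real.exp (5 / 2 * (k * Real.log (Z1 x))) =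
        2 * C2 * Cl * Real.exp (-((3 * k + 1) * Real.log (Z1 x)) + 5 / 2 * (k * Real.log (Z1 x))) := by
      rw [Real.exp_add]; ring
    rw [e7, e6]
    refine mul_le_mul_of_nonneg_left (Real.exp_le_exp.2 ?_) (by positivity)
    nlinarith
  refine le_trans ?_ h5
  unfold ND2 at hx
  set S := SS k (Z1 x) (Z2 x) with hSd
  set A2 := (∫ y : ℝ, (Dt k P y : ℂ) * Gt (FF k N (Z2 x)) y).re with hA2
  set A1 := (∫ y : ℝ, (Dt k P y : ℂ) * Gt (FF k N (Z1 x)) y).re with hA1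
  set R := ∫ y in Ioi y2, ‖(Dt k P y : ℂ) * (Gt (FF k N (Z2 x)) y - Gt (FF k N (Z1 x)) y)‖ with hR
  set L := ∫ y in Iic y1, ‖(Dt k P y : ℂ) * (Gt (FF k N (Z2 x)) y - Gt (FF k N (Z1 x)) y)‖ with hLd
  set M := ∫ t, ‖FF k N (Z2 x) t - FF k N (Z1 x) t‖ ^ 2 with hM
  have h6 : c * S ≤ (2 * (S⁻¹ * (A2 - A1)) - (2 * (C1 * (Cr1 + Cr2)) + 2 * (2 * C2 * Cl)) * (Z1 x)⁻¹ -
      (2 * Real.pi)⁻¹ * (S⁻¹ * M)) * S := mul_le_mul_of_nonneg_right hx.le hSS0.le
  have h7 : (2 * (S⁻¹ * (A2 - A1)) - (2 * (C1 * (Cr1 + Cr2)) + 2 * (2 * C2 * Cl)) * (Z1 x)⁻¹ -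
      (2 * Real.pi)⁻¹ * (S⁻¹ * M)) * S = 2 * (A2 - A1) -
      ((2 * (C1 * (Cr1 + Cr2)) + 2 * (2 * C2 * Cl)) * (Z1 x)⁻¹) * S - (2 * Real.pi)⁻¹ * M := by
    have : S⁻¹ * S = 1 := inv_mul_cancel₀ hSS0.ne'
    linear_combination (2 * (A2 - A1) - (2 * Real.pi)⁻¹ * M) * this
  have h8 : 2 * R + 2 * L ≤ ((2 * (C1 * (Cr1 + Cr2)) + 2 * (2 * C2 * Cl)) * (Z1 x)⁻¹) * S := by
    have h9 : 2 * R + 2 * L ≤ (2 * (C1 * (Cr1 + Cr2)) + 2 * (2 * C2 * Cl)) * (Z1 x)⁻¹ := by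
      have := tl.trans tl2
      linarith
    refine h9.trans ?_
    have h10 : 0 ≤ (2 * (C1 * (Cr1 + Cr2)) + 2 * (2 * C2 * Cl)) * (Z1 x)⁻¹ := by positivity
    nlinarith
  linarith

/-- the elementary inequality for the normalization -/
lemma exp_gap {ε a : ℝ} (hε : 0 ≤ ε) (hε1 : ε ≤ 1) (ha : 0 ≤ a) (ha4 : Real.exp a ≤ 4) :
    (1 - 8 * ε) * (Real.exp a - 1) ≤ Real.exp ((1 - ε) * a) - Real.exp (ε * a) := by
  have h1 : a ≤ Real.exp a - 1 := by
    have := Real.add_one_le_exp a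
    linarith
  have hea : 0 ≤ ε * a := mul_nonneg hε ha
  have h2 : Real.exp a - Real.exp ((1 - ε) * a) ≤ 4 * ε * (Real.exp a - 1) := by
    have e1 : Real.exp ((1 - ε) * a) = Real.exp a * Real.exp (-(ε * a)) := by
      rw [← Real.exp_add]; congr 1; ring
    have e2 : 1 - Real.exp (-(ε * a)) ≤ ε * a := by
      have := Real.add_one_le_exp (-(ε * a))
      linarith
    have e3 : 0 ≤ 1 - Real.exp (-(ε * a)) := by
      have := Real.exp_le_one_iff.2 (by linarith : -(ε * a) ≤ 0)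
      linarith
    rw [e1]
    calc Real.exp a - Real.exp a * Real.exp (-(ε * a)) = Real.exp a * (1 - Real.exp (-(ε * a))) := by ring
      _ ≤ 4 * (ε * a) := mul_le_mul ha4 e2 e3 (by norm_num)
      _ ≤ _ := by nlinarith
  have h3 : Real.exp (ε * a) - 1 ≤ 4 * ε * (Real.exp a - 1) := by
    have e2 : 1 - Real.exp (-(ε * a)) ≤ ε * a := by
      have := Real.add_one_le_exp (-(ε * a))
      linarith
    have e3 : 0 ≤ 1 - Real.exp (-(ε * a)) := by
      have := Real.exp_le_one_iff.2 (by linarith : -(ε * a) ≤ 0)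
      linarith
    have e4 : Real.exp (ε * a) ≤ 4 := (Real.exp_le_exp.2 (by nlinarith)).trans ha4
    have e5 : Real.exp (ε * a) * Real.exp (-(ε * a)) = 1 := by rw [← Real.exp_add]; simp
    calc Real.exp (ε * a) - 1 = Real.exp (ε * a) * (1 - Real.exp (-(ε * a))) := by rw [mul_sub, e5, mul_one]
      _ ≤ 4 * (ε * a) := mul_le_mul e4 e2 e3 (by norm_num)
      _ ≤ _ := by nlinarith
  nlinarith

end

end Pool.Agent.TH535.PZ
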