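import Pool.Agent.TH535.PZ.P24

set_option autoImplicit false

/-! Short intervals: the final form. -/

namespace Pool.Agent.TH535.PZ

open Complex MeasureTheory Filter Topology Set
open Pool.Agent.W182.KO (XX XX_diff XX_bound zeta_XX strip_shift)
open Pool.Agent.TH535.SM
open scoped FourierTransform ComplexConjugate

noncomputable section

/-- the filter of short intervals -/
def SIF (θ : ℝ) : Filter (ℝ × ℝ) :=
  Filter.comap Prod.fst atTop ⊓ 𝓟 {p : ℝ × ℝ | p.1 ^ θ ≤ p.2 ∧ p.2 ≤ p.1}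

lemma sif_fst (θ : ℝ) : Tendsto Prod.fst (SIF θ) atTop := tendsto_comap.mono_left inf_le_left

lemma sif_mem (θ : ℝ) : ∀ᶠ p in SIF θ, p.1 ^ θ ≤ p.2 ∧ p.2 ≤ p.1 := by
  unfold SIF
  rw [eventually_inf_principal]
  exact Eventually.of_forall fun p hp => hp

lemma sif_ev {θ : ℝ} {Q : ℝ × ℝ → Prop} (h : ∀ᶠ p in SIF θ, Q p) :
    ∃ X0 : ℝ, 1 ≤ X0 ∧ ∀ X : ℝ, X0 ≤ X → ∀ H : ℝ, X ^ θ ≤ H → H ≤ X → Q (X, H) := by
  unfold SIF at h
  rw [eventually_inf_principal, eventually_comap, eventually_atTop] at h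
  obtain ⟨X0, h0⟩ := h
  exact ⟨max 1 X0, le_max_left _ _, fun X hX H h1 h2 =>
    h0 X ((le_max_right _ _).trans hX) (X, H) rfl ⟨h1, h2⟩⟩

/-- the parameters -/
def dl (ε : ℝ) (p : ℝ × ℝ) : ℝ := ε * Real.log ((p.1 + p.2) / p.1)

def z1 (k : ℕ) (ε : ℝ) (p : ℝ × ℝ) : ℝ := (Real.exp (dl ε p) * p.1) ^ (1 / (k : ℝ))

def z2 (k : ℕ) (ε : ℝ) (p : ℝ × ℝ) : ℝ := (Real.exp (-(dl ε p)) * (p.1 + p.2)) ^ (1 / (k : ℝ))

lemma mu_facts {X H θ : ℝ} (hX : 1 ≤ X) (h1 : X ^ θ ≤ H) (h2 : H ≤ X) :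
    X ^ (θ - 1) / 2 ≤ Real.log ((X + H) / X) ∧ Real.log ((X + H) / X) ≤ Real.log 2 ∧ 0 < H := by
  have hX0 : 0 < X := by linarith
  have hH : 0 < H := lt_of_lt_of_le (Real.rpow_pos_of_pos hX0 θ) h1
  have hq : 0 < (X + H) / X := by positivity
  refine ⟨?_, ?_, hH⟩
  · have h3 := Real.one_sub_inv_le_log_of_pos hq
    refine le_trans ?_ h3
    have e1 : 1 - ((X + H) / X)⁻¹ = H / (X + H) := by
      field_simp
      ring
    have e2 : X ^ (θ - 1) = X ^ θ / X := by rw [Real.rpow_sub hX0, Real.rpow_one]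
    rw [e1, e2]
    calc X ^ θ / X / 2 ≤ H / X / 2 := by gcongr
      _ = H / (2 * X) := by field_simp
      _ ≤ H / (X + H) := by
          refine div_le_div_of_nonneg_left hH.le (by positivity) (by linarith)
  · refine Real.log_le_log hq ?_
    rw [div_le_iff₀ hX0]
    linarith

lemma par_facts {k : ℕ} (hk : 1 ≤ k) {ε : ℝ} (hε : 0 < ε) (hε1 : ε ≤ 1 / 4) {X H θ : ℝ} (hX : 1 ≤ X)
    (h1 : X ^ θ ≤ H) (h2 : H ≤ X) :
    0 < dl ε (X, H) ∧ ε * (X ^ (θ - 1) / 2) ≤ dl ε (X, H) ∧ dl ε (X, H) ≤ 1 ∧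
    k * Real.log (z1 k ε (X, H)) - dl ε (X, H) = Real.log X ∧
    k * Real.log (z2 k ε (X, H)) + dl ε (X, H) = Real.log (X + H) ∧
    X ^ (1 / (k : ℝ)) ≤ z1 k ε (X, H) ∧ z1 k ε (X, H) < z2 k ε (X, H) ∧
    z2 k ε (X, H) ≤ 2 * z1 k ε (X, H) ∧
    z1 k ε (X, H) * (X ^ (θ - 1) / (4 * k)) ≤ z2 k ε (X, H) - z1 k ε (X, H) := by
  obtain ⟨m1, m2, hH⟩ := mu_facts hX h1 h2
  have hX0 : 0 < X := by linarith
  have hXH : 0 < X + H := by linarith
  have hk1 : (1:ℝ) ≤ k := by exact_mod_cast hk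
  have hk0 : (0:ℝ) < k := by linarith
  set μ := Real.log ((X + H) / X) with hμ
  have hXt : 0 < X ^ (θ - 1) := Real.rpow_pos_of_pos hX0 _
  have hμ0 : 0 < μ := by linarith
  have hl2 : Real.log 2 ≤ 1 := by
    have := Real.log_le_sub_one_of_pos (show (0:ℝ) < 2 by norm_num)
    linarith
  have hd : dl ε (X, H) = ε * μ := rfl
  have hd0 : 0 < dl ε (X, H) := by rw [hd]; positivity
  have hμe : Real.log (X + H) = μ + Real.log X := by
    rw [hμ, Real.log_div hXH.ne' hX0.ne']; ring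
  have hz1 : z1 k ε (X, H) = Real.exp ((dl ε (X, H) + Real.log X) / k) := by
    unfold z1
    simp only
    rw [Real.rpow_def_of_pos (by positivity), Real.log_mul (Real.exp_pos _).ne' hX0.ne', Real.log_exp]
    congr 1
    ring
  have hz2 : z2 k ε (X, H) = Real.exp ((-(dl ε (X, H)) + (μ + Real.log X)) / k) := by
    unfold z2
    simp only
    rw [Real.rpow_def_of_pos (by positivity), Real.log_mul (Real.exp_pos _).ne' hXH.ne', Real.log_exp, hμe]
    congr 1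
    ring
  have hz10 : 0 < z1 k ε (X, H) := by rw [hz1]; exact Real.exp_pos _
  set D := (1 - 2 * ε) * μ / k with hD
  have hD0 : 0 < D := by
    rw [hD]
    have : 0 < 1 - 2 * ε := by linarith
    positivity
  have hz21 : z2 k ε (X, H) = z1 k ε (X, H) * Real.exp D := by
    rw [hz1, hz2, ← Real.exp_add, hd, hD]
    congr 1
    field_simp
    ring
  have hDle : D ≤ Real.log 2 := by
    rw [hD, div_le_iff₀ hk0]
    nlinarith
  refine ⟨hd0, ?_, ?_, ?_, ?_, ?_, ?_, ?_, ?_⟩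
  · rw [hd]; gcongr
  · rw [hd]; nlinarith
  · rw [hz1, Real.log_exp]
    field_simp
    ring
  · rw [hz2, Real.log_exp, hμe]
    field_simp
    ring
  · rw [hz1, Real.rpow_def_of_pos hX0]
    refine Real.exp_le_exp.2 ?_
    rw [mul_one_div]
    exact div_le_div_of_nonneg_right (by linarith) hk0.le
  · rw [hz21]
    have := Real.add_one_lt_exp hD0.ne'
    nlinarith
  · rw [hz21]
    have : Real.exp D ≤ 2 := by
      calc Real.exp D ≤ Real.exp (Real.log 2) := Real.exp_le_exp.2 hDle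
        _ = 2 := Real.exp_log (by norm_num)
    nlinarith
  · rw [hz21]
    have h3 := Real.add_one_le_exp D
    have h4 : X ^ (θ - 1) / (4 * k) ≤ D := by
      rw [hD, div_le_div_iff₀ (by positivity) hk0]
      have h5 : X ^ (θ - 1) ≤ 2 * μ := by linarith
      have h6 : 1 / 2 ≤ 1 - 2 * ε := by linarith
      have h7 : 1 / 2 * μ ≤ (1 - 2 * ε) * μ := mul_le_mul_of_nonneg_right h6 hμ0.le
      nlinarith
    have h5 : z1 k ε (X, H) * (X ^ (θ - 1) / (4 * k)) ≤ z1 k ε (X, H) * D := mul_le_mul_of_nonneg_left h4 hz10.le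
    nlinarith

lemma par_lim {k : ℕ} (hk : 1 ≤ k) {ε : ℝ} (hε : 0 < ε) (hε1 : ε ≤ 1 / 4) {θ : ℝ} (hθ : 1 - 1 / (2 * k) < θ) :
    Win (SIF θ) (z1 k ε) (z2 k ε) ∧ (∀ᶠ p in SIF θ, 0 < dl ε p) ∧
    Tendsto (fun p => Real.log (z1 k ε p) / (dl ε p * √(z1 k ε p))) (SIF θ) (𝓝 0) := by
  have hk1 : (1:ℝ) ≤ k := by exact_mod_cast hk
  have hk0 : (0:ℝ) < k := by linarith
  set s : ℝ := θ - 1 + 1 / (2 * k) with hs
  have hs0 : 0 < s := by rw [hs]; linarith
  have hX1 := (sif_fst θ).eventually_ge_atTop 1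
  have hmem := sif_mem θ
  have hinv : Tendsto (fun p : ℝ × ℝ => p.1 ^ (-s)) (SIF θ) (𝓝 0) :=
    (tendsto_rpow_neg_atTop hs0).comp (sif_fst θ)
  have hlog : Tendsto (fun p : ℝ × ℝ => (1 + Real.log p.1) * p.1 ^ (-s)) (SIF θ) (𝓝 0) := by
    have h1 : Tendsto (fun x : ℝ => (1 + Real.log x) * x ^ (-s)) atTop (𝓝 (0 + 0)) := by
      have h2 := (isLittleO_log_rpow_atTop hs0).tendsto_div_nhds_zero
      have h3 := (tendsto_rpow_neg_atTop hs0).add h2
      refine h3.congr' ?_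
      filter_upwards [eventually_gt_atTop 0] with x hx
      rw [Real.rpow_neg hx.le]
      ring
    rw [add_zero] at h1
    exact h1.comp (sif_fst θ)
  -- lower bound for the square root
  have hsqrt : ∀ p : ℝ × ℝ, 1 ≤ p.1 → p.1 ^ (1 / (k : ℝ)) ≤ z1 k ε p → p.1 ^ (1 / (2 * (k : ℝ))) ≤ √(z1 k ε p) := by
    intro p hp h
    have hp0 : 0 < p.1 := by linarith
    refine Real.le_sqrt_of_sq_le ?_
    refine le_trans (le_of_eq ?_) h
    rw [← Real.rpow_natCast, ← Real.rpow_mul hp0.le]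
    congr 1
    push_cast
    field_simp
  refine ⟨⟨?_, ?_, ?_⟩, ?_, ?_⟩
  · have h1 : Tendsto (fun p : ℝ × ℝ => p.1 ^ (1 / (k : ℝ))) (SIF θ) atTop :=
      (tendsto_rpow_atTop (by positivity)).comp (sif_fst θ)
    refine tendsto_atTop_mono' _ ?_ h1
    filter_upwards [hX1, hmem] with p h2 h3
    obtain ⟨-, -, -, -, -, g6, -, -, -⟩ := par_facts hk hε hε1 (X := p.1) (H := p.2) h2 h3.1 h3.2
    exact g6
  · filter_upwards [hX1, hmem] with p h2 h3
    obtain ⟨-, -, -, -, -, -, g7, g8, -⟩ := par_facts hk hε hε1 (X := p.1) (H := p.2) h2 h3.1 h3.2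
    exact ⟨g7, g8⟩
  · have h1 := hinv.const_mul (4 * (k : ℝ))
    rw [mul_zero] at h1
    refine squeeze_zero' ?_ ?_ h1
    · filter_upwards [hX1, hmem] with p h2 h3
      obtain ⟨-, -, -, -, -, -, g7, -, -⟩ := par_facts hk hε hε1 (X := p.1) (H := p.2) h2 h3.1 h3.2
      have : 0 < z2 k ε p - z1 k ε p := by
        have h : z1 k ε p < z2 k ε p := g7
        linarith
      positivity
    · filter_upwards [hX1, hmem] with p h2 h3
      obtain ⟨-, -, -, -, -, g6, g7, -, g9⟩ := par_facts hk hε hε1 (X := p.1) (H := p.2) h2 h3.1 h3.2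
      have hp0 : 0 < p.1 := by linarith
      have g6' : p.1 ^ (1 / (k : ℝ)) ≤ z1 k ε p := g6
      have g9' : z1 k ε p * (p.1 ^ (θ - 1) / (4 * k)) ≤ z2 k ε p - z1 k ε p := g9
      have hz : 0 < z1 k ε p := lt_of_lt_of_le (Real.rpow_pos_of_pos hp0 _) g6'
      have hsz : 0 < √(z1 k ε p) := Real.sqrt_pos.2 hz
      have hss : √(z1 k ε p) * √(z1 k ε p) = z1 k ε p := Real.mul_self_sqrt hz.le
      have hq := hsqrt p h2 g6'
      have hXt : 0 < p.1 ^ (θ - 1) := Real.rpow_pos_of_pos hp0 _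
      have hXk : 0 < p.1 ^ (1 / (2 * (k : ℝ))) := Real.rpow_pos_of_pos hp0 _
      have e1 : p.1 ^ (-s) = (p.1 ^ (θ - 1) * p.1 ^ (1 / (2 * (k : ℝ))))⁻¹ := by
        rw [← Real.rpow_add hp0, Real.rpow_neg hp0.le]
      calc √(z1 k ε p) / (z2 k ε p - z1 k ε p) ≤ √(z1 k ε p) / (z1 k ε p * (p.1 ^ (θ - 1) / (4 * k))) := by
            gcongr
        _ = 4 * k * (p.1 ^ (θ - 1) * √(z1 k ε p))⁻¹ := by
            nth_rewrite 2 [← hss]
            field_simp
        _ ≤ 4 * k * (p.1 ^ (θ - 1) * p.1 ^ (1 / (2 * (k : ℝ))))⁻¹ := by gcongr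
        _ = _ := by rw [e1]
  · filter_upwards [hX1, hmem] with p h2 h3
    obtain ⟨g1, -⟩ := par_facts hk hε hε1 (X := p.1) (H := p.2) h2 h3.1 h3.2
    exact g1
  · have h1 := hlog.const_mul (2 / ε)
    rw [mul_zero] at h1
    refine squeeze_zero' ?_ ?_ h1
    · filter_upwards [hX1, hmem] with p h2 h3
      obtain ⟨g1, -, -, -, -, g6, -, -, -⟩ := par_facts hk hε hε1 (X := p.1) (H := p.2) h2 h3.1 h3.2
      have g1' : 0 < dl ε p := g1
      have g6' : p.1 ^ (1 / (k : ℝ)) ≤ z1 k ε p := g6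
      have : 1 ≤ z1 k ε p := (Real.one_le_rpow h2 (by positivity)).trans g6'
      have := Real.log_nonneg this
      positivity
    · filter_upwards [hX1, hmem] with p h2 h3
      obtain ⟨g1, g2, g3, g4, -, g6, -, -, -⟩ := par_facts hk hε hε1 (X := p.1) (H := p.2) h2 h3.1 h3.2
      have hp0 : 0 < p.1 := by linarith
      have g1' : 0 < dl ε p := g1
      have g2' : ε * (p.1 ^ (θ - 1) / 2) ≤ dl ε p := g2
      have g3' : dl ε p ≤ 1 := g3
      have g4' : k * Real.log (z1 k ε p) - dl ε p = Real.log p.1 := g4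
      have g6' : p.1 ^ (1 / (k : ℝ)) ≤ z1 k ε p := g6
      have hz1 : 1 ≤ z1 k ε p := (Real.one_le_rpow h2 (by positivity)).trans g6'
      have hlz := Real.log_nonneg hz1
      have hq := hsqrt p h2 g6'
      have hlX := Real.log_nonneg h2
      have hXt : 0 < p.1 ^ (θ - 1) := Real.rpow_pos_of_pos hp0 _
      have hXk : 0 < p.1 ^ (1 / (2 * (k : ℝ))) := Real.rpow_pos_of_pos hp0 _
      have e1 : p.1 ^ (-s) = (p.1 ^ (θ - 1) * p.1 ^ (1 / (2 * (k : ℝ))))⁻¹ := by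
        rw [← Real.rpow_add hp0, Real.rpow_neg hp0.le]
      have hnum : Real.log (z1 k ε p) ≤ 1 + Real.log p.1 := by nlinarith
      calc Real.log (z1 k ε p) / (dl ε p * √(z1 k ε p)) ≤
            (1 + Real.log p.1) / ((ε * (p.1 ^ (θ - 1) / 2)) * p.1 ^ (1 / (2 * (k : ℝ)))) := by gcongr
        _ = 2 / ε * ((1 + Real.log p.1) * p.1 ^ (-s)) := by
            rw [e1]
            field_simp

lemma SS_val {k : ℕ} (hk : 1 ≤ k) {ε : ℝ} (hε : 0 < ε) (hε1 : ε ≤ 1 / 4) {X H θ : ℝ} (hX : 1 ≤ X)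
    (h1 : X ^ θ ≤ H) (h2 : H ≤ X) :
    (1 - 8 * ε) * ((X + H) ^ (2 - 1 / (k : ℝ)) - X ^ (2 - 1 / (k : ℝ))) ≤
      SS k (z1 k ε (X, H)) (z2 k ε (X, H)) := by
  obtain ⟨m1, m2, hH⟩ := mu_facts hX h1 h2
  have hX0 : 0 < X := by linarith
  have hXH : 0 < X + H := by linarith
  have hk1 : (1:ℝ) ≤ k := by exact_mod_cast hk
  have hk0 : (0:ℝ) < k := by linarith
  set μ := Real.log ((X + H) / X) with hμ
  have hXt : 0 < X ^ (θ - 1) := Real.rpow_pos_of_pos hX0 _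
  have hμ0 : 0 < μ := by linarith
  set e := 2 - 1 / (k : ℝ) with he
  have hinvk : 0 < 1 / (k : ℝ) := by positivity
  have hinvk1 : 1 / (k : ℝ) ≤ 1 := by rw [div_le_one hk0]; exact hk1
  have he0 : 0 < e := by linarith
  have he2 : e ≤ 2 := by linarith
  have hexpo : ∀ b : ℝ, 0 < b → (b ^ (1 / (k : ℝ))) ^ (2 * (k - 1) + 1) = b ^ e := by
    intro b hb
    rw [← Real.rpow_natCast, ← Real.rpow_mul hb.le]
    congr 1
    rw [he]
    push_cast
    rw [Nat.cast_sub hk]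
    push_cast
    field_simp
    ring
  have hd : dl ε (X, H) = ε * μ := rfl
  have hr : (X + H) ^ e = X ^ e * Real.exp (e * μ) := by
    have h3 : X + H = X * ((X + H) / X) := by field_simp
    have hq : 0 < (X + H) / X := by positivity
    calc (X + H) ^ e = (X * ((X + H) / X)) ^ e := by rw [← h3]
      _ = X ^ e * ((X + H) / X) ^ e := Real.mul_rpow hX0.le hq.le
      _ = X ^ e * Real.exp (e * μ) := by
          rw [Real.rpow_def_of_pos hq, hμ, mul_comm (Real.log _) e]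
  have e1 : z1 k ε (X, H) ^ (2 * (k - 1) + 1) = X ^ e * Real.exp (ε * (e * μ)) := by
    unfold z1
    simp only
    rw [hexpo _ (by positivity), Real.mul_rpow (Real.exp_pos _).le hX0.le, ← Real.exp_mul, hd, mul_comm]
    congr 2
    ring
  have e2 : z2 k ε (X, H) ^ (2 * (k - 1) + 1) = X ^ e * Real.exp ((1 - ε) * (e * μ)) := by
    unfold z2
    simp only
    rw [hexpo _ (by positivity), Real.mul_rpow (Real.exp_pos _).le hXH.le, ← Real.exp_mul, hd, hr, mul_comm,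
      mul_assoc, ← Real.exp_add]
    congr 2
    ring
  have ha4 : Real.exp (e * μ) ≤ 4 := by
    calc Real.exp (e * μ) ≤ Real.exp (2 * Real.log 2) := by
          refine Real.exp_le_exp.2 ?_
          nlinarith
      _ = 4 := by
          rw [show (2:ℝ) * Real.log 2 = ((2:ℕ) : ℝ) * Real.log 2 by norm_num, Real.exp_nat_mul,
            Real.exp_log (by norm_num)]
          norm_num
  have hg := exp_gap hε.le (by linarith) (by positivity : 0 ≤ e * μ) ha4
  unfold SS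
  rw [e1, e2, hr]
  have hXe : 0 < X ^ e := Real.rpow_pos_of_pos hX0 _
  have := mul_le_mul_of_nonneg_left hg hXe.le
  linarith

theorem final3 {k : ℕ} (hk : 1 ≤ k) {P : Polynomial ℝ} (hP : P.natDegree < k) {θ : ℝ}
    (hθ : 1 - 1 / (2 * (k : ℝ)) < θ) {c : ℝ}
    (hc : c < 1 / ((4 * k - 2) * Real.pi ^ 2) * ∑' n : ℕ, dr k n ^ 2 * (n : ℝ) ^ (-(1 + 1 / (k : ℝ)))) :
    ∃ X0 : ℝ, 1 ≤ X0 ∧ ∀ X : ℝ, X0 ≤ X → ∀ H : ℝ, X ^ θ ≤ H → H ≤ X →
      c * ((X + H) ^ (2 - 1 / (k : ℝ)) - X ^ (2 - 1 / (k : ℝ))) ≤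
        ∫ x in X..(X + H), (Dk k x - x * P.eval (Real.log x)) ^ 2 := by
  have hk1 : (1:ℝ) ≤ k := by exact_mod_cast hk
  have hk0 : (0:ℝ) < k := by linarith
  have he0 : 0 < 2 - 1 / (k : ℝ) := by
    have : 1 / (k : ℝ) ≤ 1 := by rw [div_le_one hk0]; exact hk1
    linarith
  have hmono : ∀ X H : ℝ, 1 ≤ X → X ^ θ ≤ H → 0 ≤ (X + H) ^ (2 - 1 / (k : ℝ)) - X ^ (2 - 1 / (k : ℝ)) := by
    intro X H hX hH
    have hX0 : 0 < X := by linarith
    have : 0 < X ^ θ := Real.rpow_pos_of_pos hX0 _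
    have := Real.rpow_le_rpow hX0.le (by linarith : X ≤ X + H) he0.le
    linarith
  rcases le_or_gt c 0 with hc0 | hc0
  · refine ⟨1, le_rfl, fun X hX H h1 h2 => ?_⟩
    have h3 := hmono X H hX h1
    have h4 : c * ((X + H) ^ (2 - 1 / (k : ℝ)) - X ^ (2 - 1 / (k : ℝ))) ≤ 0 :=
      mul_nonpos_of_nonpos_of_nonneg hc0 h3
    refine h4.trans ?_
    have hX0 : 0 < X := by linarith
    have : 0 < X ^ θ := Real.rpow_pos_of_pos hX0 _
    exact intervalIntegral.integral_nonneg (by linarith) fun x _ => sq_nonneg _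
  -- the finite sum
  set f : ℕ → ℝ := fun n => dr k n ^ 2 * (n : ℝ) ^ (-(1 + 1 / (k : ℝ))) with hf
  have hfn : ∀ n, 0 ≤ f n := fun n => by simp only [hf]; positivity
  have hlim := ((sum_conv hk).hasSum.tendsto_sum_nat).const_mul (1 / ((4 * k - 2) * Real.pi ^ 2))
  obtain ⟨N, hN⟩ := (hlim.eventually_const_lt hc).exists
  have h1 : c < (2 * Real.pi)⁻¹ * Lc k N := by
    rw [Lc_eq hk]
    refine hN.trans_le (mul_le_mul_of_nonneg_left ?_ ?_)
    · have hsub : Finset.range N ⊆ insert 0 (Finset.Icc 1 N) := by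
        intro n hn
        rw [Finset.mem_range] at hn
        rw [Finset.mem_insert, Finset.mem_Icc]
        omega
      have h0 : f 0 = 0 := by
        simp only [hf]
        rw [Nat.cast_zero, Real.zero_rpow, mul_zero]
        have : (0:ℝ) < 1 / k := by positivity
        linarith
      refine (Finset.sum_le_sum_of_subset_of_nonneg hsub fun n _ _ => hfn n).trans (le_of_eq ?_)
      rw [Finset.sum_insert (by simp), h0, zero_add]
    · have : (0:ℝ) < 4 * k - 2 := by linarith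
      positivity
  obtain ⟨c', hc1, hc2⟩ := exists_between h1
  have hc'0 : 0 < c' := by linarith
  set ε : ℝ := min (1 / 16) ((c' - c) / (8 * c')) with hεd
  have hε : 0 < ε := lt_min (by norm_num) (div_pos (by linarith) (by positivity))
  have hε1 : ε ≤ 1 / 16 := min_le_left _ _
  have hε2 : ε ≤ (c' - c) / (8 * c') := min_le_right _ _
  have hε4 : ε ≤ 1 / 4 := by linarith
  rw [le_div_iff₀ (by positivity)] at hε2
  obtain ⟨hW, hδ, hr⟩ := par_lim hk hε hε4 hθ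
  obtain ⟨X0, hX0, h⟩ := sif_ev (lower_win hW hδ hr hk N hP hc2)
  refine ⟨X0, hX0, fun X hX H g1 g2 => ?_⟩
  have hX1 : 1 ≤ X := hX0.trans hX
  have hXp : 0 < X := by linarith
  obtain ⟨m1, m2, hH⟩ := mu_facts hX1 g1 g2
  have h2 := h X hX H g1 g2
  obtain ⟨-, -, -, f4, f5, -, -, -, -⟩ := par_facts hk hε hε4 hX1 g1 g2
  rw [f4, f5, change_var2, Real.exp_log hXp, Real.exp_log (by linarith)] at h2
  rw [intervalIntegral.integral_of_le (by linarith)]
  refine le_trans ?_ h2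
  have h3 := SS_val hk hε hε4 hX1 g1 g2
  have h4 := hmono X H hX1 g1
  set V := (X + H) ^ (2 - 1 / (k : ℝ)) - X ^ (2 - 1 / (k : ℝ)) with hV
  have h5 : c ≤ c' * (1 - 8 * ε) := by nlinarith
  calc c * V ≤ (c' * (1 - 8 * ε)) * V := mul_le_mul_of_nonneg_right h5 h4
    _ = c' * ((1 - 8 * ε) * V) := by ring
    _ ≤ _ := mul_le_mul_of_nonneg_left h3 hc'0.le

end

end Pool.Agent.TH535.PZ
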