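import Pool.Agent.TH535.PZ.P2

set_option autoImplicit false

/-! Orthogonality of the test functions to `x (log x)^j`. -/

namespace Pool.Agent.TH535.PZ

open Complex MeasureTheory Filter Topology Set
open Pool.Agent.W182.KO (XX XX_diff XX_bound zeta_XX strip_shift)
open Pool.Agent.TH535.SM
open scoped FourierTransform

noncomputable section

lemma fub_int {F : ℝ → ℂ} (hF : Integrable F) {S : Set ℝ} {p : ℝ → ℂ} (hp : IntegrableOn p S) :
    Integrable (fun q : ℝ × ℝ => p q.1 * (cexp (-(q.2 * q.1 * I)) * F q.2))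
      ((volume.restrict S).prod volume) := by
  have h1 : Integrable (fun q : ℝ × ℝ => p q.1 * F q.2) ((volume.restrict S).prod volume) :=
    Integrable.mul_prod hp hF
  have h2 : Integrable (fun q : ℝ × ℝ => cexp (-(q.2 * q.1 * I)) * (p q.1 * F q.2))
      ((volume.restrict S).prod volume) := by
    refine h1.bdd_mul (c := 1) ?_ ?_
    · exact (by fun_prop : Continuous (fun q : ℝ × ℝ => cexp (-(q.2 * q.1 * I)))).aestronglyMeasurable
    · refine Eventually.of_forall fun q => ?_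
      have : -((q.2 : ℂ) * q.1 * I) = ((-(q.2 * q.1) : ℝ) : ℂ) * I := by push_cast; ring
      rw [this, Complex.norm_exp_ofReal_mul_I]
  refine h2.congr (Eventually.of_forall fun q => ?_)
  simp only
  ring

/-- Fubini -/
lemma fub {F : ℝ → ℂ} (hF : Integrable F) {S : Set ℝ} {p : ℝ → ℂ} (hp : IntegrableOn p S) :
    ∫ y in S, p y * ∫ t : ℝ, cexp (-(t * y * I)) * F t =
      ∫ t : ℝ, F t * ∫ y in S, p y * cexp (-(t * y * I)) := by
  have h1 : ∫ y in S, p y * ∫ t : ℝ, cexp (-(t * y * I)) * F t =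
      ∫ y in S, ∫ t : ℝ, p y * (cexp (-(t * y * I)) * F t) := by
    refine integral_congr_ae (Eventually.of_forall fun y => ?_)
    simp only
    rw [← integral_const_mul]
  rw [h1, integral_integral_swap (fub_int hF hp)]
  refine integral_congr_ae (Eventually.of_forall fun t => ?_)
  simp only
  rw [← integral_const_mul]
  refine integral_congr_ae (Eventually.of_forall fun y => ?_)
  simp only
  ring

lemma fub_integrable {F : ℝ → ℂ} (hF : Integrable F) {S : Set ℝ} {p : ℝ → ℂ} (hp : IntegrableOn p S) :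
    IntegrableOn (fun y => p y * ∫ t : ℝ, cexp (-(t * y * I)) * F t) S := by
  have h := (fub_int hF hp).integral_prod_left
  refine h.congr (Eventually.of_forall fun y => ?_)
  simp only
  rw [← integral_const_mul]

/-- pairing of the transform with a function on `S`, on the line `r` -/
lemma pair_line {A : ℂ → ℂ} (hA : PA A) {h : ℝ} (hh : 0 < h) {r : ℝ} (hr : 0 ≤ r) {S : Set ℝ}
    {p : ℝ → ℂ} (hp : IntegrableOn (fun y : ℝ => p y * cexp (-(r * y))) S) :
    IntegrableOn (fun y => p y * Gt (Ln A h 0) y) S ∧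
    ∫ y in S, p y * Gt (Ln A h 0) y = ((2 * Real.pi : ℝ) : ℂ)⁻¹ *
      ∫ t : ℝ, Ln A h r t * ∫ y in S, (p y * cexp (-(r * y))) * cexp (-(t * y * I)) := by
  have hF := (Ln_dec hA hh hr).int
  have e : ∀ y : ℝ, p y * Gt (Ln A h 0) y = ((2 * Real.pi : ℝ) : ℂ)⁻¹ *
      ((p y * cexp (-(r * y))) * ∫ t : ℝ, cexp (-(t * y * I)) * Ln A h r t) := by
    intro y
    rw [gt_shift hA hh hr y]
    have : ∫ t : ℝ, cexp (-((r + t * I) * y)) * Ln A h r t =
        cexp (-(r * y)) * ∫ t : ℝ, cexp (-(t * y * I)) * Ln A h r t := by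
      rw [← integral_const_mul]
      refine integral_congr_ae (Eventually.of_forall fun t => ?_)
      simp only
      rw [← mul_assoc, ← Complex.exp_add]
      congr 2
      ring
    rw [this]
    ring
  refine ⟨?_, ?_⟩
  · simp_rw [e]
    exact (fub_integrable hF hp).const_mul _
  · simp_rw [e]
    rw [integral_const_mul, fub hF hp]

lemma gam_int (j : ℕ) {w : ℂ} (hw : 0 < w.re) :
    IntegrableOn (fun y : ℝ => (y : ℂ) ^ j * cexp (-(w * y))) (Ioi (0:ℝ)) := by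
  have h1 := integrableOn_rpow_mul_exp_neg_mul_rpow (p := 1) (s := (j : ℝ)) (b := w.re)
    (by have : (0:ℝ) ≤ j := Nat.cast_nonneg j
        linarith) one_pos hw
  refine (h1.mono' ?_ ?_)
  · exact (by fun_prop : Continuous (fun y : ℝ => (y : ℂ) ^ j * cexp (-(w * y)))).aestronglyMeasurable
  · refine (ae_restrict_iff' measurableSet_Ioi).2 (Eventually.of_forall fun y hy => ?_)
    have hy0 : (0:ℝ) < y := hy
    rw [norm_mul, norm_pow, Complex.norm_real, Real.norm_of_nonneg hy0.le, Complex.norm_exp,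
      Real.rpow_natCast, Real.rpow_one]
    refine le_of_eq ?_
    congr 2
    simp

/-- the gamma integral -/
lemma gam (j : ℕ) {w : ℂ} (hw : 0 < w.re) :
    ∫ y in Ioi (0:ℝ), (y : ℂ) ^ j * cexp (-(w * y)) = j.factorial / w ^ (j + 1) := by
  have hw0 : w ≠ 0 := by
    rintro rfl
    simp at hw
  induction j with
  | zero =>
    have h := integral_exp_mul_complex_Ioi (a := -w) (by simpa using hw) 0
    have e : ∀ y ∈ Ioi (0:ℝ), (y : ℂ) ^ 0 * cexp (-(w * y)) = cexp (-w * y) := by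
      intro y _
      rw [pow_zero, one_mul, neg_mul]
    rw [setIntegral_congr_fun measurableSet_Ioi e, h]
    simp
  | succ j ih =>
    have hder : ∀ y ∈ Ici (0:ℝ), HasDerivAt (fun y : ℝ => (y : ℂ) ^ (j + 1) * cexp (-(w * y)))
        ((j + 1 : ℂ) * ((y : ℂ) ^ j * cexp (-(w * y))) - w * ((y : ℂ) ^ (j + 1) * cexp (-(w * y)))) y := by
      intro y _
      have h1 : HasDerivAt (fun y : ℝ => (y : ℂ) ^ (j + 1)) (((j + 1 : ℕ) : ℂ) * (y : ℂ) ^ j) y := by
        have := (hasDerivAt_pow (j + 1) (y : ℂ)).comp_ofReal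
        simpa using this
      have h2 : HasDerivAt (fun y : ℝ => cexp (-(w * y))) (cexp (-(w * y)) * (-w)) y := by
        have h3 : HasDerivAt (fun z : ℂ => cexp (-(w * z))) (cexp (-(w * y)) * (-w)) (y : ℂ) := by
          have h4 : HasDerivAt (fun z : ℂ => -(w * z)) (-w) (y : ℂ) :=
            (((hasDerivAt_id' (y : ℂ)).const_mul w).neg).congr_deriv (by ring)
          exact h4.cexp
        exact h3.comp_ofReal
      refine (h1.mul h2).congr_deriv ?_
      push_cast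
      ring
    have hi : IntegrableOn (fun y : ℝ => (j + 1 : ℂ) * ((y : ℂ) ^ j * cexp (-(w * y))) -
        w * ((y : ℂ) ^ (j + 1) * cexp (-(w * y)))) (Ioi (0:ℝ)) :=
      ((gam_int j hw).const_mul _).sub ((gam_int (j + 1) hw).const_mul _)
    have htend : Tendsto (fun y : ℝ => (y : ℂ) ^ (j + 1) * cexp (-(w * y))) atTop (𝓝 0) := by
      rw [tendsto_zero_iff_norm_tendsto_zero]
      have h5 := tendsto_rpow_mul_exp_neg_mul_atTop_nhds_zero ((j + 1 : ℕ) : ℝ) w.re hw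
      refine h5.congr' ?_
      filter_upwards [eventually_gt_atTop 0] with y hy
      rw [norm_mul, norm_pow, Complex.norm_real, Real.norm_of_nonneg hy.le, Complex.norm_exp,
        Real.rpow_natCast]
      congr 2
      simp
    have h6 := integral_Ioi_of_hasDerivAt_of_tendsto' hder hi htend
    rw [integral_sub ((gam_int j hw).const_mul _) ((gam_int (j + 1) hw).const_mul _),
      integral_const_mul, integral_const_mul, ih] at h6
    have h7 : w * ∫ y in Ioi (0:ℝ), (y : ℂ) ^ (j + 1) * cexp (-(w * y)) =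
        (j + 1 : ℂ) * (j.factorial / w ^ (j + 1)) := by
      have e0 : ((0:ℝ) : ℂ) ^ (j + 1) * cexp (-(w * ((0:ℝ) : ℂ))) = 0 := by simp
      rw [e0, sub_zero] at h6
      linear_combination -h6
    have h8 : ∫ y in Ioi (0:ℝ), (y : ℂ) ^ (j + 1) * cexp (-(w * y)) =
        w⁻¹ * ((j + 1 : ℂ) * (j.factorial / w ^ (j + 1))) := by
      rw [← h7, ← mul_assoc, inv_mul_cancel₀ hw0, one_mul]
    rw [h8, Nat.factorial_succ]
    push_cast
    field_simp
    ring

/-- the analytic parts of the test functions -/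
def Bk (k n l : ℕ) (z : ℂ) : ℂ := XX z ^ k * (n : ℂ) ^ (-z) * ((2 - z) * ((1 - z)⁻¹ * (1 - z)⁻¹)) *
  ((z - 3) ^ l * (z⁻¹) ^ k)

lemma Bk_PA (k : ℕ) {n : ℕ} (hn : 1 ≤ n) (l : ℕ) : PA (Bk k n l) := by
  have h2 : PA (fun z => (2 : ℂ) - z) := by
    have := PA.lin 2
    simpa using this
  have h3 : PA (fun z => z - (3 : ℂ)) := by
    have := (PA.const (-1)).mul (PA.lin 3)
    have e : (fun z : ℂ => (-1 : ℂ) * (((3 : ℝ) : ℂ) - z)) = fun z => z - 3 := by
      funext z; push_cast; ring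
    rwa [e] at this
  exact (((PA.xx.pow k).mul (PA.cpow hn)).mul (h2.mul (PA.inv1.mul PA.inv1))).mul
    ((h3.pow l).mul (PA.inv0.pow k))

lemma neg_side {f : ℝ → ℂ} (h : IntegrableOn f (Ioi (0:ℝ))) : IntegrableOn (fun y => f (-y)) (Iic (0:ℝ)) := by
  have h1 := ((Measure.measurePreserving_neg (volume : Measure ℝ)).integrableOn_comp_preimage
    (Homeomorph.neg ℝ).measurableEmbedding (f := f) (s := Ioi 0)).2 h
  have h2 : (Neg.neg ⁻¹' Ioi (0:ℝ)) = Iio 0 := by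
    ext y
    simp
  rw [h2] at h1
  exact (integrableOn_Iic_iff_integrableOn_Iio).2 h1

lemma orth_poly (k : ℕ) {n : ℕ} (hn : 1 ≤ n) {h : ℝ} (hh : 0 < h) {j : ℕ} (hj : j < k) :
    Integrable (fun y : ℝ => ((y : ℂ) ^ j * cexp ((3 / 2) * y)) * Gt (Ln (Bk k n k) h 0) y) ∧
    ∫ y : ℝ, ((y : ℂ) ^ j * cexp ((3 / 2) * y)) * Gt (Ln (Bk k n k) h 0) y = 0 := by
  have hA := Bk_PA k hn k
  have hA' := Bk_PA k hn (k - j - 1)
  have hre : (0:ℝ) < ((1 / 2 : ℝ) : ℂ).re := by rw [Complex.ofReal_re]; norm_num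
  have hp1 : ∀ y : ℝ, ((y : ℂ) ^ j * cexp ((3 / 2) * y)) * cexp (-(((2 : ℝ) : ℂ) * y)) =
      (y : ℂ) ^ j * cexp (-(((1 / 2 : ℝ) : ℂ) * y)) := by
    intro y
    rw [mul_assoc, ← Complex.exp_add]
    congr 2
    push_cast
    ring
  have hp2 : ∀ y : ℝ, ((y : ℂ) ^ j * cexp ((3 / 2) * y)) * cexp (-(((1 : ℝ) : ℂ) * y)) =
      (-1) ^ j * (((-y : ℝ) : ℂ) ^ j * cexp (-(((1 / 2 : ℝ) : ℂ) * ((-y : ℝ) : ℂ)))) := by
    intro y
    rw [mul_assoc, ← Complex.exp_add]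
    have e1 : ((-y : ℝ) : ℂ) ^ j = (-1) ^ j * (y : ℂ) ^ j := by
      rw [← mul_pow]; congr 1; push_cast; ring
    have e2 : ((-1 : ℂ)) ^ j * (-1) ^ j = 1 := by rw [← mul_pow]; norm_num
    rw [e1]
    have e3 : (3 / 2 * (y : ℂ) + -(((1 : ℝ) : ℂ) * y)) = -(((1 / 2 : ℝ) : ℂ) * ((-y : ℝ) : ℂ)) := by
      push_cast; ring
    rw [e3]
    linear_combination (-((y : ℂ) ^ j * cexp (-(((1 / 2 : ℝ) : ℂ) * ((-y : ℝ) : ℂ))))) * e2
  obtain ⟨i1, r1⟩ := pair_line hA hh (r := 2) (by norm_num) (S := Ioi (0:ℝ))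
    (p := fun y => (y : ℂ) ^ j * cexp ((3 / 2) * y)) (by simp_rw [hp1]; exact gam_int j hre)
  obtain ⟨i2, r2⟩ := pair_line hA hh (r := 1) (by norm_num) (S := Iic (0:ℝ))
    (p := fun y => (y : ℂ) ^ j * cexp ((3 / 2) * y)) (by
      simp_rw [hp2]
      exact neg_side (f := fun y => (-1) ^ j * ((y : ℂ) ^ j * cexp (-(((1 / 2 : ℝ) : ℂ) * y))))
        ((gam_int j hre).const_mul _))
  simp_rw [hp1] at r1
  simp_rw [hp2] at r2
  have hint : Integrable (fun y : ℝ => ((y : ℂ) ^ j * cexp ((3 / 2) * y)) * Gt (Ln (Bk k n k) h 0) y) := by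
    rw [← integrableOn_univ, ← Iic_union_Ioi (a := (0:ℝ))]
    exact i2.union i1
  refine ⟨hint, ?_⟩
  have hcompl : (Iic (0:ℝ))ᶜ = Ioi 0 := compl_Iic
  rw [← integral_add_compl (measurableSet_Iic (a := (0:ℝ))) hint, hcompl, r1, r2, ← mul_add]
  have key : (∫ t : ℝ, Ln (Bk k n k) h 1 t * ∫ y in Iic (0:ℝ),
        (-1) ^ j * (((-y : ℝ) : ℂ) ^ j * cexp (-(((1 / 2 : ℝ) : ℂ) * ((-y : ℝ) : ℂ)))) * cexp (-(t * y * I))) +
      ∫ t : ℝ, Ln (Bk k n k) h 2 t * ∫ y in Ioi (0:ℝ),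
        (y : ℂ) ^ j * cexp (-(((1 / 2 : ℝ) : ℂ) * y)) * cexp (-(t * y * I)) = 0 := by
    have e1 : ∀ t : ℝ, Ln (Bk k n k) h 2 t * ∫ y in Ioi (0:ℝ),
        (y : ℂ) ^ j * cexp (-(((1 / 2 : ℝ) : ℂ) * y)) * cexp (-(t * y * I)) =
        (j.factorial : ℂ) * Ln (Bk k n (k - j - 1)) h 2 t := by
      intro t
      have hw : (0:ℝ) < (((1 / 2 : ℝ) : ℂ) + t * I).re := by simp
      have hg := gam j hw
      have e2 : ∫ y in Ioi (0:ℝ), (y : ℂ) ^ j * cexp (-(((1 / 2 : ℝ) : ℂ) * y)) * cexp (-(t * y * I)) =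
          ∫ y in Ioi (0:ℝ), (y : ℂ) ^ j * cexp (-((((1 / 2 : ℝ) : ℂ) + t * I) * y)) := by
        refine integral_congr_ae (Eventually.of_forall fun y => ?_)
        simp only
        rw [mul_assoc, ← Complex.exp_add]
        congr 2
        ring
      rw [e2, hg]
      have hne : (((1 / 2 : ℝ) : ℂ) + t * I) ≠ 0 := fun h0 => by
        rw [h0] at hw; simp at hw
      have hz : (((3 / 2 + 2 : ℝ) : ℂ) + t * I) - 3 = ((1 / 2 : ℝ) : ℂ) + t * I := by push_cast; ring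
      unfold Ln Bk
      rw [hz]
      have hk : k = (k - j - 1) + (j + 1) := by omega
      have hpow : (((1 / 2 : ℝ) : ℂ) + t * I) ^ k = (((1 / 2 : ℝ) : ℂ) + t * I) ^ (k - j - 1) *
          (((1 / 2 : ℝ) : ℂ) + t * I) ^ (j + 1) := by
        rw [← pow_add, ← hk]
      rw [hpow]
      field_simp
    have e3 : ∀ t : ℝ, Ln (Bk k n k) h 1 t * ∫ y in Iic (0:ℝ),
        (-1) ^ j * (((-y : ℝ) : ℂ) ^ j * cexp (-(((1 / 2 : ℝ) : ℂ) * ((-y : ℝ) : ℂ)))) * cexp (-(t * y * I)) =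
        -((j.factorial : ℂ) * Ln (Bk k n (k - j - 1)) h 1 t) := by
      intro t
      have hw : (0:ℝ) < (((1 / 2 : ℝ) : ℂ) + (-t : ℝ) * I).re := by simp
      have hg := gam j hw
      have e2 : ∫ y in Iic (0:ℝ), (-1) ^ j * (((-y : ℝ) : ℂ) ^ j *
          cexp (-(((1 / 2 : ℝ) : ℂ) * ((-y : ℝ) : ℂ)))) * cexp (-(t * y * I)) =
          (-1) ^ j * ∫ y in Ioi (0:ℝ), (y : ℂ) ^ j * cexp (-((((1 / 2 : ℝ) : ℂ) + (-t : ℝ) * I) * y)) := by
        have h0 := integral_comp_neg_Iic (0:ℝ)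
          (fun y : ℝ => (y : ℂ) ^ j * cexp (-((((1 / 2 : ℝ) : ℂ) + (-t : ℝ) * I) * y)))
        rw [neg_zero] at h0
        rw [← h0, ← integral_const_mul]
        refine integral_congr_ae (Eventually.of_forall fun y => ?_)
        simp only
        rw [mul_assoc, mul_assoc, ← Complex.exp_add]
        congr 3
        push_cast
        ring
      rw [e2, hg]
      have hne : (((1 / 2 : ℝ) : ℂ) + (-t : ℝ) * I) ≠ 0 := fun h0 => by
        rw [h0] at hw; simp at hw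
      have hz : (((3 / 2 + 1 : ℝ) : ℂ) + t * I) - 3 = -(((1 / 2 : ℝ) : ℂ) + (-t : ℝ) * I) := by
        push_cast; ring
      unfold Ln Bk
      rw [hz]
      have hk : k = (k - j - 1) + (j + 1) := by omega
      have hpow : (-(((1 / 2 : ℝ) : ℂ) + (-t : ℝ) * I)) ^ k = (-(((1 / 2 : ℝ) : ℂ) + (-t : ℝ) * I)) ^ (k - j - 1) *
          ((-1) ^ (j + 1) * (((1 / 2 : ℝ) : ℂ) + (-t : ℝ) * I) ^ (j + 1)) := by
        rw [← mul_pow, neg_one_mul, ← pow_add, ← hk]
      rw [hpow]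
      have e5 : ((-1 : ℂ)) ^ (j + 1) * (-1) ^ j = -1 := by
        rw [pow_succ, mul_assoc, mul_comm (-1 : ℂ), ← mul_assoc, ← mul_pow]
        norm_num
      set W := (((1 / 2 : ℝ) : ℂ) + (-t : ℝ) * I) with hW
      have e6 : W ^ (j + 1) * ((j.factorial : ℂ) / W ^ (j + 1)) = j.factorial := by
        field_simp
      linear_combination (Ph h (((3 / 2 + 1 : ℝ) : ℂ) + t * I) * (XX (((3 / 2 + 1 : ℝ) : ℂ) + t * I) ^ k *
        (n : ℂ) ^ (-(((3 / 2 + 1 : ℝ) : ℂ) + t * I)) * ((2 - (((3 / 2 + 1 : ℝ) : ℂ) + t * I)) *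
        ((1 - (((3 / 2 + 1 : ℝ) : ℂ) + t * I))⁻¹ * (1 - (((3 / 2 + 1 : ℝ) : ℂ) + t * I))⁻¹)) *
        ((-W) ^ (k - j - 1) * ((((3 / 2 + 1 : ℝ) : ℂ) + t * I)⁻¹) ^ k))) *
        (W ^ (j + 1) * ((j.factorial : ℂ) / W ^ (j + 1)) * e5 - e6)
    simp_rw [e1, e3]
    rw [integral_neg, integral_const_mul, integral_const_mul,
      line_shift hA' hh (r1 := 1) (r2 := 2) (by norm_num) (by norm_num)]
    ring
  rw [key, mul_zero]

end

end Pool.Agent.TH535.PZ
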