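import Pool.Agent.TH535.PZ.P3
import Pool.Agent.TH535.SM.B1

set_option autoImplicit false

/-! Pairing of the test functions with the summatory function of `d_k`. -/

namespace Pool.Agent.TH535.PZ

open Complex MeasureTheory Filter Topology Set
open Pool.Agent.W182.KO (XX XX_diff XX_bound zeta_XX strip_shift)
open Pool.Agent.TH535.SM
open scoped FourierTransform ComplexConjugate

noncomputable section

/-- the summatory function -/
def Dk (k : ℕ) (x : ℝ) : ℝ := ∑ n ∈ Finset.Icc 1 ⌊x⌋₊, dr k n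

lemma Dk_mono (k : ℕ) : Monotone (Dk k) := by
  intro x y hxy
  refine Finset.sum_le_sum_of_subset_of_nonneg ?_ fun n _ _ => dr_nonneg k n
  exact Finset.Icc_subset_Icc_right (Nat.floor_le_floor hxy)

lemma Dk_nonneg (k : ℕ) (x : ℝ) : 0 ≤ Dk k x := Finset.sum_nonneg fun n _ => dr_nonneg k n

lemma Dk_zero (k : ℕ) {x : ℝ} (hx : x < 1) : Dk k x = 0 := by
  unfold Dk
  rw [Nat.floor_eq_zero.2 hx]
  simp

lemma Dk_le (k : ℕ) : ∃ C : ℝ, 1 ≤ C ∧ ∀ x : ℝ, 0 ≤ x → Dk k x ≤ C * x ^ 2 := by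
  obtain ⟨C, hC, h⟩ := dr_le k one_pos
  refine ⟨C, hC, fun x hx => ?_⟩
  have h1 : ∀ n ∈ Finset.Icc 1 ⌊x⌋₊, dr k n ≤ C * x := by
    intro n hn
    rw [Finset.mem_Icc] at hn
    have h2 := h n
    rw [Real.rpow_one] at h2
    have h3 : (n : ℝ) ≤ x := (Nat.cast_le.2 hn.2).trans (Nat.floor_le hx)
    exact h2.trans (by gcongr)
  have h2 := Finset.sum_le_card_nsmul _ _ _ h1
  rw [Nat.card_Icc, nsmul_eq_mul] at h2
  have h3 : ((⌊x⌋₊ + 1 - 1 : ℕ) : ℝ) ≤ x := by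
    rw [Nat.add_sub_cancel]
    exact Nat.floor_le hx
  unfold Dk
  calc _ ≤ _ := h2
    _ ≤ x * (C * x) := by gcongr
    _ = C * x ^ 2 := by ring

/-- change of variables `x = e^y` -/
lemma exp_change (g : ℝ → ℂ) : ∫ x in Ioi (1:ℝ), g x = ∫ y in Ioi (0:ℝ), (Real.exp y : ℂ) * g (Real.exp y) := by
  have himg : Real.exp '' Ioi (0:ℝ) = Ioi 1 := by
    ext x
    simp only [mem_image, mem_Ioi]
    constructor
    · rintro ⟨y, hy, rfl⟩
      exact Real.one_lt_exp_iff.2 hy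
    · intro hx
      exact ⟨Real.log x, Real.log_pos hx, Real.exp_log (by linarith)⟩
  have h := integral_image_eq_integral_abs_deriv_smul (s := Ioi (0:ℝ)) (f := Real.exp) (f' := Real.exp)
    measurableSet_Ioi (fun x _ => (Real.hasDerivAt_exp x).hasDerivWithinAt) Real.exp_injective.injOn g
  rw [himg] at h
  rw [h]
  refine integral_congr_ae (Eventually.of_forall fun y => ?_)
  simp only
  rw [abs_of_pos (Real.exp_pos y), Complex.real_smul]

lemma mellin_D (k : ℕ) {w : ℂ} (hw : 2 < w.re) :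
    ∫ y in Ioi (0:ℝ), (Dk k (Real.exp y) : ℂ) * cexp (-(w * y)) = riemannZeta w ^ k / w := by
  obtain ⟨C, hC, hb⟩ := Dk_le k
  have hw0 : w ≠ 0 := by
    rintro rfl
    simp at hw
    linarith
  have hO : (fun n : ℕ => ∑ m ∈ Finset.Icc 1 n, dr k m) =O[atTop] fun n : ℕ => (n : ℝ) ^ (2 : ℝ) := by
    refine Asymptotics.IsBigO.of_bound C (Eventually.of_forall fun n => ?_)
    have h1 := hb n (Nat.cast_nonneg n)
    unfold Dk at h1
    rw [Nat.floor_natCast] at h1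
    rw [Real.norm_of_nonneg (Finset.sum_nonneg fun m _ => dr_nonneg k m),
      Real.norm_of_nonneg (by positivity)]
    have e : (n : ℝ) ^ (2 : ℝ) = (n : ℝ) ^ 2 := by
      rw [← Real.rpow_natCast]; norm_num
    rw [e]
    exact h1
  have h := LSeries_eq_mul_integral_of_nonneg (dr k) (r := 2) (by norm_num) hw hO (dr_nonneg k)
  have h2 : LSeries (fun n => ((dr k n : ℝ) : ℂ)) w = riemannZeta w ^ k := (dser k (by linarith)).tsum_eq
  rw [h2] at h
  rw [h, exp_change, mul_div_cancel_left₀ _ hw0]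
  refine integral_congr_ae (Eventually.of_forall fun y => ?_)
  simp only
  have e1 : (Real.exp y : ℂ) * (((Real.exp y : ℝ) : ℂ) ^ (-(w + 1))) = cexp (-(w * y)) := by
    rw [Complex.cpow_def_of_ne_zero (by exact_mod_cast (Real.exp_pos y).ne'), ← Complex.ofReal_log
      (Real.exp_pos y).le, Real.log_exp, Complex.ofReal_exp, ← Complex.exp_add]
    congr 1
    ring
  unfold Dk
  push_cast
  rw [← e1]
  push_cast
  ring

lemma D_int (k : ℕ) : IntegrableOn (fun y : ℝ => ((Dk k (Real.exp y) : ℂ) * cexp ((1 / 2) * y)) *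
    cexp (-(((3 : ℝ) : ℂ) * y))) (Ioi (0:ℝ)) := by
  obtain ⟨C, hC, hb⟩ := Dk_le k
  have h1 : IntegrableOn (fun y : ℝ => C * Real.exp (-(1 / 2) * y)) (Ioi (0:ℝ)) :=
    (integrableOn_exp_mul_Ioi (by norm_num) 0).const_mul C
  refine h1.mono' ?_ ?_
  · have hm : Measurable (fun y : ℝ => (Dk k (Real.exp y) : ℂ)) :=
      Complex.measurable_ofReal.comp ((Dk_mono k).measurable.comp Real.measurable_exp)
    exact ((hm.mul (by fun_prop)).mul (by fun_prop)).aestronglyMeasurable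
  · refine (ae_restrict_iff' measurableSet_Ioi).2 (Eventually.of_forall fun y hy => ?_)
    rw [norm_mul, norm_mul, Complex.norm_real, Real.norm_of_nonneg (Dk_nonneg _ _), Complex.norm_exp,
      Complex.norm_exp]
    have e1 : ((1 / 2 : ℂ) * y).re = 1 / 2 * y := by
      have : (1 / 2 : ℂ) * y = ((1 / 2 * y : ℝ) : ℂ) := by push_cast; ring
      rw [this, Complex.ofReal_re]
    have e2 : (-(((3 : ℝ) : ℂ) * y)).re = -(3 * y) := by simp
    rw [e1, e2]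
    have h2 := hb (Real.exp y) (Real.exp_pos y).le
    calc Dk k (Real.exp y) * Real.exp (1 / 2 * y) * Real.exp (-(3 * y)) ≤
          (C * Real.exp y ^ 2) * Real.exp (1 / 2 * y) * Real.exp (-(3 * y)) := by gcongr
      _ = C * Real.exp (-(1 / 2) * y) := by
          rw [← Real.exp_nat_mul, mul_assoc, mul_assoc, ← Real.exp_add, ← Real.exp_add]
          congr 2
          push_cast
          ring

/-- the integrand after the first pairing -/
def Kk (k n : ℕ) (z : ℂ) : ℂ := (XX z ^ k * (n : ℂ) ^ (-z) * ((1 - z)⁻¹ * (1 - z)⁻¹)) *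
  ((-1) * (Y (z - 2) ^ k * (z⁻¹) ^ k))

lemma PA.Y2 : PA (fun z => Y (z - 2)) := by
  refine ⟨fun z _ => (Y_diff _).comp z (by fun_prop), fun b => ?_⟩
  obtain ⟨u, hu⟩ := exists_nat_ge (|b| + 1)
  have hu1 : 1 ≤ u := by
    have : (0:ℝ) < u := by have := abs_nonneg b; linarith
    exact_mod_cast this
  have hu1' : (1:ℝ) ≤ u := by exact_mod_cast hu1
  obtain ⟨C, M, hC, h⟩ := H_strip 1 hu1
  refine ⟨C * (|b| + 2 * u + 4), M + 1, by positivity, fun z h1 h2 => ?_⟩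
  set s := z - 2 with hs
  have hre : s.re = z.re - 2 := by simp [hs]
  have him : s.im = z.im := by simp [hs]
  have hb := le_abs_self b
  have h3 := h s (by rw [hre]; linarith) (by rw [hre]; linarith)
  have hden : s + (2 * u + 1 : ℕ) ≠ 0 := den_ne (by rw [hre]; linarith)
  have e : Y s = H 1 u s * (s + (2 * u + 1 : ℕ)) := by
    unfold H
    rw [pow_one, div_mul_cancel₀ _ hden]
  rw [him] at h3
  have h4 : ‖s + (2 * u + 1 : ℕ)‖ ≤ (|b| + 2 * u + 4) * (1 + |z.im|) := by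
    have h5 := Complex.norm_le_abs_re_add_abs_im (s + (2 * u + 1 : ℕ))
    rw [den_re, den_im, hre, him, abs_of_nonneg (by linarith)] at h5
    have h6 := abs_nonneg z.im
    nlinarith [abs_nonneg b]
  rw [e, norm_mul, pow_succ]
  calc _ ≤ (C * (1 + |z.im|) ^ M) * ((|b| + 2 * u + 4) * (1 + |z.im|)) :=
        mul_le_mul h3 h4 (norm_nonneg _) (by positivity)
    _ = _ := by ring

lemma Kk_PA (k : ℕ) {n : ℕ} (hn : 1 ≤ n) : PA (Kk k n) :=
  (((PA.xx.pow k).mul (PA.cpow hn)).mul (PA.inv1.mul PA.inv1)).mul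
    ((PA.const (-1)).mul ((PA.Y2.pow k).mul (PA.inv0.pow k)))

/-- the pairing as a contour integral -/
lemma pairD1 (k : ℕ) {n : ℕ} (hn : 1 ≤ n) {h : ℝ} (hh : 0 < h) :
    IntegrableOn (fun y : ℝ => ((Dk k (Real.exp y) : ℂ) * cexp ((1 / 2) * y)) *
      Gt (Ln (Bk k n k) h 0) y) (Ioi (0:ℝ)) ∧
    ∫ y in Ioi (0:ℝ), ((Dk k (Real.exp y) : ℂ) * cexp ((1 / 2) * y)) * Gt (Ln (Bk k n k) h 0) y =
      ((2 * Real.pi : ℝ) : ℂ)⁻¹ * ∫ t : ℝ, Ln (Kk k n) h 0 t := by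
  obtain ⟨i1, r1⟩ := pair_line (Bk_PA k hn k) hh (r := 3) (by norm_num) (S := Ioi (0:ℝ))
    (p := fun y => (Dk k (Real.exp y) : ℂ) * cexp ((1 / 2) * y)) (D_int k)
  refine ⟨i1, ?_⟩
  rw [r1, line_shift (Kk_PA k hn) hh (r1 := 0) (r2 := 3) le_rfl (by norm_num)]
  congr 1
  refine integral_congr_ae (Eventually.of_forall fun t => ?_)
  simp only
  set w : ℂ := ((5 / 2 : ℝ) : ℂ) + t * I with hw
  have hwre : w.re = 5 / 2 := by simp [hw]
  have hw0 : w ≠ 0 := by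
    intro h0
    rw [h0] at hwre
    norm_num at hwre
  have hw1 : w ≠ 1 := by
    intro h0
    rw [h0] at hwre
    norm_num at hwre
  have e1 : ∫ y in Ioi (0:ℝ), ((Dk k (Real.exp y) : ℂ) * cexp ((1 / 2) * y)) *
      cexp (-(((3 : ℝ) : ℂ) * y)) * cexp (-(t * y * I)) = riemannZeta w ^ k / w := by
    rw [← mellin_D k (by rw [hwre]; norm_num)]
    refine integral_congr_ae (Eventually.of_forall fun y => ?_)
    simp only
    rw [mul_assoc, mul_assoc, ← Complex.exp_add, ← Complex.exp_add]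
    congr 2
    rw [hw]
    push_cast
    ring
  rw [e1]
  unfold Ln Bk Kk
  set z : ℂ := (((3 / 2 + 3 : ℝ) : ℂ) + t * I) with hz
  have ez : z - 2 = w := by rw [hz, hw]; push_cast; ring
  have ez3 : z - 3 = w - 1 := by rw [← ez]; ring
  have ez2 : 2 - z = -w := by rw [← ez]; ring
  rw [ez, ez3, ez2, Y_eq hw1, mul_pow]
  field_simp

/-- the phase factor -/
def ee (k : ℕ) (t : ℝ) : ℂ := -((((1 / 2 : ℝ) : ℂ) - t * I) / (((1 / 2 : ℝ) : ℂ) + t * I)) *
  (((((-(3 / 2) : ℝ)) : ℂ) + t * I) / (((3 / 2 : ℝ) : ℂ) + t * I)) ^ k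

/-- the weight -/
def wt (k : ℕ) (t : ℝ) : ℝ := (1 / 4 + t ^ 2) ^ (k - 1) / (4 * Real.pi ^ 2) ^ k

lemma Kk_line {k : ℕ} (hk : 1 ≤ k) (n : ℕ) (h t : ℝ) : Ln (Kk k n) h 0 t =
    ((wt k t * ph h t : ℝ) : ℂ) * ee k t * (n : ℂ) ^ (-(((3 / 2 : ℝ) : ℂ) + t * I)) *
      riemannZeta (((3 / 2 : ℝ) : ℂ) - t * I) ^ k := by
  unfold Ln Kk
  set z : ℂ := ((3 / 2 : ℝ) : ℂ) + t * I with hz
  have e0 : (((3 / 2 + 0 : ℝ) : ℂ) + t * I) = z := by rw [hz]; push_cast; ring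
  set zb : ℂ := ((3 / 2 : ℝ) : ℂ) - t * I with hzb
  have hzre : z.re = 3 / 2 := by simp [hz]
  have hzbre : zb.re = 3 / 2 := by simp [hzb]
  have hz0 : z ≠ 0 := by
    intro h0
    rw [h0] at hzre
    norm_num at hzre
  have hconj : conj z = zb := by
    rw [hz, hzb, map_add, map_mul, Complex.conj_ofReal, Complex.conj_ofReal, conj_I]
    ring
  have hw1 : z - 2 ≠ 1 := by
    intro h0
    have := congrArg Complex.re h0
    rw [Complex.sub_re, hzre] at this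
    norm_num at this
  have hzb1 : zb ≠ 1 := by
    intro h0
    rw [h0] at hzbre
    norm_num at hzbre
  have e1 : z - 2 = 1 - zb := by rw [hz, hzb]; push_cast; ring
  have e2 : Y (z - 2) = (z - 3) * (XX zb * riemannZeta zb) := by
    rw [Y_eq hw1, e1, zeta_XX (by rw [hzbre]; norm_num) hzb1]
    congr 1
    rw [← e1]
    ring
  have e3 : XX z * XX zb = (((1 / 4 + t ^ 2) / (4 * Real.pi ^ 2) : ℝ) : ℂ) := by
    rw [← hconj, XX_conj, Complex.mul_conj, Complex.normSq_eq_norm_sq, hz, XX_sq]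
  have e4 : 1 - z = -(((1 / 2 : ℝ) : ℂ) + t * I) := by rw [hz]; push_cast; ring
  have e5 : z - 3 = ((-(3 / 2) : ℝ) : ℂ) + t * I := by rw [hz]; push_cast; ring
  set a : ℂ := ((1 / 2 : ℝ) : ℂ) + t * I with ha
  have ha0 : a ≠ 0 := by
    intro h0
    have := congrArg Complex.re h0
    rw [ha] at this
    simp at this
  set ab : ℂ := ((1 / 2 : ℝ) : ℂ) - t * I with hab
  have e6 : a * ab = ((1 / 4 + t ^ 2 : ℝ) : ℂ) := by
    rw [ha, hab]
    push_cast
    linear_combination (-(t : ℂ) ^ 2) * I_sq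
  rw [e0, hz, Ph_line, ← hz, e2, mul_pow, mul_pow, e4]
  unfold ee wt
  rw [← ha, ← hab, ← hz, ← e5]
  have e7 : XX z ^ k * XX zb ^ k = (((1 / 4 + t ^ 2 : ℝ) : ℂ) / (4 * (Real.pi : ℂ) ^ 2)) ^ k := by
    rw [← mul_pow, e3]
    push_cast
    rfl
  have e8 : (((1 / 4 + t ^ 2 : ℝ) : ℂ) / (4 * (Real.pi : ℂ) ^ 2)) ^ k =
      (a * ab) * (((1 / 4 + t ^ 2 : ℝ) : ℂ) ^ (k - 1) / (4 * (Real.pi : ℂ) ^ 2) ^ k) := by
    have hk2 : ((1 / 4 + t ^ 2 : ℝ) : ℂ) ^ k = ((1 / 4 + t ^ 2 : ℝ) : ℂ) * ((1 / 4 + t ^ 2 : ℝ) : ℂ) ^ (k - 1) := by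
      rw [← pow_succ']
      congr 1
      omega
    rw [div_pow, hk2, e6]
    ring
  have e9 : (a * ab) * ((-a)⁻¹ * (-a)⁻¹) = ab / a := by
    field_simp
  calc _ = (ph h t : ℂ) * (n : ℂ) ^ (-z) * (XX z ^ k * XX zb ^ k) * ((-a)⁻¹ * (-a)⁻¹) * (-1) *
        ((z - 3) ^ k * (z⁻¹) ^ k) * riemannZeta zb ^ k := by ring
    _ = (ph h t : ℂ) * (n : ℂ) ^ (-z) * (((1 / 4 + t ^ 2 : ℝ) : ℂ) ^ (k - 1) / (4 * (Real.pi : ℂ) ^ 2) ^ k) *
        ((a * ab) * ((-a)⁻¹ * (-a)⁻¹)) * (-1) *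
        ((z - 3) ^ k * (z⁻¹) ^ k) * riemannZeta zb ^ k := by
        rw [e7, e8]; ring
    _ = _ := by
        rw [e9]
        push_cast
        rw [div_pow, inv_pow]
        ring

end

end Pool.Agent.TH535.PZ
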