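import Pool.Agent.TH535.PZ.P4

set_option autoImplicit false

/-! Limits of the rescaled integrals. -/

namespace Pool.Agent.TH535.PZ

open Complex MeasureTheory Filter Topology Set
open Pool.Agent.TH535.SM
open scoped FourierTransform ComplexConjugate

noncomputable section

/-- dominated convergence together with the Riemann–Lebesgue lemma -/
lemma rl {φ : ℝ → ℝ → ℂ} {φ0 : ℝ → ℂ} {g : ℝ → ℝ} (hg : Integrable g)
    (hm : ∀ᶠ Z in atTop, AEStronglyMeasurable (φ Z) volume)
    (hb : ∀ᶠ Z in atTop, ∀ y, ‖φ Z y‖ ≤ g y)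
    (hl : ∀ᵐ y, Tendsto (fun Z => φ Z y) atTop (𝓝 (φ0 y))) (lam : ℝ) :
    Tendsto (fun Z : ℝ => ∫ y, φ Z y * cexp ((lam * Z * y : ℝ) * I)) atTop
      (𝓝 (if lam = 0 then ∫ y, φ0 y else 0)) := by
  split_ifs with h0
  · subst h0
    have e : ∀ Z y : ℝ, φ Z y * cexp ((0 * Z * y : ℝ) * I) = φ Z y := by
      intro Z y
      simp
    simp_rw [e]
    exact tendsto_integral_filter_of_dominated_convergence g hm
      (hb.mono fun Z h => Eventually.of_forall h) hg hl
  · have hm0 : AEStronglyMeasurable φ0 volume := by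
      obtain ⟨Z0, hZ0⟩ := eventually_atTop.1 hm
      refine aestronglyMeasurable_of_tendsto_ae (u := atTop) (f := fun n : ℕ => φ (max Z0 n))
        (fun n => hZ0 _ (le_max_left _ _)) ?_
      filter_upwards [hl] with y hy
      refine hy.comp ?_
      exact tendsto_atTop_mono (fun n : ℕ => le_max_right Z0 (n : ℝ)) tendsto_natCast_atTop_atTop
    have hb0 : ∀ᵐ y, ‖φ0 y‖ ≤ g y := by
      filter_upwards [hl] with y hy
      exact le_of_tendsto hy.norm (hb.mono fun Z h => h y)
    have hi0 : Integrable φ0 := hg.mono' hm0 hb0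
    have hexp : ∀ Z y : ℝ, ‖cexp ((lam * Z * y : ℝ) * I)‖ = 1 := fun Z y =>
      Complex.norm_exp_ofReal_mul_I _
    have hmE : ∀ Z : ℝ, AEStronglyMeasurable (fun y : ℝ => cexp ((lam * Z * y : ℝ) * I)) volume :=
      fun Z => (by fun_prop : Continuous (fun y : ℝ => cexp ((lam * Z * y : ℝ) * I))).aestronglyMeasurable
    have h1 : Tendsto (fun Z : ℝ => ∫ y, (φ Z y - φ0 y) * cexp ((lam * Z * y : ℝ) * I)) atTop (𝓝 0) := by
      have h2 : Tendsto (fun Z : ℝ => ∫ y, (φ Z y - φ0 y) * cexp ((lam * Z * y : ℝ) * I)) atTop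
          (𝓝 (∫ _y : ℝ, (0:ℂ))) := by
        refine tendsto_integral_filter_of_dominated_convergence (fun y => g y + g y) ?_ ?_ (hg.add hg) ?_
        · filter_upwards [hm] with Z h
          exact (h.sub hm0).mul (hmE Z)
        · filter_upwards [hb] with Z h
          filter_upwards [hb0] with y hy
          rw [norm_mul, hexp, mul_one]
          exact (norm_sub_le _ _).trans (add_le_add (h y) hy)
        · filter_upwards [hl] with y hy
          rw [tendsto_zero_iff_norm_tendsto_zero]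
          have h3 : Tendsto (fun Z => ‖φ Z y - φ0 y‖) atTop (𝓝 0) := by
            have := (hy.sub_const (φ0 y)).norm
            rwa [sub_self, norm_zero] at this
          refine h3.congr fun Z => ?_
          rw [norm_mul, hexp, mul_one]
      simpa using h2
    have h2 : Tendsto (fun Z : ℝ => ∫ y, φ0 y * cexp ((lam * Z * y : ℝ) * I)) atTop (𝓝 0) := by
      have h3 := Real.tendsto_integral_exp_smul_cocompact φ0
      have h4 : Tendsto (fun Z : ℝ => (-(lam / (2 * Real.pi))) * Z) atTop (cocompact ℝ) := by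
        have h5 : (-(lam / (2 * Real.pi))) ≠ 0 := by
          have := Real.pi_pos
          refine neg_ne_zero.2 (div_ne_zero h0 (by positivity))
        rcases lt_or_gt_of_ne h5 with h | h
        · exact (tendsto_id.const_mul_atTop_of_neg h).mono_right atBot_le_cocompact
        · exact (tendsto_id.const_mul_atTop h).mono_right atTop_le_cocompact
      refine (h3.comp h4).congr fun Z => ?_
      simp only [Function.comp]
      refine integral_congr_ae (Eventually.of_forall fun y => ?_)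
      simp only
      rw [Circle.smul_def, Real.fourierChar_apply, smul_eq_mul, mul_comm]
      congr 2
      have hp : (Real.pi : ℂ) ≠ 0 := by exact_mod_cast Real.pi_ne_zero
      push_cast
      field_simp
    have h3 := h1.add h2
    rw [add_zero] at h3
    refine h3.congr' ?_
    filter_upwards [hm, hb] with Z h4 h5
    have hi : Integrable (φ Z) := hg.mono' h4 (Eventually.of_forall h5)
    rw [← integral_add]
    · refine integral_congr_ae (Eventually.of_forall fun y => ?_)
      simp only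
      ring
    · have := (hi.sub hi0).bdd_mul (c := 1) (hmE Z) (Eventually.of_forall fun y => (hexp Z y).le)
      refine this.congr (Eventually.of_forall fun y => ?_)
      simp only [Pi.sub_apply]
      ring
    · have := hi0.bdd_mul (c := 1) (hmE Z) (Eventually.of_forall fun y => (hexp Z y).le)
      refine this.congr (Eventually.of_forall fun y => ?_)
      simp only
      ring

lemma vlim {u : ℝ} (h0 : u ≠ 0) (h1 : u ≠ 1) :
    Tendsto (fun h : ℝ => v h (h * u)) atTop (𝓝 ((Icc (0:ℝ) 1).indicator (fun _ => (1:ℝ)) u)) := by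
  have hg : ∀ a : ℝ, a ≠ 0 → Tendsto (fun h : ℝ => Real.exp (-(h * a) ^ 2 / 2)) atTop (𝓝 0) := by
    intro a ha
    refine Real.tendsto_exp_atBot.comp ?_
    have h2 : Tendsto (fun h : ℝ => (a ^ 2 / 2) * h ^ 2) atTop atTop :=
      (tendsto_pow_atTop two_ne_zero).const_mul_atTop (by positivity)
    refine (tendsto_neg_atTop_atBot.comp h2).congr fun h => ?_
    simp only [Function.comp]
    ring
  have h3 : Tendsto (fun h : ℝ => √2 * (Real.exp (-(h * u) ^ 2 / 2) + Real.exp (-(h * (u - 1)) ^ 2 / 2)))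
      atTop (𝓝 0) := by
    have := ((hg u h0).add (hg (u - 1) (sub_ne_zero.2 h1))).const_mul √2
    rwa [add_zero, mul_zero] at this
  rw [tendsto_iff_dist_tendsto_zero]
  refine squeeze_zero' (Eventually.of_forall fun _ => dist_nonneg) ?_ h3
  filter_upwards [eventually_gt_atTop 0] with h hh
  have h4 := v_close hh.le (h * u)
  have h5 : (Icc (0:ℝ) h).indicator (fun _ => (1:ℝ)) (h * u) = (Icc (0:ℝ) 1).indicator (fun _ => (1:ℝ)) u := by
    have : h * u ∈ Icc 0 h ↔ u ∈ Icc (0:ℝ) 1 := by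
      simp only [mem_Icc]
      constructor
      · rintro ⟨a, b⟩
        exact ⟨nonneg_of_mul_nonneg_right a hh, by nlinarith⟩
      · rintro ⟨a, b⟩
        exact ⟨by positivity, by nlinarith⟩
    by_cases hu : u ∈ Icc (0:ℝ) 1
    · rw [indicator_of_mem hu, indicator_of_mem (this.2 hu)]
    · rw [indicator_of_notMem hu, indicator_of_notMem (fun h => hu (this.1 h))]
  rw [h5] at h4
  rw [dist_comm, Real.dist_eq]
  refine h4.trans (le_of_eq ?_)
  congr 3
  ring

/-- the scaled cut-off -/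
def hz (c Z : ℝ) : ℝ := √(c * Z)

def ff (c Z y : ℝ) : ℝ := ph (hz c Z) (Z * y)

lemma hz_pos {c Z : ℝ} (hc : 0 < c) (hZ : 0 < Z) : 0 < hz c Z := Real.sqrt_pos.2 (by positivity)

lemma hz_sq {c Z : ℝ} (hc : 0 < c) (hZ : 0 < Z) : hz c Z ^ 2 = c * Z := Real.sq_sqrt (by positivity)

lemma hz_atTop {c : ℝ} (hc : 0 < c) : Tendsto (hz c) atTop atTop :=
  Real.tendsto_sqrt_atTop.comp (tendsto_id.const_mul_atTop hc)

lemma ff_eq {c Z : ℝ} (hc : 0 < c) (hZ : 0 < Z) (y : ℝ) :
    ff c Z y = v (hz c Z) (hz c Z * (y / c)) + v (hz c Z) (hz c Z * (-(y / c))) := by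
  unfold ff ph
  have h1 := hz_pos hc hZ
  have h2 := hz_sq hc hZ
  have e : Z * y / hz c Z = hz c Z * (y / c) := by
    rw [div_eq_iff h1.ne']
    have : hz c Z * (y / c) * hz c Z = hz c Z ^ 2 * (y / c) := by ring
    rw [this, h2]
    field_simp
  have e2 : -(Z * y) / hz c Z = hz c Z * (-(y / c)) := by
    rw [neg_div, e]; ring
  rw [e, e2]

lemma ff_nonneg {c Z : ℝ} (hc : 0 < c) (hZ : 0 < Z) (y : ℝ) : 0 ≤ ff c Z y :=
  ph_nonneg (hz_pos hc hZ).le _

lemma ff_lim {c : ℝ} (hc : 0 < c) {y : ℝ} (h0 : y ≠ 0) (h1 : y ≠ c) (h2 : y ≠ -c) :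
    Tendsto (fun Z => ff c Z y) atTop (𝓝 ((Icc (-c) c).indicator (fun _ => (1:ℝ)) y)) := by
  have hu0 : y / c ≠ 0 := div_ne_zero h0 hc.ne'
  have hu1 : y / c ≠ 1 := by
    rw [Ne, div_eq_one_iff_eq hc.ne']
    exact h1
  have hu2 : -(y / c) ≠ 1 := by
    rw [← neg_div, Ne, div_eq_one_iff_eq hc.ne']
    intro h
    exact h2 (by linarith)
  have h3 := ((vlim hu0 hu1).comp (hz_atTop hc)).add ((vlim (neg_ne_zero.2 hu0) hu2).comp (hz_atTop hc))
  have e : (Icc (0:ℝ) 1).indicator (fun _ => (1:ℝ)) (y / c) + (Icc (0:ℝ) 1).indicator (fun _ => (1:ℝ)) (-(y / c)) =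
      (Icc (-c) c).indicator (fun _ => (1:ℝ)) y := by
    rcases lt_or_gt_of_ne h0 with h | h
    · have m1 : y / c ∉ Icc (0:ℝ) 1 := by
        rw [mem_Icc, not_and_or]
        left
        rw [not_le]
        exact div_neg_of_neg_of_pos h hc
      rw [indicator_of_notMem m1, zero_add]
      by_cases hy : y ∈ Icc (-c) c
      · rw [indicator_of_mem hy, indicator_of_mem]
        rw [mem_Icc, ← neg_div, div_le_one hc]
        exact ⟨div_nonneg (by linarith) hc.le, by linarith [hy.1]⟩
      · rw [indicator_of_notMem hy, indicator_of_notMem]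
        intro hm
        rw [mem_Icc, ← neg_div, div_le_one hc] at hm
        exact hy ⟨by linarith [hm.2], by linarith⟩
    · have m1 : -(y / c) ∉ Icc (0:ℝ) 1 := by
        rw [mem_Icc, not_and_or]
        left
        rw [not_le, neg_lt_zero]
        exact div_pos h hc
      rw [indicator_of_notMem m1, add_zero]
      by_cases hy : y ∈ Icc (-c) c
      · rw [indicator_of_mem hy, indicator_of_mem]
        rw [mem_Icc, div_le_one hc]
        exact ⟨by positivity, hy.2⟩
      · rw [indicator_of_notMem hy, indicator_of_notMem]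
        intro hm
        rw [mem_Icc, div_le_one hc] at hm
        exact hy ⟨by linarith, hm.2⟩
  rw [e] at h3
  refine h3.congr' ?_
  filter_upwards [eventually_gt_atTop 0] with Z hZ
  simp only [Function.comp]
  rw [ff_eq hc hZ]

/-- the scaled cut-off has a fixed majorant -/
lemma ff_le {c Z : ℝ} (hc : 0 < c) (hZ : 1 ≤ Z) (y : ℝ) :
    ff c Z y ≤ 2 * √2 * Real.exp (-(max (|y| - c) 0) ^ 2 / (2 * c)) := by
  have hZ0 : 0 < Z := by linarith
  unfold ff
  refine (ph_le (hz_pos hc hZ0) _).trans ?_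
  rw [hz_sq hc hZ0]
  refine mul_le_mul_of_nonneg_left (Real.exp_le_exp.2 ?_) (by positivity)
  have e : max (|Z * y| - c * Z) 0 = Z * max (|y| - c) 0 := by
    rw [abs_mul, abs_of_pos hZ0, mul_max_of_nonneg _ _ hZ0.le, mul_zero]
    congr 1
    ring
  rw [e, neg_div, neg_div, neg_le_neg_iff]
  set a := max (|y| - c) 0 with ha
  have e2 : (Z * a) ^ 2 / (2 * (c * Z)) = Z * (a ^ 2 / (2 * c)) := by
    field_simp
  rw [e2]
  have : 0 ≤ a ^ 2 / (2 * c) := by positivity
  nlinarith

lemma maj (p : ℕ) {c : ℝ} (hc : 0 < c) : ∃ K : ℝ, 0 ≤ K ∧ ∀ y : ℝ,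
    2 * √2 * Real.exp (-(max (|y| - c) 0) ^ 2 / (2 * c)) * (1 + |y|) ^ p ≤ K * ((1 + |y|) ^ 2)⁻¹ := by
  set q := p + 2 with hq
  refine ⟨2 * √2 * ((1 + c) * (1 + √c)) ^ q * (q.factorial * Real.exp (3 / 2)), by positivity,
    fun y => ?_⟩
  set a : ℝ := max (|y| - c) 0 with ha
  have ha0 : 0 ≤ a := le_max_right _ _
  have h1 : |y| ≤ c + a := by
    have := le_max_left (|y| - c) 0
    linarith
  have hsc : 0 < √c := Real.sqrt_pos.2 hc
  have hsc2 : √c ^ 2 = c := Real.sq_sqrt hc.le
  set d : ℝ := a / √c with hd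
  have hd0 : 0 ≤ d := by positivity
  have had : a = √c * d := by rw [hd]; field_simp
  have h2 : 1 + |y| ≤ ((1 + c) * (1 + √c)) * (1 + d) := by
    have e1 : 1 + |y| ≤ (1 + c) * (1 + a) := by nlinarith [mul_nonneg hc.le ha0]
    have e2 : 1 + a ≤ (1 + √c) * (1 + d) := by rw [had]; nlinarith
    calc 1 + |y| ≤ (1 + c) * (1 + a) := e1
      _ ≤ (1 + c) * ((1 + √c) * (1 + d)) := by gcongr
      _ = _ := by ring
  have h3 := poly_exp q hd0
  have h4 : -a ^ 2 / (2 * c) = -d ^ 2 / 2 := by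
    rw [hd, div_pow, hsc2]; field_simp
  rw [h4]
  have habs := abs_nonneg y
  have hpos : 0 < (1 + |y|) ^ 2 := by positivity
  rw [← div_eq_mul_inv, le_div_iff₀ hpos, mul_assoc, ← pow_add, ← hq]
  calc 2 * √2 * Real.exp (-d ^ 2 / 2) * (1 + |y|) ^ q ≤ 2 * √2 * Real.exp (-d ^ 2 / 2) *
        (((1 + c) * (1 + √c)) * (1 + d)) ^ q := by
        gcongr
    _ = 2 * √2 * ((1 + c) * (1 + √c)) ^ q * ((1 + d) ^ q * Real.exp (-d ^ 2 / 2)) := by
        rw [mul_pow]; ring
    _ ≤ _ := by gcongr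

end

end Pool.Agent.TH535.PZ
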