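import Pool.Agent.TH535.PZ.P5

set_option autoImplicit false

/-! The main terms. -/

namespace Pool.Agent.TH535.PZ

open Complex MeasureTheory Filter Topology Set
open Pool.Agent.TH535.SM
open scoped FourierTransform ComplexConjugate

noncomputable section

/-- the rescaled weight -/
def pw (k : ℕ) (Z y : ℝ) : ℝ := (1 / (4 * Z ^ 2) + y ^ 2) ^ (k - 1)

lemma pw_nonneg (k : ℕ) (Z y : ℝ) : 0 ≤ pw k Z y := by unfold pw; positivity

lemma pw_le (k : ℕ) {Z : ℝ} (hZ : 1 ≤ Z) (y : ℝ) : pw k Z y ≤ (1 + |y|) ^ (2 * (k - 1)) := by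
  unfold pw
  rw [pow_mul]
  refine pow_le_pow_left₀ (by positivity) ?_ _
  have h1 : 1 / (4 * Z ^ 2) ≤ 1 := by
    rw [div_le_one (by positivity)]
    nlinarith
  have h2 := abs_nonneg y
  have h3 : y ^ 2 = |y| ^ 2 := (sq_abs y).symm
  rw [h3]
  nlinarith

lemma pw_lim (k : ℕ) (y : ℝ) : Tendsto (fun Z => pw k Z y) atTop (𝓝 ((y ^ 2) ^ (k - 1))) := by
  unfold pw
  have h1 : Tendsto (fun Z : ℝ => 1 / (4 * Z ^ 2) + y ^ 2) atTop (𝓝 (0 + y ^ 2)) := by
    refine Tendsto.add_const _ ?_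
    exact tendsto_const_nhds.div_atTop ((tendsto_pow_atTop two_ne_zero).const_mul_atTop (by norm_num))
  rw [zero_add] at h1
  exact h1.pow _

lemma wt_scale {k : ℕ} (hk : 1 ≤ k) {Z : ℝ} (hZ : 0 < Z) (y : ℝ) :
    Z * wt k (Z * y) = Z ^ (2 * k - 1) * (pw k Z y / (4 * Real.pi ^ 2) ^ k) := by
  unfold wt pw
  have e1 : 1 / 4 + (Z * y) ^ 2 = Z ^ 2 * (1 / (4 * Z ^ 2) + y ^ 2) := by
    field_simp
  have e2 : Z ^ (2 * k - 1) = Z * (Z ^ 2) ^ (k - 1) := by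
    rw [← pow_mul, ← pow_succ']
    congr 1
    omega
  rw [e1, mul_pow, e2]
  ring

/-- the limit of the phase -/
lemma ee_norm (k : ℕ) (t : ℝ) : ‖ee k t‖ ≤ 1 := by
  unfold ee
  have h1 : ‖(((1 / 2 : ℝ) : ℂ) - t * I) / (((1 / 2 : ℝ) : ℂ) + t * I)‖ ≤ 1 := by
    rw [norm_div]
    refine div_le_one_of_le₀ (le_of_eq ?_) (norm_nonneg _)
    have : (((1 / 2 : ℝ) : ℂ) - t * I) = conj (((1 / 2 : ℝ) : ℂ) + t * I) := by
      rw [map_add, map_mul, Complex.conj_ofReal, Complex.conj_ofReal, conj_I]; ring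
    rw [this, Complex.norm_conj]
  have h2 : ‖((((-(3 / 2) : ℝ)) : ℂ) + t * I) / (((3 / 2 : ℝ) : ℂ) + t * I)‖ ≤ 1 := by
    rw [norm_div]
    refine div_le_one_of_le₀ (le_of_eq ?_) (norm_nonneg _)
    have : ((((-(3 / 2) : ℝ)) : ℂ) + t * I) = -conj (((3 / 2 : ℝ) : ℂ) + t * I) := by
      rw [map_add, map_mul, Complex.conj_ofReal, Complex.conj_ofReal, conj_I]; push_cast; ring
    rw [this, norm_neg, Complex.norm_conj]
  rw [norm_mul, norm_neg, norm_pow]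
  exact mul_le_one₀ h1 (by positivity) (pow_le_one₀ (norm_nonneg _) h2)

lemma frac_lim (a b : ℝ) (ρ σ : ℂ) (hσ : σ ≠ 0) {y : ℝ} (hy : y ≠ 0) :
    Tendsto (fun Z : ℝ => ((a : ℂ) + ρ * ((Z * y : ℝ) * I)) / ((b : ℂ) + σ * ((Z * y : ℝ) * I))) atTop
      (𝓝 (ρ / σ)) := by
  have hinv : Tendsto (fun Z : ℝ => ((((Z * y)⁻¹ : ℝ)) : ℂ)) atTop (𝓝 0) := by
    have h1 : Tendsto (fun Z : ℝ => (Z * y)⁻¹) atTop (𝓝 0) := by
      have : (fun Z : ℝ => (Z * y)⁻¹) = fun Z : ℝ => Z⁻¹ * y⁻¹ := by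
        funext Z; rw [mul_inv]
      rw [this]
      simpa using tendsto_inv_atTop_zero.mul_const y⁻¹
    have := (Complex.continuous_ofReal.tendsto 0).comp h1
    rw [Complex.ofReal_zero] at this
    exact this
  have h2 : Tendsto (fun Z : ℝ => ((a : ℂ) * ((((Z * y)⁻¹ : ℝ)) : ℂ) + ρ * I) /
      ((b : ℂ) * ((((Z * y)⁻¹ : ℝ)) : ℂ) + σ * I)) atTop (𝓝 (((a : ℂ) * 0 + ρ * I) / ((b : ℂ) * 0 + σ * I))) := by
    refine ((hinv.const_mul _).add_const _).div ((hinv.const_mul _).add_const _) ?_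
    rw [mul_zero, zero_add]
    exact mul_ne_zero hσ I_ne_zero
  have e0 : (((a : ℂ) * 0 + ρ * I) / ((b : ℂ) * 0 + σ * I)) = ρ / σ := by
    rw [mul_zero, mul_zero, zero_add, zero_add]
    exact mul_div_mul_right _ _ I_ne_zero
  rw [e0] at h2
  refine h2.congr' ?_
  filter_upwards [eventually_gt_atTop 0] with Z hZ
  have hne : ((Z * y : ℝ) : ℂ) ≠ 0 := by exact_mod_cast mul_ne_zero hZ.ne' hy
  have e1 : (a : ℂ) * ((((Z * y)⁻¹ : ℝ)) : ℂ) + ρ * I = ((a : ℂ) + ρ * ((Z * y : ℝ) * I)) / ((Z * y : ℝ) : ℂ) := by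
    rw [Complex.ofReal_inv]
    field_simp
  have e2 : (b : ℂ) * ((((Z * y)⁻¹ : ℝ)) : ℂ) + σ * I = ((b : ℂ) + σ * ((Z * y : ℝ) * I)) / ((Z * y : ℝ) : ℂ) := by
    rw [Complex.ofReal_inv]
    field_simp
  rw [e1, e2, div_div_div_cancel_right₀ hne]

lemma ee_lim (k : ℕ) {y : ℝ} (hy : y ≠ 0) : Tendsto (fun Z : ℝ => ee k (Z * y)) atTop (𝓝 1) := by
  have h1 := frac_lim (1 / 2) (1 / 2) (-1) 1 one_ne_zero hy
  have h2 := frac_lim (-(3 / 2)) (3 / 2) 1 1 one_ne_zero hy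
  have h3 := h1.neg.mul (h2.pow k)
  have e : -((-1 : ℂ) / 1) * (1 / 1) ^ k = 1 := by simp
  rw [e] at h3
  refine h3.congr fun Z => ?_
  unfold ee
  congr 2
  · congr 2
    · ring
    · ring
  · congr 1
    · ring
    · ring

lemma ee_cont (k : ℕ) : Continuous (ee k) := by
  unfold ee
  have h1 : ∀ t : ℝ, (((1 / 2 : ℝ) : ℂ) + t * I) ≠ 0 := by
    intro t h0
    have := congrArg Complex.re h0
    simp at this
  have h2 : ∀ t : ℝ, (((3 / 2 : ℝ) : ℂ) + t * I) ≠ 0 := by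
    intro t h0
    have := congrArg Complex.re h0
    simp at this
  exact (((by fun_prop : Continuous fun t : ℝ => (((1 / 2 : ℝ) : ℂ) - t * I)).div (by fun_prop) h1).neg).mul
    (((by fun_prop : Continuous fun t : ℝ => ((((-(3 / 2) : ℝ)) : ℂ) + t * I)).div (by fun_prop) h2).pow k)

lemma npow {n : ℕ} (hn : 1 ≤ n) (t : ℝ) : (n : ℂ) ^ (-(((3 / 2 : ℝ) : ℂ) + t * I)) =
    (((n : ℝ) ^ (-(3 / 2) : ℝ) : ℝ) : ℂ) * cexp ((-(t * Real.log n) : ℝ) * I) := by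
  have hn0 : (0:ℝ) < n := by exact_mod_cast hn
  have hne : (n : ℂ) ≠ 0 := by exact_mod_cast hn0.ne'
  rw [Complex.cpow_def_of_ne_zero hne, Real.rpow_def_of_pos hn0, Complex.ofReal_exp, ← Complex.exp_add]
  congr 1
  have : Complex.log (n : ℂ) = ((Real.log n : ℝ) : ℂ) := by
    rw [Complex.natCast_log]
  rw [this]
  push_cast
  ring

/-- the coefficients -/
def bm (k m : ℕ) : ℝ := dr k m * (m : ℝ) ^ (-(3 / 2) : ℝ)

lemma bm_zero (k : ℕ) : bm k 0 = 0 := by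
  unfold bm
  rw [Nat.cast_zero, Real.zero_rpow (by norm_num), mul_zero]

lemma bm_nonneg (k m : ℕ) : 0 ≤ bm k m := mul_nonneg (dr_nonneg _ _) (by positivity)

lemma term_bm (k m : ℕ) (t : ℝ) : LSeries.term (fun n => ((dr k n : ℝ) : ℂ)) (((3 / 2 : ℝ) : ℂ) - t * I) m =
    (bm k m : ℂ) * cexp ((t * Real.log m : ℝ) * I) := by
  rcases Nat.eq_zero_or_pos m with rfl | hm
  · rw [LSeries.term_zero, bm_zero]
    simp
  · rw [LSeries.term_of_ne_zero (by omega), div_eq_mul_inv, ← Complex.cpow_neg]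
    have h := npow (n := m) hm (-t)
    have e : -(((3 / 2 : ℝ) : ℂ) + ((-t : ℝ) : ℂ) * I) = -(((3 / 2 : ℝ) : ℂ) - t * I) := by
      push_cast; ring
    rw [e] at h
    rw [h]
    unfold bm
    have e2 : (-(-t * Real.log m) : ℝ) = t * Real.log m := by ring
    rw [e2]
    push_cast
    ring

lemma bm_hasSum (k : ℕ) (t : ℝ) : HasSum (fun m => (bm k m : ℂ) * cexp ((t * Real.log m : ℝ) * I))
    (riemannZeta (((3 / 2 : ℝ) : ℂ) - t * I) ^ k) := by
  have h := dser k (s := ((3 / 2 : ℝ) : ℂ) - t * I) (by simp; norm_num)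
  have e : (LSeries.term (fun n => ((dr k n : ℝ) : ℂ)) (((3 / 2 : ℝ) : ℂ) - t * I)) =
      fun m => (bm k m : ℂ) * cexp ((t * Real.log m : ℝ) * I) := funext fun m => term_bm k m t
  rwa [e] at h

lemma bm_summable (k : ℕ) : Summable (bm k) := by
  have h := (bm_hasSum k 0).summable.norm
  refine h.congr fun m => ?_
  rw [norm_mul, Complex.norm_real, Real.norm_of_nonneg (bm_nonneg k m), Complex.norm_exp_ofReal_mul_I,
    mul_one]

lemma ff_cont (c Z : ℝ) : Continuous (ff c Z) := by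
  have h1 : Continuous (fun t : ℝ => ((ph (hz c Z) t : ℝ) : ℂ)) := by
    have h2 : (fun t : ℝ => ((ph (hz c Z) t : ℝ) : ℂ)) = fun t : ℝ => Ph (hz c Z) (((3 / 2 : ℝ) : ℂ) + t * I) :=
      funext fun t => (Ph_line _ t).symm
    rw [h2]
    exact (Ph_diff _).continuous.comp (by fun_prop)
  have h3 : Continuous (fun t : ℝ => ph (hz c Z) t) := by
    have := Complex.continuous_re.comp h1
    exact this
  exact h3.comp (by fun_prop)

lemma pw_cont (k : ℕ) (Z : ℝ) : Continuous (pw k Z) := by unfold pw; fun_prop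

/-- the limit function -/
def phi0 (k : ℕ) (c y : ℝ) : ℂ := (((y ^ 2) ^ (k - 1) * (Icc (-c) c).indicator (fun _ => (1:ℝ)) y : ℝ) : ℂ)

lemma phi0_int {k : ℕ} (hk : 1 ≤ k) {c : ℝ} (hc : 0 < c) :
    ∫ y, phi0 k c y = ((2 * c ^ (2 * k - 1) / (2 * k - 1) : ℝ) : ℂ) := by
  unfold phi0
  rw [integral_complex_ofReal]
  congr 1
  have e : ∀ y : ℝ, (y ^ 2) ^ (k - 1) * (Icc (-c) c).indicator (fun _ => (1:ℝ)) y =
      (Icc (-c) c).indicator (fun y => y ^ (2 * (k - 1))) y := by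
    intro y
    by_cases hy : y ∈ Icc (-c) c
    · rw [indicator_of_mem hy, indicator_of_mem hy, mul_one, pow_mul]
    · rw [indicator_of_notMem hy, indicator_of_notMem hy, mul_zero]
  simp_rw [e]
  rw [integral_indicator measurableSet_Icc, integral_Icc_eq_integral_Ioc,
    ← intervalIntegral.integral_of_le (by linarith), integral_pow]
  have h1 : 2 * (k - 1) + 1 = 2 * k - 1 := by omega
  rw [h1]
  have hodd : Odd (2 * k - 1) := ⟨k - 1, by omega⟩
  rw [hodd.neg_pow]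
  have h2 : ((2 * (k - 1) : ℕ) : ℝ) + 1 = 2 * k - 1 := by
    rw [Nat.cast_mul, Nat.cast_sub hk]
    push_cast
    ring
  rw [h2]
  ring

lemma ae_ne3 (a b c : ℝ) : ∀ᵐ y : ℝ, y ≠ a ∧ y ≠ b ∧ y ≠ c := by
  have h : ∀ a : ℝ, ∀ᵐ y : ℝ, y ≠ a := fun a => by
    rw [ae_iff]
    simp
  filter_upwards [h a, h b, h c] with y h1 h2 h3
  exact ⟨h1, h2, h3⟩

/-- the pairing integral -/
def PP (k n : ℕ) (c Z : ℝ) : ℂ := ∫ t : ℝ, ((wt k t * ph (hz c Z) t : ℝ) : ℂ) * ee k t *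
  (n : ℂ) ^ (-(((3 / 2 : ℝ) : ℂ) + t * I)) * riemannZeta (((3 / 2 : ℝ) : ℂ) - t * I) ^ k

/-- the rescaled integrand -/
def ps (k : ℕ) (c Z y : ℝ) : ℂ := ((pw k Z y * ff c Z y : ℝ) : ℂ) * ee k (Z * y)

lemma ps_bd (k : ℕ) {c : ℝ} (hc : 0 < c) : ∃ K : ℝ, 0 ≤ K ∧ ∀ Z : ℝ, 1 ≤ Z → ∀ y : ℝ,
    ‖ps k c Z y‖ ≤ K * ((1 + |y|) ^ 2)⁻¹ := by
  obtain ⟨K, hK, h⟩ := maj (2 * (k - 1)) hc
  refine ⟨K, hK, fun Z hZ y => ?_⟩
  have hZ0 : 0 < Z := by linarith
  unfold ps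
  rw [norm_mul, Complex.norm_real, Real.norm_of_nonneg (mul_nonneg (pw_nonneg _ _ _) (ff_nonneg hc hZ0 y))]
  have h1 := ee_norm k (Z * y)
  have h2 := ff_le hc hZ y
  have h3 := pw_le k hZ y
  have h4 := ff_nonneg hc hZ0 y
  have h5 := pw_nonneg k Z y
  calc pw k Z y * ff c Z y * ‖ee k (Z * y)‖ ≤ pw k Z y * ff c Z y * 1 := by gcongr
    _ ≤ (1 + |y|) ^ (2 * (k - 1)) * (2 * √2 * Real.exp (-(max (|y| - c) 0) ^ 2 / (2 * c))) * 1 := by gcongr
    _ = _ := by ring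
    _ ≤ _ := h y

lemma ps_cont (k : ℕ) (c Z : ℝ) : Continuous (ps k c Z) := by
  unfold ps
  exact (Complex.continuous_ofReal.comp ((pw_cont k Z).mul (ff_cont c Z))).mul
    ((ee_cont k).comp (by fun_prop))

lemma ps_lim (k : ℕ) {c : ℝ} (hc : 0 < c) : ∀ᵐ y, Tendsto (fun Z => ps k c Z y) atTop (𝓝 (phi0 k c y)) := by
  filter_upwards [ae_ne3 0 c (-c)] with y hy
  have h1 := (pw_lim k y).mul (ff_lim hc hy.1 hy.2.1 hy.2.2)
  have h2 := ((Complex.continuous_ofReal.tendsto _).comp h1).mul (ee_lim k hy.1)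
  rw [mul_one] at h2
  exact h2

lemma PP_scale {k n : ℕ} (hk : 1 ≤ k) (hn : 1 ≤ n) {c Z : ℝ} (hZ : 0 < Z) :
    PP k n c Z = ((Z ^ (2 * k - 1) / (4 * Real.pi ^ 2) ^ k * (n : ℝ) ^ (-(3 / 2) : ℝ) : ℝ) : ℂ) *
      ∫ y : ℝ, ps k c Z y * cexp ((-(Z * y * Real.log n) : ℝ) * I) *
        riemannZeta (((3 / 2 : ℝ) : ℂ) - (Z * y : ℝ) * I) ^ k := by
  unfold PP
  have h := Measure.integral_comp_mul_left (fun t : ℝ => ((wt k t * ph (hz c Z) t : ℝ) : ℂ) * ee k t *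
    (n : ℂ) ^ (-(((3 / 2 : ℝ) : ℂ) + t * I)) * riemannZeta (((3 / 2 : ℝ) : ℂ) - t * I) ^ k) Z
  rw [abs_of_pos (inv_pos.2 hZ), Complex.real_smul] at h
  have h2 : ∫ t : ℝ, ((wt k t * ph (hz c Z) t : ℝ) : ℂ) * ee k t *
    (n : ℂ) ^ (-(((3 / 2 : ℝ) : ℂ) + t * I)) * riemannZeta (((3 / 2 : ℝ) : ℂ) - t * I) ^ k =
    (Z : ℂ) * ∫ y : ℝ, ((wt k (Z * y) * ph (hz c Z) (Z * y) : ℝ) : ℂ) * ee k (Z * y) *
    (n : ℂ) ^ (-(((3 / 2 : ℝ) : ℂ) + (Z * y : ℝ) * I)) * riemannZeta (((3 / 2 : ℝ) : ℂ) - (Z * y : ℝ) * I) ^ k := by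
    rw [h, ← mul_assoc]
    have : (Z : ℂ) * ((Z⁻¹ : ℝ) : ℂ) = 1 := by
      rw [← Complex.ofReal_mul, mul_inv_cancel₀ hZ.ne', Complex.ofReal_one]
    rw [this, one_mul]
  rw [h2, ← integral_const_mul, ← integral_const_mul]
  refine integral_congr_ae (Eventually.of_forall fun y => ?_)
  simp only
  rw [npow hn]
  have h3 := wt_scale hk hZ y
  have h4 : (Z : ℂ) * ((wt k (Z * y) : ℝ) : ℂ) =
      (((Z ^ (2 * k - 1) * (pw k Z y / (4 * Real.pi ^ 2) ^ k)) : ℝ) : ℂ) := by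
    rw [← h3]; push_cast; ring
  unfold ps ff
  rw [Complex.ofReal_mul (wt k (Z * y))]
  calc _ = ((Z : ℂ) * ((wt k (Z * y) : ℝ) : ℂ)) * ((ph (hz c Z) (Z * y) : ℝ) : ℂ) * ee k (Z * y) *
        ((((n : ℝ) ^ (-(3 / 2) : ℝ) : ℝ) : ℂ) * cexp ((-(Z * y * Real.log n) : ℝ) * I)) *
        riemannZeta (((3 / 2 : ℝ) : ℂ) - (Z * y : ℝ) * I) ^ k := by ring
    _ = _ := by
        rw [h4]
        push_cast
        ring

/-- the main term of the pairing -/
lemma PP_lim {k n : ℕ} (hk : 1 ≤ k) (hn : 1 ≤ n) {c : ℝ} (hc : 0 < c) :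
    Tendsto (fun Z : ℝ => (((Z ^ (2 * k - 1))⁻¹ : ℝ) : ℂ) * PP k n c Z) atTop
      (𝓝 ((((4 * Real.pi ^ 2) ^ k)⁻¹ * (n : ℝ) ^ (-(3 / 2) : ℝ) * (bm k n *
        (2 * c ^ (2 * k - 1) / (2 * k - 1))) : ℝ) : ℂ)) := by
  obtain ⟨K, hK, hb⟩ := ps_bd k hc
  have hgI : Integrable (fun y : ℝ => K * ((1 + |y|) ^ 2)⁻¹) := inv_sq_int.const_mul K
  set J : ℝ := ∫ y : ℝ, K * ((1 + |y|) ^ 2)⁻¹ with hJ
  have hpsI : ∀ Z : ℝ, 1 ≤ Z → Integrable (ps k c Z) := fun Z hZ =>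
    hgI.mono' (ps_cont k c Z).aestronglyMeasurable (Eventually.of_forall (hb Z hZ))
  -- each term
  have hterm : ∀ m : ℕ, Tendsto (fun Z : ℝ => (bm k m : ℂ) *
      ∫ y, ps k c Z y * cexp (((Real.log m - Real.log n) * Z * y : ℝ) * I)) atTop
      (𝓝 (if m = n then ((bm k n * (2 * c ^ (2 * k - 1) / (2 * k - 1)) : ℝ) : ℂ) else 0)) := by
    intro m
    have h := (rl (φ := ps k c) (φ0 := phi0 k c) hgI
      (Eventually.of_forall fun Z => (ps_cont k c Z).aestronglyMeasurable)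
      (by filter_upwards [eventually_ge_atTop 1] with Z hZ using hb Z hZ) (ps_lim k hc)
      (Real.log m - Real.log n)).const_mul (bm k m : ℂ)
    have e : (bm k m : ℂ) * (if Real.log m - Real.log n = 0 then ∫ y, phi0 k c y else 0) =
        if m = n then ((bm k n * (2 * c ^ (2 * k - 1) / (2 * k - 1)) : ℝ) : ℂ) else 0 := by
      by_cases hmn : m = n
      · subst hmn
        rw [if_pos (sub_self _), if_pos rfl, phi0_int hk hc]
        push_cast
        ring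
      · rw [if_neg hmn]
        rcases Nat.eq_zero_or_pos m with h0 | h0
        · rw [h0, bm_zero]; simp
        · have : Real.log m - Real.log n ≠ 0 := by
            rw [sub_ne_zero]
            intro h1
            have h2 := Real.log_injOn_pos (Set.mem_Ioi.2 (by exact_mod_cast h0 : (0:ℝ) < m))
              (Set.mem_Ioi.2 (by exact_mod_cast hn : (0:ℝ) < n)) h1
            exact hmn (by exact_mod_cast h2)
          rw [if_neg this, mul_zero]
    rw [e] at h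
    exact h
  have hsum := tendsto_tsum_of_dominated_convergence
    (bound := fun m => bm k m * J)
    (f := fun Z m => (bm k m : ℂ) * ∫ y, ps k c Z y * cexp (((Real.log m - Real.log n) * Z * y : ℝ) * I))
    ((bm_summable k).mul_right J) hterm (by
      filter_upwards [eventually_ge_atTop 1] with Z hZ m
      rw [norm_mul, Complex.norm_real, Real.norm_of_nonneg (bm_nonneg k m)]
      refine mul_le_mul_of_nonneg_left ?_ (bm_nonneg k m)
      refine norm_integral_le_of_norm_le hgI (Eventually.of_forall fun y => ?_)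
      rw [norm_mul, Complex.norm_exp_ofReal_mul_I, mul_one]
      exact hb Z hZ y)
  rw [tsum_ite_eq] at hsum
  have h2 := hsum.const_mul ((((4 * Real.pi ^ 2) ^ k)⁻¹ * (n : ℝ) ^ (-(3 / 2) : ℝ) : ℝ) : ℂ)
  rw [← Complex.ofReal_mul] at h2
  refine h2.congr' ?_
  filter_upwards [eventually_ge_atTop 1] with Z hZ
  have hZ0 : 0 < Z := by linarith
  rw [PP_scale hk hn hZ0]
  have hexp : ∀ m : ℕ, ∀ y : ℝ, ‖cexp (((Real.log m - Real.log n) * Z * y : ℝ) * I)‖ = 1 := fun m y =>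
    Complex.norm_exp_ofReal_mul_I _
  have h3 := hasSum_integral_of_summable_integral_norm (μ := volume)
    (F := fun (m : ℕ) (y : ℝ) => (bm k m : ℂ) *
      (ps k c Z y * cexp (((Real.log m - Real.log n) * Z * y : ℝ) * I)))
    (fun m => by
      refine Integrable.const_mul ?_ _
      have := (hpsI Z hZ).bdd_mul (c := 1) (f := fun y : ℝ => cexp (((Real.log m - Real.log n) * Z * y : ℝ) * I))
        (by fun_prop : Continuous (fun y : ℝ => cexp (((Real.log m - Real.log n) * Z * y : ℝ) * I))).aestronglyMeasurable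
        (Eventually.of_forall fun y => (hexp m y).le)
      refine this.congr (Eventually.of_forall fun y => ?_)
      simp only
      ring)
    (by
      have : ∀ m : ℕ, ∫ y, ‖(bm k m : ℂ) *
          (ps k c Z y * cexp (((Real.log m - Real.log n) * Z * y : ℝ) * I))‖ = bm k m * ∫ y, ‖ps k c Z y‖ := by
        intro m
        rw [← integral_const_mul]
        refine integral_congr_ae (Eventually.of_forall fun y => ?_)
        simp only
        rw [norm_mul, norm_mul, hexp, mul_one, Complex.norm_real, Real.norm_of_nonneg (bm_nonneg k m)]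
      simp_rw [this]
      exact (bm_summable k).mul_right _)
  have h4 : ∀ y : ℝ, ∑' m : ℕ, (bm k m : ℂ) *
      (ps k c Z y * cexp (((Real.log m - Real.log n) * Z * y : ℝ) * I)) =
      ps k c Z y * cexp ((-(Z * y * Real.log n) : ℝ) * I) *
        riemannZeta (((3 / 2 : ℝ) : ℂ) - (Z * y : ℝ) * I) ^ k := by
    intro y
    rw [← (bm_hasSum k (Z * y)).tsum_eq, ← tsum_mul_left]
    refine tsum_congr fun m => ?_
    have : cexp (((Real.log m - Real.log n) * Z * y : ℝ) * I) = cexp ((-(Z * y * Real.log n) : ℝ) * I) *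
        cexp ((Z * y * Real.log m : ℝ) * I) := by
      rw [← Complex.exp_add]
      congr 1
      push_cast
      ring
    rw [this]
    ring
  simp_rw [h4] at h3
  rw [← h3.tsum_eq]
  have h5 : ∀ m : ℕ, ∫ y, (bm k m : ℂ) *
      (ps k c Z y * cexp (((Real.log m - Real.log n) * Z * y : ℝ) * I)) = (bm k m : ℂ) *
      ∫ y, ps k c Z y * cexp (((Real.log m - Real.log n) * Z * y : ℝ) * I) := fun m =>
    integral_const_mul _ _
  simp_rw [h5]
  rw [← mul_assoc, ← Complex.ofReal_mul]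
  congr 2
  have hZp : (Z ^ (2 * k - 1)) ≠ 0 := by positivity
  field_simp

end

end Pool.Agent.TH535.PZ
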