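import Pool.Agent.TH535.PZ.P6

set_option autoImplicit false

/-! The norm of the test function. -/

namespace Pool.Agent.TH535.PZ

open Complex MeasureTheory Filter Topology Set
open Pool.Agent.W182.KO (XX XX_diff XX_bound zeta_XX strip_shift)
open Pool.Agent.TH535.SM
open scoped FourierTransform ComplexConjugate

noncomputable section

/-- the common factor -/
def CC (k : ℕ) (t : ℝ) : ℂ := XX (((3 / 2 : ℝ) : ℂ) + t * I) ^ k *
  ((2 - (((3 / 2 : ℝ) : ℂ) + t * I)) * ((1 - (((3 / 2 : ℝ) : ℂ) + t * I))⁻¹ * (1 - (((3 / 2 : ℝ) : ℂ) + t * I))⁻¹)) *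
  (((((3 / 2 : ℝ) : ℂ) + t * I) - 3) ^ k * ((((3 / 2 : ℝ) : ℂ) + t * I)⁻¹) ^ k)

lemma Bk_line (k n : ℕ) (h t : ℝ) : Ln (Bk k n k) h 0 t =
    CC k t * ((ph h t : ℂ) * (n : ℂ) ^ (-(((3 / 2 : ℝ) : ℂ) + t * I))) := by
  unfold Ln Bk CC
  have e0 : (((3 / 2 + 0 : ℝ) : ℂ) + t * I) = ((3 / 2 : ℝ) : ℂ) + t * I := by push_cast; ring
  rw [e0, Ph_line]
  ring

lemma nsq (a t : ℝ) : ‖(a : ℂ) + t * I‖ ^ 2 = a ^ 2 + t ^ 2 := by
  rw [← Complex.normSq_eq_norm_sq, Complex.normSq_apply]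
  simp
  ring

lemma CC_sq {k : ℕ} (hk : 1 ≤ k) (t : ℝ) : ‖CC k t‖ ^ 2 = wt k t := by
  unfold CC wt
  set z : ℂ := ((3 / 2 : ℝ) : ℂ) + t * I with hz
  have h1 : ‖XX z‖ ^ 2 = (1 / 4 + t ^ 2) / (4 * Real.pi ^ 2) := by rw [hz, XX_sq]
  have h2 : ‖2 - z‖ ^ 2 = 1 / 4 + t ^ 2 := by
    have e : 2 - z = ((1 / 2 : ℝ) : ℂ) + ((-t : ℝ) : ℂ) * I := by rw [hz]; push_cast; ring
    rw [e, nsq]; ring
  have h3 : ‖1 - z‖ ^ 2 = 1 / 4 + t ^ 2 := by
    have e : 1 - z = ((-(1 / 2) : ℝ) : ℂ) + ((-t : ℝ) : ℂ) * I := by rw [hz]; push_cast; ring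
    rw [e, nsq]; ring
  have h4 : ‖z - 3‖ ^ 2 = 9 / 4 + t ^ 2 := by
    have e : z - 3 = ((-(3 / 2) : ℝ) : ℂ) + ((t : ℝ) : ℂ) * I := by rw [hz]; push_cast; ring
    rw [e, nsq]; ring
  have h5 : ‖z‖ ^ 2 = 9 / 4 + t ^ 2 := by rw [hz, nsq]; ring
  have hA : (0:ℝ) < 1 / 4 + t ^ 2 := by positivity
  have hB : (0:ℝ) < 9 / 4 + t ^ 2 := by positivity
  simp only [norm_mul, norm_pow, norm_inv, mul_pow, inv_pow]
  have e1 : (‖XX z‖ ^ k) ^ 2 = ((1 / 4 + t ^ 2) / (4 * Real.pi ^ 2)) ^ k := by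
    rw [← pow_mul, mul_comm, pow_mul, h1]
  have e2 : (‖z - 3‖ ^ k) ^ 2 = (9 / 4 + t ^ 2) ^ k := by rw [← pow_mul, mul_comm, pow_mul, h4]
  have e3 : (‖z‖ ^ k) ^ 2 = (9 / 4 + t ^ 2) ^ k := by rw [← pow_mul, mul_comm, pow_mul, h5]
  rw [e1, e2, e3, h2, h3, div_pow]
  have e4 : (1 / 4 + t ^ 2) ^ k = (1 / 4 + t ^ 2) * (1 / 4 + t ^ 2) ^ (k - 1) := by
    rw [← pow_succ']; congr 1; omega
  rw [e4]
  have hB' : (9 / 4 + t ^ 2) ^ k ≠ 0 := by positivity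
  rw [mul_inv_cancel₀ hB', mul_one, mul_pow]
  field_simp

/-- the scale of the `n`-th frequency -/
def cn (k n : ℕ) : ℝ := 2 * Real.pi * (n : ℝ) ^ (1 / (k : ℝ))

lemma cn_pos (k : ℕ) {n : ℕ} (hn : 1 ≤ n) : 0 < cn k n := by
  have : (0:ℝ) < n := by exact_mod_cast hn
  unfold cn
  positivity

/-- the function on the line -/
def FF (k N : ℕ) (Z t : ℝ) : ℂ := ∑ n ∈ Finset.Icc 1 N, (dr k n : ℂ) * Ln (Bk k n k) (hz (cn k n) Z) 0 t

lemma FF_dec (k N : ℕ) {Z : ℝ} (hZ : 0 < Z) : Dec (FF k N Z) := by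
  unfold FF
  have hz0 : Dec (fun _ : ℝ => (0:ℂ)) := ⟨continuous_const, 0, le_rfl, fun t => by simp⟩
  have : ∀ s : Finset ℕ, (∀ n ∈ s, 1 ≤ n) → Dec (fun t => ∑ n ∈ s, (dr k n : ℂ) *
      Ln (Bk k n k) (hz (cn k n) Z) 0 t) := by
    classical
    intro s
    induction s using Finset.induction_on with
    | empty => intro _; simpa using hz0
    | insert a s ha ih =>
      intro hs
      have h1 : 1 ≤ a := hs a (Finset.mem_insert_self _ _)
      have h2 := (Ln_dec (Bk_PA k h1 k) (hz_pos (cn_pos k h1) hZ) (r := 0) le_rfl).smul (dr k a : ℂ)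
      have h3 := ih (fun n hn => hs n (Finset.mem_insert_of_mem hn))
      have h4 := h2.add h3
      simp_rw [Finset.sum_insert ha]
      exact h4
  exact this _ fun n hn => (Finset.mem_Icc.1 hn).1

/-- the mean square -/
def NN (k N : ℕ) (Z : ℝ) : ℝ := ∫ t, ‖FF k N Z t‖ ^ 2

lemma FF_sq {k N : ℕ} (hk : 1 ≤ k) (Z t : ℝ) : ((‖FF k N Z t‖ ^ 2 : ℝ) : ℂ) =
    ∑ n ∈ Finset.Icc 1 N, ∑ m ∈ Finset.Icc 1 N, ((bm k n * bm k m : ℝ) : ℂ) *
      (((wt k t * (ph (hz (cn k n) Z) t * ph (hz (cn k m) Z) t) : ℝ) : ℂ) *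
        cexp (((Real.log m - Real.log n) * t : ℝ) * I)) := by
  have e1 : FF k N Z t = CC k t * ∑ n ∈ Finset.Icc 1 N, (bm k n : ℂ) * ((ph (hz (cn k n) Z) t : ℂ) *
      cexp ((-(t * Real.log n) : ℝ) * I)) := by
    unfold FF
    rw [Finset.mul_sum]
    refine Finset.sum_congr rfl fun n hn => ?_
    rw [Bk_line, npow (Finset.mem_Icc.1 hn).1]
    unfold bm
    push_cast
    ring
  set u := ∑ n ∈ Finset.Icc 1 N, (bm k n : ℂ) * ((ph (hz (cn k n) Z) t : ℂ) *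
      cexp ((-(t * Real.log n) : ℝ) * I)) with hu
  rw [e1, norm_mul, mul_pow, CC_sq hk]
  have e2 : ((‖u‖ ^ 2 : ℝ) : ℂ) = u * conj u := by
    rw [Complex.mul_conj, Complex.normSq_eq_norm_sq]
  rw [Complex.ofReal_mul, e2, hu, map_sum, Finset.sum_mul_sum, Finset.mul_sum]
  refine Finset.sum_congr rfl fun n _ => ?_
  rw [Finset.mul_sum]
  refine Finset.sum_congr rfl fun m _ => ?_
  rw [map_mul, map_mul, Complex.conj_ofReal, Complex.conj_ofReal, ← Complex.exp_conj, map_mul,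
    Complex.conj_ofReal, conj_I]
  have e3 : cexp (((Real.log m - Real.log n) * t : ℝ) * I) = cexp ((-(t * Real.log n) : ℝ) * I) *
      cexp ((-(t * Real.log m) : ℝ) * -I) := by
    rw [← Complex.exp_add]
    congr 1
    push_cast
    ring
  rw [e3]
  push_cast
  ring

/-- the rescaled integrand -/
def qs (k : ℕ) (c d Z y : ℝ) : ℂ := ((pw k Z y * (ff c Z y * ff d Z y) : ℝ) : ℂ)

lemma ff_le' {d Z : ℝ} (hd : 0 < d) (hZ : 0 < Z) (y : ℝ) : ff d Z y ≤ 2 := by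
  rw [ff_eq hd hZ]
  have h1 := v_le_one (hz_pos hd hZ).le (hz d Z * (y / d))
  have h2 := v_le_one (hz_pos hd hZ).le (hz d Z * (-(y / d)))
  linarith

lemma qs_bd (k : ℕ) {c d : ℝ} (hc : 0 < c) (hd : 0 < d) : ∃ K : ℝ, 0 ≤ K ∧ ∀ Z : ℝ, 1 ≤ Z → ∀ y : ℝ,
    ‖qs k c d Z y‖ ≤ K * ((1 + |y|) ^ 2)⁻¹ := by
  obtain ⟨K, hK, h⟩ := maj (2 * (k - 1)) hc
  refine ⟨2 * K, by positivity, fun Z hZ y => ?_⟩
  have hZ0 : 0 < Z := by linarith
  unfold qs
  have h4 := ff_nonneg hc hZ0 y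
  have h4' := ff_nonneg hd hZ0 y
  have h5 := pw_nonneg k Z y
  rw [Complex.norm_real, Real.norm_of_nonneg (by positivity)]
  have h2 := ff_le hc hZ y
  have h3 := pw_le k hZ y
  have h6 := ff_le' hd hZ0 y
  calc pw k Z y * (ff c Z y * ff d Z y) ≤
        (1 + |y|) ^ (2 * (k - 1)) * ((2 * √2 * Real.exp (-(max (|y| - c) 0) ^ 2 / (2 * c))) * 2) := by gcongr
    _ = 2 * (2 * √2 * Real.exp (-(max (|y| - c) 0) ^ 2 / (2 * c)) * (1 + |y|) ^ (2 * (k - 1))) := by ring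
    _ ≤ 2 * (K * ((1 + |y|) ^ 2)⁻¹) := mul_le_mul_of_nonneg_left (h y) (by norm_num)
    _ = _ := by ring

lemma qs_cont (k : ℕ) (c d Z : ℝ) : Continuous (qs k c d Z) := by
  unfold qs
  exact Complex.continuous_ofReal.comp ((pw_cont k Z).mul ((ff_cont c Z).mul (ff_cont d Z)))

/-- the limit function -/
def chi0 (k : ℕ) (c d y : ℝ) : ℂ := (((y ^ 2) ^ (k - 1) * ((Icc (-c) c).indicator (fun _ => (1:ℝ)) y *
  (Icc (-d) d).indicator (fun _ => (1:ℝ)) y) : ℝ) : ℂ)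

lemma qs_lim (k : ℕ) {c d : ℝ} (hc : 0 < c) (hd : 0 < d) :
    ∀ᵐ y, Tendsto (fun Z => qs k c d Z y) atTop (𝓝 (chi0 k c d y)) := by
  filter_upwards [ae_ne3 0 c (-c), ae_ne3 0 d (-d)] with y hy hy'
  have h1 := (pw_lim k y).mul ((ff_lim hc hy.1 hy.2.1 hy.2.2).mul (ff_lim hd hy'.1 hy'.2.1 hy'.2.2))
  exact (Complex.continuous_ofReal.tendsto _).comp h1

lemma chi0_diag (k : ℕ) (c y : ℝ) : chi0 k c c y = phi0 k c y := by
  unfold chi0 phi0
  congr 2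
  by_cases hy : y ∈ Icc (-c) c
  · rw [indicator_of_mem hy, mul_one]
  · rw [indicator_of_notMem hy, mul_zero]

lemma wp_int {k n m : ℕ} (hk : 1 ≤ k) (hn : 1 ≤ n) (hm : 1 ≤ m) {Z : ℝ} (hZ : 1 ≤ Z) :
    Integrable (fun t : ℝ => ((wt k t * (ph (hz (cn k n) Z) t * ph (hz (cn k m) Z) t) : ℝ) : ℂ) *
        cexp (((Real.log m - Real.log n) * t : ℝ) * I)) ∧
    ∫ t : ℝ, ((wt k t * (ph (hz (cn k n) Z) t * ph (hz (cn k m) Z) t) : ℝ) : ℂ) *
        cexp (((Real.log m - Real.log n) * t : ℝ) * I) =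
      ((Z ^ (2 * k - 1) / (4 * Real.pi ^ 2) ^ k : ℝ) : ℂ) *
        ∫ y : ℝ, qs k (cn k n) (cn k m) Z y * cexp (((Real.log m - Real.log n) * Z * y : ℝ) * I) := by
  have hZ0 : 0 < Z := by linarith
  set g : ℝ → ℂ := fun t : ℝ => ((wt k t * (ph (hz (cn k n) Z) t * ph (hz (cn k m) Z) t) : ℝ) : ℂ) *
        cexp (((Real.log m - Real.log n) * t : ℝ) * I) with hg
  have e1 : ∀ y : ℝ, (Z : ℂ) * g (Z * y) = ((Z ^ (2 * k - 1) / (4 * Real.pi ^ 2) ^ k : ℝ) : ℂ) *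
      (qs k (cn k n) (cn k m) Z y * cexp (((Real.log m - Real.log n) * Z * y : ℝ) * I)) := by
    intro y
    simp only [hg]
    have h3 := wt_scale hk hZ0 y
    have h4 : (Z : ℂ) * ((wt k (Z * y) : ℝ) : ℂ) =
        (((Z ^ (2 * k - 1) * (pw k Z y / (4 * Real.pi ^ 2) ^ k)) : ℝ) : ℂ) := by
      rw [← h3]; push_cast; ring
    have h5 : cexp (((Real.log m - Real.log n) * (Z * y) : ℝ) * I) =
        cexp (((Real.log m - Real.log n) * Z * y : ℝ) * I) := by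
      congr 2
      push_cast
      ring
    rw [h5, Complex.ofReal_mul (wt k (Z * y)), ← mul_assoc, ← mul_assoc, h4]
    unfold qs ff
    push_cast
    ring
  obtain ⟨K, hK, hb⟩ := qs_bd k (cn_pos k hn) (cn_pos k hm)
  have hqI : Integrable (fun y : ℝ => qs k (cn k n) (cn k m) Z y *
      cexp (((Real.log m - Real.log n) * Z * y : ℝ) * I)) := by
    refine (inv_sq_int.const_mul K).mono' ((qs_cont k _ _ Z).mul (by fun_prop)).aestronglyMeasurable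
      (Eventually.of_forall fun y => ?_)
    rw [norm_mul, Complex.norm_exp_ofReal_mul_I, mul_one]
    exact hb Z hZ y
  refine ⟨?_, ?_⟩
  · have h1 : Integrable (fun y => g (Z * y)) := by
      have h2 := (hqI.const_mul ((Z ^ (2 * k - 1) / (4 * Real.pi ^ 2) ^ k : ℝ) : ℂ)).const_mul ((Z : ℂ)⁻¹)
      refine h2.congr (Eventually.of_forall fun y => ?_)
      simp only
      rw [← e1 y, ← mul_assoc, inv_mul_cancel₀ (by exact_mod_cast hZ0.ne'), one_mul]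
    exact (integrable_comp_mul_left_iff g hZ0.ne').1 h1
  · have h := Measure.integral_comp_mul_left g Z
    rw [abs_of_pos (inv_pos.2 hZ0), Complex.real_smul] at h
    have h2 : ∫ t : ℝ, g t = (Z : ℂ) * ∫ y : ℝ, g (Z * y) := by
      rw [h, ← mul_assoc]
      have : (Z : ℂ) * ((Z⁻¹ : ℝ) : ℂ) = 1 := by
        rw [← Complex.ofReal_mul, mul_inv_cancel₀ hZ0.ne', Complex.ofReal_one]
      rw [this, one_mul]
    rw [h2, ← integral_const_mul, ← integral_const_mul]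
    exact integral_congr_ae (Eventually.of_forall e1)

/-- the asymptotics of the norm -/
lemma NN_lim {k : ℕ} (hk : 1 ≤ k) (N : ℕ) :
    Tendsto (fun Z : ℝ => (Z ^ (2 * k - 1))⁻¹ * NN k N Z) atTop
      (𝓝 (((4 * Real.pi ^ 2) ^ k)⁻¹ * ∑ n ∈ Finset.Icc 1 N, bm k n ^ 2 *
        (2 * cn k n ^ (2 * k - 1) / (2 * k - 1)))) := by
  have hterm : ∀ n ∈ Finset.Icc 1 N, ∀ m ∈ Finset.Icc 1 N, Tendsto (fun Z : ℝ =>
      ((bm k n * bm k m : ℝ) : ℂ) * ∫ y : ℝ, qs k (cn k n) (cn k m) Z y *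
        cexp (((Real.log m - Real.log n) * Z * y : ℝ) * I)) atTop
      (𝓝 (if m = n then ((bm k n ^ 2 * (2 * cn k n ^ (2 * k - 1) / (2 * k - 1)) : ℝ) : ℂ) else 0)) := by
    intro n hn m hm
    rw [Finset.mem_Icc] at hn hm
    obtain ⟨K, hK, hb⟩ := qs_bd k (cn_pos k hn.1) (cn_pos k hm.1)
    have h := (rl (φ := qs k (cn k n) (cn k m)) (φ0 := chi0 k (cn k n) (cn k m))
      (inv_sq_int.const_mul K)
      (Eventually.of_forall fun Z => (qs_cont k _ _ Z).aestronglyMeasurable)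
      (by filter_upwards [eventually_ge_atTop 1] with Z hZ using hb Z hZ)
      (qs_lim k (cn_pos k hn.1) (cn_pos k hm.1))
      (Real.log m - Real.log n)).const_mul ((bm k n * bm k m : ℝ) : ℂ)
    have e : ((bm k n * bm k m : ℝ) : ℂ) * (if Real.log m - Real.log n = 0 then
        ∫ y, chi0 k (cn k n) (cn k m) y else 0) =
        if m = n then ((bm k n ^ 2 * (2 * cn k n ^ (2 * k - 1) / (2 * k - 1)) : ℝ) : ℂ) else 0 := by
      by_cases hmn : m = n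
      · subst hmn
        rw [if_pos (sub_self _), if_pos rfl]
        simp_rw [chi0_diag]
        rw [phi0_int hk (cn_pos k hm.1)]
        push_cast
        ring
      · rw [if_neg hmn]
        have : Real.log m - Real.log n ≠ 0 := by
          rw [sub_ne_zero]
          intro h1
          have h2 := Real.log_injOn_pos (Set.mem_Ioi.2 (by exact_mod_cast hm.1 : (0:ℝ) < m))
            (Set.mem_Ioi.2 (by exact_mod_cast hn.1 : (0:ℝ) < n)) h1
          exact hmn (by exact_mod_cast h2)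
        rw [if_neg this, mul_zero]
    rw [e] at h
    exact h
  have h1 : Tendsto (fun Z : ℝ => ∑ n ∈ Finset.Icc 1 N, ∑ m ∈ Finset.Icc 1 N,
      ((bm k n * bm k m : ℝ) : ℂ) * ∫ y : ℝ, qs k (cn k n) (cn k m) Z y *
        cexp (((Real.log m - Real.log n) * Z * y : ℝ) * I)) atTop
      (𝓝 (∑ n ∈ Finset.Icc 1 N, ∑ m ∈ Finset.Icc 1 N,
        (if m = n then ((bm k n ^ 2 * (2 * cn k n ^ (2 * k - 1) / (2 * k - 1)) : ℝ) : ℂ) else 0))) :=
    tendsto_finsetSum _ fun n hn => tendsto_finsetSum _ fun m hm => hterm n hn m hm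
  have e0 : (∑ n ∈ Finset.Icc 1 N, ∑ m ∈ Finset.Icc 1 N,
        (if m = n then ((bm k n ^ 2 * (2 * cn k n ^ (2 * k - 1) / (2 * k - 1)) : ℝ) : ℂ) else 0)) =
      ((∑ n ∈ Finset.Icc 1 N, bm k n ^ 2 * (2 * cn k n ^ (2 * k - 1) / (2 * k - 1)) : ℝ) : ℂ) := by
    rw [Complex.ofReal_sum]
    refine Finset.sum_congr rfl fun n hn => ?_
    rw [Finset.sum_ite_eq' (Finset.Icc 1 N) n, if_pos hn]
  rw [e0] at h1
  have h2 := ((Complex.continuous_re.tendsto _).comp h1).const_mul (((4 * Real.pi ^ 2) ^ k)⁻¹)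
  rw [Complex.ofReal_re] at h2
  refine h2.congr' ?_
  filter_upwards [eventually_ge_atTop 1] with Z hZ
  have hZ0 : 0 < Z := by linarith
  have h3 : ((NN k N Z : ℝ) : ℂ) = ((Z ^ (2 * k - 1) / (4 * Real.pi ^ 2) ^ k : ℝ) : ℂ) *
      ∑ n ∈ Finset.Icc 1 N, ∑ m ∈ Finset.Icc 1 N,
      ((bm k n * bm k m : ℝ) : ℂ) * ∫ y : ℝ, qs k (cn k n) (cn k m) Z y *
        cexp (((Real.log m - Real.log n) * Z * y : ℝ) * I) := by
    unfold NN
    rw [← integral_complex_ofReal]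
    simp_rw [FF_sq hk]
    have hint : ∀ n ∈ Finset.Icc 1 N, ∀ m ∈ Finset.Icc 1 N, Integrable (fun t : ℝ =>
        ((bm k n * bm k m : ℝ) : ℂ) * (((wt k t * (ph (hz (cn k n) Z) t * ph (hz (cn k m) Z) t) : ℝ) : ℂ) *
        cexp (((Real.log m - Real.log n) * t : ℝ) * I))) := fun n hn m hm =>
      (wp_int hk (Finset.mem_Icc.1 hn).1 (Finset.mem_Icc.1 hm).1 hZ).1.const_mul _
    rw [integral_finsetSum _ fun n hn => integrable_finsetSum _ fun m hm => hint n hn m hm, Finset.mul_sum]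
    refine Finset.sum_congr rfl fun n hn => ?_
    rw [integral_finsetSum _ fun m hm => hint n hn m hm, Finset.mul_sum]
    refine Finset.sum_congr rfl fun m hm => ?_
    rw [integral_const_mul, (wp_int hk (Finset.mem_Icc.1 hn).1 (Finset.mem_Icc.1 hm).1 hZ).2]
    ring
  have h4 : NN k N Z = (Z ^ (2 * k - 1) / (4 * Real.pi ^ 2) ^ k) *
      (∑ n ∈ Finset.Icc 1 N, ∑ m ∈ Finset.Icc 1 N,
      ((bm k n * bm k m : ℝ) : ℂ) * ∫ y : ℝ, qs k (cn k n) (cn k m) Z y *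
        cexp (((Real.log m - Real.log n) * Z * y : ℝ) * I)).re := by
    have := congrArg Complex.re h3
    rw [Complex.ofReal_re, Complex.re_ofReal_mul] at this
    exact this
  simp only [Function.comp]
  rw [h4]
  have hZp : (Z ^ (2 * k - 1)) ≠ 0 := by positivity
  have halg : ∀ a b r : ℝ, a ≠ 0 → b⁻¹ * r = a⁻¹ * (a / b * r) := by
    intro a b r ha
    rw [← mul_assoc, ← mul_div_assoc, inv_mul_cancel₀ ha, one_div]
  exact halg _ _ _ hZp

end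

end Pool.Agent.TH535.PZ
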