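import Pool.Agent.TH535.PZ.P7

set_option autoImplicit false

/-! Localization of the test functions. -/

namespace Pool.Agent.TH535.PZ

open Complex MeasureTheory Filter Topology Set
open Pool.Agent.W182.KO (XX XX_diff XX_bound zeta_XX strip_shift)
open Pool.Agent.TH535.SM
open scoped FourierTransform ComplexConjugate

noncomputable section

/-- the analytic part far to the right -/
lemma Bk_far (k : ℕ) {n : ℕ} (hn : 1 ≤ n) (j : ℕ) (t : ℝ) :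
    ‖Bk k n k (((3 / 2 + (j : ℝ) : ℝ) : ℂ) + t * I)‖ ≤
      2 * (((|t| + ((j : ℝ) + 1)) / (2 * Real.pi)) ^ (k * (j + 1)) * (n : ℝ) ^ (-(3 / 2 + (j : ℝ)))) := by
  have hj : (0:ℝ) ≤ j := Nat.cast_nonneg j
  have hp := Real.pi_pos
  set z : ℂ := ((3 / 2 + (j : ℝ) : ℝ) : ℂ) + t * I with hz
  have hX : ‖XX z‖ ≤ ((|t| + ((j : ℝ) + 1)) / (2 * Real.pi)) ^ (j + 1) := by
    have h := XX_prod_le (j + 1) t
    have e : (((1 / 2 + ((j + 1 : ℕ) : ℝ) : ℝ) : ℂ) + t * I) = z := by rw [hz]; push_cast; ring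
    rw [e] at h
    refine h.trans (le_of_eq ?_)
    push_cast
    rfl
  have hN : ‖(n : ℂ) ^ (-z)‖ = (n : ℝ) ^ (-(3 / 2 + (j : ℝ))) := by
    rw [Complex.norm_natCast_cpow_of_pos (by omega)]
    congr 1
    rw [hz]
    simp
  have s1 : ‖2 - z‖ ^ 2 = (1 / 2 - j) ^ 2 + t ^ 2 := by
    have e : 2 - z = ((1 / 2 - j : ℝ) : ℂ) + ((-t : ℝ) : ℂ) * I := by rw [hz]; push_cast; ring
    rw [e, nsq]; ring
  have s2 : ‖1 - z‖ ^ 2 = (1 / 2 + j) ^ 2 + t ^ 2 := by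
    have e : 1 - z = ((-(1 / 2) - j : ℝ) : ℂ) + ((-t : ℝ) : ℂ) * I := by rw [hz]; push_cast; ring
    rw [e, nsq]; ring
  have s3 : ‖z - 3‖ ^ 2 = (j - 3 / 2) ^ 2 + t ^ 2 := by
    have e : z - 3 = ((j - 3 / 2 : ℝ) : ℂ) + ((t : ℝ) : ℂ) * I := by rw [hz]; push_cast; ring
    rw [e, nsq]
  have s4 : ‖z‖ ^ 2 = (3 / 2 + j) ^ 2 + t ^ 2 := by rw [hz, nsq]
  have r1 : ‖2 - z‖ ≤ ‖1 - z‖ := by
    refine (pow_le_pow_iff_left₀ (norm_nonneg _) (norm_nonneg _) two_ne_zero).1 ?_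
    rw [s1, s2]; nlinarith
  have r2 : ‖z - 3‖ ≤ ‖z‖ := by
    refine (pow_le_pow_iff_left₀ (norm_nonneg _) (norm_nonneg _) two_ne_zero).1 ?_
    rw [s3, s4]; nlinarith
  have r3 : 1 / 2 ≤ ‖1 - z‖ := by
    refine (pow_le_pow_iff_left₀ (by norm_num) (norm_nonneg _) two_ne_zero).1 ?_
    rw [s2]; nlinarith [sq_nonneg t]
  have r4 : 0 < ‖z‖ := by
    have h0 : 0 < ‖z‖ ^ 2 := by rw [s4]; positivity
    refine (norm_nonneg z).lt_of_ne fun h => ?_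
    rw [← h] at h0
    norm_num at h0
  have q1 : ‖2 - z‖ * (‖1 - z‖⁻¹ * ‖1 - z‖⁻¹) ≤ 2 := by
    have h0 : 0 < ‖1 - z‖ := by linarith
    have h1 : ‖2 - z‖ * ‖1 - z‖⁻¹ ≤ 1 := by
      rw [← div_eq_mul_inv, div_le_one h0]; exact r1
    have h2 : ‖1 - z‖⁻¹ ≤ 2 := by
      rw [inv_le_comm₀ h0 (by norm_num)]; linarith
    rw [← mul_assoc]
    calc _ ≤ 1 * 2 := mul_le_mul h1 h2 (by positivity) (by norm_num)
      _ = 2 := by norm_num
  have q2 : ‖z - 3‖ ^ k * ‖z‖⁻¹ ^ k ≤ 1 := by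
    rw [← mul_pow]
    refine pow_le_one₀ (by positivity) ?_
    rw [← div_eq_mul_inv, div_le_one r4]
    exact r2
  unfold Bk
  simp only [norm_mul, norm_pow, norm_inv]
  rw [hN]
  have hX' : ‖XX z‖ ^ k ≤ ((|t| + ((j : ℝ) + 1)) / (2 * Real.pi)) ^ (k * (j + 1)) := by
    rw [mul_comm k, pow_mul]
    exact pow_le_pow_left₀ (norm_nonneg _) hX k
  calc _ ≤ (((|t| + ((j : ℝ) + 1)) / (2 * Real.pi)) ^ (k * (j + 1)) * (n : ℝ) ^ (-(3 / 2 + (j : ℝ)))) * 2 * 1 := by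
        gcongr
    _ = _ := by ring

/-- the basic inequality -/
lemma far_ineq {T b : ℝ} {K : ℕ} (hK : 1 ≤ K) (hb0 : 0 ≤ b) (hb : b ≤ K) (hT : (K : ℝ) ^ 2 ≤ T) (t : ℝ) :
    (|t| + b) ^ K * Real.exp (-(max (|t| - T) 0) ^ 2 / (2 * T)) ≤
      Real.exp 2 * T ^ K * (16 * T ^ 2) * ((1 + |t|) ^ 2)⁻¹ := by
  have hK' : (1:ℝ) ≤ K := by exact_mod_cast hK
  have hT1 : 1 ≤ T := by nlinarith
  have hT0 : 0 < T := by linarith
  set a := max (|t| - T) 0 with ha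
  have ha0 : 0 ≤ a := le_max_right _ _
  have ha1 : |t| ≤ T + a := by
    have := le_max_left (|t| - T) 0
    rw [← ha] at this
    linarith
  have ht := abs_nonneg t
  have h1 : |t| + b ≤ T * Real.exp ((a + b) / T) := by
    have h2 := Real.add_one_le_exp ((a + b) / T)
    calc |t| + b ≤ T * ((a + b) / T + 1) := by
          rw [mul_add, mul_div_cancel₀ _ hT0.ne']; linarith
      _ ≤ _ := by gcongr
  have h2 : (|t| + b) ^ K ≤ T ^ K * Real.exp (K * ((a + b) / T)) := by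
    calc _ ≤ (T * Real.exp ((a + b) / T)) ^ K := pow_le_pow_left₀ (by positivity) h1 K
      _ = _ := by rw [mul_pow, ← Real.exp_nat_mul]
  have h3 : K * ((a + b) / T) + -a ^ 2 / (2 * T) ≤ 2 + -(a ^ 2 / (4 * T)) := by
    have e1 : K * ((a + b) / T) + -a ^ 2 / (2 * T) - (2 + -(a ^ 2 / (4 * T))) =
        (4 * K * (a + b) - a ^ 2 - 8 * T) / (4 * T) := by
      field_simp
      ring
    have e2 : (4 * K * (a + b) - a ^ 2 - 8 * T) / (4 * T) ≤ 0 := by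
      refine div_nonpos_of_nonpos_of_nonneg ?_ (by positivity)
      have : (K : ℝ) * b ≤ K ^ 2 := by nlinarith
      nlinarith [sq_nonneg (a - 2 * K)]
    linarith
  have h4 : Real.exp (-(a ^ 2 / (4 * T))) ≤ 16 * T ^ 2 * ((1 + |t|) ^ 2)⁻¹ := by
    rw [Real.exp_neg, ← div_eq_mul_inv, inv_eq_one_div, div_le_div_iff₀ (Real.exp_pos _) (by positivity), one_mul]
    have h5 := Real.add_one_le_exp (a ^ 2 / (4 * T))
    have h6 : (1 + |t|) ^ 2 ≤ 16 * T ^ 2 * (a ^ 2 / (4 * T) + 1) := by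
      have e : 16 * T ^ 2 * (a ^ 2 / (4 * T) + 1) = 4 * T * a ^ 2 + 16 * T ^ 2 := by
        field_simp
        ring
      rw [e]
      have h7 : (1 + |t|) ^ 2 ≤ (2 * T + a) ^ 2 := pow_le_pow_left₀ (by positivity) (by linarith) 2
      nlinarith [sq_nonneg (2 * T - a), mul_nonneg (sub_nonneg.2 hT1) (sq_nonneg a)]
    exact h6.trans (by gcongr)
  calc _ ≤ (T ^ K * Real.exp (K * ((a + b) / T))) * Real.exp (-a ^ 2 / (2 * T)) := by gcongr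
    _ = T ^ K * Real.exp (K * ((a + b) / T) + -a ^ 2 / (2 * T)) := by rw [Real.exp_add]; ring
    _ ≤ T ^ K * Real.exp (2 + -(a ^ 2 / (4 * T))) := by gcongr
    _ = Real.exp 2 * T ^ K * Real.exp (-(a ^ 2 / (4 * T))) := by rw [Real.exp_add]; ring
    _ ≤ Real.exp 2 * T ^ K * (16 * T ^ 2 * ((1 + |t|) ^ 2)⁻¹) := by gcongr
    _ = _ := by ring

/-- an absolute constant -/
def C0 : ℝ := 64 * √2 * Real.exp 3 * ∫ t : ℝ, ((1 + |t|) ^ 2)⁻¹

lemma C0_nonneg : 0 ≤ C0 := by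
  unfold C0
  have : 0 ≤ ∫ t : ℝ, ((1 + |t|) ^ 2)⁻¹ := integral_nonneg fun t => by positivity
  positivity

lemma Ln_far {k n : ℕ} (hk : 1 ≤ k) (hn : 1 ≤ n) {Z : ℝ} (hZ : 0 < Z) (j : ℕ)
    (hT : ((k * (j + 1) : ℕ) : ℝ) ^ 2 ≤ cn k n * Z) :
    ∫ t, ‖Ln (Bk k n k) (hz (cn k n) Z) j t‖ ≤
      C0 * ((n : ℝ) ^ (-(3 / 2 + (j : ℝ))) * ((cn k n * Z) / (2 * Real.pi)) ^ (k * (j + 1)) * (cn k n * Z) ^ 2) := by
  have hc := cn_pos k hn
  have hpi := Real.pi_pos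
  set T := cn k n * Z with hTd
  set h := hz (cn k n) Z with hh
  have hh0 : 0 < h := hz_pos hc hZ
  have hh2 : h ^ 2 = T := hz_sq hc hZ
  set K := k * (j + 1) with hKd
  have hK1 : 1 ≤ K := Nat.one_le_iff_ne_zero.2 (by rw [hKd]; positivity)
  have hbK : ((j : ℝ) + 1) ≤ K := by
    rw [hKd]
    push_cast
    have : (1:ℝ) ≤ k := by exact_mod_cast hk
    nlinarith [(Nat.cast_nonneg j : (0:ℝ) ≤ j)]
  have hj0 : (0:ℝ) ≤ j := Nat.cast_nonneg j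
  have hT0 : 0 < T := by positivity
  have hexp : Real.exp ((((j : ℝ)) / h) ^ 2) ≤ Real.exp 1 := by
    refine Real.exp_le_exp.2 ?_
    rw [div_pow, hh2, div_le_one hT0]
    nlinarith
  have key : ∀ t : ℝ, ‖Ln (Bk k n k) h j t‖ ≤
      (64 * √2 * Real.exp 3 * ((n : ℝ) ^ (-(3 / 2 + (j : ℝ))) * (T / (2 * Real.pi)) ^ K * T ^ 2)) * ((1 + |t|) ^ 2)⁻¹ := by
    intro t
    unfold Ln
    have h1 := Ph_norm hh0 ((((3 / 2 + (j : ℝ) : ℝ) : ℂ) + t * I))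
    rw [ln_re, ln_im] at h1
    have e1 : (3 / 2 + (j : ℝ) - 3 / 2) = j := by ring
    rw [e1] at h1
    have h2 := Bk_far k hn j t
    have h3 := ph_le hh0 t
    rw [hh2] at h3
    have h4 := far_ineq hK1 (b := (j : ℝ) + 1) (by positivity) hbK hT t
    have h5 := ph_nonneg hh0.le t
    rw [norm_mul]
    calc _ ≤ (Real.exp 1 * (2 * √2 * Real.exp (-(max (|t| - T) 0) ^ 2 / (2 * T)))) *
          (2 * (((|t| + ((j : ℝ) + 1)) / (2 * Real.pi)) ^ K * (n : ℝ) ^ (-(3 / 2 + (j : ℝ))))) := by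
          refine mul_le_mul (h1.trans ?_) h2 (norm_nonneg _) (by positivity)
          exact mul_le_mul hexp h3 h5 (Real.exp_pos _).le
      _ = (4 * √2 * Real.exp 1 * (n : ℝ) ^ (-(3 / 2 + (j : ℝ))) * ((2 * Real.pi) ^ K)⁻¹) *
          ((|t| + ((j : ℝ) + 1)) ^ K * Real.exp (-(max (|t| - T) 0) ^ 2 / (2 * T))) := by
          rw [div_pow]; ring
      _ ≤ (4 * √2 * Real.exp 1 * (n : ℝ) ^ (-(3 / 2 + (j : ℝ))) * ((2 * Real.pi) ^ K)⁻¹) *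
          (Real.exp 2 * T ^ K * (16 * T ^ 2) * ((1 + |t|) ^ 2)⁻¹) := by gcongr
      _ = _ := by
          have e3 : Real.exp 3 = Real.exp 1 * Real.exp 2 := by rw [← Real.exp_add]; norm_num
          rw [div_pow, e3]
          ring
  have hI : Integrable (fun t => ‖Ln (Bk k n k) h j t‖) :=
    ((Ln_dec (Bk_PA k hn k) hh0 (r := (j : ℝ)) hj0).int).norm
  calc _ ≤ ∫ t : ℝ, (64 * √2 * Real.exp 3 * ((n : ℝ) ^ (-(3 / 2 + (j : ℝ))) * (T / (2 * Real.pi)) ^ K * T ^ 2)) *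
        ((1 + |t|) ^ 2)⁻¹ := integral_mono hI (inv_sq_int.const_mul _) key
    _ = _ := by
        rw [integral_const_mul]
        unfold C0
        ring

lemma ev_par (k : ℕ) {A c : ℝ} (hA : 0 < A) (hc : 0 < c) :
    ∀ᶠ Z : ℝ in atTop, ((k * (⌈A * Real.log Z⌉₊ + 4 + 1) : ℕ) : ℝ) ^ 2 ≤ c * Z := by
  have h := (Real.isLittleO_pow_log_id_atTop (n := 2)).def (c := c / (((k : ℝ) + 1) ^ 2 * (A + 6) ^ 2))
    (by positivity)
  filter_upwards [h, eventually_ge_atTop (Real.exp 1)] with Z hZ hZ1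
  have hZ0 : 0 < Z := lt_of_lt_of_le (Real.exp_pos 1) hZ1
  have hL : 1 ≤ Real.log Z := by
    rw [Real.le_log_iff_exp_le hZ0]; exact hZ1
  have h1 : (⌈A * Real.log Z⌉₊ : ℝ) < A * Real.log Z + 1 := Nat.ceil_lt_add_one (by positivity)
  have hk0 : (0:ℝ) ≤ k := Nat.cast_nonneg k
  have h2 : ((k * (⌈A * Real.log Z⌉₊ + 4 + 1) : ℕ) : ℝ) ≤ ((k : ℝ) + 1) * ((A + 6) * Real.log Z) := by
    push_cast
    have h3 : (⌈A * Real.log Z⌉₊ : ℝ) + 4 + 1 ≤ (A + 6) * Real.log Z := by nlinarith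
    have h4 : (0:ℝ) ≤ (⌈A * Real.log Z⌉₊ : ℝ) + 4 + 1 := by positivity
    exact mul_le_mul (by linarith) h3 h4 (by positivity)
  rw [Real.norm_of_nonneg (by positivity), id, Real.norm_of_nonneg hZ0.le] at hZ
  calc _ ≤ (((k : ℝ) + 1) * ((A + 6) * Real.log Z)) ^ 2 := pow_le_pow_left₀ (Nat.cast_nonneg _) h2 2
    _ = (((k : ℝ) + 1) ^ 2 * (A + 6) ^ 2) * Real.log Z ^ 2 := by ring
    _ ≤ (((k : ℝ) + 1) ^ 2 * (A + 6) ^ 2) * (c / (((k : ℝ) + 1) ^ 2 * (A + 6) ^ 2) * Z) := by gcongr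
    _ = c * Z := by field_simp

lemma tail_pt {k n : ℕ} (hk : 1 ≤ k) (hn : 1 ≤ n) {δ : ℝ} (hδ : 0 < δ) :
    ∃ C : ℝ, 0 ≤ C ∧ ∀ᶠ Z : ℝ in atTop, ∀ y : ℝ, k * Real.log Z + δ ≤ y →
      ‖Gt (Ln (Bk k n k) (hz (cn k n) Z) 0) y‖ ≤ C * Z⁻¹ * Real.exp (-(4 * y)) := by
  have hc := cn_pos k hn
  have hn0 : (0:ℝ) < n := by exact_mod_cast hn
  set A : ℝ := (5 * k + 3) / δ with hAd
  have hA : 0 < A := by positivity
  have hC0 := C0_nonneg
  refine ⟨C0 * (n : ℝ) ^ (-(1 / 2) : ℝ) * cn k n ^ 2, by positivity, ?_⟩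
  filter_upwards [ev_par k hA hc, eventually_ge_atTop (1:ℝ)] with Z hZ hZ1 y hy
  have hZ0 : 0 < Z := by linarith
  set j := ⌈A * Real.log Z⌉₊ + 4 with hj
  have hjr : A * Real.log Z + 4 ≤ (j : ℝ) := by
    rw [hj]
    push_cast
    linarith [Nat.le_ceil (A * Real.log Z)]
  have hL : 0 ≤ Real.log Z := Real.log_nonneg hZ1
  have hj4 : (4:ℝ) ≤ j := by
    have : 0 ≤ A * Real.log Z := by positivity
    linarith
  have h1 := gt_bd (Bk_PA k hn k) (hz_pos hc hZ0) (r := (j : ℝ)) (by positivity) y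
  have h2 := Ln_far hk hn hZ0 j hZ
  have e1 : (n : ℝ) ^ (-(3 / 2 + (j : ℝ))) * ((cn k n * Z) / (2 * Real.pi)) ^ (k * (j + 1)) =
      (n : ℝ) ^ (-(1 / 2) : ℝ) * Z ^ (k * (j + 1)) := by
    have hk0 : (k : ℝ) ≠ 0 := by
      have : (1:ℝ) ≤ k := by exact_mod_cast hk
      linarith
    have e2 : cn k n * Z / (2 * Real.pi) = (n : ℝ) ^ (1 / (k : ℝ)) * Z := by
      unfold cn
      have := Real.pi_ne_zero
      field_simp
    have e3 : ((n : ℝ) ^ (1 / (k : ℝ))) ^ (k * (j + 1)) = (n : ℝ) ^ ((j : ℝ) + 1) := by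
      rw [← Real.rpow_natCast, ← Real.rpow_mul hn0.le]
      congr 1
      push_cast
      field_simp
    rw [e2, mul_pow, e3, ← mul_assoc, ← Real.rpow_add hn0]
    congr 2
    ring
  have e4 : Real.exp (-((j : ℝ) * y)) ≤ Real.exp (-(4 * y)) *
      Real.exp (-(((j : ℝ) - 4) * (k * Real.log Z + δ))) := by
    rw [← Real.exp_add]
    refine Real.exp_le_exp.2 ?_
    nlinarith [mul_nonneg (sub_nonneg.2 hj4) (sub_nonneg.2 hy)]
  have hpow : ∀ m : ℕ, Z ^ m = Real.exp (m * Real.log Z) := by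
    intro m
    rw [Real.exp_nat_mul, Real.exp_log hZ0]
  have e5 : Z ^ (k * (j + 1)) * Z ^ 2 * Real.exp (-(((j : ℝ) - 4) * (k * Real.log Z + δ))) ≤ Z⁻¹ := by
    have e6 : Z⁻¹ = Real.exp (-Real.log Z) := by rw [Real.exp_neg, Real.exp_log hZ0]
    rw [e6, hpow, hpow, ← Real.exp_add, ← Real.exp_add]
    refine Real.exp_le_exp.2 ?_
    push_cast
    have e7 : A * δ = 5 * k + 3 := by rw [hAd]; field_simp
    have h8 : (A * Real.log Z) * δ ≤ ((j : ℝ) - 4) * δ := mul_le_mul_of_nonneg_right (by linarith) hδ.le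
    have h9 : (A * Real.log Z) * δ = (5 * k + 3) * Real.log Z := by rw [← e7]; ring
    nlinarith
  have hI : 0 ≤ ∫ t, ‖Ln (Bk k n k) (hz (cn k n) Z) j t‖ := integral_nonneg fun _ => norm_nonneg _
  calc _ ≤ _ := h1
    _ ≤ (Real.exp (-(4 * y)) * Real.exp (-(((j : ℝ) - 4) * (k * Real.log Z + δ)))) *
        (C0 * ((n : ℝ) ^ (-(3 / 2 + (j : ℝ))) * ((cn k n * Z) / (2 * Real.pi)) ^ (k * (j + 1)) *
          (cn k n * Z) ^ 2)) := mul_le_mul e4 h2 hI (by positivity)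
    _ = (C0 * (n : ℝ) ^ (-(1 / 2) : ℝ) * cn k n ^ 2) * (Z ^ (k * (j + 1)) * Z ^ 2 *
        Real.exp (-(((j : ℝ) - 4) * (k * Real.log Z + δ)))) * Real.exp (-(4 * y)) := by
        rw [e1]; ring
    _ ≤ _ := by gcongr

end

end Pool.Agent.TH535.PZ
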